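import Mathlib
import Pool.Agent.Lib.MP_9ec2c5_nt_h65.Growth2

/-!
Times at which a base orbit is exponentially close to a zero of a polynomial, at one place.
-/

set_option autoImplicit false
set_option linter.unusedSectionVars false

namespace Pool.Agent.Lib.MP_9ec2c5_sk

open Polynomial Finset Height Filter Topology AdmissibleAbsValues
open Pool.Agent.Lib.MP_9ec2c5_nt_h65

namespace BadTimes

section Alg

variable {Ω : Type} [Field Ω]

/-- The local multiplicity of `P` at `η`. -/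
noncomputable def em (P : Polynomial Ω) (η : Ω) : ℕ := (P - C (P.eval η)).rootMultiplicity η

lemma em_spec {P : Polynomial Ω} (hd : 1 ≤ P.natDegree) (η : Ω) :
    ∃ q : Polynomial Ω, P - C (P.eval η) = (X - C η) ^ em P η * q ∧ q.eval η ≠ 0 ∧
      P.natDegree = em P η + q.natDegree ∧ P.leadingCoeff = q.leadingCoeff := by
  have h0 : P - C (P.eval η) ≠ 0 := by
    intro h
    have h1 : P = C (P.eval η) := sub_eq_zero.mp h
    rw [h1, natDegree_C] at hd
    omega
  obtain ⟨q, h1, h2⟩ := exists_eq_pow_rootMultiplicity_mul_and_not_dvd _ h0 η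
  have hq0 : q ≠ 0 := by
    rintro rfl
    exact h2 (dvd_zero _)
  have h1' : P - C (P.eval η) = (X - C η) ^ em P η * q := h1
  refine ⟨q, h1', fun h3 => h2 (dvd_iff_isRoot.2 h3), ?_, ?_⟩
  · have h4 : (P - C (P.eval η)).natDegree = P.natDegree := natDegree_sub_C
    rw [← h4, h1', natDegree_mul (pow_ne_zero _ (X_sub_C_ne_zero η)) hq0, natDegree_pow,
      natDegree_X_sub_C, mul_one]
  · have h4 : (P - C (P.eval η)).leadingCoeff = P.leadingCoeff := by
      apply leadingCoeff_sub_of_degree_lt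
      refine lt_of_le_of_lt degree_C_le ?_
      rw [← natDegree_pos_iff_degree_pos]
      omega
    rw [← h4, h1', leadingCoeff_mul, leadingCoeff_pow, leadingCoeff_X_sub_C, one_pow, one_mul]

lemma em_le {P : Polynomial Ω} (hd : 1 ≤ P.natDegree) (η : Ω) : em P η ≤ P.natDegree := by
  obtain ⟨q, -, -, h, -⟩ := em_spec hd η
  omega

lemma em_eq {P : Polynomial Ω} (hd : 1 ≤ P.natDegree) {η : Ω} (h : em P η = P.natDegree) :
    P = C P.leadingCoeff * (X - C η) ^ P.natDegree + C (P.eval η) := by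
  obtain ⟨q, h1, -, h2, h3⟩ := em_spec hd η
  have h4 : q.natDegree = 0 := by omega
  have h5 : q = C q.leadingCoeff := by
    rw [leadingCoeff, h4]
    exact eq_C_of_natDegree_eq_zero h4
  rw [← h, h3, ← h5, mul_comm, ← h1, sub_add_cancel]

lemma coeff_aux (a b η : Ω) {d : ℕ} (hd : 2 ≤ d) :
    (C a * (X - C η) ^ d + C b).coeff (d - 1) = -(a * d * η) := by
  have h0 : (X - C η : Polynomial Ω) = X + C (-η) := by rw [C_neg, sub_eq_add_neg]
  rw [h0, coeff_add, coeff_C_mul, coeff_X_add_C_pow, coeff_C, if_neg (by omega)]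
  have h1 : d - (d - 1) = 1 := by omega
  have h2 : d.choose (d - 1) = d := by
    have h3 : d.choose (d - 1) = d.choose 1 := by
      rw [← Nat.choose_symm (by omega : 1 ≤ d)]
    rw [h3, Nat.choose_one_right]
  rw [h1, h2]
  ring

/-- Two consecutive totally ramified points coincide. -/
lemma em_two [CharZero Ω] {P : Polynomial Ω} (hd : 2 ≤ P.natDegree) {η : Ω}
    (h : em P η = P.natDegree) (h' : em P (P.eval η) = P.natDegree) : P.eval η = η := by
  have h1 := em_eq (by omega) h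
  have h2 := em_eq (by omega) h'
  have h3 : P.coeff (P.natDegree - 1) = -(P.leadingCoeff * P.natDegree * η) :=
    (congrArg (fun Q : Polynomial Ω => Q.coeff (P.natDegree - 1)) h1).trans
      (coeff_aux P.leadingCoeff (P.eval η) η hd)
  have h4 : P.coeff (P.natDegree - 1) = -(P.leadingCoeff * P.natDegree * P.eval η) :=
    (congrArg (fun Q : Polynomial Ω => Q.coeff (P.natDegree - 1)) h2).trans
      (coeff_aux P.leadingCoeff (P.eval (P.eval η)) (P.eval η) hd)
  have h5 : P.leadingCoeff ≠ 0 := by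
    rw [leadingCoeff_ne_zero]
    rintro rfl
    rw [natDegree_zero] at hd
    omega
  have h6 : ((P.natDegree : ℕ) : Ω) ≠ 0 := by
    rw [Nat.cast_ne_zero]
    omega
  rw [h3] at h4
  have h7 := neg_injective h4
  exact (mul_left_cancel₀ (mul_ne_zero h5 h6) h7).symm

/-- Preimages of a totally ramified fixed point. -/
lemma eq_of_eval_eq {P : Polynomial Ω} (hd : 1 ≤ P.natDegree) {η z : Ω} (h : em P η = P.natDegree)
    (hη : P.eval η = η) (hz : P.eval z = η) : z = η := by
  have h1 := em_eq hd h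
  rw [h1, hη, eval_add, eval_mul, eval_C, eval_C, eval_pow, eval_sub, eval_X, eval_C] at hz
  have h2 : P.leadingCoeff * (z - η) ^ P.natDegree = 0 := by
    linear_combination hz
  have h5 : P.leadingCoeff ≠ 0 := by
    rw [leadingCoeff_ne_zero]
    rintro rfl
    rw [natDegree_zero] at hd
    omega
  exact sub_eq_zero.mp (pow_eq_zero_iff (by omega) |>.mp ((mul_eq_zero.mp h2).resolve_left h5))

/-- The orbit of `ξ`. -/
noncomputable def orb (P : Polynomial Ω) (ξ : Ω) : ℕ → Ω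
  | 0 => ξ
  | k + 1 => P.eval (orb P ξ k)

/-- The multiplicity of the iterates along the orbit of `ξ`. -/
noncomputable def mu (P : Polynomial Ω) (ξ : Ω) : ℕ → ℕ
  | 0 => 1
  | k + 1 => mu P ξ k * em P (orb P ξ k)

lemma orb_add (P : Polynomial Ω) (ξ : Ω) (j k : ℕ) : orb P ξ (j + k) = orb P (orb P ξ j) k := by
  induction k with
  | zero => rfl
  | succ k ih =>
    change P.eval (orb P ξ (j + k)) = P.eval (orb P (orb P ξ j) k)
    rw [ih]

lemma mu_add_le {P : Polynomial Ω} (hd : 1 ≤ P.natDegree) (ξ : Ω) (j k : ℕ) :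
    mu P ξ (j + k) ≤ mu P ξ j * P.natDegree ^ k := by
  induction k with
  | zero => simp
  | succ k ih =>
    change mu P ξ (j + k) * em P (orb P ξ (j + k)) ≤ _
    rw [pow_succ, ← mul_assoc]
    exact Nat.mul_le_mul ih (em_le hd _)

/-- No two consecutive points of the orbit of `ξ` are totally ramified. -/
def Good (P : Polynomial Ω) (ξ : Ω) : Prop :=
  ∀ i, em P (orb P ξ i) = P.natDegree → em P (orb P ξ (i + 1)) ≠ P.natDegree

lemma mu_two_le {P : Polynomial Ω} (hd : 1 ≤ P.natDegree) {ξ : Ω} (h : Good P ξ) (j : ℕ) :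
    mu P ξ (2 * j) ≤ (P.natDegree * (P.natDegree - 1)) ^ j := by
  induction j with
  | zero => exact le_refl 1
  | succ j ih =>
    change mu P ξ (2 * j) * em P (orb P ξ (2 * j)) * em P (orb P ξ (2 * j + 1)) ≤ _
    rw [pow_succ, mul_assoc]
    refine Nat.mul_le_mul ih ?_
    have h1 := em_le hd (orb P ξ (2 * j))
    have h2 := em_le hd (orb P ξ (2 * j + 1))
    rcases Nat.lt_or_ge (em P (orb P ξ (2 * j))) P.natDegree with h3 | h3
    · rw [mul_comm P.natDegree]
      exact Nat.mul_le_mul (by omega) h2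
    · have h4 := h (2 * j) (le_antisymm h1 h3)
      exact Nat.mul_le_mul h1 (by omega)

lemma mu_small (d : ℕ) (hd : 1 ≤ d) (ε : ℝ) (hε : 0 < ε) : ∃ J : ℕ, ∀ (P : Polynomial Ω) (ξ : Ω),
    P.natDegree = d → Good P ξ → ∀ k, J ≤ k → (mu P ξ k : ℝ) ≤ ε * (d : ℝ) ^ k := by
  have hd0 : (0 : ℝ) < d := by exact_mod_cast (by omega : 0 < d)
  have h1 : ((d : ℝ) - 1) / d < 1 := by
    rw [div_lt_one hd0]; linarith
  obtain ⟨j, hj⟩ := exists_pow_lt_of_lt_one hε h1
  refine ⟨2 * j, fun P ξ hP h k hk => ?_⟩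
  obtain ⟨i, rfl⟩ := Nat.exists_eq_add_of_le hk
  have h2 := mu_add_le (by omega : 1 ≤ P.natDegree) ξ (2 * j) i
  have h3 := mu_two_le (by omega : 1 ≤ P.natDegree) h j
  rw [hP] at h2 h3
  have h4 : (mu P ξ (2 * j + i) : ℝ) ≤ ((d * (d - 1 : ℕ)) ^ j * d ^ i : ℕ) := by
    exact_mod_cast h2.trans (Nat.mul_le_mul_right _ h3)
  refine h4.trans ?_
  push_cast [Nat.cast_sub hd]
  have h5 : ((d : ℝ) * (d - 1)) ^ j * (d : ℝ) ^ i = (((d : ℝ) - 1) / d) ^ j * (d : ℝ) ^ (2 * j + i) := by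
    rw [div_pow, mul_pow, pow_add, pow_mul']
    field_simp
  rw [h5]
  exact mul_le_mul_of_nonneg_right hj.le (by positivity)

end Alg

section Val

variable {Ω : Type} [Field Ω] (μ : AbsoluteValue Ω ℝ)

lemma lip (P : Polynomial Ω) (R : ℝ) : ∃ L : ℝ, 0 < L ∧
    (∀ z, μ z ≤ R → μ (P.eval z) ≤ L) ∧
    ∀ z w, μ z ≤ R → μ w ≤ R → μ (P.eval z - P.eval w) ≤ L * μ (z - w) := by
  obtain ⟨L, hL, h1, h2⟩ := Nice.poly (K := Ω) (μ := μ) P 0 R
  refine ⟨L + 1, by linarith, fun z hz => ?_, fun z w hz hw => ?_⟩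
  · have h3 := h1 (fun _ => z) (fun _ => hz)
    simp only [coe_aeval_eq_eval] at h3
    linarith
  · have h3 := h2 (fun _ => z) (fun _ => w) (μ (z - w)) (fun _ => hz) (fun _ => hw)
      (fun _ => le_refl _)
    simp only [coe_aeval_eq_eval] at h3
    have h4 := μ.nonneg (z - w)
    linarith

lemma loc {P : Polynomial Ω} (hd : 1 ≤ P.natDegree) (η : Ω) : ∃ δ c : ℝ, 0 < δ ∧ 0 < c ∧
    ∀ z, μ (z - η) ≤ δ → c * μ (z - η) ^ em P η ≤ μ (P.eval z - P.eval η) := by
  obtain ⟨q, h1, h2, -, -⟩ := em_spec hd η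
  obtain ⟨L, hL, -, hL2⟩ := lip μ q (μ η + 1)
  have hq : 0 < μ (q.eval η) := μ.pos h2
  refine ⟨min 1 (μ (q.eval η) / (2 * L)), μ (q.eval η) / 2, by positivity, by positivity,
    fun z hz => ?_⟩
  have h3 : μ (z - η) ≤ 1 := hz.trans (min_le_left _ _)
  have h4 : μ (z - η) ≤ μ (q.eval η) / (2 * L) := hz.trans (min_le_right _ _)
  have h5 : μ z ≤ μ η + 1 := by
    have := μ.add_le (z - η) η
    rw [sub_add_cancel] at this
    linarith
  have h6 := hL2 z η h5 (by linarith)
  have h7 : L * μ (z - η) ≤ μ (q.eval η) / 2 := by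
    calc L * μ (z - η) ≤ L * (μ (q.eval η) / (2 * L)) := mul_le_mul_of_nonneg_left h4 hL.le
      _ = μ (q.eval η) / 2 := by field_simp
  have h8 : μ (q.eval η) / 2 ≤ μ (q.eval z) := by
    have := μ.add_le (q.eval z) (q.eval η - q.eval z)
    rw [add_sub_cancel] at this
    rw [μ.map_sub] at h6
    linarith
  have h9 : P.eval z - P.eval η = (z - η) ^ em P η * q.eval z := by
    have := congrArg (eval z) h1
    rw [eval_sub, eval_C, eval_mul, eval_pow, eval_sub, eval_X, eval_C] at this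
    exact this
  rw [h9, map_mul, map_pow, mul_comm]
  exact mul_le_mul_of_nonneg_left h8 (pow_nonneg (μ.nonneg _) _)

lemma iter {P : Polynomial Ω} (hd : 1 ≤ P.natDegree) (x : ℕ → Ω) (hx : ∀ n, x (n + 1) = P.eval (x n))
    (B : ℝ) (hB : ∀ n, μ (x n) ≤ B) (ξ : Ω) (k : ℕ) : ∃ δ c L : ℝ, 0 < δ ∧ 0 < c ∧ 0 < L ∧
    ∀ n, μ (x n - ξ) ≤ δ → c * μ (x n - ξ) ^ mu P ξ k ≤ μ (x (n + k) - orb P ξ k) ∧
      μ (x (n + k) - orb P ξ k) ≤ L * μ (x n - ξ) := by
  induction k with
  | zero =>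
    refine ⟨1, 1, 1, one_pos, one_pos, one_pos, fun n _ => ⟨?_, ?_⟩⟩
    · change 1 * μ (x n - ξ) ^ 1 ≤ μ (x n - ξ)
      rw [one_mul, pow_one]
    · change μ (x n - ξ) ≤ 1 * μ (x n - ξ)
      rw [one_mul]
  | succ k ih =>
    obtain ⟨δ, c, L, hδ, hc, hL, h⟩ := ih
    obtain ⟨δ', c', hδ', hc', h'⟩ := loc μ hd (orb P ξ k)
    obtain ⟨L', hL', -, hL2⟩ := lip μ P (max B (μ (orb P ξ k)))
    refine ⟨min δ (δ' / L), c' * c ^ em P (orb P ξ k), L' * L, by positivity, by positivity,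
      by positivity, fun n hn => ?_⟩
    obtain ⟨h1, h2⟩ := h n (hn.trans (min_le_left _ _))
    have h3 : μ (x (n + k) - orb P ξ k) ≤ δ' := by
      refine h2.trans ?_
      calc L * μ (x n - ξ) ≤ L * (δ' / L) :=
            mul_le_mul_of_nonneg_left (hn.trans (min_le_right _ _)) hL.le
        _ = δ' := by field_simp
    have h4 := h' _ h3
    have h5 : x (n + (k + 1)) = P.eval (x (n + k)) := hx (n + k)
    rw [h5]
    change _ ≤ μ (P.eval (x (n + k)) - P.eval (orb P ξ k)) ∧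
      μ (P.eval (x (n + k)) - P.eval (orb P ξ k)) ≤ _
    constructor
    · refine le_trans ?_ h4
      change c' * c ^ em P (orb P ξ k) * μ (x n - ξ) ^ (mu P ξ k * em P (orb P ξ k)) ≤ _
      rw [pow_mul, mul_assoc, ← mul_pow]
      exact mul_le_mul_of_nonneg_left (pow_le_pow_left₀
        (mul_nonneg hc.le (pow_nonneg (μ.nonneg _) _)) h1 _) hc'.le
    · refine (hL2 _ _ ((hB _).trans (le_max_left _ _)) (le_max_right _ _)).trans ?_
      rw [mul_assoc]
      exact mul_le_mul_of_nonneg_left h2 hL'.le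

lemma pow_card_le (s : Multiset Ω) (z : Ω) (t : ℝ) (ht : 0 ≤ t) (h : ∀ ξ ∈ s, t ≤ μ (z - ξ)) :
    t ^ Multiset.card s ≤ μ ((s.map fun ξ => z - ξ).prod) := by
  induction s using Multiset.induction_on with
  | empty => simp
  | cons a s ih =>
    rw [Multiset.card_cons, pow_succ', Multiset.map_cons, Multiset.prod_cons, map_mul]
    exact mul_le_mul (h a (Multiset.mem_cons_self a s))
      (ih fun ξ hξ => h ξ (Multiset.mem_cons_of_mem hξ)) (pow_nonneg ht _) (μ.nonneg _)

/-- A root near to a point where the polynomial is small. -/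
lemma near_root [IsAlgClosed Ω] (G : Polynomial Ω) (hG : 1 ≤ G.natDegree) (z : Ω) :
    ∃ ξ ∈ G.roots, μ G.leadingCoeff * μ (z - ξ) ^ G.natDegree ≤ μ (G.eval z) := by
  classical
  have hs := IsAlgClosed.splits G
  have hcard : Multiset.card G.roots = G.natDegree := hs.natDegree_eq_card_roots.symm
  have hne : G.roots.toFinset.Nonempty := by
    rw [Multiset.toFinset_nonempty]
    intro h
    rw [h, Multiset.card_zero] at hcard
    omega
  obtain ⟨ξ, hξ, hmin⟩ := G.roots.toFinset.exists_min_image (fun ξ => μ (z - ξ)) hne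
  refine ⟨ξ, Multiset.mem_toFinset.1 hξ, ?_⟩
  have h1 := pow_card_le μ G.roots z (μ (z - ξ)) (μ.nonneg _)
    fun ξ' hξ' => hmin ξ' (Multiset.mem_toFinset.2 hξ')
  have h2 : G.eval z = G.leadingCoeff * (G.roots.map fun ξ => z - ξ).prod := by
    conv_lhs => rw [hs.eq_prod_roots]
    rw [eval_mul, eval_C, eval_multiset_prod, Multiset.map_map]
    congr 2
    apply Multiset.map_congr rfl
    intro ξ _
    simp
  rw [h2, map_mul, ← hcard]
  exact mul_le_mul_of_nonneg_left h1 (μ.nonneg _)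

end Val

section Num

variable {K : Type} [Field K] [NumberField K] {Ω : Type} [Field Ω] [Algebra K Ω]
  (μ : AbsoluteValue Ω ℝ)

lemma exc (p g : K[X])
    (hexc : ∀ ξ : K, g.eval ξ = 0 → p ≠ C p.leadingCoeff * (X - C ξ) ^ p.natDegree + C ξ)
    (ξ0 : K) (h0 : (g.map (algebraMap K Ω)).eval (algebraMap K Ω ξ0) = 0)
    (h : p.map (algebraMap K Ω) = C (algebraMap K Ω p.leadingCoeff) *
      (X - C (algebraMap K Ω ξ0)) ^ p.natDegree + C (algebraMap K Ω ξ0)) : False := by
  have h1 : g.eval ξ0 = 0 := by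
    rw [eval_map_algebraMap, aeval_algebraMap_apply_eq_algebraMap_eval] at h0
    exact (map_eq_zero (algebraMap K Ω)).mp h0
  refine hexc ξ0 h1 (map_injective (algebraMap K Ω) (algebraMap K Ω).injective ?_)
  rw [h]
  simp only [Polynomial.map_add, Polynomial.map_mul, Polynomial.map_pow, Polynomial.map_sub, map_X,
    map_C]

lemma growth (p : K[X]) (hd : 1 ≤ p.natDegree) (x : ℕ → K) (hx : ∀ n, x (n + 1) = p.eval (x n))
    (k : ℕ) : ∃ A : ℝ, 0 ≤ A ∧ ∀ n, (p.natDegree : ℝ) ^ k * Real.log (mulHeight₁ (x n))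
      ≤ Real.log (mulHeight₁ (x (n + k))) + A := by
  have hinjC : Function.Injective (C : K →+* K[X]) := C_injective
  have hdeg : (p.map (C : K →+* K[X])).natDegree = p.natDegree :=
    natDegree_map_eq_of_injective hinjC p
  obtain ⟨C1, N, hC1, h1⟩ := height_lower (p.map (C : K →+* K[X])) (by rw [hdeg]; exact hd)
  have hp0 : p ≠ 0 := by
    rintro rfl
    rw [natDegree_zero] at hd
    omega
  have h2 : ∀ n, (p.natDegree : ℝ) * Real.log (mulHeight₁ (x n))
      ≤ Real.log (mulHeight₁ (x (n + 1))) + Real.log C1 := by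
    intro n
    have h3 := h1 0 (x n) (by
      rw [leadingCoeff_map_of_injective hinjC, eval_C]
      exact leadingCoeff_ne_zero.mpr hp0)
    rw [hdeg, mulHeight₁_zero, one_pow, mul_one, evalEval_map_C, ← hx] at h3
    have h4 := Real.log_le_log (by positivity) h3
    rw [Real.log_pow, Real.log_mul (by positivity) (by positivity)] at h4
    linarith
  have hl : 0 ≤ Real.log C1 := Real.log_nonneg hC1
  induction k with
  | zero => exact ⟨0, le_refl _, fun n => by simp⟩
  | succ k ih =>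
    obtain ⟨A, hA, h3⟩ := ih
    refine ⟨p.natDegree * A + Real.log C1, by positivity, fun n => ?_⟩
    have h4 := mul_le_mul_of_nonneg_left (h3 n) (Nat.cast_nonneg p.natDegree : (0 : ℝ) ≤ _)
    have h5 := h2 (n + k)
    rw [show n + (k + 1) = n + k + 1 by ring, pow_succ]
    linarith

lemma lower (g : K[X]) (hg : g ≠ 0) (v : AbsoluteValue K ℝ) (hv : IsPlace v)
    (hμ : ∀ z, μ (algebraMap K Ω z) = v z) (x : ℕ → K) (hinj : Function.Injective x)
    (B : ℝ) (hB : ∀ n, v (x n) ≤ B) (ξ : Ω) (hξ : (g.map (algebraMap K Ω)).eval ξ = 0) :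
    ∃ A : ℝ, 0 ≤ A ∧ ∀ᶠ n in atTop, 0 < μ (algebraMap K Ω (x n) - ξ) ∧
      -Real.log (μ (algebraMap K Ω (x n) - ξ))
        ≤ g.natDegree * Real.log (mulHeight₁ (x n)) + A := by
  classical
  obtain ⟨C1, hC1, h1⟩ := height_eval g
  obtain ⟨L, hL, -, hL2⟩ := lip μ (g.map (algebraMap K Ω)) (max B (μ ξ))
  have hfin : {n | g.eval (x n) = 0}.Finite := by
    refine Set.Finite.of_finite_image (Set.Finite.subset
      (Finset.finite_toSet g.roots.toFinset) ?_) hinj.injOn
    rintro _ ⟨n, hn, rfl⟩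
    rw [Finset.mem_coe, Multiset.mem_toFinset, mem_roots hg]
    exact hn
  have h4 : ∀ᶠ n in cofinite, ¬ (g.eval (x n) = 0) := hfin.eventually_cofinite_notMem
  rw [Nat.cofinite_eq_atTop] at h4
  refine ⟨max 0 (Real.log L + Real.log C1), le_max_left _ _, ?_⟩
  filter_upwards [h4] with n hn
  have h5 := hv.liouville hn
  have h6 : v (g.eval (x n)) ≤ L * μ (algebraMap K Ω (x n) - ξ) := by
    have h7 := hL2 (algebraMap K Ω (x n)) ξ ((hμ _).trans_le ((hB n).trans (le_max_left _ _)))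
      (le_max_right _ _)
    rw [hξ, sub_zero, eval_map_algebraMap, aeval_algebraMap_apply_eq_algebraMap_eval, hμ] at h7
    exact h7
  have hpos : 0 < μ (algebraMap K Ω (x n) - ξ) := by
    have h8 := hv.le_height (g.eval (x n))
    have h9 := v.pos hn
    by_contra h10
    have h11 := mul_le_mul_of_nonneg_left (not_lt.mp h10) hL.le
    linarith
  refine ⟨hpos, ?_⟩
  have h8 : 1 ≤ L * μ (algebraMap K Ω (x n) - ξ) * (C1 * mulHeight₁ (x n) ^ g.natDegree) :=
    h5.trans (mul_le_mul h6 (h1 _) (by positivity) (by positivity))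
  have h9 := Real.log_le_log one_pos h8
  rw [Real.log_one, Real.log_mul (by positivity) (by positivity), Real.log_mul (by positivity)
    (by positivity), Real.log_mul (by positivity) (by positivity), Real.log_pow] at h9
  have h10 := le_max_right 0 (Real.log L + Real.log C1)
  linarith

/-- `x n` is near to `ξ`. -/
def Near (g : K[X]) (x : ℕ → K) (ε : ℝ) (n : ℕ) (ξ : Ω) : Prop :=
  μ (algebraMap K Ω g.leadingCoeff) * μ (algebraMap K Ω (x n) - ξ) ^ g.natDegree
    ≤ Real.exp (-(ε * Real.log (mulHeight₁ (x n))))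

lemma near_of_bad [IsAlgClosed Ω] (g : K[X]) (hm : 1 ≤ g.natDegree) (v : AbsoluteValue K ℝ)
    (hμ : ∀ z, μ (algebraMap K Ω z) = v z) (x : ℕ → K) (ε : ℝ) (n : ℕ)
    (h : v (g.eval (x n)) < Real.exp (-(ε * Real.log (mulHeight₁ (x n))))) :
    ∃ ξ ∈ (g.map (algebraMap K Ω)).roots, Near μ g x ε n ξ := by
  obtain ⟨ξ, hξ, h1⟩ := near_root μ (g.map (algebraMap K Ω)) (by rwa [natDegree_map])
    (algebraMap K Ω (x n))
  refine ⟨ξ, hξ, ?_⟩
  rw [leadingCoeff_map, natDegree_map, eval_map_algebraMap,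
    aeval_algebraMap_apply_eq_algebraMap_eval] at h1
  exact h1.trans ((hμ _).trans_le h.le)

lemma exp_small (x : ℕ → K) (hinj : Function.Injective x) (ε : ℝ) (hε : 0 < ε) (t : ℝ)
    (ht : 0 < t) : ∀ᶠ n in atTop, Real.exp (-(ε * Real.log (mulHeight₁ (x n)))) < t := by
  have h1 := (tendsto_height x hinj).eventually (eventually_gt_atTop (Real.exp (-Real.log t / ε)))
  filter_upwards [h1] with n hn
  have h2 := Real.log_lt_log (by positivity) hn
  rw [Real.log_exp, div_lt_iff₀ hε] at h2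
  rw [← Real.exp_log ht, Real.exp_lt_exp]
  linarith

lemma small_of_near (g : K[X]) (hg : g ≠ 0) (x : ℕ → K) (hinj : Function.Injective x) (ε : ℝ)
    (hε : 0 < ε) (δ : ℝ) (hδ : 0 < δ) :
    ∀ᶠ n in atTop, ∀ ξ : Ω, Near μ g x ε n ξ → μ (algebraMap K Ω (x n) - ξ) ≤ δ := by
  have h0 : 0 < μ (algebraMap K Ω g.leadingCoeff) := by
    apply μ.pos
    rw [Ne, map_eq_zero]
    exact leadingCoeff_ne_zero.mpr hg
  filter_upwards [exp_small x hinj ε hε (μ (algebraMap K Ω g.leadingCoeff) * δ ^ g.natDegree)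
    (by positivity)] with n hn ξ hξ
  by_contra h1
  have h2 := mul_le_mul_of_nonneg_left (pow_le_pow_left₀ hδ.le (not_le.mp h1).le g.natDegree)
    h0.le
  have h3 := h2.trans hξ
  linarith

lemma not_near_ne (p g : K[X]) (hd : 1 ≤ p.natDegree) (hg : g ≠ 0) (v : AbsoluteValue K ℝ)
    (hμ : ∀ z, μ (algebraMap K Ω z) = v z) (x : ℕ → K) (hx : ∀ n, x (n + 1) = p.eval (x n))
    (hinj : Function.Injective x) (B : ℝ) (hB : ∀ n, v (x n) ≤ B) (ε : ℝ) (hε : 0 < ε) (k : ℕ)
    (ξ ξ' : Ω) (hne : orb (p.map (algebraMap K Ω)) ξ k ≠ ξ') :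
    ∀ᶠ n in atTop, ¬ (Near μ g x ε n ξ ∧ Near μ g x ε (n + k) ξ') := by
  obtain ⟨δ, c, L, hδ, hc, hL, h1⟩ := iter μ (P := p.map (algebraMap K Ω))
    (by rwa [natDegree_map]) (fun n => algebraMap K Ω (x n)) (fun n => by
      show algebraMap K Ω (x (n + 1)) = _
      rw [hx, eval_map_algebraMap, aeval_algebraMap_apply_eq_algebraMap_eval]) B (fun n => by
      show μ (algebraMap K Ω (x n)) ≤ B
      rw [hμ]; exact hB n) ξ k
  have hpos : 0 < μ (orb (p.map (algebraMap K Ω)) ξ k - ξ') := μ.pos (sub_ne_zero.mpr hne)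
  set t := μ (orb (p.map (algebraMap K Ω)) ξ k - ξ') with ht
  have h2 := small_of_near (Ω := Ω) μ g hg x hinj ε hε (min δ (t / (2 * (L + 1)))) (by positivity)
  have h3 := (tendsto_add_atTop_nat k).eventually h2
  filter_upwards [h2, h3] with n hn hn' hcon
  have h4 := hn ξ hcon.1
  have h5 := hn' ξ' hcon.2
  have h6 := (h1 n (h4.trans (min_le_left _ _))).2
  have h7 := h4.trans (min_le_right _ _)
  have h8 := h5.trans (min_le_right _ _)
  have h9 : t ≤ μ (algebraMap K Ω (x (n + k)) - orb (p.map (algebraMap K Ω)) ξ k)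
      + μ (algebraMap K Ω (x (n + k)) - ξ') := by
    have h10 := μ.add_le (orb (p.map (algebraMap K Ω)) ξ k - algebraMap K Ω (x (n + k)))
      (algebraMap K Ω (x (n + k)) - ξ')
    rw [sub_add_sub_cancel, μ.map_sub _ (algebraMap K Ω (x (n + k)))] at h10
    exact h10
  have h10 : L * μ (algebraMap K Ω (x n) - ξ) ≤ L * (t / (2 * (L + 1))) :=
    mul_le_mul_of_nonneg_left h7 hL.le
  have h11 : L * (t / (2 * (L + 1))) + t / (2 * (L + 1)) = t / 2 := by
    field_simp
  linarith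

lemma not_near_eq (p g : K[X]) (hd : 1 ≤ p.natDegree) (hg : g ≠ 0) (v : AbsoluteValue K ℝ)
    (hv : IsPlace v) (hμ : ∀ z, μ (algebraMap K Ω z) = v z) (x : ℕ → K)
    (hx : ∀ n, x (n + 1) = p.eval (x n))
    (hinj : Function.Injective x) (B : ℝ) (hB : ∀ n, v (x n) ≤ B) (ε : ℝ) (hε : 0 < ε) (k : ℕ)
    (ξ : Ω) (hξ : (g.map (algebraMap K Ω)).eval ξ = 0)
    (hmu : (g.natDegree : ℝ) ^ 2 * mu (p.map (algebraMap K Ω)) ξ k
      ≤ ε / 2 * (p.natDegree : ℝ) ^ k) :
    ∀ᶠ n in atTop, ¬ (Near μ g x ε n ξ ∧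
      Near μ g x ε (n + k) (orb (p.map (algebraMap K Ω)) ξ k)) := by
  obtain ⟨δ, c, L, hδ, hc, hL, h1⟩ := iter μ (P := p.map (algebraMap K Ω))
    (by rwa [natDegree_map]) (fun n => algebraMap K Ω (x n)) (fun n => by
      show algebraMap K Ω (x (n + 1)) = _
      rw [hx, eval_map_algebraMap, aeval_algebraMap_apply_eq_algebraMap_eval]) B (fun n => by
      show μ (algebraMap K Ω (x n)) ≤ B
      rw [hμ]; exact hB n) ξ k
  obtain ⟨A, hA, h2⟩ := lower μ g hg v hv hμ x hinj B hB ξ hξ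
  obtain ⟨A', hA', h3⟩ := growth p hd x hx k
  have h4 := small_of_near (Ω := Ω) μ g hg x hinj ε hε δ hδ
  have h0 : 0 < μ (algebraMap K Ω g.leadingCoeff) := by
    apply μ.pos
    rw [Ne, map_eq_zero]
    exact leadingCoeff_ne_zero.mpr hg
  set P := p.map (algebraMap K Ω) with hP
  set m : ℝ := (g.natDegree : ℝ) with hm
  have hm0 : 0 ≤ m := Nat.cast_nonneg _
  set A2 : ℝ := -Real.log (μ (algebraMap K Ω g.leadingCoeff)) + m * (mu P ξ k * A - Real.log c)
    with hA2
  have h5 := (tendsto_height x hinj).eventually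
    (eventually_gt_atTop (Real.exp ((A2 + ε / 2 * A') / (ε / 2))))
  have h6 := (tendsto_add_atTop_nat k).eventually h5
  filter_upwards [h2, h4, h6] with n hn hn' hn'' hcon
  obtain ⟨h7, h8⟩ := hn
  have h9 := (h1 n (hn' ξ hcon.1)).1
  have h10 : 0 < μ (algebraMap K Ω (x (n + k)) - orb P ξ k) :=
    lt_of_lt_of_le (by positivity) h9
  have h11 := Real.log_le_log (by positivity) h9
  rw [Real.log_mul (by positivity) (by positivity), Real.log_pow] at h11
  have h12 := Real.log_le_log (by positivity) hcon.2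
  rw [Real.log_mul (by positivity) (by positivity), Real.log_pow, Real.log_exp] at h12
  have h13 := Real.log_lt_log (by positivity) hn''
  rw [Real.log_exp, div_lt_iff₀ (by positivity)] at h13
  have h14 := h3 n
  set κ := Real.log (mulHeight₁ (x n)) with hκ
  set κ' := Real.log (mulHeight₁ (x (n + k))) with hκ'
  set l := Real.log (μ (algebraMap K Ω (x n) - ξ)) with hl
  set l' := Real.log (μ (algebraMap K Ω (x (n + k)) - orb P ξ k)) with hl'
  have hκ0 : 0 ≤ κ := Real.log_nonneg (one_le_mulHeight₁ _)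
  -- ε κ' ≤ -log lc - m l' ≤ ...
  have h15 : (mu P ξ k : ℝ) * (-l) ≤ mu P ξ k * (m * κ + A) :=
    mul_le_mul_of_nonneg_left h8 (Nat.cast_nonneg _)
  have h16 : m * (-l') ≤ m * (mu P ξ k * (m * κ + A) - Real.log c) :=
    mul_le_mul_of_nonneg_left (by linarith) hm0
  have h17 : m ^ 2 * mu P ξ k * κ ≤ ε / 2 * (p.natDegree : ℝ) ^ k * κ :=
    mul_le_mul_of_nonneg_right hmu hκ0
  have h18 : ε / 2 * ((p.natDegree : ℝ) ^ k * κ) ≤ ε / 2 * (κ' + A') :=
    mul_le_mul_of_nonneg_left h14 (by positivity)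
  have h19 : ε * κ' ≤ A2 + ε / 2 * A' + ε / 2 * κ' := by
    rw [hA2]
    linarith
  linarith

lemma good [CharZero Ω] (p g : K[X]) (hd : 2 ≤ p.natDegree)
    (hexc : ∀ ξ : K, g.eval ξ = 0 → p ≠ C p.leadingCoeff * (X - C ξ) ^ p.natDegree + C ξ)
    (ξ : Ω) (hξ : (g.map (algebraMap K Ω)).eval ξ = 0) : Good (p.map (algebraMap K Ω)) ξ := by
  intro i h1 h2
  have hd' : 2 ≤ (p.map (algebraMap K Ω)).natDegree := by rwa [natDegree_map]
  have h3 := em_two hd' h1 h2
  have h4 : ∀ j, j ≤ i → orb (p.map (algebraMap K Ω)) ξ (i - j)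
      = orb (p.map (algebraMap K Ω)) ξ i := by
    intro j
    induction j with
    | zero => intro _; rfl
    | succ j ih =>
      intro hj
      apply eq_of_eval_eq (by omega) h1 h3
      have h5 := ih (by omega)
      have h6 : i - j = (i - (j + 1)) + 1 := by omega
      rw [h6] at h5
      exact h5
  have h5 : ξ = orb (p.map (algebraMap K Ω)) ξ i := by
    have := h4 i le_rfl
    rw [Nat.sub_self] at this
    exact this
  rw [← h5] at h1 h3
  have h6 := em_eq (by omega) h1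
  rw [h3] at h6
  have hlc : (p.map (algebraMap K Ω)).leadingCoeff ≠ 0 := by
    rw [leadingCoeff_ne_zero]
    intro h
    rw [h, natDegree_zero] at hd'
    omega
  have hcast : ((p.natDegree : ℕ) : Ω) ≠ 0 := by
    rw [Nat.cast_ne_zero]
    omega
  have h7 : (p.map (algebraMap K Ω)).coeff (p.natDegree - 1)
      = -((p.map (algebraMap K Ω)).leadingCoeff * p.natDegree * ξ) := by
    have h8 := congrArg (fun Q : Polynomial Ω => Q.coeff (p.natDegree - 1)) h6
    have h9 := coeff_aux (p.map (algebraMap K Ω)).leadingCoeff ξ ξ hd'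
    simp only [natDegree_map] at h8 h9
    exact h8.trans h9
  have h8 : ξ = algebraMap K Ω (-(p.coeff (p.natDegree - 1) / (p.leadingCoeff * p.natDegree))) := by
    rw [map_neg, map_div₀, map_mul, map_natCast, ← coeff_map, h7, leadingCoeff_map]
    rw [leadingCoeff_map] at hlc
    field_simp
  rw [h8] at hξ h6
  rw [leadingCoeff_map, natDegree_map] at h6
  exact exc p g hexc _ hξ h6

lemma linear (p g : K[X]) (hd : p.natDegree = 1)
    (hexc : ∀ ξ : K, g.eval ξ = 0 → p ≠ C p.leadingCoeff * (X - C ξ) ^ p.natDegree + C ξ)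
    (x : ℕ → K) (hx : ∀ n, x (n + 1) = p.eval (x n)) (hinj : Function.Injective x)
    (ξ ξ' : Ω) (hξ' : (g.map (algebraMap K Ω)).eval ξ' = 0) (k n : ℕ) (hn : 1 ≤ n)
    (h1 : orb (p.map (algebraMap K Ω)) ξ k = ξ')
    (h2 : orb (p.map (algebraMap K Ω)) ξ (k + n) = ξ') : False := by
  rw [orb_add, h1] at h2
  have hp : p = C (p.coeff 1) * X + C (p.coeff 0) := eq_X_add_C_of_natDegree_le_one hd.le
  set a0 := p.coeff 1 with ha0
  set b0 := p.coeff 0 with hb0
  set P := p.map (algebraMap K Ω) with hP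
  have hP' : P = C (algebraMap K Ω a0) * X + C (algebraMap K Ω b0) := by
    rw [hP, hp, Polynomial.map_add, Polynomial.map_mul, map_C, map_C, map_X]
  set a := algebraMap K Ω a0 with ha
  set b := algebraMap K Ω b0 with hb
  have hev : ∀ z, P.eval z = a * z + b := by
    intro z
    rw [hP', eval_add, eval_mul, eval_C, eval_C, eval_X]
  have hdiff : ∀ (j : ℕ) (z w : Ω), orb P z j - orb P w j = a ^ j * (z - w) := by
    intro j z w
    induction j with
    | zero => rw [pow_zero, one_mul]; rfl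
    | succ j ih =>
      change P.eval (orb P z j) - P.eval (orb P w j) = _
      rw [hev, hev, pow_succ]
      linear_combination a * ih
  have horb : ∀ j : ℕ, orb P (algebraMap K Ω (x 0)) j = algebraMap K Ω (x j) := by
    intro j
    induction j with
    | zero => rfl
    | succ j ih =>
      change P.eval (orb P _ j) = _
      rw [ih, hx, hP, eval_map_algebraMap, aeval_algebraMap_apply_eq_algebraMap_eval]
  have e1 := hdiff n ξ' (algebraMap K Ω (x 0))
  rw [h2, horb] at e1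
  have an1 : a ^ n ≠ 1 := by
    intro h3
    rw [h3, one_mul] at e1
    have h4 : algebraMap K Ω (x n) = algebraMap K Ω (x 0) := by linear_combination -e1
    have h5 := hinj ((algebraMap K Ω).injective h4)
    omega
  have e2 : orb P (P.eval ξ') n = P.eval ξ' := by
    have h3 := orb_add P ξ' 1 n
    have h4 : orb P ξ' (1 + n) = P.eval (orb P ξ' n) := by
      rw [add_comm]
      rfl
    have h5 : orb P ξ' 1 = P.eval ξ' := rfl
    rw [h4, h5, h2] at h3
    exact h3.symm
  have e3 := hdiff n (P.eval ξ') (algebraMap K Ω (x 0))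
  rw [e2, horb] at e3
  have e4 : (a ^ n - 1) * (P.eval ξ' - ξ') = 0 := by linear_combination e1 - e3
  have e5 : P.eval ξ' = ξ' :=
    sub_eq_zero.mp ((mul_eq_zero.mp e4).resolve_left (sub_ne_zero.mpr an1))
  have e6 := e5
  rw [hev] at e6
  have a1 : 1 - a ≠ 0 := by
    intro h3
    apply an1
    rw [← sub_eq_zero.mp h3, one_pow]
  have h8 : ξ' = algebraMap K Ω (b0 / (1 - a0)) := by
    rw [map_div₀, map_sub, map_one, ← ha, ← hb, eq_div_iff a1]
    linear_combination -e6
  rw [h8] at hξ'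
  refine exc p g hexc _ hξ' ?_
  have h9 : p.leadingCoeff = a0 := by rw [leadingCoeff, hd]
  rw [h9, ← h8, hd, pow_one, ← ha, ← hP, hP', mul_sub]
  have h10 : C b = C ξ' - C a * C ξ' := by
    rw [← C_mul, ← C_sub]
    congr 1
    linear_combination e6
  rw [h10]
  ring

/-- Two near times in a bounded range, at an arbitrary distance at least `J`. -/
lemma key [CharZero Ω] (p g : K[X]) (hd : 1 ≤ p.natDegree) (hg : g ≠ 0)
    (hexc : ∀ ξ : K, g.eval ξ = 0 → p ≠ C p.leadingCoeff * (X - C ξ) ^ p.natDegree + C ξ)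
    (x : ℕ → K) (hx : ∀ n, x (n + 1) = p.eval (x n)) (hinj : Function.Injective x)
    (v : AbsoluteValue K ℝ) (hv : IsPlace v) (hμ : ∀ z, μ (algebraMap K Ω z) = v z)
    (B : ℝ) (hB : ∀ n, v (x n) ≤ B) (ε : ℝ) (hε : 0 < ε) (s : Finset Ω)
    (hs : ∀ ξ ∈ s, (g.map (algebraMap K Ω)).eval ξ = 0) :
    ∃ J : ℕ, ∀ k, J ≤ k → ∀ ξ ∈ s, ∀ ξ' ∈ s,
      ∀ᶠ n in atTop, ¬ (Near μ g x ε n ξ ∧ Near μ g x ε (n + k) ξ') := by
  classical
  rcases Nat.lt_or_ge p.natDegree 2 with h2 | h2
  · have hd1 : p.natDegree = 1 := by omega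
    have h3 : ∀ ξ ξ' : Ω, ξ' ∈ s →
        ∃ J, ∀ k, J ≤ k → orb (p.map (algebraMap K Ω)) ξ k ≠ ξ' := by
      intro ξ ξ' hξ'
      by_cases h4 : ∃ k, orb (p.map (algebraMap K Ω)) ξ k = ξ'
      · obtain ⟨k, hk⟩ := h4
        refine ⟨k + 1, fun k' hk' h5 => ?_⟩
        refine linear p g hd1 hexc x hx hinj ξ ξ' (hs _ hξ') k (k' - k) (by omega) hk ?_
        rwa [show k + (k' - k) = k' by omega]
      · exact ⟨0, fun k _ h5 => h4 ⟨k, h5⟩⟩
    choose! J hJ using h3
    refine ⟨s.sup fun ξ => s.sup fun ξ' => J ξ ξ', fun k hk ξ hξ ξ' hξ' => ?_⟩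
    have h5 : J ξ ξ' ≤ k := by
      refine le_trans ?_ hk
      exact (Finset.le_sup (f := fun ξ' => J ξ ξ') hξ').trans
        (Finset.le_sup (f := fun ξ => s.sup fun ξ' => J ξ ξ') hξ)
    exact not_near_ne μ p g hd hg v hμ x hx hinj B hB ε hε k ξ ξ' (hJ ξ ξ' hξ' k h5)
  · obtain ⟨J, hJ⟩ := mu_small (Ω := Ω) p.natDegree hd (ε / (2 * ((g.natDegree : ℝ) ^ 2 + 1)))
      (by positivity)
    refine ⟨J, fun k hk ξ hξ ξ' hξ' => ?_⟩
    by_cases h4 : orb (p.map (algebraMap K Ω)) ξ k = ξ'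
    · subst h4
      refine not_near_eq μ p g hd hg v hv hμ x hx hinj B hB ε hε k ξ (hs ξ hξ) ?_
      have h5 := hJ (p.map (algebraMap K Ω)) ξ (natDegree_map _)
        (good p g h2 hexc ξ (hs ξ hξ)) k hk
      have h6 := mul_le_mul_of_nonneg_left h5
        (by positivity : (0 : ℝ) ≤ (g.natDegree : ℝ) ^ 2)
      refine h6.trans ?_
      rw [← mul_assoc]
      apply mul_le_mul_of_nonneg_right _ (by positivity)
      rw [mul_div_assoc', div_le_div_iff₀ (by positivity) (by positivity)]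
      nlinarith [hε]
    · exact not_near_ne μ p g hd hg v hμ x hx hinj B hB ε hε k ξ ξ' h4

end Num

end BadTimes

variable {K : Type} [Field K] [NumberField K]

/-- Where the base orbit is bounded, two close times (times at which `g` is exponentially small) in a
bounded range are near to each other, if no zero of `g` is a totally ramified fixed point of `p`. -/
theorem bad_times (p : K[X]) (hd : 1 ≤ p.natDegree) (g : K[X]) (hg : g ≠ 0)
    (hexc : ∀ ξ : K, g.eval ξ = 0 → p ≠ C p.leadingCoeff * (X - C ξ) ^ p.natDegree + C ξ)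
    (x : ℕ → K) (hx : ∀ n, x (n + 1) = p.eval (x n)) (hinj : Function.Injective x)
    (v : AbsoluteValue K ℝ) (hv : IsPlace v) (hb : ∃ B : ℝ, ∀ n, v (x n) ≤ B)
    (ε : ℝ) (hε : 0 < ε) :
    ∃ J : ℕ, ∀ N : ℕ, ∀ᶠ n : ℕ in atTop, ∀ n1 n2 : ℕ, n ≤ n1 → n1 ≤ n2 → n2 ≤ n + N →
      v (g.eval (x n1)) < Real.exp (-(ε * Real.log (mulHeight₁ (x n1)))) →
      v (g.eval (x n2)) < Real.exp (-(ε * Real.log (mulHeight₁ (x n2)))) → n2 < n1 + J := by
  classical
  obtain ⟨Ω, _, _, _, μ, hμ⟩ := exists_extension v hv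
  obtain ⟨B, hB⟩ := hb
  have _ : CharZero Ω := charZero_of_injective_algebraMap (algebraMap K Ω).injective
  rcases Nat.eq_zero_or_pos g.natDegree with hm | hm
  · refine ⟨0, fun N => ?_⟩
    have h1 : g = C (g.coeff 0) := eq_C_of_natDegree_eq_zero hm
    have h2 : g.coeff 0 ≠ 0 := by
      intro h
      rw [h, C_0] at h1
      exact hg h1
    have h3 := BadTimes.exp_small x hinj ε hε (v (g.coeff 0)) (v.pos h2)
    filter_upwards [eventually_forall_ge_atTop.2 h3] with n hn n1 n2 hn1 _ _ h4 _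
    rw [h1, eval_C] at h4
    exact absurd (h4.trans (hn n1 hn1)) (lt_irrefl _)
  · have hG : g.map (algebraMap K Ω) ≠ 0 := by
      rw [Ne, Polynomial.map_eq_zero_iff (algebraMap K Ω).injective]
      exact hg
    obtain ⟨J, hJ⟩ := BadTimes.key μ p g hd hg hexc x hx hinj v hv hμ B hB ε hε
      (g.map (algebraMap K Ω)).roots.toFinset
      (fun ξ hξ => (mem_roots hG).mp (Multiset.mem_toFinset.mp hξ))
    refine ⟨J, fun N => ?_⟩
    have h1 : ∀ᶠ n in atTop, ∀ k ∈ Finset.range (N + 1), J ≤ k →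
        ∀ ξ ∈ (g.map (algebraMap K Ω)).roots.toFinset,
        ∀ ξ' ∈ (g.map (algebraMap K Ω)).roots.toFinset,
        ¬ (BadTimes.Near μ g x ε n ξ ∧ BadTimes.Near μ g x ε (n + k) ξ') := by
      rw [Filter.eventually_all_finset]
      intro k _
      by_cases hk : J ≤ k
      · have h2 : ∀ᶠ n in atTop,
            ∀ ξ ∈ (g.map (algebraMap K Ω)).roots.toFinset,
            ∀ ξ' ∈ (g.map (algebraMap K Ω)).roots.toFinset,
            ¬ (BadTimes.Near μ g x ε n ξ ∧ BadTimes.Near μ g x ε (n + k) ξ') := by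
          rw [Filter.eventually_all_finset]
          intro ξ hξ
          rw [Filter.eventually_all_finset]
          intro ξ' hξ'
          exact hJ k hk ξ hξ ξ' hξ'
        filter_upwards [h2] with n hn _
        exact hn
      · exact Eventually.of_forall fun n h => absurd h hk
    filter_upwards [eventually_forall_ge_atTop.2 h1] with n hn n1 n2 hn1 hn2 hn3 h4 h5
    by_contra h6
    obtain ⟨ξ, hξ, h7⟩ := BadTimes.near_of_bad μ g hm v hμ x ε n1 h4
    obtain ⟨ξ', hξ', h8⟩ := BadTimes.near_of_bad μ g hm v hμ x ε n2 h5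
    refine hn n1 hn1 (n2 - n1) (Finset.mem_range.mpr (by omega)) (by omega) ξ
      (Multiset.mem_toFinset.mpr hξ) ξ' (Multiset.mem_toFinset.mpr hξ') ⟨h7, ?_⟩
    rwa [show n1 + (n2 - n1) = n2 by omega]

end Pool.Agent.Lib.MP_9ec2c5_sk
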