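import Mathlib
import Pool.Agent.Lib.MP_9ec2c5_nt_h65.Fac
import Pool.Agent.Lib.MP_9ec2c5_nt_h65.Seg

/-!
One step of a slow orbit at a place where the base orbit tends to infinity: lifting a polynomial
which is small at the next point to a factor which is small at the present point.
-/

set_option autoImplicit false
set_option linter.unusedSectionVars false

namespace Pool.Agent.Lib.MP_9ec2c5_sk

open Polynomial Finset
open Pool.Agent.Lib.MP_9ec2c5_nt_h65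

/-- The normalised data of a skew product at infinity. -/
structure PunctData (K : Type) [Field K] where
  /-- degree of the base polynomial -/
  d : ℕ
  hd : 1 ≤ d
  /-- degree of the fibre polynomial -/
  e : ℕ
  hde : d < e
  /-- numerator of the slope -/
  a : ℕ
  /-- the gain -/
  ρ : ℕ
  hρ : 1 ≤ ρ
  /-- denominator of the slope -/
  b : ℕ
  hb : 1 ≤ b
  hb0 : (b : K) ≠ 0
  /-- the unit of the base polynomial -/
  P1 : K[X]
  hP1 : P1.coeff 0 = 1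
  /-- root of the leading coefficient -/
  lam : K
  hlam : lam ≠ 0
  /-- normalised fibre polynomial -/
  Q : K[X][X]
  /-- leading coefficient -/
  c : K
  hc : c ≠ 0
  /-- the index set of the distinct roots -/
  ι : Type
  hfin : Fintype ι
  hdec : DecidableEq ι
  /-- the distinct roots -/
  r : ι → K
  hr : Function.Injective r
  /-- their multiplicities -/
  m : ι → ℕ
  hm : ∀ i, 1 ≤ m i
  hT : top0 Q = C c * ∏ i, (X - C (r i)) ^ m i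
  he : ∑ i, m i = e

attribute [instance] PunctData.hfin PunctData.hdec

namespace PunctData

variable {K : Type} [Field K] (D : PunctData K)

lemma he1 : 1 ≤ D.e := by
  have := D.hd
  have := D.hde
  omega

/-- one step -/
structure Step {Ω : Type} [Field Ω] [Algebra K Ω] (μ : AbsoluteValue Ω ℝ) (C1 R : ℝ)
    (w0 u0 s0 w1 u1 : Ω) : Prop where
  s_pow : s0 ^ D.b = aeval w0 D.P1
  s_near : μ (s0 - 1) ≤ C1 * μ w0
  w_next : w1 * (algebraMap K Ω D.lam * s0) = w0 ^ D.d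
  func : ev2 D.Q w0 u0 = w0 ^ D.ρ * (algebraMap K Ω D.lam * s0) ^ D.a * u1
  u0_le : μ u0 ≤ R
  u1_le : μ u1 ≤ R

/-- the truncated unit -/
lemma exists_S (M : ℕ) : ∃ S : K[X], S.coeff 0 = 1 ∧ X ^ M ∣ (X ^ D.b - C D.P1 : K[X][X]).eval S - 0 ∧
    (derivative (top0 (X ^ D.b - C D.P1 : K[X][X]))).eval 1 ≠ 0 := by
  have h1 : top0 (X ^ D.b - C D.P1 : K[X][X]) = X ^ D.b - 1 := by
    rw [top0, Polynomial.map_sub, Polynomial.map_pow, map_X, map_C, constantCoeff_apply, D.hP1,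
      map_one]
  have h2 : (derivative (top0 (X ^ D.b - C D.P1 : K[X][X]))).eval 1 ≠ 0 := by
    rw [h1, derivative_sub, derivative_one, sub_zero, derivative_X_pow, eval_mul, eval_pow, eval_X,
      eval_C, one_pow, mul_one]
    exact D.hb0
  obtain ⟨S, h3, h4⟩ := hensel (X ^ D.b - C D.P1 : K[X][X]) 0 (coeff_zero 0) 1 (by
    rw [h1, eval_sub, eval_pow, eval_X, eval_one, one_pow, sub_self]) h2 M
  exact ⟨S, h3, h4, h2⟩

section

variable {Ω : Type} [Field Ω] [Algebra K Ω] (μ : AbsoluteValue Ω ℝ)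

lemma s_bounds (C1 : ℝ) (hC1 : 0 ≤ C1) : ∃ δ : ℝ, 0 < δ ∧ ∀ s w : Ω, μ w ≤ δ →
    μ (s - 1) ≤ C1 * μ w → μ s ≤ 2 ∧ 1 / 2 ≤ μ s := by
  refine ⟨1 / (2 * (C1 + 1)), by positivity, fun s w hw hs => ?_⟩
  have h1 : C1 * μ w ≤ 1 / 2 := by
    have h2 : (C1 + 1) * μ w ≤ (C1 + 1) * (1 / (2 * (C1 + 1))) :=
      mul_le_mul_of_nonneg_left hw (by positivity)
    have h3 : (C1 + 1) * (1 / (2 * (C1 + 1))) = 1 / 2 := by field_simp
    have := μ.nonneg w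
    linarith
  have h2 := μ.add_le (s - 1) 1
  rw [sub_add_cancel, map_one] at h2
  have h3 := μ.add_le s (-(s - 1))
  have h4 : s + -(s - 1) = 1 := by ring
  rw [h4, μ.map_neg, map_one] at h3
  constructor <;> linarith

lemma s_approx (C1 : ℝ) (hC1 : 0 ≤ C1) (M : ℕ) (S : K[X]) (hS0 : S.coeff 0 = 1)
    (hS : X ^ M ∣ (X ^ D.b - C D.P1 : K[X][X]).eval S - 0)
    (hder : (derivative (top0 (X ^ D.b - C D.P1 : K[X][X]))).eval 1 ≠ 0) :
    ∃ δ C2 : ℝ, 0 < δ ∧ 0 ≤ C2 ∧ ∀ s w : Ω, μ w ≤ δ → μ (s - 1) ≤ C1 * μ w →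
      s ^ D.b = aeval w D.P1 → μ (s - aeval w S) ≤ C2 * μ w ^ M := by
  obtain ⟨ε, δ, C2, hε, hδ, hC2, h⟩ := near_root (μ := μ) (X ^ D.b - C D.P1 : K[X][X]) 0 S 1 M hS0
    hS hder 0 (le_refl _)
  refine ⟨min δ (ε / (C1 + 1)), C2, lt_min hδ (by positivity), hC2, fun s w hw hs1 hs2 => ?_⟩
  refine h w s (hw.trans (min_le_left _ _)) ?_ ?_
  · rw [map_one]
    refine hs1.trans ?_
    have h1 := hw.trans (min_le_right _ _)
    rw [le_div_iff₀ (by positivity)] at h1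
    have := μ.nonneg w
    linarith
  · have h3 : ev2 (X ^ D.b - C D.P1 : K[X][X]) w s = s ^ D.b - aeval w D.P1 := by
      rw [ev2_sub, ev2_pow, ev2_X, ev2_C]
    rw [h3, hs2, sub_self, map_zero, sub_zero, map_zero, zero_mul]

end

/-- the substituted polynomial -/
noncomputable def subst (A W G : K[X][X]) (W' : K[X]) (n : ℕ) : K[X][X] :=
  ∑ j ∈ range (n + 1), C ((A.coeff j).comp W') * W ^ (n - j) * G ^ j

/-- a polynomial function of three variables -/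
noncomputable def hom3 {Ω : Type} [Field Ω] [Algebra K Ω] (A : K[X][X]) (n : ℕ)
    (z : Fin 3 → Ω) : Ω :=
  ∑ j ∈ range (n + 1), aeval (z 0) (A.coeff j) * z 1 ^ (n - j) * z 2 ^ j

lemma Nice.hom3 {Ω : Type} [Field Ω] [Algebra K Ω] {μ : AbsoluteValue Ω ℝ} (A : K[X][X]) (n : ℕ) :
    Nice μ (hom3 A n : (Fin 3 → Ω) → Ω) :=
  Nice.sum _ _ fun j _ => ((Nice.poly _ 0).mul ((Nice.coord 1).pow _)).mul ((Nice.coord 2).pow _)

/-! ### Lifting -/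

section lift

variable (A : K[X][X]) (Δ : ℕ) (S S' : K[X])

/-- the pull back of a polynomial by one step, to finite order -/
noncomputable def liftPoly : K[X][X] :=
  subst A (C (X ^ D.ρ * (C D.lam * S) ^ D.a)) D.Q (C D.lam⁻¹ * X ^ D.d * S') Δ

lemma top0_C (g : K[X]) : top0 (C g : K[X][X]) = C (g.coeff 0) := by
  rw [top0, map_C, constantCoeff_apply]

lemma top0_pow (F : K[X][X]) (n : ℕ) : top0 (F ^ n) = top0 F ^ n := Polynomial.map_pow _ _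

lemma top0_lift (hA : A.coeff Δ = 1) : top0 (D.liftPoly A Δ S S') = top0 D.Q ^ Δ := by
  have h1 : top0 (D.liftPoly A Δ S S') = ∑ j ∈ range (Δ + 1),
      top0 (C ((A.coeff j).comp (C D.lam⁻¹ * X ^ D.d * S')))
        * top0 (C (X ^ D.ρ * (C D.lam * S) ^ D.a)) ^ (Δ - j) * top0 D.Q ^ j := by
    rw [liftPoly, subst]
    conv_lhs => rw [top0, Polynomial.map_sum]
    refine Finset.sum_congr rfl fun _ _ => ?_
    rw [← top0_pow, ← top0_pow, ← top0_mul, ← top0_mul]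
    rfl
  have h2 : top0 (C (X ^ D.ρ * (C D.lam * S) ^ D.a) : K[X][X]) = 0 := by
    have := D.hρ
    rw [top0_C, mul_coeff_zero, coeff_X_pow, if_neg (by omega), zero_mul, map_zero]
  rw [h1, Finset.sum_range_succ, Finset.sum_eq_zero, zero_add, Nat.sub_self, pow_zero, mul_one, hA,
    one_comp, top0_C, coeff_one_zero, map_one, one_mul]
  intro j hj
  have hj' := Finset.mem_range.mp hj
  rw [h2, zero_pow (by omega), mul_zero, zero_mul]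

variable {Ω : Type} [Field Ω] [Algebra K Ω] {μ : AbsoluteValue Ω ℝ}

lemma ev2_lift (w u : Ω) : ev2 (D.liftPoly A Δ S S') w u
    = hom3 A Δ ![aeval w (C D.lam⁻¹ * X ^ D.d * S'), aeval w (X ^ D.ρ * (C D.lam * S) ^ D.a),
      ev2 D.Q w u] := by
  rw [liftPoly, subst, ev2_sum, hom3]
  refine Finset.sum_congr rfl fun j _ => ?_
  rw [ev2_mul, ev2_mul, ev2_pow, ev2_pow, ev2_C, ev2_C, aeval_comp]
  rfl

lemma hom3_step {C1 R : ℝ} {w0 u0 s0 w1 u1 : Ω} (h : D.Step μ C1 R w0 u0 s0 w1 u1)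
    (hA : A.natDegree ≤ Δ) :
    hom3 A Δ ![w1, w0 ^ D.ρ * (algebraMap K Ω D.lam * s0) ^ D.a, ev2 D.Q w0 u0]
      = (w0 ^ D.ρ * (algebraMap K Ω D.lam * s0) ^ D.a) ^ Δ * ev2 A w1 u1 := by
  have h1 : ev2 A w1 u1 = ∑ j ∈ range (Δ + 1), aeval w1 (A.coeff j) * u1 ^ j := by
    rw [ev2_eq]
    apply Finset.sum_subset
    · exact Finset.range_subset_range.mpr (Nat.succ_le_succ hA)
    · intro j _ hj
      rw [Finset.mem_range, not_lt] at hj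
      rw [coeff_eq_zero_of_natDegree_lt (by omega), map_zero, zero_mul]
  rw [h1, hom3, Finset.mul_sum]
  refine Finset.sum_congr rfl fun j hj => ?_
  have hj' := Finset.mem_range.mp hj
  show aeval w1 (A.coeff j) * (w0 ^ D.ρ * (algebraMap K Ω D.lam * s0) ^ D.a) ^ (Δ - j)
    * ev2 D.Q w0 u0 ^ j = _
  rw [h.func, mul_pow _ u1 j]
  have h2 : (w0 ^ D.ρ * (algebraMap K Ω D.lam * s0) ^ D.a) ^ Δ
      = (w0 ^ D.ρ * (algebraMap K Ω D.lam * s0) ^ D.a) ^ (Δ - j)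
        * (w0 ^ D.ρ * (algebraMap K Ω D.lam * s0) ^ D.a) ^ j := by
    rw [← pow_add]
    congr 1
    omega
  rw [h2]
  ring

/-- the pull back is small at the present point -/
lemma lift_small (hA : A.natDegree ≤ Δ) (M : ℕ) (hS0 : S.coeff 0 = 1)
    (hS : X ^ M ∣ (X ^ D.b - C D.P1 : K[X][X]).eval S - 0)
    (hder : (derivative (top0 (X ^ D.b - C D.P1 : K[X][X]))).eval 1 ≠ 0)
    (hS' : X ^ M ∣ S * S' - 1) (α : ℕ) (hM : M = D.ρ * Δ + D.d * α)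
    (μ : AbsoluteValue Ω ℝ) (C1 R C' : ℝ) (hC1 : 0 ≤ C1) (_hR : 0 ≤ R) (hC' : 0 ≤ C') :
    ∃ δ C2 : ℝ, 0 < δ ∧ 0 ≤ C2 ∧ ∀ w0 u0 s0 w1 u1 : Ω, D.Step μ C1 R w0 u0 s0 w1 u1 → μ w0 ≤ δ →
      μ (ev2 A w1 u1) ≤ C' * μ w1 ^ α → μ (ev2 (D.liftPoly A Δ S S') w0 u0) ≤ C2 * μ w0 ^ M := by
  set lam : Ω := algebraMap K Ω D.lam with hlam
  have hlam0 : lam ≠ 0 := by
    rw [hlam, Ne, map_eq_zero]
    exact D.hlam
  have hl : 0 < μ lam := μ.pos hlam0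
  obtain ⟨δ1, hδ1, h1⟩ := s_bounds μ C1 hC1
  obtain ⟨δ2, C2, hδ2, hC2, h2⟩ := D.s_approx μ C1 hC1 M S hS0 hS hder
  obtain ⟨B1, hB1, h3, -⟩ := Nice.poly (μ := μ) S 0 1
  obtain ⟨B2, hB2, h4, -⟩ := Nice.poly (μ := μ) S' 0 1
  obtain ⟨C3, hC3, h5⟩ := small_of_dvd (μ := μ) (S * S' - 1) M hS' 1
  obtain ⟨B3, hB3, h6⟩ := ev2_bounded (μ := μ) D.Q R
  -- the unit
  have hpow : Nice μ (fun z : Fin 3 → Ω => (lam * z 0) ^ D.a) :=
    ((Nice.const lam).mul (Nice.coord 0)).pow _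
  obtain ⟨B4, hB4, h7, h8⟩ := hpow (max 2 B1)
  obtain ⟨B5, hB5, -, h9⟩ := Nice.hom3 (μ := μ) A Δ
    (max (max ((μ lam)⁻¹ * 2) ((μ lam)⁻¹ * B2)) (max B4 B3))
  set C4 : ℝ := 2 * (C3 + C2 * B2) with hC4
  have hC40 : 0 ≤ C4 := by positivity
  set C5 : ℝ := max ((μ lam)⁻¹ * C4) (B4 * C2) with hC5
  have hC50 : 0 ≤ C5 := le_max_of_le_right (by positivity)
  refine ⟨min 1 (min δ1 δ2), B5 * C5 + B4 ^ Δ * (C' * (2 * (μ lam)⁻¹) ^ α), by positivity,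
    by positivity, fun w0 u0 s0 w1 u1 hst hw hA1 => ?_⟩
  have hw1 : μ w0 ≤ 1 := hw.trans (min_le_left _ _)
  have hwδ1 : μ w0 ≤ δ1 := hw.trans ((min_le_right _ _).trans (min_le_left _ _))
  have hwδ2 : μ w0 ≤ δ2 := hw.trans ((min_le_right _ _).trans (min_le_right _ _))
  have hμw := μ.nonneg w0
  obtain ⟨hs2, hs1⟩ := h1 s0 w0 hwδ1 hst.s_near
  have hs0 : s0 ≠ 0 := by
    intro h
    rw [h, map_zero] at hs1
    linarith
  have hsS := h2 s0 w0 hwδ2 hst.s_near hst.s_pow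
  have hSb : μ (aeval w0 S) ≤ B1 := h3 (fun _ => w0) fun _ => hw1
  have hSb' : μ (aeval w0 S') ≤ B2 := h4 (fun _ => w0) fun _ => hw1
  have hinv : μ s0⁻¹ ≤ 2 := by
    rw [map_inv₀, inv_le_comm₀ (by linarith) (by norm_num)]
    linarith
  have hpM : 0 ≤ μ w0 ^ M := pow_nonneg hμw _
  -- approximation of the inverse
  have hsi : μ (s0⁻¹ - aeval w0 S') ≤ C4 * μ w0 ^ M := by
    have e1 : s0⁻¹ - aeval w0 S'
        = s0⁻¹ * (-(aeval w0 (S * S' - 1)) + -((s0 - aeval w0 S) * aeval w0 S')) := by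
      rw [map_sub, map_mul, map_one]
      field_simp
      ring
    rw [e1, map_mul]
    have e2 : μ (-(aeval w0 (S * S' - 1)) + -((s0 - aeval w0 S) * aeval w0 S'))
        ≤ C3 * μ w0 ^ M + (C2 * μ w0 ^ M) * B2 := by
      refine (μ.add_le _ _).trans ?_
      rw [μ.map_neg, μ.map_neg, map_mul]
      exact add_le_add (h5 w0 hw1) (mul_le_mul hsS hSb' (μ.nonneg _) (by positivity))
    calc _ ≤ 2 * (C3 * μ w0 ^ M + (C2 * μ w0 ^ M) * B2) :=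
          mul_le_mul hinv e2 (μ.nonneg _) (by norm_num)
      _ = C4 * μ w0 ^ M := by
          rw [hC4]
          ring
  have hw1eq : w1 = lam⁻¹ * w0 ^ D.d * s0⁻¹ := by
    have := hst.w_next
    rw [← hlam] at this
    rw [← this]
    field_simp
  have hwd : μ w0 ^ D.d ≤ 1 := pow_le_one₀ hμw hw1
  have hwd0 : 0 ≤ μ w0 ^ D.d := pow_nonneg hμw _
  have hW : aeval w0 (C D.lam⁻¹ * X ^ D.d * S') = lam⁻¹ * w0 ^ D.d * aeval w0 S' := by
    rw [map_mul, map_mul, map_pow, aeval_X, aeval_C, map_inv₀]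
  have hE : aeval w0 (X ^ D.ρ * (C D.lam * S) ^ D.a) = w0 ^ D.ρ * (lam * aeval w0 S) ^ D.a := by
    rw [map_mul, map_pow, map_pow, map_mul, aeval_X, aeval_C]
  have hE1 : μ ((lam * s0) ^ D.a) ≤ B4 := h7 (fun _ => s0) fun _ => hs2.trans (le_max_left _ _)
  have hE2 : μ ((lam * aeval w0 S) ^ D.a) ≤ B4 :=
    h7 (fun _ => aeval w0 S) fun _ => hSb.trans (le_max_right _ _)
  have hE3 : μ ((lam * s0) ^ D.a - (lam * aeval w0 S) ^ D.a) ≤ B4 * (C2 * μ w0 ^ M) :=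
    h8 (fun _ => s0) (fun _ => aeval w0 S) _ (fun _ => hs2.trans (le_max_left _ _))
      (fun _ => hSb.trans (le_max_right _ _)) fun _ => hsS
  have hwρ : μ w0 ^ D.ρ ≤ 1 := pow_le_one₀ hμw hw1
  have hwρ0 : 0 ≤ μ w0 ^ D.ρ := pow_nonneg hμw _
  have hq : μ (ev2 D.Q w0 u0) ≤ B3 := h6 w0 u0 hw1 hst.u0_le
  have hli : 0 < (μ lam)⁻¹ := by positivity
  -- comparison
  have hcmp := h9 ![w1, w0 ^ D.ρ * (lam * s0) ^ D.a, ev2 D.Q w0 u0]
    ![aeval w0 (C D.lam⁻¹ * X ^ D.d * S'), aeval w0 (X ^ D.ρ * (C D.lam * S) ^ D.a),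
      ev2 D.Q w0 u0] (C5 * μ w0 ^ M) (by
    intro i
    fin_cases i
    · show μ w1 ≤ _
      rw [hw1eq, map_mul, map_mul, map_pow, map_inv₀]
      refine le_trans ?_ (le_trans (le_max_left _ _) (le_max_left _ _))
      calc (μ lam)⁻¹ * μ w0 ^ D.d * μ s0⁻¹ ≤ (μ lam)⁻¹ * 1 * 2 :=
            mul_le_mul (mul_le_mul_of_nonneg_left hwd hli.le) hinv (μ.nonneg _) (by positivity)
        _ = (μ lam)⁻¹ * 2 := by ring
    · show μ (w0 ^ D.ρ * (lam * s0) ^ D.a) ≤ _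
      rw [map_mul, map_pow]
      refine le_trans ?_ (le_trans (le_max_left _ _) (le_max_right _ _))
      calc μ w0 ^ D.ρ * μ ((lam * s0) ^ D.a) ≤ 1 * B4 :=
            mul_le_mul hwρ hE1 (μ.nonneg _) zero_le_one
        _ = B4 := one_mul _
    · exact hq.trans (le_trans (le_max_right _ _) (le_max_right _ _))) (by
    intro i
    fin_cases i
    · show μ (aeval w0 (C D.lam⁻¹ * X ^ D.d * S')) ≤ _
      rw [hW, map_mul, map_mul, map_pow, map_inv₀]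
      refine le_trans ?_ (le_trans (le_max_right _ _) (le_max_left _ _))
      calc (μ lam)⁻¹ * μ w0 ^ D.d * μ (aeval w0 S') ≤ (μ lam)⁻¹ * 1 * B2 :=
            mul_le_mul (mul_le_mul_of_nonneg_left hwd hli.le) hSb' (μ.nonneg _) (by positivity)
        _ = (μ lam)⁻¹ * B2 := by ring
    · show μ (aeval w0 (X ^ D.ρ * (C D.lam * S) ^ D.a)) ≤ _
      rw [hE, map_mul, map_pow]
      refine le_trans ?_ (le_trans (le_max_left _ _) (le_max_right _ _))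
      calc μ w0 ^ D.ρ * μ ((lam * aeval w0 S) ^ D.a) ≤ 1 * B4 :=
            mul_le_mul hwρ hE2 (μ.nonneg _) zero_le_one
        _ = B4 := one_mul _
    · exact hq.trans (le_trans (le_max_right _ _) (le_max_right _ _))) (by
    intro i
    fin_cases i
    · show μ (w1 - aeval w0 (C D.lam⁻¹ * X ^ D.d * S')) ≤ _
      have e1 : w1 - aeval w0 (C D.lam⁻¹ * X ^ D.d * S')
          = lam⁻¹ * w0 ^ D.d * (s0⁻¹ - aeval w0 S') := by
        rw [hw1eq, hW]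
        ring
      rw [e1, map_mul, map_mul, map_pow, map_inv₀]
      calc (μ lam)⁻¹ * μ w0 ^ D.d * μ (s0⁻¹ - aeval w0 S')
          ≤ (μ lam)⁻¹ * 1 * (C4 * μ w0 ^ M) :=
            mul_le_mul (mul_le_mul_of_nonneg_left hwd hli.le) hsi (μ.nonneg _) (by positivity)
        _ = ((μ lam)⁻¹ * C4) * μ w0 ^ M := by ring
        _ ≤ C5 * μ w0 ^ M := mul_le_mul_of_nonneg_right (le_max_left _ _) hpM
    · show μ (w0 ^ D.ρ * (lam * s0) ^ D.a - aeval w0 (X ^ D.ρ * (C D.lam * S) ^ D.a)) ≤ _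
      rw [hE, ← mul_sub, map_mul, map_pow]
      calc μ w0 ^ D.ρ * μ ((lam * s0) ^ D.a - (lam * aeval w0 S) ^ D.a)
          ≤ 1 * (B4 * (C2 * μ w0 ^ M)) := mul_le_mul hwρ hE3 (μ.nonneg _) zero_le_one
        _ = (B4 * C2) * μ w0 ^ M := by ring
        _ ≤ C5 * μ w0 ^ M := mul_le_mul_of_nonneg_right (le_max_right _ _) hpM
    · show μ (ev2 D.Q w0 u0 - ev2 D.Q w0 u0) ≤ _
      rw [sub_self, map_zero]
      positivity)
  rw [hlam, D.hom3_step A Δ hst hA, ← D.ev2_lift, ← hlam] at hcmp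
  -- size of the exact expression
  have hex : μ ((w0 ^ D.ρ * (lam * s0) ^ D.a) ^ Δ * ev2 A w1 u1)
      ≤ B4 ^ Δ * (C' * (2 * (μ lam)⁻¹) ^ α) * μ w0 ^ M := by
    rw [map_mul, map_pow, map_mul, map_pow]
    have e1 : μ w1 ≤ μ w0 ^ D.d * (2 * (μ lam)⁻¹) := by
      rw [hw1eq, map_mul, map_mul, map_pow, map_inv₀]
      calc (μ lam)⁻¹ * μ w0 ^ D.d * μ s0⁻¹ ≤ (μ lam)⁻¹ * μ w0 ^ D.d * 2 :=
            mul_le_mul_of_nonneg_left hinv (by positivity)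
        _ = _ := by ring
    have e2 : (μ w0 ^ D.ρ * μ ((lam * s0) ^ D.a)) ^ Δ ≤ (μ w0 ^ D.ρ * B4) ^ Δ :=
      pow_le_pow_left₀ (by positivity) (mul_le_mul_of_nonneg_left hE1 hwρ0) _
    have e3 : μ (ev2 A w1 u1) ≤ C' * (μ w0 ^ D.d * (2 * (μ lam)⁻¹)) ^ α :=
      hA1.trans (mul_le_mul_of_nonneg_left (pow_le_pow_left₀ (μ.nonneg _) e1 _) hC')
    calc _ ≤ (μ w0 ^ D.ρ * B4) ^ Δ * (C' * (μ w0 ^ D.d * (2 * (μ lam)⁻¹)) ^ α) :=
          mul_le_mul e2 e3 (μ.nonneg _) (by positivity)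
      _ = B4 ^ Δ * (C' * (2 * (μ lam)⁻¹) ^ α) * μ w0 ^ M := by
          rw [hM, pow_add, pow_mul, pow_mul, mul_pow, mul_pow]
          ring
  have hfin : ∀ a b : Ω, μ b ≤ μ (a - b) + μ a := by
    intro a b
    have := μ.add_le (-(a - b)) a
    rw [μ.map_neg] at this
    refine le_trans (le_of_eq ?_) this
    congr 1
    ring
  refine (hfin _ _).trans ((add_le_add hcmp hex).trans (le_of_eq ?_))
  ring

end lift

/-- lower bound near a nonzero value of the special fibre -/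
lemma G_lower {Ω : Type} [Field Ω] [Algebra K Ω] (μ : AbsoluteValue Ω ℝ) (G : K[X][X]) (θ : K)
    (hG : (top0 G).eval θ ≠ 0) : ∃ δ m0 : ℝ, 0 < δ ∧ 0 < m0 ∧ ∀ w u : Ω, μ w ≤ δ →
      μ (u - algebraMap K Ω θ) ≤ δ → m0 ≤ μ (ev2 G w u) := by
  set m : ℝ := μ (algebraMap K Ω ((top0 G).eval θ)) with hm
  have hm0 : 0 < m := by
    apply μ.pos
    rw [Ne, map_eq_zero]
    exact hG
  obtain ⟨C4, hC4, -, h4⟩ := Nice.ev2 (μ := μ) G 0 1 (μ (algebraMap K Ω θ) + 1)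
  refine ⟨min 1 (m / (2 * (C4 + 1))), m / 2, by positivity, by positivity, fun w u hw hu => ?_⟩
  set ε := min 1 (m / (2 * (C4 + 1))) with hε
  have hε1 : ε ≤ 1 := min_le_left _ _
  have hθ := μ.nonneg (algebraMap K Ω θ)
  have h5 := h4 ![w, u, 0] ![0, algebraMap K Ω θ, 0] ε (by
    intro i
    fin_cases i
    · show μ w ≤ _
      linarith
    · show μ u ≤ _
      have h6 := μ.add_le (u - algebraMap K Ω θ) (algebraMap K Ω θ)
      rw [sub_add_cancel] at h6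
      linarith
    · show μ (0 : Ω) ≤ _
      rw [map_zero]
      linarith) (by
    intro i
    fin_cases i
    · show μ (0 : Ω) ≤ _
      rw [map_zero]
      linarith
    · show μ (algebraMap K Ω θ) ≤ _
      linarith
    · show μ (0 : Ω) ≤ _
      rw [map_zero]
      linarith) (by
    intro i
    fin_cases i
    · show μ (w - 0) ≤ _
      rw [sub_zero]
      exact hw
    · exact hu
    · show μ ((0 : Ω) - 0) ≤ _
      rw [sub_self, map_zero]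
      positivity)
  have h6 : μ (ev2 G w u - algebraMap K Ω ((top0 G).eval θ)) ≤ C4 * ε := by
    have e1 : ev2 G 0 (algebraMap K Ω θ) = algebraMap K Ω ((top0 G).eval θ) := by
      rw [ev2_zero, aeval_algebraMap_apply_eq_algebraMap_eval]
    rw [← e1]
    exact h5
  have h7 : C4 * ε ≤ m / 2 := by
    have h9 : ε ≤ m / (2 * (C4 + 1)) := min_le_right _ _
    refine (mul_le_mul_of_nonneg_left h9 hC4).trans ?_
    rw [mul_div_assoc', div_le_div_iff₀ (by positivity) (by positivity)]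
    nlinarith
  have h8 := μ.add_le (ev2 G w u) (-(ev2 G w u - algebraMap K Ω ((top0 G).eval θ)))
  have h9 : ev2 G w u + -(ev2 G w u - algebraMap K Ω ((top0 G).eval θ))
      = algebraMap K Ω ((top0 G).eval θ) := by ring
  rw [h9, μ.map_neg] at h8
  linarith

/-- the special fibre of the pull back is a product of two coprime factors -/
lemma top0_factor (θ : D.ι) (Δ : ℕ) : top0 D.Q ^ Δ
    = (X - C (D.r θ)) ^ (D.m θ * Δ) *
      (C (D.c ^ Δ) * ∏ i ∈ univ.erase θ, (X - C (D.r i)) ^ (D.m i * Δ)) := by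
  rw [D.hT, mul_pow, ← Finset.prod_pow, ← Finset.mul_prod_erase univ _ (Finset.mem_univ θ),
    ← map_pow]
  simp only [← pow_mul]
  ring

lemma coprime_factor (θ : D.ι) (Δ : ℕ) : IsCoprime ((X - C (D.r θ)) ^ (D.m θ * Δ))
    (C (D.c ^ Δ) * ∏ i ∈ univ.erase θ, (X - C (D.r i)) ^ (D.m i * Δ)) := by
  have h1 : IsCoprime ((X - C (D.r θ)) ^ (D.m θ * Δ)) (C (D.c ^ Δ)) := by
    refine ⟨0, C (D.c ^ Δ)⁻¹, ?_⟩
    rw [zero_mul, zero_add, ← map_mul, inv_mul_cancel₀ (pow_ne_zero _ D.hc), map_one]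
  refine IsCoprime.mul_right h1 ?_
  refine IsCoprime.prod_right fun i hi => ?_
  refine IsCoprime.pow ?_
  refine isCoprime_X_sub_C_of_isUnit_sub ?_
  rw [isUnit_iff_ne_zero, sub_ne_zero]
  intro h
  exact (Finset.mem_erase.mp hi).1 (D.hr h).symm

/-- lifting a polynomial which is small at the next point to a factor which is small at the
present point -/
theorem lift_one (A : K[X][X]) (hA : A.Monic) (Δ α : ℕ) (hΔ : A.natDegree = Δ) (θ : D.ι) :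
    ∃ F : K[X][X], F.Monic ∧ F.natDegree = D.m θ * Δ ∧
      ∀ (Ω : Type) [Field Ω] [Algebra K Ω] (μ : AbsoluteValue Ω ℝ) (C0 C1 R C' : ℝ),
        0 ≤ C0 → 0 ≤ C1 → 0 ≤ R → 0 ≤ C' → ∃ δ C2 : ℝ, 0 < δ ∧ 0 ≤ C2 ∧
          ∀ w0 u0 s0 w1 u1 : Ω, D.Step μ C1 R w0 u0 s0 w1 u1 → μ w0 ≤ δ →
            μ (u0 - algebraMap K Ω (D.r θ)) ^ D.e ≤ C0 * μ w0 → μ (ev2 A w1 u1) ≤ C' * μ w1 ^ α →
            μ (ev2 F w0 u0) ≤ C2 * μ w0 ^ (D.ρ * Δ + D.d * α) := by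
  set M := D.ρ * Δ + D.d * α with hM
  obtain ⟨S, hS0, hS, hder⟩ := D.exists_S M
  obtain ⟨S', hS'⟩ := inv_mod S (by rw [hS0]; exact one_ne_zero) M
  have hc1 : A.coeff Δ = 1 := by
    rw [← hΔ]
    exact hA
  obtain ⟨F, G, hF, hFd, -, hG0, hdvd⟩ := hensel_factor _ _
    ((monic_X_sub_C (D.r θ)).pow (D.m θ * Δ)) (D.coprime_factor θ Δ) (D.liftPoly A Δ S S')
    (by rw [D.top0_lift A Δ S S' hc1, D.top0_factor θ Δ]) M
  refine ⟨F, hF, ?_, ?_⟩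
  · rw [hFd, (monic_X_sub_C (D.r θ)).natDegree_pow, natDegree_X_sub_C, mul_one]
  intro Ω _ _ μ C0 C1 R C' hC0 hC1 hR hC'
  obtain ⟨δ1, C2, hδ1, hC2, h1⟩ := D.lift_small (Ω := Ω) A Δ S S' (by rw [hΔ]) M hS0 hS hder hS' α
    hM μ C1 R C' hC1 hR hC'
  obtain ⟨δ2, m0, hδ2, hm0, h2⟩ := G_lower μ G (D.r θ) (by
    rw [hG0, eval_mul, eval_C, eval_prod]
    refine mul_ne_zero (pow_ne_zero _ D.hc) (Finset.prod_ne_zero_iff.mpr fun i hi => ?_)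
    rw [eval_pow, eval_sub, eval_X, eval_C]
    refine pow_ne_zero _ (sub_ne_zero.mpr fun h => ?_)
    exact (Finset.mem_erase.mp hi).1 (D.hr h).symm)
  obtain ⟨C3, hC3, h3⟩ := ev2_small_of_dvd (μ := μ) _ M hdvd R
  have he1 := D.he1
  refine ⟨min 1 (min δ1 (min δ2 (δ2 ^ D.e / (C0 + 1)))), (C2 + C3) / m0, by positivity,
    by positivity, fun w0 u0 s0 w1 u1 hst hw hnear hA1 => ?_⟩
  have hw1 : μ w0 ≤ 1 := hw.trans (min_le_left _ _)
  have hwδ1 : μ w0 ≤ δ1 := hw.trans ((min_le_right _ _).trans (min_le_left _ _))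
  have hwδ2 : μ w0 ≤ δ2 :=
    hw.trans ((min_le_right _ _).trans ((min_le_right _ _).trans (min_le_left _ _)))
  have hwδ3 : μ w0 ≤ δ2 ^ D.e / (C0 + 1) :=
    hw.trans ((min_le_right _ _).trans ((min_le_right _ _).trans (min_le_right _ _)))
  have hμw := μ.nonneg w0
  have hu : μ (u0 - algebraMap K Ω (D.r θ)) ≤ δ2 := by
    have h4 : μ (u0 - algebraMap K Ω (D.r θ)) ^ D.e ≤ δ2 ^ D.e := by
      rw [le_div_iff₀ (by positivity)] at hwδ3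
      linarith
    exact le_of_pow_le_pow_left₀ (by omega) hδ2.le h4
  have h4 := h2 w0 u0 hwδ2 hu
  have h5 := h1 w0 u0 s0 w1 u1 hst hwδ1 hA1
  have h6 := h3 w0 u0 hw1 hst.u0_le
  rw [ev2_sub, ev2_mul] at h6
  have h7 : μ (ev2 F w0 u0) * μ (ev2 G w0 u0) ≤ (C2 + C3) * μ w0 ^ M := by
    rw [← map_mul]
    have e1 : ev2 F w0 u0 * ev2 G w0 u0 = ev2 (D.liftPoly A Δ S S') w0 u0
        + -(ev2 (D.liftPoly A Δ S S') w0 u0 - ev2 F w0 u0 * ev2 G w0 u0) := by ring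
    rw [e1, add_mul]
    refine (μ.add_le _ _).trans (add_le_add h5 ?_)
    rw [μ.map_neg]
    exact h6
  rw [div_mul_eq_mul_div, le_div_iff₀ hm0]
  exact (mul_le_mul_of_nonneg_left h4 (μ.nonneg _)).trans h7

/-! ### Segments -/

/-- a segment of a slow orbit at a place at infinity, with its itinerary -/
structure Seg {Ω : Type} [Field Ω] [Algebra K Ω] (μ : AbsoluteValue Ω ℝ) (C0 C1 R δ : ℝ)
    (w u s : ℕ → Ω) (i : ℕ → D.ι) : Prop where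
  step : ∀ k, D.Step μ C1 R (w k) (u k) (s k) (w (k + 1)) (u (k + 1))
  small : ∀ k, μ (w k) ≤ δ
  near : ∀ k, μ (u k - algebraMap K Ω (D.r (i k))) ^ D.e ≤ C0 * μ (w k)

lemma Seg.shift {Ω : Type} [Field Ω] [Algebra K Ω] {μ : AbsoluteValue Ω ℝ} {C0 C1 R δ : ℝ}
    {w u s : ℕ → Ω} {i : ℕ → D.ι} (h : D.Seg μ C0 C1 R δ w u s i) :
    D.Seg μ C0 C1 R δ (fun k => w (k + 1)) (fun k => u (k + 1)) (fun k => s (k + 1))
      (fun k => i (k + 1)) :=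
  ⟨fun k => h.step (k + 1), fun k => h.small (k + 1), fun k => h.near (k + 1)⟩

lemma Seg.mono {Ω : Type} [Field Ω] [Algebra K Ω] {μ : AbsoluteValue Ω ℝ} {C0 C1 R δ δ' : ℝ}
    {w u s : ℕ → Ω} {i : ℕ → D.ι} (h : D.Seg μ C0 C1 R δ w u s i) (hδ : δ ≤ δ') :
    D.Seg μ C0 C1 R δ' w u s i :=
  ⟨h.step, fun k => (h.small k).trans hδ, h.near⟩

/-- `A` is small, to the order `α`, at the start of each segment whose itinerary starts with a
word in `V` -/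
def Good (L : ℕ) (V : Finset (Fin L → D.ι)) (A : K[X][X]) (α : ℕ) : Prop :=
  ∀ (Ω : Type) [Field Ω] [Algebra K Ω] (μ : AbsoluteValue Ω ℝ) (C0 C1 R : ℝ),
    0 ≤ C0 → 0 ≤ C1 → 0 ≤ R → ∃ δ C2 : ℝ, 0 < δ ∧ 0 ≤ C2 ∧ ∀ (w u s : ℕ → Ω) (i : ℕ → D.ι),
      D.Seg μ C0 C1 R δ w u s i → (fun k : Fin L => i k) ∈ V →
      μ (ev2 A (w 0) (u 0)) ≤ C2 * μ (w 0) ^ α

lemma Good.weaken {L : ℕ} {V : Finset (Fin L → D.ι)} {A : K[X][X]} {α α' : ℕ}
    (h : D.Good L V A α) (hα : α' ≤ α) : D.Good L V A α' := by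
  intro Ω _ _ μ C0 C1 R hC0 hC1 hR
  obtain ⟨δ, C2, hδ, hC2, h1⟩ := h Ω μ C0 C1 R hC0 hC1 hR
  refine ⟨min 1 δ, C2, by positivity, hC2, fun w u s i hs hi => ?_⟩
  refine (h1 w u s i (Seg.mono D hs (min_le_right _ _)) hi).trans ?_
  apply mul_le_mul_of_nonneg_left _ hC2
  exact pow_le_pow_of_le_one (μ.nonneg _) ((hs.small 0).trans (min_le_left _ _)) hα

lemma Good.pow {L : ℕ} {V : Finset (Fin L → D.ι)} {A : K[X][X]} {α : ℕ}
    (h : D.Good L V A α) (n : ℕ) : D.Good L V (A ^ n) (n * α) := by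
  intro Ω _ _ μ C0 C1 R hC0 hC1 hR
  obtain ⟨δ, C2, hδ, hC2, h1⟩ := h Ω μ C0 C1 R hC0 hC1 hR
  refine ⟨δ, C2 ^ n, hδ, by positivity, fun w u s i hs hi => ?_⟩
  rw [ev2_pow, map_pow, mul_comm n α, pow_mul, ← mul_pow]
  exact pow_le_pow_left₀ (μ.nonneg _) (h1 w u s i hs hi) n

/-- one step back, for all itineraries which start with a letter in `J` -/
theorem step_back (J : Finset D.ι) (L : ℕ) (V : D.ι → Finset (Fin L → D.ι)) (A : D.ι → K[X][X])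
    (Δ α : ℕ) (hA : ∀ θ ∈ J, (A θ).Monic ∧ (A θ).natDegree = Δ ∧ D.Good L (V θ) (A θ) α)
    (V' : Finset (Fin (L + 1) → D.ι)) (hV' : ∀ v ∈ V', v 0 ∈ J ∧ Fin.tail v ∈ V (v 0)) :
    ∃ F : K[X][X], F.Monic ∧ F.natDegree = (∑ θ ∈ J, D.m θ) * Δ ∧
      D.Good (L + 1) V' F (D.ρ * Δ + D.d * α) := by
  classical
  have hex : ∀ θ : D.ι, ∃ F : K[X][X], F.Monic ∧ (θ ∈ J → F.natDegree = D.m θ * Δ) ∧
      (θ ∈ J → ∀ (Ω : Type) [Field Ω] [Algebra K Ω] (μ : AbsoluteValue Ω ℝ) (C0 C1 R C' : ℝ),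
        0 ≤ C0 → 0 ≤ C1 → 0 ≤ R → 0 ≤ C' → ∃ δ C2 : ℝ, 0 < δ ∧ 0 ≤ C2 ∧
          ∀ w0 u0 s0 w1 u1 : Ω, D.Step μ C1 R w0 u0 s0 w1 u1 → μ w0 ≤ δ →
            μ (u0 - algebraMap K Ω (D.r θ)) ^ D.e ≤ C0 * μ w0 →
            μ (ev2 (A θ) w1 u1) ≤ C' * μ w1 ^ α →
            μ (ev2 F w0 u0) ≤ C2 * μ w0 ^ (D.ρ * Δ + D.d * α)) := by
    intro θ
    by_cases hθ : θ ∈ J
    · obtain ⟨F, h1, h2, h3⟩ := D.lift_one (A θ) (hA θ hθ).1 Δ α (hA θ hθ).2.1 θ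
      exact ⟨F, h1, fun _ => h2, fun _ => h3⟩
    · exact ⟨1, monic_one, fun h => absurd h hθ, fun h => absurd h hθ⟩
  choose F hFm hFd hF using hex
  refine ⟨∏ θ ∈ J, F θ, monic_prod_of_monic _ _ fun θ _ => hFm θ, ?_, ?_⟩
  · rw [natDegree_prod_of_monic _ _ fun θ _ => hFm θ, Finset.sum_mul]
    exact Finset.sum_congr rfl fun θ hθ => hFd θ hθ
  intro Ω _ _ μ C0 C1 R hC0 hC1 hR
  have h1 : ∀ θ : D.ι, ∃ δ C2 : ℝ, 0 < δ ∧ 0 ≤ C2 ∧ (θ ∈ J → ∀ (w u s : ℕ → Ω) (i : ℕ → D.ι),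
      D.Seg μ C0 C1 R δ w u s i → (fun k : Fin L => i k) ∈ V θ →
      μ (ev2 (A θ) (w 0) (u 0)) ≤ C2 * μ (w 0) ^ α) := by
    intro θ
    by_cases hθ : θ ∈ J
    · obtain ⟨δ, C2, h1, h2, h3⟩ := (hA θ hθ).2.2 Ω μ C0 C1 R hC0 hC1 hR
      exact ⟨δ, C2, h1, h2, fun _ => h3⟩
    · exact ⟨1, 0, one_pos, le_refl _, fun h => absurd h hθ⟩
  choose δ1 C' hδ1 hC' h1 using h1
  have h2 : ∀ θ : D.ι, ∃ δ C2 : ℝ, 0 < δ ∧ 0 ≤ C2 ∧ (θ ∈ J →
      ∀ w0 u0 s0 w1 u1 : Ω, D.Step μ C1 R w0 u0 s0 w1 u1 → μ w0 ≤ δ →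
        μ (u0 - algebraMap K Ω (D.r θ)) ^ D.e ≤ C0 * μ w0 →
        μ (ev2 (A θ) w1 u1) ≤ C' θ * μ w1 ^ α →
        μ (ev2 (F θ) w0 u0) ≤ C2 * μ w0 ^ (D.ρ * Δ + D.d * α)) := by
    intro θ
    by_cases hθ : θ ∈ J
    · obtain ⟨δ, C2, h1, h2, h3⟩ := hF θ hθ Ω μ C0 C1 R (C' θ) hC0 hC1 hR (hC' θ)
      exact ⟨δ, C2, h1, h2, fun _ => h3⟩
    · exact ⟨1, 0, one_pos, le_refl _, fun h => absurd h hθ⟩
  choose δ2 C2 hδ2 hC2 h2 using h2
  have h3 : ∀ θ : D.ι, ∃ B : ℝ, 0 ≤ B ∧ ∀ w u : Ω, μ w ≤ 1 → μ u ≤ R → μ (ev2 (F θ) w u) ≤ B :=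
    fun θ => ev2_bounded (F θ) R
  choose B hB h3 using h3
  have hmin : ∀ f : D.ι → ℝ, (∀ θ, 0 < f θ) → ∃ ε : ℝ, 0 < ε ∧ ∀ θ, ε ≤ f θ := by
    intro f hf
    rcases isEmpty_or_nonempty D.ι with h | h
    · exact ⟨1, one_pos, fun θ => (h.false θ).elim⟩
    · obtain ⟨θ, hθ⟩ := Finite.exists_min f
      exact ⟨f θ, hf θ, hθ⟩
  obtain ⟨ε1, hε1, hε1'⟩ := hmin δ1 hδ1
  obtain ⟨ε2, hε2, hε2'⟩ := hmin δ2 hδ2
  set B0 : ℝ := 1 + ∑ θ, B θ with hB0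
  have hBs : 0 ≤ ∑ θ, B θ := Finset.sum_nonneg fun θ _ => hB θ
  refine ⟨min 1 (min ε1 ε2), (∑ θ, C2 θ) * B0 ^ (J.card - 1), by positivity,
    mul_nonneg (Finset.sum_nonneg fun θ _ => hC2 θ) (pow_nonneg (by positivity) _),
    fun w u s i hs hi => ?_⟩
  obtain ⟨hiJ, hiV⟩ := hV' _ hi
  set θ := i 0 with hθ
  have hiJ' : θ ∈ J := hiJ
  have hw1 : μ (w 0) ≤ 1 := (hs.small 0).trans (min_le_left _ _)
  have h4 : μ (ev2 (A θ) (w 1) (u 1)) ≤ C' θ * μ (w 1) ^ α := by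
    refine h1 θ hiJ' _ _ _ _ (Seg.mono D (Seg.shift D hs) ?_) ?_
    · exact ((min_le_right _ _).trans (min_le_left _ _)).trans (hε1' θ)
    · exact hiV
  have h5 : μ (ev2 (F θ) (w 0) (u 0)) ≤ C2 θ * μ (w 0) ^ (D.ρ * Δ + D.d * α) :=
    h2 θ hiJ' _ _ _ _ _ (hs.step 0)
      ((hs.small 0).trans (((min_le_right _ _).trans (min_le_right _ _)).trans (hε2' θ)))
      (hs.near 0) h4
  rw [ev2_prod, map_prod, ← Finset.mul_prod_erase J _ hiJ']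
  have h6 : ∏ x ∈ J.erase θ, μ (ev2 (F x) (w 0) (u 0)) ≤ B0 ^ (J.card - 1) := by
    rw [← Finset.card_erase_of_mem hiJ', ← Finset.prod_const]
    refine Finset.prod_le_prod (fun _ _ => μ.nonneg _) fun x _ => ?_
    refine (h3 x _ _ hw1 (hs.step 0).u0_le).trans ?_
    have := Finset.single_le_sum (f := B) (fun x _ => hB x) (Finset.mem_univ x)
    linarith
  have h7 : C2 θ ≤ ∑ θ, C2 θ := Finset.single_le_sum (f := C2) (fun x _ => hC2 x)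
    (Finset.mem_univ θ)
  have hp : 0 ≤ μ (w 0) ^ (D.ρ * Δ + D.d * α) := pow_nonneg (μ.nonneg _) _
  calc _ ≤ ((∑ θ, C2 θ) * μ (w 0) ^ (D.ρ * Δ + D.d * α)) * B0 ^ (J.card - 1) :=
        mul_le_mul (h5.trans (mul_le_mul_of_nonneg_right h7 hp)) h6
          (Finset.prod_nonneg fun _ _ => μ.nonneg _)
          (mul_nonneg (Finset.sum_nonneg fun θ _ => hC2 θ) hp)
    _ = _ := by ring

end PunctData

end Pool.Agent.Lib.MP_9ec2c5_sk
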