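import Mathlib
import Pool.Agent.Lib.MP_9ec2c5_sk.Combi2
import Pool.Agent.Lib.MP_9ec2c5_nt_h65.Loc3

/-!
Late points of slow orbits near a puncture are the starts of segments.
-/

set_option autoImplicit false
set_option linter.unusedSectionVars false

namespace Pool.Agent.Lib.MP_9ec2c5_sk

open Polynomial Finset Filter Topology
open Pool.Agent.Lib.MP_9ec2c5_nt_h65

namespace PunctData

variable {K : Type} [Field K] (D : PunctData K)

section

variable {Ω : Type} [Field Ω] [Algebra K Ω] (μ : AbsoluteValue Ω ℝ)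

/-- the top coefficient dominates -/
lemma Q_lower (hQdeg : D.Q.natDegree ≤ D.e) : ∃ δ C1 c1 : ℝ, 0 < δ ∧ 1 ≤ C1 ∧ 0 < c1 ∧ ∀ w v : Ω, μ w ≤ δ → C1 ≤ μ v →
    c1 * μ v ^ D.e ≤ μ (ev2 D.Q w v) := by
  set e := D.e with he
  have he1 : 1 ≤ e := D.he1
  have htop : (D.Q.coeff e).coeff 0 = D.c := by
    have h1 : (top0 D.Q).coeff e = (D.Q.coeff e).coeff 0 := by
      rw [top0, coeff_map]
      rfl
    have h2 : (∏ i, (X - C (D.r i)) ^ D.m i : K[X]).Monic :=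
      monic_prod_of_monic _ _ fun i _ => (monic_X_sub_C _).pow _
    have h3 : (∏ i, (X - C (D.r i)) ^ D.m i : K[X]).natDegree = e := by
      rw [natDegree_prod_of_monic _ _ fun i _ => (monic_X_sub_C _).pow _, he, ← D.he]
      refine Finset.sum_congr rfl fun i _ => ?_
      rw [(monic_X_sub_C _).natDegree_pow, natDegree_X_sub_C, mul_one]
    have h4 := h2.coeff_natDegree
    rw [h3] at h4
    rw [← h1, D.hT, coeff_C_mul, h4, mul_one]
  set ν : ℝ := μ (algebraMap K Ω D.c) with hν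
  have hν0 : 0 < ν := by
    apply μ.pos
    rw [Ne, map_eq_zero]
    exact D.hc
  have hb : ∀ g : K[X], ∃ B : ℝ, 0 ≤ B ∧ ∀ w : Ω, μ w ≤ 1 → μ (aeval w g) ≤ B := by
    intro g
    obtain ⟨B, hB, h2, -⟩ := Nice.poly (μ := μ) g 0 1
    exact ⟨B, hB, fun w hw => h2 (fun _ => w) fun _ => hw⟩
  choose B hB hb using hb
  obtain ⟨C2, hC2, h2⟩ := small_of_dvd (μ := μ) (D.Q.coeff e - C D.c) 1 (by
    rw [pow_one, X_dvd_iff, coeff_sub, htop, coeff_C_zero, sub_self]) 1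
  set S : ℝ := ∑ j ∈ range e, B (D.Q.coeff j) with hS
  have hS0 : 0 ≤ S := Finset.sum_nonneg fun j _ => hB _
  refine ⟨min 1 (ν / (2 * (C2 + 1))), max 1 (4 * S / ν), ν / 4, by positivity, le_max_left _ _,
    by positivity, fun w v hw hv => ?_⟩
  have h3 : μ w ≤ 1 := hw.trans (min_le_left _ _)
  have h4 : μ w ≤ ν / (2 * (C2 + 1)) := hw.trans (min_le_right _ _)
  have hv1 : 1 ≤ μ v := (le_max_left _ _).trans hv
  have hv2 : 4 * S / ν ≤ μ v := (le_max_right _ _).trans hv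
  have h5 : ν / 2 ≤ μ (aeval w (D.Q.coeff e)) := by
    have h6 := h2 _ h3
    rw [map_sub, aeval_C, pow_one] at h6
    have h7 : C2 * μ w ≤ ν / 2 := by
      have h8 : (C2 + 1) * μ w ≤ (C2 + 1) * (ν / (2 * (C2 + 1))) :=
        mul_le_mul_of_nonneg_left h4 (by positivity)
      have h9 : (C2 + 1) * (ν / (2 * (C2 + 1))) = ν / 2 := by field_simp
      have := μ.nonneg w
      linarith
    have h8 := μ.add_le (aeval w (D.Q.coeff e)) (-(aeval w (D.Q.coeff e) - algebraMap K Ω D.c))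
    have h9 : aeval w (D.Q.coeff e) + -(aeval w (D.Q.coeff e) - algebraMap K Ω D.c)
        = algebraMap K Ω D.c := by ring
    rw [h9, μ.map_neg] at h8
    linarith
  have h6 : ev2 D.Q w v = (∑ j ∈ range e, aeval w (D.Q.coeff j) * v ^ j)
      + aeval w (D.Q.coeff e) * v ^ e := by
    have h7 : ev2 D.Q w v = ∑ j ∈ range (e + 1), aeval w (D.Q.coeff j) * v ^ j := by
      rw [ev2_eq]
      apply Finset.sum_subset
      · exact Finset.range_subset_range.mpr (Nat.succ_le_succ hQdeg)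
      · intro j _ hj
        rw [Finset.mem_range, not_lt] at hj
        rw [coeff_eq_zero_of_natDegree_lt (by omega), map_zero, zero_mul]
    rw [h7, Finset.sum_range_succ]
  have h7 : μ (∑ j ∈ range e, aeval w (D.Q.coeff j) * v ^ j) ≤ S * μ v ^ (e - 1) := by
    refine (μ.sum_le _ _).trans ?_
    rw [hS, Finset.sum_mul]
    apply Finset.sum_le_sum
    intro j hj
    rw [map_mul, map_pow]
    have hj' := Finset.mem_range.mp hj
    exact mul_le_mul (hb _ _ h3) (pow_le_pow_right₀ hv1 (by omega)) (pow_nonneg (μ.nonneg _) _)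
      (hB _)
  have h8 : S * μ v ^ (e - 1) ≤ ν / 4 * μ v ^ e := by
    have h9 : μ v ^ e = μ v * μ v ^ (e - 1) := by
      conv_lhs => rw [show e = (e - 1) + 1 by omega]
      rw [pow_succ]
      ring
    rw [h9]
    rw [div_le_iff₀ hν0] at hv2
    have h10 : 0 ≤ μ v ^ (e - 1) := pow_nonneg (μ.nonneg _) _
    nlinarith
  have h9 : ν / 2 * μ v ^ e ≤ μ (aeval w (D.Q.coeff e) * v ^ e) := by
    rw [map_mul, map_pow]
    exact mul_le_mul_of_nonneg_right h5 (pow_nonneg (μ.nonneg _) _)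
  have h10 : μ (aeval w (D.Q.coeff e) * v ^ e) ≤ μ (ev2 D.Q w v)
      + μ (∑ j ∈ range e, aeval w (D.Q.coeff j) * v ^ j) := by
    have h11 := μ.add_le (ev2 D.Q w v) (-(∑ j ∈ range e, aeval w (D.Q.coeff j) * v ^ j))
    have h12 : ev2 D.Q w v + -(∑ j ∈ range e, aeval w (D.Q.coeff j) * v ^ j)
        = aeval w (D.Q.coeff e) * v ^ e := by
      rw [h6]
      ring
    rw [h12, μ.map_neg] at h11
    exact h11
  linarith

/-- the normalised fibre coordinate of a slow segment is bounded -/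
lemma u_bounded (hQdeg : D.Q.natDegree ≤ D.e) (C1 : ℝ) (hC1 : 0 ≤ C1) : ∃ δ R : ℝ, 0 < δ ∧ 2 ≤ R ∧ ∀ w u s : ℕ → Ω,
    (∀ k, μ (w k) ≤ δ) → (∀ k, μ (s k - 1) ≤ C1 * μ (w k)) →
    (∀ k, ev2 D.Q (w k) (u k) = w k ^ D.ρ * (algebraMap K Ω D.lam * s k) ^ D.a * u (k + 1)) →
    (∃ A B : ℝ, ∀ k : ℕ, μ (u k) ≤ Real.exp ((D.d : ℝ) ^ k * (A + B * k))) →
    ∀ k, μ (u k) ≤ R := by
  obtain ⟨δ1, hδ1, h1⟩ := PunctData.s_bounds μ C1 hC1
  obtain ⟨δ2, R, c1, hδ2, hR, hc1, h2⟩ := D.Q_lower μ hQdeg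
  set lam : Ω := algebraMap K Ω D.lam with hlam
  have hlam0 : lam ≠ 0 := by
    rw [hlam, Ne, map_eq_zero]
    exact D.hlam
  have hl : 0 < μ lam := μ.pos hlam0
  set L : ℝ := (μ lam * 2) ^ D.a with hL
  have hL0 : 0 < L := by positivity
  refine ⟨min 1 (min δ1 (min δ2 (c1 / L))), max 2 R, by positivity, le_max_left _ _,
    fun w u s hw hs hf ⟨A, B, hup⟩ => ?_⟩
  set δ := min 1 (min δ1 (min δ2 (c1 / L))) with hδ
  have e1 : δ ≤ 1 := min_le_left _ _
  have e2 : δ ≤ δ1 := (min_le_right _ _).trans (min_le_left _ _)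
  have e3 : δ ≤ δ2 := (min_le_right _ _).trans ((min_le_right _ _).trans (min_le_left _ _))
  have e4 : δ ≤ c1 / L := (min_le_right _ _).trans ((min_le_right _ _).trans (min_le_right _ _))
  have hesc : ∀ k, max 2 R ≤ μ (u k) → μ (u k) ^ D.e ≤ μ (u (k + 1)) := by
    intro k hk
    have h3 := h2 (w k) (u k) ((hw k).trans e3) ((le_max_right _ _).trans hk)
    have h4 := (h1 (s k) (w k) ((hw k).trans e2) (hs k)).1
    rw [hf, map_mul, map_mul, map_pow] at h3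
    have hw1 : μ (w k) ≤ 1 := (hw k).trans e1
    have h5 : μ (w k) ^ D.ρ ≤ μ (w k) := by
      calc μ (w k) ^ D.ρ ≤ μ (w k) ^ 1 := pow_le_pow_of_le_one (μ.nonneg _) hw1 D.hρ
        _ = μ (w k) := pow_one _
    have h6 : μ ((lam * s k) ^ D.a) ≤ L := by
      rw [map_pow, map_mul, hL]
      exact pow_le_pow_left₀ (mul_nonneg hl.le (μ.nonneg _))
        (mul_le_mul_of_nonneg_left h4 hl.le) _
    have h7 : μ (w k) ^ D.ρ * μ ((lam * s k) ^ D.a) ≤ c1 := by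
      calc _ ≤ (c1 / L) * L :=
            mul_le_mul (h5.trans ((hw k).trans e4)) h6 (μ.nonneg _) (by positivity)
        _ = c1 := div_mul_cancel₀ _ hL0.ne'
    have h8 := h3.trans (mul_le_mul_of_nonneg_right h7 (μ.nonneg (u (k + 1))))
    exact le_of_mul_le_mul_left h8 hc1
  intro k
  by_contra hcon
  push Not at hcon
  set R' := max 2 R with hR'
  have hR2 : 2 ≤ R' := le_max_left _ _
  have he1 := D.he1
  have h5 : ∀ j : ℕ, R' ^ (D.e ^ j) ≤ μ (u (k + j)) := by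
    intro j
    induction j with
    | zero =>
      rw [pow_zero, pow_one, add_zero]
      exact hcon.le
    | succ j ih =>
      have h6 : R' ≤ μ (u (k + j)) := by
        refine le_trans ?_ ih
        calc R' = R' ^ 1 := (pow_one _).symm
          _ ≤ R' ^ (D.e ^ j) := pow_le_pow_right₀ (by linarith) (Nat.one_le_pow _ _ he1)
      have h7 := hesc (k + j) h6
      rw [pow_succ, pow_mul]
      exact (pow_le_pow_left₀ (by positivity) ih D.e).trans h7
  refine LocalData.growth_false D.d D.e D.hde ((D.d : ℝ) ^ k * (A + B * k)) ((D.d : ℝ) ^ k * B)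
    (Real.log R') (Real.log_pos (by linarith)) ?_
  intro j
  have h6 := (h5 j).trans (hup (k + j))
  have h7 := Real.log_le_log (by positivity) h6
  rw [Real.log_pow, Real.log_exp] at h7
  push_cast at h7
  refine h7.trans (le_of_eq ?_)
  rw [pow_add]
  ring

/-- the itinerary -/
lemma exists_itinerary [Nonempty D.ι] (C1 R : ℝ) (hC1 : 0 ≤ C1) (hR : 0 ≤ R) : ∃ δ C0 : ℝ, 0 < δ ∧ 0 ≤ C0 ∧
    ∀ w0 u0 s0 w1 u1 : Ω, D.Step μ C1 R w0 u0 s0 w1 u1 → μ w0 ≤ δ →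
      ∃ i, μ (u0 - algebraMap K Ω (D.r i)) ^ D.e ≤ C0 * μ w0 := by
  obtain ⟨δ1, hδ1, h1⟩ := PunctData.s_bounds μ C1 hC1
  obtain ⟨C2, hC2, h2⟩ := ev2_close_top0 (μ := μ) D.Q R
  set lam : Ω := algebraMap K Ω D.lam with hlam
  set L : ℝ := (μ lam * 2) ^ D.a with hL
  have hL0 : 0 ≤ L := pow_nonneg (mul_nonneg (μ.nonneg _) (by norm_num)) _
  set ν : ℝ := μ (algebraMap K Ω D.c) with hν
  have hν0 : 0 < ν := by
    apply μ.pos
    rw [Ne, map_eq_zero]
    exact D.hc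
  refine ⟨min 1 δ1, (L * R + C2) / ν, by positivity, by positivity,
    fun w0 u0 s0 w1 u1 hst hw => ?_⟩
  have hw1 : μ w0 ≤ 1 := hw.trans (min_le_left _ _)
  have h3 := (h1 s0 w0 (hw.trans (min_le_right _ _)) hst.s_near).1
  have h4 := h2 w0 u0 hw1 hst.u0_le
  have h5 : μ (ev2 D.Q w0 u0) ≤ (L * R) * μ w0 := by
    rw [hst.func, map_mul, map_mul, map_pow]
    have h6 : μ w0 ^ D.ρ ≤ μ w0 := by
      calc μ w0 ^ D.ρ ≤ μ w0 ^ 1 := pow_le_pow_of_le_one (μ.nonneg _) hw1 D.hρ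
        _ = μ w0 := pow_one _
    have h7 : μ ((lam * s0) ^ D.a) ≤ L := by
      rw [map_pow, map_mul, hL]
      exact pow_le_pow_left₀ (mul_nonneg (μ.nonneg _) (μ.nonneg _))
        (mul_le_mul_of_nonneg_left h3 (μ.nonneg _)) _
    calc μ w0 ^ D.ρ * μ ((lam * s0) ^ D.a) * μ u1 ≤ (μ w0 * L) * R :=
          mul_le_mul (mul_le_mul h6 h7 (μ.nonneg _) (μ.nonneg _)) hst.u1_le (μ.nonneg _)
            (mul_nonneg (μ.nonneg _) hL0)
      _ = _ := by ring
  have h6 : μ (aeval u0 (top0 D.Q)) ≤ (L * R + C2) * μ w0 := by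
    have h7 : aeval u0 (top0 D.Q) = ev2 D.Q w0 u0 + -(ev2 D.Q w0 u0 - aeval u0 (top0 D.Q)) := by
      ring
    rw [h7, add_mul]
    refine (μ.add_le _ _).trans (add_le_add h5 ?_)
    rw [μ.map_neg]
    exact h4
  obtain ⟨i, hi⟩ := Finite.exists_min fun i => μ (u0 - algebraMap K Ω (D.r i))
  refine ⟨i, ?_⟩
  have h7 : aeval u0 (top0 D.Q)
      = algebraMap K Ω D.c * ∏ i, (u0 - algebraMap K Ω (D.r i)) ^ D.m i := by
    rw [D.hT, map_mul, aeval_C, map_prod]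
    refine congrArg _ (Finset.prod_congr rfl fun i _ => ?_)
    rw [map_pow, map_sub, aeval_X, aeval_C]
  rw [h7, map_mul, map_prod] at h6
  have h8 : μ (u0 - algebraMap K Ω (D.r i)) ^ D.e
      ≤ ∏ i, μ ((u0 - algebraMap K Ω (D.r i)) ^ D.m i) := by
    rw [← D.he, ← Finset.prod_pow_eq_pow_sum]
    refine Finset.prod_le_prod (fun _ _ => pow_nonneg (μ.nonneg _) _) fun j _ => ?_
    rw [map_pow]
    exact pow_le_pow_left₀ (μ.nonneg _) (hi j) _
  rw [div_mul_eq_mul_div, le_div_iff₀ hν0]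
  calc _ ≤ (∏ i, μ ((u0 - algebraMap K Ω (D.r i)) ^ D.m i)) * ν :=
        mul_le_mul_of_nonneg_right h8 hν0.le
    _ = ν * ∏ i, μ ((u0 - algebraMap K Ω (D.r i)) ^ D.m i) := by ring
    _ ≤ _ := h6

/-- Late points of a slow sequence are the starts of segments. -/
theorem exists_segs [Nonempty D.ι] (hQdeg : D.Q.natDegree ≤ D.e) (w u s : ℕ → Ω) (C1 : ℝ)
    (hC1 : 0 ≤ C1) (hw : Tendsto (fun n => μ (w n)) atTop (𝓝 0))
    (hstep : ∀ᶠ n in atTop, s n ^ D.b = aeval (w n) D.P1 ∧ μ (s n - 1) ≤ C1 * μ (w n) ∧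
      w (n + 1) * (algebraMap K Ω D.lam * s n) = w n ^ D.d ∧
      ev2 D.Q (w n) (u n) = w n ^ D.ρ * (algebraMap K Ω D.lam * s n) ^ D.a * u (n + 1))
    (hslow : ∃ A B : ℝ, ∀ᶠ n : ℕ in atTop, μ (u n) ≤ Real.exp ((D.d : ℝ) ^ n * (A + B * n))) :
    ∃ C0 R : ℝ, 0 ≤ C0 ∧ 0 ≤ R ∧ ∀ δ : ℝ, 0 < δ → ∀ᶠ n in atTop, ∃ i : ℕ → D.ι,
      D.Seg μ C0 C1 R δ (fun k => w (n + k)) (fun k => u (n + k)) (fun k => s (n + k)) i := by
  obtain ⟨δ1, R, hδ1, hR, hub⟩ := D.u_bounded (Ω := Ω) μ hQdeg C1 hC1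
  obtain ⟨δ2, C0, hδ2, hC0, hit⟩ := D.exists_itinerary (Ω := Ω) μ C1 R hC1 (by linarith)
  obtain ⟨A, B, hup⟩ := hslow
  refine ⟨C0, R, hC0, by linarith, fun δ hδ => ?_⟩
  set ε := min δ (min δ1 δ2) with hε
  have hε0 : 0 < ε := by positivity
  have e2 : ε ≤ δ := min_le_left _ _
  have e3 : ε ≤ δ1 := (min_le_right _ _).trans (min_le_left _ _)
  have e4 : ε ≤ δ2 := (min_le_right _ _).trans (min_le_right _ _)
  obtain ⟨n0, hn0⟩ := eventually_atTop.mp
    ((hw.eventually (eventually_le_nhds hε0)).and (hstep.and hup))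
  rw [eventually_atTop]
  refine ⟨n0, fun n hn => ?_⟩
  have hwε : ∀ k, μ (w (n + k)) ≤ ε := fun k => (hn0 (n + k) (by omega)).1
  have huR : ∀ k, μ (u (n + k)) ≤ R := by
    refine hub (fun k => w (n + k)) (fun k => u (n + k)) (fun k => s (n + k))
      (fun k => (hwε k).trans e3) (fun k => (hn0 (n + k) (by omega)).2.1.2.1)
      (fun k => (hn0 (n + k) (by omega)).2.1.2.2.2)
      ⟨(D.d : ℝ) ^ n * (A + B * n), (D.d : ℝ) ^ n * B, fun k => ?_⟩
    refine ((hn0 (n + k) (by omega)).2.2).trans (le_of_eq ?_)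
    congr 1
    push_cast
    rw [pow_add]
    ring
  have hst : ∀ k, D.Step μ C1 R (w (n + k)) (u (n + k)) (s (n + k)) (w (n + (k + 1)))
      (u (n + (k + 1))) := fun k =>
    ⟨(hn0 (n + k) (by omega)).2.1.1, (hn0 (n + k) (by omega)).2.1.2.1,
      (hn0 (n + k) (by omega)).2.1.2.2.1, (hn0 (n + k) (by omega)).2.1.2.2.2, huR k,
      huR (k + 1)⟩
  have hit' : ∀ k, ∃ i, μ (u (n + k) - algebraMap K Ω (D.r i)) ^ D.e ≤ C0 * μ (w (n + k)) :=
    fun k => hit _ _ _ _ _ (hst k) ((hwε k).trans e4)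
  choose i hi using hit'
  exact ⟨i, ⟨hst, fun k => (hwε k).trans e2, hi⟩⟩

end

end PunctData

end Pool.Agent.Lib.MP_9ec2c5_sk
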