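import Mathlib
import Pool.Agent.Lib.MP_9ec2c5_sk.Punct

/-!
The data of a skew product at infinity and at a totally ramified fixed point, and the segments of
slow orbits there.
-/

set_option autoImplicit false
set_option linter.unusedSectionVars false

namespace Pool.Agent.Lib.MP_9ec2c5_sk

open Polynomial Finset Filter Topology
open Pool.Agent.Lib.MP_9ec2c5_nt_h65

/-- The data at infinity of `x' = p(x)`, `x ^ M y' = F(x, y)`. -/
structure InfData (K : Type) [Field K] extends PunctData K where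
  /-- the base polynomial -/
  p : K[X]
  /-- the fibre polynomial -/
  F : K[X][X]
  /-- the exponent of the denominator -/
  M : ℕ
  hb1 : b = 1
  hpd : p.natDegree = d
  hlamp : lam = p.leadingCoeff
  hP : P1 = C p.leadingCoeff⁻¹ * p.reverse
  hQ : ∀ (Ω : Type) [Field Ω] [Algebra K Ω] (w u : Ω), w ≠ 0 →
    ev2 Q w u = w ^ (ρ + M + a * d) * ev2 F w⁻¹ (w⁻¹ ^ a * u)
  hQdeg : Q.natDegree ≤ e
  hne : Nonempty ι

/-- The data at `0` of `lam x' = x ^ d`, `x ^ M y' = F(x, y)`. -/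
structure ZeroData (K : Type) [Field K] extends PunctData K where
  /-- the fibre polynomial -/
  F : K[X][X]
  /-- the exponent of the denominator -/
  M : ℕ
  hb1 : b = 1
  hP : P1 = 1
  hQ : ∀ (Ω : Type) [Field Ω] [Algebra K Ω] (w u : Ω), w ≠ 0 →
    w ^ M * ev2 Q w u = w ^ (ρ + a * d) * ev2 F w (w⁻¹ ^ a * u)
  hQdeg : Q.natDegree ≤ e
  hne : Nonempty ι

variable {K : Type} [Field K]

namespace InfData

variable (D : InfData K) {Ω : Type} [Field Ω] [Algebra K Ω] (μ : AbsoluteValue Ω ℝ)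

lemma base_eq (x : Ω) (hx : x ≠ 0) : aeval x D.p
    = algebraMap K Ω D.lam * x ^ D.d * aeval x⁻¹ D.P1 := by
  let _ : Invertible x := invertibleOfNonzero hx
  have h1 := eval₂_reverse_mul_pow (algebraMap K Ω) x D.p
  rw [invOf_eq_inv, D.hpd] at h1
  have h2 : aeval x⁻¹ D.P1
      = algebraMap K Ω D.p.leadingCoeff⁻¹ * eval₂ (algebraMap K Ω) x⁻¹ D.p.reverse := by
    rw [D.hP, map_mul, aeval_C]
    rfl
  have h3 : aeval x D.p = eval₂ (algebraMap K Ω) x D.p := rfl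
  have h5 : algebraMap K Ω D.p.leadingCoeff ≠ 0 := by
    rw [← D.hlamp, Ne, map_eq_zero]
    exact D.hlam
  rw [h3, ← h1, h2, D.hlamp, map_inv₀]
  field_simp

/-- Late points of a slow orbit are the starts of segments. -/
theorem segs (x y : ℕ → Ω) (hx : ∀ n, x (n + 1) = aeval (x n) D.p)
    (hy : ∀ n, x n ^ D.M * y (n + 1) = ev2 D.F (x n) (y n))
    (hinf : Tendsto (fun n => μ (x n)) atTop atTop)
    (hslow : ∃ A B : ℝ, ∀ n : ℕ, μ (y n) ≤ Real.exp ((D.d : ℝ) ^ n * (A + B * n))) :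
    ∃ C0 C1 R : ℝ, 0 ≤ C0 ∧ 0 ≤ C1 ∧ 0 ≤ R ∧ ∀ δ : ℝ, 0 < δ → ∀ᶠ n in atTop, x n ≠ 0 ∧
      ∃ (w u s : ℕ → Ω) (i : ℕ → D.ι), D.Seg μ C0 C1 R δ w u s i ∧
        w 0 = (x n)⁻¹ ∧ u 0 = (x n)⁻¹ ^ D.a * y n := by
  have := D.hne
  obtain ⟨C1, hC1, h1⟩ := small_of_dvd (μ := μ) (D.P1 - 1) 1 (by
    rw [pow_one, X_dvd_iff, coeff_sub, D.hP1, coeff_one_zero, sub_self]) 1
  set w : ℕ → Ω := fun n => (x n)⁻¹ with hw
  set u : ℕ → Ω := fun n => (x n)⁻¹ ^ D.a * y n with hu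
  set s : ℕ → Ω := fun n => aeval (x n)⁻¹ D.P1 with hs
  have hw0 : Tendsto (fun n => μ (w n)) atTop (𝓝 0) := by
    have h2 : (fun n => μ (w n)) = fun n => (μ (x n))⁻¹ := by
      funext n
      exact map_inv₀ μ (x n)
    rw [h2]
    exact tendsto_inv_atTop_zero.comp hinf
  have hl : algebraMap K Ω D.lam ≠ 0 := by
    rw [Ne, map_eq_zero]
    exact D.hlam
  obtain ⟨n0, hn0⟩ := eventually_atTop.mp (hinf.eventually (eventually_ge_atTop 1))
  have hne : ∀ n, n0 ≤ n → x n ≠ 0 := by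
    intro n hn h2
    have h3 := hn0 n hn
    rw [h2, map_zero] at h3
    linarith
  have hw1 : ∀ n, n0 ≤ n → μ (w n) ≤ 1 := by
    intro n hn
    show μ (x n)⁻¹ ≤ 1
    rw [map_inv₀]
    exact inv_le_one_of_one_le₀ (hn0 n hn)
  obtain ⟨C0, R, hC0, hR, h2⟩ := D.exists_segs μ D.hQdeg w u s C1 hC1 hw0 (by
    rw [eventually_atTop]
    refine ⟨n0, fun n hn => ?_⟩
    have hxn := hne n hn
    have hxn1 := hne (n + 1) (by omega)
    have hwn : w n ≠ 0 := inv_ne_zero hxn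
    have hbase : x (n + 1) = algebraMap K Ω D.lam * x n ^ D.d * s n := by
      rw [hx, D.base_eq (x n) hxn]
    have hsn : s n ≠ 0 := by
      intro h3
      rw [h3, mul_zero] at hbase
      exact hxn1 hbase
    have hnext : w (n + 1) * (algebraMap K Ω D.lam * s n) = w n ^ D.d := by
      show (x (n + 1))⁻¹ * _ = (x n)⁻¹ ^ D.d
      rw [hbase, inv_pow]
      have h4 : x n ^ D.d ≠ 0 := pow_ne_zero _ hxn
      field_simp
    refine ⟨?_, ?_, hnext, ?_⟩
    · rw [D.hb1, pow_one]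
    · have h3 := h1 (w n) (hw1 n hn)
      rw [map_sub, map_one, pow_one] at h3
      exact h3
    · rw [D.hQ Ω (w n) (u n) hwn]
      have h3 : (w n)⁻¹ = x n := inv_inv _
      have h4 : x n ^ D.a * u n = y n := by
        show x n ^ D.a * ((x n)⁻¹ ^ D.a * y n) = _
        rw [← mul_assoc, ← mul_pow, mul_inv_cancel₀ hxn, one_pow, one_mul]
      rw [h3, h4, ← hy]
      have h5 : w n ^ D.M * x n ^ D.M = 1 := by
        rw [← mul_pow]
        show ((x n)⁻¹ * x n) ^ D.M = 1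
        rw [inv_mul_cancel₀ hxn, one_pow]
      have h6 : (algebraMap K Ω D.lam * s n) ^ D.a * w (n + 1) ^ D.a = (w n ^ D.d) ^ D.a := by
        rw [← mul_pow, mul_comm, hnext]
      have h7 : u (n + 1) = w (n + 1) ^ D.a * y (n + 1) := rfl
      rw [h7]
      calc w n ^ (D.ρ + D.M + D.a * D.d) * (x n ^ D.M * y (n + 1))
          = w n ^ D.ρ * (w n ^ D.d) ^ D.a * (w n ^ D.M * x n ^ D.M) * y (n + 1) := by
            rw [pow_add, pow_add, ← pow_mul, mul_comm D.d D.a]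
            ring
        _ = w n ^ D.ρ * ((algebraMap K Ω D.lam * s n) ^ D.a * w (n + 1) ^ D.a) * y (n + 1) := by
            rw [h5, h6, mul_one]
        _ = _ := by ring)
    (by
      obtain ⟨A, B, h3⟩ := hslow
      refine ⟨A, B, ?_⟩
      rw [eventually_atTop]
      refine ⟨n0, fun n hn => ?_⟩
      refine le_trans ?_ (h3 n)
      show μ ((x n)⁻¹ ^ D.a * y n) ≤ _
      rw [map_mul, map_pow]
      calc _ ≤ 1 * μ (y n) := mul_le_mul_of_nonneg_right
            (pow_le_one₀ (μ.nonneg _) (hw1 n hn)) (μ.nonneg _)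
        _ = _ := one_mul _)
  refine ⟨C0, C1, R, hC0, hC1, hR, fun δ hδ => ?_⟩
  filter_upwards [h2 δ hδ, eventually_ge_atTop n0] with n hn hn1
  obtain ⟨i, hi⟩ := hn
  exact ⟨hne n hn1, _, _, _, i, hi, rfl, rfl⟩

end InfData

namespace ZeroData

variable (D : ZeroData K) {Ω : Type} [Field Ω] [Algebra K Ω] (μ : AbsoluteValue Ω ℝ)

/-- Late points of a slow orbit are the starts of segments. -/
theorem segs (x y : ℕ → Ω) (hx : ∀ n, x (n + 1) * algebraMap K Ω D.lam = x n ^ D.d)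
    (hx0 : ∀ n, x n ≠ 0)
    (hy : ∀ n, x n ^ D.M * y (n + 1) = ev2 D.F (x n) (y n))
    (hzero : Tendsto (fun n => μ (x n)) atTop (𝓝 0))
    (hslow : ∃ A B : ℝ, ∀ n : ℕ, μ (y n) ≤ Real.exp ((D.d : ℝ) ^ n * (A + B * n))) :
    ∃ C0 C1 R : ℝ, 0 ≤ C0 ∧ 0 ≤ C1 ∧ 0 ≤ R ∧ ∀ δ : ℝ, 0 < δ → ∀ᶠ n in atTop,
      ∃ (w u s : ℕ → Ω) (i : ℕ → D.ι), D.Seg μ C0 C1 R δ w u s i ∧
        w 0 = x n ∧ u 0 = x n ^ D.a * y n := by
  have := D.hne
  set u : ℕ → Ω := fun n => x n ^ D.a * y n with hu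
  obtain ⟨n0, hn0⟩ := eventually_atTop.mp
    (hzero.eventually (eventually_le_nhds (zero_lt_one (α := ℝ))))
  obtain ⟨C0, R, hC0, hR, h2⟩ := D.exists_segs μ D.hQdeg x u (fun _ => 1) 0 (le_refl _) hzero (by
    refine Eventually.of_forall fun n => ?_
    have hxn := hx0 n
    refine ⟨?_, ?_, ?_, ?_⟩
    · rw [D.hP, map_one, one_pow]
    · rw [sub_self, map_zero, zero_mul]
    · rw [mul_one]
      exact hx n
    · have h3 : (x n)⁻¹ ^ D.a * u n = y n := by
        show (x n)⁻¹ ^ D.a * (x n ^ D.a * y n) = _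
        rw [← mul_assoc, ← mul_pow, inv_mul_cancel₀ hxn, one_pow, one_mul]
      have h4 := D.hQ Ω (x n) (u n) hxn
      rw [h3, ← hy] at h4
      have h5 : x n ^ D.M ≠ 0 := pow_ne_zero _ hxn
      have h6 : u (n + 1) = x (n + 1) ^ D.a * y (n + 1) := rfl
      rw [h6, mul_one]
      apply mul_left_cancel₀ h5
      rw [h4]
      have h7 : algebraMap K Ω D.lam ^ D.a * x (n + 1) ^ D.a = (x n ^ D.d) ^ D.a := by
        rw [← mul_pow, mul_comm, hx]
      calc x n ^ (D.ρ + D.a * D.d) * (x n ^ D.M * y (n + 1))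
          = x n ^ D.M * (x n ^ D.ρ * (x n ^ D.d) ^ D.a * y (n + 1)) := by
            rw [pow_add, ← pow_mul, mul_comm D.d D.a]
            ring
        _ = _ := by
            rw [← h7]
            ring)
    (by
      obtain ⟨A, B, h3⟩ := hslow
      refine ⟨A, B, ?_⟩
      rw [eventually_atTop]
      refine ⟨n0, fun n hn => ?_⟩
      refine le_trans ?_ (h3 n)
      show μ (x n ^ D.a * y n) ≤ _
      rw [map_mul, map_pow]
      calc _ ≤ 1 * μ (y n) := mul_le_mul_of_nonneg_right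
            (pow_le_one₀ (μ.nonneg _) (hn0 n hn)) (μ.nonneg _)
        _ = _ := one_mul _)
  refine ⟨C0, 0, R, hC0, le_refl _, hR, fun δ hδ => ?_⟩
  filter_upwards [h2 δ hδ] with n hn
  obtain ⟨i, hi⟩ := hn
  exact ⟨_, _, _, i, hi, rfl, rfl⟩

end ZeroData

end Pool.Agent.Lib.MP_9ec2c5_sk
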