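import Mathlib
import Pool.Agent.Lib.MP_9ec2c5_sk.Data
import Pool.Agent.Lib.MP_9ec2c5_nt_h65.Build

/-!
Construction of the data of a skew product at infinity and at zero, for a large slope.
-/

set_option autoImplicit false
set_option linter.unusedSectionVars false

namespace Pool.Agent.Lib.MP_9ec2c5_sk

open Polynomial Finset Filter Topology
open Pool.Agent.Lib.MP_9ec2c5_nt_h65

variable {K : Type} [Field K]

/-- a bound for the degrees of the coefficients -/
lemma exists_degree_bound (q : K[X][X]) : ∃ N : ℕ, ∀ j, (q.coeff j).natDegree ≤ N := by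
  refine ⟨(range (q.natDegree + 1)).sup fun j => (q.coeff j).natDegree, fun j => ?_⟩
  rcases Nat.lt_or_ge q.natDegree j with h | h
  · rw [coeff_eq_zero_of_natDegree_lt h, natDegree_zero]
    exact Nat.zero_le _
  · exact Finset.le_sup (f := fun j => (q.coeff j).natDegree)
      (Finset.mem_range.mpr (Nat.lt_succ_of_le h))

/-- the data at infinity for a large slope -/
theorem exists_infData (p : K[X]) (q : K[X][X]) (hd : 1 ≤ p.natDegree)
    (hde : p.natDegree < q.natDegree) : ∃ D : InfData K, D.p = p ∧ D.F = q ∧ D.M = 0 ∧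
      D.d = p.natDegree ∧ D.e = q.natDegree ∧ 1 ≤ D.a ∧
      D.ρ = q.leadingCoeff.natDegree + D.a * (q.natDegree - p.natDegree) := by
  classical
  have hq0 : q ≠ 0 := by
    intro h
    rw [h, natDegree_zero] at hde
    omega
  have hp0 : p ≠ 0 := by
    intro h
    rw [h, natDegree_zero] at hd
    omega
  have hplc : p.leadingCoeff ≠ 0 := leadingCoeff_ne_zero.mpr hp0
  obtain ⟨N, hN⟩ := exists_degree_bound q
  obtain ⟨g, hg⟩ := Nat.exists_eq_add_of_le hde.le
  have hgg : q.natDegree - p.natDegree = g := by omega
  have hg1 : 1 ≤ g := by omega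
  set a : ℕ := N + 1 with ha
  set m := q.leadingCoeff.natDegree with hm
  have hwt : wt q (a : ℤ) 1 = ((m + a * q.natDegree : ℕ) : ℤ) := by
    rw [wt]
    push_cast
    ring
  have hlt : ∀ j, j < q.natDegree → ((q.coeff j).natDegree + a * j) < m + a * q.natDegree := by
    intro j hj
    have h1 := hN j
    have h2 : a * (j + 1) ≤ a * q.natDegree := Nat.mul_le_mul_left _ hj
    have h3 : a * (j + 1) = a * j + a := by ring
    omega
  have hs : ∀ j, q.coeff j ≠ 0 → (((1 : ℕ) : ℤ) * (q.coeff j).natDegree + (a : ℤ) * j : ℤ)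
      ≤ wt q (a : ℤ) 1 := by
    intro j hj
    have hje := le_natDegree_of_ne_zero hj
    rw [hwt]
    rcases hje.lt_or_eq with h | h
    · have h1 := hlt j h
      have h2 : (((q.coeff j).natDegree + a * j : ℕ) : ℤ) < ((m + a * q.natDegree : ℕ) : ℤ) := by
        exact_mod_cast h1
      push_cast at h2 ⊢
      linarith
    · rw [h]
      have h3 : (q.coeff q.natDegree).natDegree = m := rfl
      rw [h3]
      push_cast
      linarith
  have hlead : leadForm q (a : ℤ) 1 = C q.leadingCoeff.leadingCoeff * X ^ q.natDegree := by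
    ext j
    rw [coeff_C_mul, coeff_X_pow]
    split_ifs with h
    · rw [h, leadForm_coeff q _ 1 le_rfl, mul_one]
    · rw [mul_zero]
      rcases Nat.lt_or_ge q.natDegree j with h1 | h1
      · rw [leadForm, finsetSum_coeff]
        refine Finset.sum_eq_zero fun i hi => ?_
        rw [coeff_monomial, if_neg]
        have := Finset.mem_range.mp hi
        omega
      · rw [leadForm_coeff' q _ 1 j h1]
        refine Finset.sum_eq_zero fun i hi => ?_
        rw [if_neg]
        intro h2
        have h3 := Finset.mem_range.mp hi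
        have h4 := hlt j (by omega)
        have h5 : ((i + a * j : ℕ) : ℤ) = ((m + a * q.natDegree : ℕ) : ℤ) := by
          push_cast at h2 ⊢
          linarith
        have h6 : i + a * j = m + a * q.natDegree := by exact_mod_cast h5
        omega
  have hlc : q.leadingCoeff.leadingCoeff ≠ 0 :=
    leadingCoeff_ne_zero.mpr (leadingCoeff_ne_zero.mpr hq0)
  let D : InfData K :=
    { d := p.natDegree
      hd := hd
      e := q.natDegree
      hde := hde
      a := a
      ρ := m + a * g
      hρ := by
        have : 1 * 1 ≤ a * g := Nat.mul_le_mul (by omega) hg1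
        omega
      b := 1
      hb := le_rfl
      hb0 := by
        rw [Nat.cast_one]
        exact one_ne_zero
      P1 := C p.leadingCoeff⁻¹ * p.reverse
      hP1 := by rw [coeff_C_mul, coeff_zero_reverse, inv_mul_cancel₀ hplc]
      lam := p.leadingCoeff
      hlam := hplc
      Q := Qp q (a : ℤ) 1
      c := q.leadingCoeff.leadingCoeff
      hc := hlc
      ι := Unit
      hfin := inferInstance
      hdec := inferInstance
      r := fun _ => 0
      hr := fun _ _ _ => rfl
      m := fun _ => q.natDegree
      hm := fun _ => by omega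
      hT := by
        rw [top0_Qp hs, hlead]
        simp
      he := by simp
      p := p
      F := q
      M := 0
      hb1 := rfl
      hpd := rfl
      hlamp := rfl
      hP := rfl
      hQ := by
        intro Ω _ _ w u hw
        rw [ev2_Qp hs w u hw, hwt, zpow_natCast, zpow_natCast, pow_one]
        have h1 : m + a * q.natDegree = m + a * g + 0 + a * p.natDegree := by
          rw [hg]
          ring
        rw [h1]
      hQdeg := natDegree_Qp _ _ _
      hne := inferInstance }
  exact ⟨D, rfl, rfl, rfl, rfl, rfl, by show 1 ≤ a; omega, by rw [hgg]⟩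

/-- the data at zero for a large slope -/
theorem exists_zeroData (lam : K) (hlam : lam ≠ 0) (d : ℕ) (hd : 1 ≤ d) (F : K[X][X])
    (hde : d < F.natDegree) (M m0 : ℕ) (g : K[X]) (hFe : F.leadingCoeff = X ^ m0 * g)
    (hg0 : g.coeff 0 ≠ 0) : ∃ D : ZeroData K, D.lam = lam ∧ D.F = F ∧ D.M = M ∧
      D.d = d ∧ D.e = F.natDegree ∧ D.ρ + m0 = M + D.a * (F.natDegree - d) := by
  classical
  set e := F.natDegree with he
  obtain ⟨k, hk⟩ := Nat.exists_eq_add_of_le hde.le
  have hkk : e - d = k := by omega
  have hk1 : 1 ≤ k := by omega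
  set a : ℕ := m0 + 1 with ha
  set Q : K[X][X] := (∑ j ∈ range e, monomial j (X ^ (a * (e - j) - m0) * F.coeff j))
    + monomial e g with hQ
  have hpos : ∀ j, j < e → 1 ≤ a * (e - j) - m0 := by
    intro j hj
    have h1 : a * 1 ≤ a * (e - j) := Nat.mul_le_mul_left _ (by omega)
    omega
  have htop : top0 Q = C (g.coeff 0) * X ^ e := by
    rw [hQ, top0_add, top0, Polynomial.map_sum, Finset.sum_eq_zero, zero_add, top0, map_monomial,
      constantCoeff_apply, C_mul_X_pow_eq_monomial]
    intro j hj
    have hj' := Finset.mem_range.mp hj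
    have h1 := hpos j hj'
    rw [map_monomial, map_mul, map_pow, constantCoeff_apply, coeff_X_zero, zero_pow (by omega),
      zero_mul, monomial_zero_right]
  have hev : ∀ (Ω : Type) [Field Ω] [Algebra K Ω] (w u : Ω), w ≠ 0 →
      w ^ M * ev2 Q w u = w ^ ((M + a * k - m0) + a * d) * ev2 F w (w⁻¹ ^ a * u) := by
    intro Ω _ _ w u hw
    have h1 : ev2 Q w u = (∑ j ∈ range e, w ^ (a * (e - j) - m0) * aeval w (F.coeff j) * u ^ j)
        + aeval w g * u ^ e := by
      rw [hQ, ev2_add, ev2_sum]
      congr 1
      · refine Finset.sum_congr rfl fun j _ => ?_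
        unfold ev2
        rw [eval₂_monomial]
        show aeval w _ * u ^ j = _
        rw [map_mul, map_pow, aeval_X]
      · unfold ev2
        rw [eval₂_monomial]
        rfl
    have h2 : ev2 F w (w⁻¹ ^ a * u) = (∑ j ∈ range e, aeval w (F.coeff j) * (w⁻¹ ^ a * u) ^ j)
        + w ^ m0 * aeval w g * (w⁻¹ ^ a * u) ^ e := by
      rw [ev2_eq, ← he, Finset.sum_range_succ]
      have h3 : F.coeff e = X ^ m0 * g := by
        rw [he]
        exact hFe
      rw [h3, map_mul, map_pow, aeval_X]
    have hX : M + a * k - m0 + a * d + m0 = M + a * e := by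
      have h4 : a * 1 ≤ a * k := Nat.mul_le_mul_left _ hk1
      have h5 : a * e = a * d + a * k := by
        rw [hk]
        ring
      omega
    rw [h1, h2, mul_add, mul_add, Finset.mul_sum, Finset.mul_sum]
    have hwa : ∀ j : ℕ, (w⁻¹ ^ a * u) ^ j = (w ^ (a * j))⁻¹ * u ^ j := by
      intro j
      rw [mul_pow, inv_pow, inv_pow, ← pow_mul]
    congr 1
    · refine Finset.sum_congr rfl fun j hj => ?_
      have hj' := Finset.mem_range.mp hj
      have h6 : M + a * k - m0 + a * d = M + (a * (e - j) - m0) + a * j := by
        have h7 := hpos j hj'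
        have h8 : a * e = a * (e - j) + a * j := by
          rw [← mul_add]
          congr 1
          omega
        omega
      rw [hwa, h6, pow_add, pow_add]
      have h9 : w ^ (a * j) ≠ 0 := pow_ne_zero _ hw
      field_simp
    · rw [hwa]
      have h9 : w ^ (a * e) ≠ 0 := pow_ne_zero _ hw
      have h10 : w ^ (M + a * k - m0 + a * d) * w ^ m0 = w ^ M * w ^ (a * e) := by
        rw [← pow_add, hX, pow_add]
      calc w ^ M * (aeval w g * u ^ e) = (w ^ M * w ^ (a * e)) * (w ^ (a * e))⁻¹
            * (aeval w g * u ^ e) := by field_simp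
        _ = _ := by
            rw [← h10]
            ring
  let D : ZeroData K :=
    { d := d
      hd := hd
      e := e
      hde := hde
      a := a
      ρ := M + a * k - m0
      hρ := by
        have h4 : a * 1 ≤ a * k := Nat.mul_le_mul_left _ hk1
        omega
      b := 1
      hb := le_rfl
      hb0 := by
        rw [Nat.cast_one]
        exact one_ne_zero
      P1 := 1
      hP1 := coeff_one_zero
      lam := lam
      hlam := hlam
      Q := Q
      c := g.coeff 0
      hc := hg0
      ι := Unit
      hfin := inferInstance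
      hdec := inferInstance
      r := fun _ => 0
      hr := fun _ _ _ => rfl
      m := fun _ => e
      hm := fun _ => by omega
      hT := by
        rw [htop]
        simp
      he := by simp
      F := F
      M := M
      hb1 := rfl
      hP := rfl
      hQ := hev
      hQdeg := by
        rw [hQ]
        refine (natDegree_add_le _ _).trans (max_le ?_ (natDegree_monomial_le _))
        refine natDegree_sum_le_of_forall_le _ _ fun j hj => ?_
        refine (natDegree_monomial_le _).trans ?_
        have := Finset.mem_range.mp hj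
        omega
      hne := inferInstance }
  refine ⟨D, rfl, rfl, rfl, rfl, rfl, ?_⟩
  show M + a * k - m0 + m0 = M + a * (e - d)
  rw [hkk]
  have h4 : a * 1 ≤ a * k := Nat.mul_le_mul_left _ hk1
  omega

/-- the universal exponents dominate -/
lemma exists_large (d e : ℕ) (hd : 1 ≤ d) (hde : d < e) (gg : ℕ → ℕ)
    (hs : ∀ L, gg (L + 1) = e ^ L + d * gg L) (c : ℕ) : ∃ L : ℕ, 1 ≤ L ∧ c * d ^ L < gg L := by
  have hd0 : (0 : ℝ) < d := by exact_mod_cast hd
  have h1 : (1 : ℝ) < (e : ℝ) / d := by
    rw [one_lt_div hd0]
    exact_mod_cast hde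
  obtain ⟨L, hL⟩ := ((tendsto_pow_atTop_atTop_of_one_lt h1).eventually
    (eventually_gt_atTop ((c * d : ℕ) : ℝ))).exists
  refine ⟨L + 1, by omega, ?_⟩
  have h3 : (0 : ℝ) < (d : ℝ) ^ L := by positivity
  rw [div_pow, lt_div_iff₀ h3] at hL
  have h4 : c * d * d ^ L < e ^ L := by exact_mod_cast hL
  rw [hs]
  have h5 : c * d ^ (L + 1) = c * d * d ^ L := by
    rw [pow_succ]
    ring
  omega

end Pool.Agent.Lib.MP_9ec2c5_sk
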