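import Mathlib
import Pool.Agent.Lib.MP_9ec2c5_nt_h65.Growth2

/-!
Clean windows of times, and bounds for the fibre coordinate of a slow orbit at their starts.
-/

set_option autoImplicit false
set_option linter.unusedSectionVars false

namespace Pool.Agent.Lib.MP_9ec2c5_sk

open Polynomial Finset Height Filter Topology AdmissibleAbsValues
open Pool.Agent.Lib.MP_9ec2c5_nt_h65

/-- a window without bad times, by the pigeonhole principle -/
lemma clean_window {V : Type} (F : Finset V) (bad : V → ℕ → Prop) (J L n : ℕ)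
    (h : ∀ v ∈ F, ∀ n1 n2 : ℕ, n ≤ n1 → n1 ≤ n2 → n2 ≤ n + (F.card + 1) * (J + L) →
      bad v n1 → bad v n2 → n2 < n1 + J) :
    ∃ i ≤ F.card, ∀ v ∈ F, ∀ k < L, ¬ bad v (n + i * (J + L) + k) := by
  classical
  by_contra hcon
  push Not at hcon
  have h1 : ∀ i : ℕ, ∃ v : V, ∃ k : ℕ, i ≤ F.card → v ∈ F ∧ k < L ∧ bad v (n + i * (J + L) + k) := by
    intro i
    by_cases hi : i ≤ F.card
    · obtain ⟨v, hv, k, hk, hb⟩ := hcon i hi
      exact ⟨v, k, fun _ => ⟨hv, hk, hb⟩⟩
    · obtain ⟨v, hv, k, hk, hb⟩ := hcon 0 (Nat.zero_le _)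
      exact ⟨v, k, fun h => absurd h hi⟩
  choose f k hf using h1
  obtain ⟨i, hi, j, hj, hij, hfij⟩ := Finset.exists_ne_map_eq_of_card_lt_of_maps_to
    (s := range (F.card + 1)) (t := F) (by rw [card_range]; exact Nat.lt_succ_self _)
    (f := f) (by
      intro i hi
      have hi' := Finset.mem_range.mp (Finset.mem_coe.mp hi)
      exact (hf i (by omega)).1)
  have key : ∀ i j : ℕ, i ≤ F.card → j ≤ F.card → i < j → f i = f j → False := by
    intro i j hi hj hij hfij
    obtain ⟨h1, h2, h3⟩ := hf i hi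
    obtain ⟨h4, h5, h6⟩ := hf j hj
    obtain ⟨c, rfl⟩ := Nat.exists_eq_add_of_lt hij
    have e1 : (i + c + 1) * (J + L) = i * (J + L) + c * (J + L) + (J + L) := by ring
    have e2 : (i + c + 1) * (J + L) ≤ F.card * (J + L) := Nat.mul_le_mul_right _ hj
    have e3 : (F.card + 1) * (J + L) = F.card * (J + L) + (J + L) := by ring
    have h7 := h (f i) h1 (n + i * (J + L) + k i) (n + (i + c + 1) * (J + L) + k (i + c + 1))
      (by omega) (by omega) (by omega) h3 (by rw [hfij]; exact h6)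
    omega
  have hi' := Finset.mem_range.mp hi
  have hj' := Finset.mem_range.mp hj
  rcases Nat.lt_or_gt_of_ne hij with h2 | h2
  · exact key i j (by omega) (by omega) h2 hfij
  · exact key j i (by omega) (by omega) h2 hfij.symm

/-- bound at the start of a clean window -/
lemma clean_real (d e : ℕ) (hd : 1 ≤ d) (hde : d < e) (B η : ℝ) (hB : 0 ≤ B) (hη : 0 < η) :
    ∃ (ε : ℝ) (L : ℕ), 0 < ε ∧ ∀ (Y κ G : ℕ → ℝ) (C0 C1 : ℝ) (n0 : ℕ), 0 ≤ C0 → 0 ≤ C1 →
      (∀ n, 0 ≤ κ n) → (∀ n, κ (n + 1) ≤ d * κ n + C0) → (∀ n, n0 ≤ n → Y n ≤ B * (κ n + 1)) →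
      (∀ n, n0 ≤ n → Y n ≤ Y (n + 1) / e + G n + C1) →
      ∃ C2 : ℝ, 0 ≤ C2 ∧ ∀ n, n0 ≤ n → (∀ k < L, G (n + k) ≤ ε * κ (n + k)) →
        Y n ≤ η * κ n + C2 := by
  have hd0 : (0 : ℝ) < d := by exact_mod_cast hd
  have he0 : (0 : ℝ) < e := by exact_mod_cast (by omega : 0 < e)
  have he1 : (1 : ℝ) ≤ e := by exact_mod_cast (by omega : 1 ≤ e)
  have hr0 : (0 : ℝ) ≤ (d : ℝ) / e := by positivity
  have hr1 : (d : ℝ) / e < 1 := by
    rw [div_lt_one he0]
    exact_mod_cast hde
  obtain ⟨L, hL⟩ := exists_pow_lt_of_lt_one (show (0 : ℝ) < η / (2 * (B + 1)) by positivity) hr1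
  have hL' : B * ((d : ℝ) / e) ^ L ≤ η / 2 := by
    have h1 : (B + 1) * ((d : ℝ) / e) ^ L ≤ (B + 1) * (η / (2 * (B + 1))) :=
      mul_le_mul_of_nonneg_left hL.le (by positivity)
    have h2 : (B + 1) * (η / (2 * (B + 1))) = η / 2 := by field_simp
    have h3 : 0 ≤ ((d : ℝ) / e) ^ L := by positivity
    nlinarith
  refine ⟨η / (2 * (L + 1)), L, by positivity, ?_⟩
  intro Y κ G C0 C1 n0 hC0 hC1 hκ hκ1 hY hstep
  set ε := η / (2 * ((L : ℝ) + 1)) with hε
  have hε0 : 0 < ε := by positivity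
  have hεL : L * ε ≤ η / 2 := by
    rw [hε, mul_div_assoc', div_le_div_iff₀ (by positivity) (by norm_num)]
    nlinarith
  have hκk : ∀ n k : ℕ, κ (n + k) ≤ (d : ℝ) ^ k * (κ n + C0 * k) := by
    intro n k
    exact base_slow d hd (fun j => κ (n + j)) C0 hC0 (fun j => hκ1 (n + j)) k
  have hsum : ∀ k n : ℕ, n0 ≤ n → Y n ≤ Y (n + k) / (e : ℝ) ^ k
      + ∑ i ∈ range k, (G (n + i) + C1) / (e : ℝ) ^ i := by
    intro k
    induction k with
    | zero =>
      intro n _
      simp
    | succ k ih =>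
      intro n hn
      have h1 := ih n hn
      have h2 := hstep (n + k) (by omega)
      have h3 : Y (n + k) / (e : ℝ) ^ k ≤ (Y (n + k + 1) / e + G (n + k) + C1) / (e : ℝ) ^ k :=
        div_le_div_of_nonneg_right h2 (by positivity)
      have h4 : (Y (n + k + 1) / e + G (n + k) + C1) / (e : ℝ) ^ k
          = Y (n + (k + 1)) / (e : ℝ) ^ (k + 1) + (G (n + k) + C1) / (e : ℝ) ^ k := by
        rw [← add_assoc n k 1, pow_succ]
        field_simp
        ring
      rw [Finset.sum_range_succ]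
      linarith
  refine ⟨η * (C0 * L) + B + L * C1, by positivity, fun n hn hG => ?_⟩
  have h1 := hsum L n hn
  have hκn := hκ n
  have hX : 0 ≤ κ n + C0 * L := by positivity
  have h2 : Y (n + L) / (e : ℝ) ^ L ≤ η / 2 * (κ n + C0 * L) + B := by
    have h3 := hY (n + L) (by omega)
    have h4 := hκk n L
    have h5 : (1 : ℝ) ≤ (e : ℝ) ^ L := one_le_pow₀ he1
    calc Y (n + L) / (e : ℝ) ^ L ≤ (B * (κ (n + L) + 1)) / (e : ℝ) ^ L :=
          div_le_div_of_nonneg_right h3 (by positivity)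
      _ ≤ (B * ((d : ℝ) ^ L * (κ n + C0 * L) + 1)) / (e : ℝ) ^ L := by
          apply div_le_div_of_nonneg_right _ (by positivity)
          exact mul_le_mul_of_nonneg_left (by linarith) hB
      _ = (B * ((d : ℝ) / e) ^ L) * (κ n + C0 * L) + B / (e : ℝ) ^ L := by
          rw [div_pow]
          field_simp
      _ ≤ η / 2 * (κ n + C0 * L) + B :=
          add_le_add (mul_le_mul_of_nonneg_right hL' hX) (div_le_self hB h5)
  have h3 : ∑ i ∈ range L, (G (n + i) + C1) / (e : ℝ) ^ i ≤ L * (ε * (κ n + C0 * L) + C1) := by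
    have h4 : ∀ i ∈ range L, (G (n + i) + C1) / (e : ℝ) ^ i ≤ ε * (κ n + C0 * L) + C1 := by
      intro i hi
      have hi' := Finset.mem_range.mp hi
      have h5 := hG i hi'
      have h6 := hκk n i
      have h7 : (1 : ℝ) ≤ (e : ℝ) ^ i := one_le_pow₀ he1
      have h8 : κ (n + i) / (e : ℝ) ^ i ≤ κ n + C0 * L := by
        rw [div_le_iff₀ (by positivity)]
        have h9 : (d : ℝ) ^ i ≤ (e : ℝ) ^ i := pow_le_pow_left₀ hd0.le (by exact_mod_cast hde.le) i
        have h10 : κ n + C0 * i ≤ κ n + C0 * L := by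
          have : (i : ℝ) ≤ L := by exact_mod_cast hi'.le
          nlinarith
        have h11 : 0 ≤ κ n + C0 * i := by positivity
        calc κ (n + i) ≤ (d : ℝ) ^ i * (κ n + C0 * i) := h6
          _ ≤ (e : ℝ) ^ i * (κ n + C0 * L) :=
              mul_le_mul h9 h10 h11 (by positivity)
          _ = _ := by ring
      calc (G (n + i) + C1) / (e : ℝ) ^ i ≤ (ε * κ (n + i) + C1) / (e : ℝ) ^ i :=
            div_le_div_of_nonneg_right (by linarith) (by positivity)
        _ = ε * (κ (n + i) / (e : ℝ) ^ i) + C1 / (e : ℝ) ^ i := by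
            field_simp
        _ ≤ ε * (κ n + C0 * L) + C1 :=
            add_le_add (mul_le_mul_of_nonneg_left h8 hε0.le) (div_le_self hC1 h7)
    refine (Finset.sum_le_card_nsmul _ _ _ h4).trans (le_of_eq ?_)
    rw [card_range, nsmul_eq_mul]
  have h4 : L * (ε * (κ n + C0 * L) + C1) ≤ η / 2 * (κ n + C0 * L) + L * C1 := by
    have := mul_le_mul_of_nonneg_right hεL hX
    nlinarith
  have h5 : (0 : ℝ) ≤ (C0 * L) := by positivity
  nlinarith

variable {K : Type} [Field K] [NumberField K]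

/-- one step backwards at a place where the base orbit is bounded -/
lemma back_step (q : K[X][X]) (he : 1 ≤ q.natDegree) (x y : ℕ → K)
    (hy : ∀ n, y (n + 1) = q.evalEval (x n) (y n)) (v : AbsoluteValue K ℝ)
    (hb : ∃ B : ℝ, ∀ n, v (x n) ≤ B) : ∃ C1 : ℝ, 0 ≤ C1 ∧ ∀ n,
      q.leadingCoeff.eval (x n) ≠ 0 → Real.log (max 1 (v (y n)))
        ≤ Real.log (max 1 (v (y (n + 1)))) / q.natDegree
          + max 0 (-Real.log (v (q.leadingCoeff.eval (x n)))) + C1 := by
  obtain ⟨Bx, hBx⟩ := hb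
  have hb : ∀ g : K[X], ∃ B : ℝ, 0 ≤ B ∧ ∀ n, v (g.eval (x n)) ≤ B := by
    intro g
    obtain ⟨B, hB, h2, -⟩ := Nice.poly (K := K) (Ω := K) (μ := v) g 0 Bx
    refine ⟨B, hB, fun n => ?_⟩
    have h3 : aeval (x n) g = g.eval (x n) := by rw [coe_aeval_eq_eval]
    rw [← h3]
    exact h2 (fun _ => x n) fun _ => hBx n
  choose Bc hBc hb using hb
  set e := q.natDegree with hedef
  set S : ℝ := 1 + ∑ j ∈ range e, Bc (q.coeff j) with hS
  have hsum0 : 0 ≤ ∑ j ∈ range e, Bc (q.coeff j) := Finset.sum_nonneg fun j _ => hBc _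
  have hS1 : 1 ≤ S := by linarith
  have hl2 : 0 ≤ Real.log 2 := Real.log_nonneg (by norm_num)
  have hlS : 0 ≤ Real.log (2 * S) := Real.log_nonneg (by linarith)
  have he0 : (0 : ℝ) < e := by exact_mod_cast he
  have he1 : (1 : ℝ) ≤ e := by exact_mod_cast he
  refine ⟨Real.log (2 * S) + Real.log 2, by positivity, fun n hg => ?_⟩
  set G := v (q.leadingCoeff.eval (x n)) with hG
  have hG0 : 0 < G := v.pos hg
  set t := v (y n) with ht
  set t' := v (y (n + 1)) with ht'
  have hl' : 0 ≤ Real.log (max 1 t') := Real.log_nonneg (le_max_left _ _)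
  have hm0 : 0 ≤ max 0 (-Real.log G) := le_max_left _ _
  have hm1 : -Real.log G ≤ max 0 (-Real.log G) := le_max_right _ _
  have hdiv : 0 ≤ Real.log (max 1 t') / e := by positivity
  rcases le_total t 1 with h1 | h1
  · rw [max_eq_left h1, Real.log_one]
    positivity
  rw [max_eq_right h1]
  have ht0 : 0 < t := by linarith
  rcases le_or_gt (G * t) (2 * S) with h2 | h2
  · have h3 := Real.log_le_log (by positivity) h2
    rw [Real.log_mul hG0.ne' ht0.ne'] at h3
    linarith
  · have h3 : q.evalEval (x n) (y n)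
        = (∑ j ∈ range e, (q.coeff j).eval (x n) * y n ^ j) + q.leadingCoeff.eval (x n) * y n ^ e := by
      conv_lhs => rw [q.as_sum_range_C_mul_X_pow]
      rw [evalEval_finsetSum, ← hedef, Finset.sum_range_succ]
      congr 1
      · refine Finset.sum_congr rfl fun j _ => ?_
        rw [evalEval_mul, evalEval_C, evalEval_pow, evalEval_X]
      · rw [evalEval_mul, evalEval_C, evalEval_pow, evalEval_X]
        rfl
    have h4 : v (∑ j ∈ range e, (q.coeff j).eval (x n) * y n ^ j) ≤ S * t ^ (e - 1) := by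
      refine (v.sum_le _ _).trans ?_
      have h5 : ∑ j ∈ range e, v ((q.coeff j).eval (x n) * y n ^ j)
          ≤ ∑ j ∈ range e, Bc (q.coeff j) * t ^ (e - 1) := by
        apply Finset.sum_le_sum
        intro j hj
        rw [map_mul, map_pow]
        have hj' := Finset.mem_range.mp hj
        exact mul_le_mul (hb _ _) (pow_le_pow_right₀ h1 (by omega)) (pow_nonneg (v.nonneg _) _)
          (hBc _)
      rw [← Finset.sum_mul] at h5
      refine h5.trans (mul_le_mul_of_nonneg_right (by linarith) (by positivity))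
    have h5 : G * t ^ e ≤ t' + S * t ^ (e - 1) := by
      have h6 := v.add_le (y (n + 1)) (-(∑ j ∈ range e, (q.coeff j).eval (x n) * y n ^ j))
      have h7 : y (n + 1) + -(∑ j ∈ range e, (q.coeff j).eval (x n) * y n ^ j)
          = q.leadingCoeff.eval (x n) * y n ^ e := by
        rw [hy, h3]
        ring
      rw [h7, v.map_neg, map_mul, map_pow] at h6
      linarith
    have h6 : t ^ e = t * t ^ (e - 1) := by
      conv_lhs => rw [show e = (e - 1) + 1 by omega]
      rw [pow_succ]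
      ring
    have h7 : G * t ^ e ≤ 2 * t' := by
      have h8 : 2 * S * t ^ (e - 1) ≤ G * t * t ^ (e - 1) :=
        mul_le_mul_of_nonneg_right h2.le (by positivity)
      rw [h6] at h5 ⊢
      linarith
    have h8 : G * t ^ e ≤ 2 * max 1 t' := h7.trans (by linarith [le_max_right 1 t'])
    have h9 := Real.log_le_log (by positivity) h8
    rw [Real.log_mul hG0.ne' (by positivity), Real.log_pow, Real.log_mul (by norm_num)
      (by positivity)] at h9
    have h10 : Real.log t ≤ (Real.log (max 1 t') + Real.log 2 + -Real.log G) / e := by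
      rw [le_div_iff₀ he0]
      linarith
    have h11 : (Real.log (max 1 t') + Real.log 2 + -Real.log G) / e
        ≤ Real.log (max 1 t') / e + Real.log 2 + max 0 (-Real.log G) := by
      have h12 : (Real.log 2 + max 0 (-Real.log G)) / e ≤ Real.log 2 + max 0 (-Real.log G) :=
        div_le_self (by positivity) he1
      have h13 : (Real.log (max 1 t') + Real.log 2 + -Real.log G) / e
          ≤ (Real.log (max 1 t') + (Real.log 2 + max 0 (-Real.log G))) / e :=
        div_le_div_of_nonneg_right (by linarith) he0.le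
      have h14 : (Real.log (max 1 t') + (Real.log 2 + max 0 (-Real.log G))) / e
          = Real.log (max 1 t') / e + (Real.log 2 + max 0 (-Real.log G)) / e := add_div _ _ _
      linarith
    linarith

end Pool.Agent.Lib.MP_9ec2c5_sk
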