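import Mathlib
import Pool.Agent.Lib.MP_9ec2c5_nt_h65.Growth2

/-!
Heights bounded in terms of the places, with a variable factor; composition of a polynomial with a
skew product.
-/

set_option autoImplicit false
set_option linter.unusedSectionVars false

namespace Pool.Agent.Lib.MP_9ec2c5_sk

open Polynomial Finset Height Filter Topology AdmissibleAbsValues
open Pool.Agent.Lib.MP_9ec2c5_nt_h65

section general

variable {K : Type} [Field K] [AdmissibleAbsValues K]

/-- bounded at all places, with a variable factor -/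
lemma height_le_scaled (S : Set (nonarchAbsVal (K := K))) (hS : S.Finite) :
    ∃ N : ℕ, ∀ (R : AbsoluteValue K ℝ → ℝ), (∀ v, 1 ≤ R v) → ∃ C1 : ℝ, 1 ≤ C1 ∧
      ∀ (x : K) (E : ℝ), 1 ≤ E → (∀ v ∈ archAbsVal (K := K), v x ≤ R v * E) →
      (∀ v : nonarchAbsVal (K := K), v ∈ S → v.val x ≤ R v.val * E) →
      (∀ v : nonarchAbsVal (K := K), v ∉ S → v.val x ≤ 1) → mulHeight₁ x ≤ C1 * E ^ N := by
  classical
  refine ⟨(archAbsVal (K := K)).card + hS.toFinset.card, fun R hR => ?_⟩
  have e1 : (1 : ℝ) ≤ ((archAbsVal (K := K)).map R).prod :=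
    Multiset.one_le_prod_map fun v _ => hR v
  have e2 : (1 : ℝ) ≤ ∏ v ∈ hS.toFinset, R v.val := by
    have h0 := Finset.prod_le_prod (s := hS.toFinset) (f := fun _ => (1 : ℝ))
      (g := fun v => R v.val) (fun _ _ => zero_le_one) fun v _ => hR v.val
    rwa [Finset.prod_const_one] at h0
  refine ⟨((archAbsVal (K := K)).map R).prod * ∏ v ∈ hS.toFinset, R v.val,
    one_le_mul_of_one_le_of_one_le e1 e2, fun x E hE h1 h2 h3 => ?_⟩
  have hE0 : 0 ≤ E := zero_le_one.trans hE
  have hRE : ∀ v, 1 ≤ R v * E := fun v => one_le_mul_of_one_le_of_one_le (hR v) hE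
  have e3 : ((archAbsVal (K := K)).map fun v => R v * E).prod
      = ((archAbsVal (K := K)).map R).prod * E ^ (archAbsVal (K := K)).card := by
    rw [Multiset.prod_map_mul, Multiset.map_const', Multiset.prod_replicate]
  have e4 : ∏ v ∈ hS.toFinset, (R v.val * E) = (∏ v ∈ hS.toFinset, R v.val)
      * E ^ hS.toFinset.card := by
    rw [Finset.prod_mul_distrib, Finset.prod_const]
  have key : mulHeight₁ x ≤ ((archAbsVal (K := K)).map fun v => R v * E).prod
      * ∏ v ∈ hS.toFinset, (R v.val * E) := by
    rw [mulHeight₁_eq]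
    apply mul_le_mul
    · exact Multiset.prod_map_le_prod_map₀ _ _ (fun v _ => by positivity)
        fun v hv => max_le (h1 v hv) (hRE v)
    · have h5 : ∏ v ∈ hS.toFinset, (R v.val * E)
          = ∏ᶠ v : nonarchAbsVal (K := K), (if v ∈ S then R v.val * E else 1) := by
        rw [finprod_eq_prod_of_mulSupport_subset (s := hS.toFinset)]
        · refine Finset.prod_congr rfl fun v hv => ?_
          rw [if_pos (hS.mem_toFinset.mp hv)]
        · intro v hv
          rw [Finset.mem_coe, hS.mem_toFinset]
          by_contra hcon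
          exact hv (if_neg hcon)
      rw [h5]
      refine finprod_le_finprod (finite_ne_one x) (fun v => by positivity) ?_ ?_
      · refine hS.subset ?_
        intro v hv
        by_contra hcon
        exact hv (if_neg hcon)
      · intro v
        show max (v.val x) 1 ≤ if v ∈ S then R v.val * E else 1
        split_ifs with h4
        · exact max_le (h2 v h4) (hRE _)
        · exact max_le (h3 v h4) (le_refl _)
    · exact finprod_nonneg fun v => by positivity
    · exact Multiset.prod_map_nonneg fun v _ => zero_le_one.trans (hRE v)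
  refine key.trans (le_of_eq ?_)
  rw [e3, e4, pow_add]
  ring

end general

section comp

variable {K : Type} [Field K]

lemma map_comp_eval (R : K[X][X]) (p : K[X]) (x y : K) :
    (R.map (compRingHom p)).evalEval x y = R.evalEval (p.eval x) y := by
  conv_lhs => rw [R.as_sum_range_C_mul_X_pow]
  conv_rhs => rw [R.as_sum_range_C_mul_X_pow]
  rw [Polynomial.map_sum, evalEval_finsetSum, evalEval_finsetSum]
  refine Finset.sum_congr rfl fun j _ => ?_
  rw [Polynomial.map_mul, Polynomial.map_pow, map_C, map_X, evalEval_mul, evalEval_C,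
    evalEval_pow, evalEval_X, evalEval_mul, evalEval_C, evalEval_pow, evalEval_X,
    coe_compRingHom_apply, eval_comp]

/-- composition with a skew product -/
lemma exists_comp (p : K[X]) (q : K[X][X]) (hd : 1 ≤ p.natDegree) (he : 1 ≤ q.natDegree)
    (x y : ℕ → K) (hx : ∀ n, x (n + 1) = p.eval (x n))
    (hy : ∀ n, y (n + 1) = q.evalEval (x n) (y n)) (R : K[X][X]) (hR : R ≠ 0) (j : ℕ) :
    ∃ R' : K[X][X], R' ≠ 0 ∧ ∀ n, R'.evalEval (x n) (y n) = R.evalEval (x (n + j)) (y (n + j)) := by
  induction j with
  | zero => exact ⟨R, hR, fun n => rfl⟩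
  | succ j ih =>
    obtain ⟨R1, hR1, h1⟩ := ih
    refine ⟨(R1.map (compRingHom p)).comp q, ?_, fun n => ?_⟩
    · have h2 : R1.map (compRingHom p) ≠ 0 :=
        (Polynomial.map_ne_zero_iff (comp_injective p hd)).mpr hR1
      intro h3
      rw [comp_eq_zero_iff] at h3
      rcases h3 with h3 | ⟨-, h3⟩
      · exact h2 h3
      · rw [h3, natDegree_C] at he
        omega
    · have h4 : n + 1 + j = n + (j + 1) := by omega
      rw [evalEval_comp, map_comp_eval, ← hx, ← hy, h1, h4]

end comp

end Pool.Agent.Lib.MP_9ec2c5_sk
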