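import Mathlib
import Pool.Agent.Lib.MP_9ec2c5_sk.BadTimes
import Pool.Agent.Lib.MP_9ec2c5_sk.Clean
import Pool.Agent.Lib.MP_9ec2c5_sk.Heights2

/-!
From a polynomial which is small at the places where the base orbit tends to infinity (and to zero)
to a polynomial vanishing along the orbit.
-/

set_option autoImplicit false
set_option linter.unusedSectionVars false

namespace Pool.Agent.Lib.MP_9ec2c5_sk

open Polynomial Finset Height Filter Topology AdmissibleAbsValues
open Pool.Agent.Lib.MP_9ec2c5_nt_h65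

section abs

variable {K : Type} [Field K] (v : AbsoluteValue K ℝ)

/-- the value of a polynomial where the base orbit is bounded -/
lemma value_le_pow (P : K[X][X]) (x y : ℕ → K) (hx : ∃ B : ℝ, ∀ n, v (x n) ≤ B) :
    ∃ C1 : ℝ, 0 ≤ C1 ∧ ∀ n, v (P.evalEval (x n) (y n)) ≤ C1 * max 1 (v (y n)) ^ P.natDegree := by
  obtain ⟨Bx, hBx⟩ := hx
  have hb : ∀ g : K[X], ∃ B : ℝ, 0 ≤ B ∧ ∀ n, v (g.eval (x n)) ≤ B := by
    intro g
    obtain ⟨B, hB, h2, -⟩ := Nice.poly (K := K) (Ω := K) (μ := v) g 0 Bx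
    refine ⟨B, hB, fun n => ?_⟩
    have h3 : aeval (x n) g = g.eval (x n) := by rw [coe_aeval_eq_eval]
    rw [← h3]
    exact h2 (fun _ => x n) fun _ => hBx n
  choose Bc hBc hb using hb
  refine ⟨∑ j ∈ range (P.natDegree + 1), Bc (P.coeff j), Finset.sum_nonneg fun j _ => hBc _,
    fun n => ?_⟩
  conv_lhs => rw [P.as_sum_range_C_mul_X_pow]
  rw [evalEval_finsetSum, Finset.sum_mul]
  refine (v.sum_le _ _).trans (Finset.sum_le_sum fun j hj => ?_)
  have hj' := Finset.mem_range.mp hj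
  rw [evalEval_mul, evalEval_C, evalEval_pow, evalEval_X, map_mul, map_pow]
  have h1 : v (y n) ^ j ≤ max 1 (v (y n)) ^ P.natDegree :=
    (pow_le_pow_left₀ (v.nonneg _) (le_max_right _ _) _).trans
      (pow_le_pow_right₀ (le_max_left _ _) (by omega))
  exact mul_le_mul (hb _ _) h1 (pow_nonneg (v.nonneg _) _) (hBc _)

end abs

variable {K : Type} [Field K] [NumberField K]

/-- the places at which everything is integral -/
lemma good_places (p : K[X]) (q : K[X][X]) (hp : p ≠ 0) (x y : ℕ → K)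
    (hx : ∀ n, x (n + 1) = p.eval (x n)) (hy : ∀ n, y (n + 1) = q.evalEval (x n) (y n))
    (low : Prop) (hlow : low ∨ (p = C p.leadingCoeff * X ^ p.natDegree ∧ ∀ n, x n ≠ 0)) :
    ∃ S : Set (nonarchAbsVal (K := K)), S.Finite ∧ ∀ v : nonarchAbsVal (K := K), v ∉ S →
      (∀ n, v.val (x n) ≤ 1) ∧ (∀ n, v.val (y n) ≤ 1) ∧ (¬ low → ∀ n, v.val (x n) = 1) := by
  obtain ⟨S1, hS1, h1⟩ := finite_coeff (C p)
  obtain ⟨S2, hS2, h2⟩ := finite_coeff q
  obtain ⟨S3, hS3, h3⟩ := finite_unit p.leadingCoeff (leadingCoeff_ne_zero.mpr hp)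
  obtain ⟨S4, hS4, h4⟩ := finite_elt (x 0)
  obtain ⟨S5, hS5, h5⟩ := finite_elt (y 0)
  obtain ⟨S6, hS6, h6⟩ : ∃ S : Set (nonarchAbsVal (K := K)), S.Finite ∧
      ∀ v : nonarchAbsVal (K := K), v ∉ S → ¬ low → v.val (x 0) = 1 := by
    rcases hlow with h | ⟨-, h⟩
    · exact ⟨∅, Set.finite_empty, fun v _ h' => absurd h h'⟩
    · obtain ⟨S, hS, h7⟩ := finite_unit (x 0) (h 0)
      exact ⟨S, hS, fun v hv _ => h7 v hv⟩
  refine ⟨(S1 ∪ S2) ∪ (S3 ∪ S4) ∪ (S5 ∪ S6),
    ((hS1.union hS2).union (hS3.union hS4)).union (hS5.union hS6), fun v hv => ?_⟩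
  simp only [Set.mem_union, not_or] at hv
  obtain ⟨⟨⟨hv1, hv2⟩, hv3, hv4⟩, hv5, hv6⟩ := hv
  have hna : IsNonarchimedean v.val := isNonarchimedean v.val v.property
  have hxi : ∀ n, v.val (x n) ≤ 1 := by
    intro n
    induction n with
    | zero => exact h4 v hv4
    | succ n ih =>
      have h7 := value_integral v.val hna (C p) (x n) 0 ih (by rw [map_zero]; exact zero_le_one)
        (h1 v hv1)
      rw [evalEval_C] at h7
      rw [hx]
      exact h7
  refine ⟨hxi, ?_, ?_⟩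
  · intro n
    induction n with
    | zero => exact h5 v hv5
    | succ n ih =>
      rw [hy]
      exact value_integral v.val hna q (x n) (y n) (hxi n) ih (h2 v hv2)
  · intro hl n
    rcases hlow with h | ⟨h, -⟩
    · exact absurd h hl
    · induction n with
      | zero => exact h6 v hv6 hl
      | succ n ih =>
        rw [hx, h, eval_mul, eval_C, eval_pow, eval_X, map_mul, map_pow, ih, one_pow, mul_one]
        exact h3 v hv3

/-- the three kinds of places -/
lemma place_tri (p : K[X]) (hd : 1 ≤ p.natDegree) (x : ℕ → K)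
    (hx : ∀ n, x (n + 1) = p.eval (x n)) (low : Prop)
    (hlow : low ∨ (p = C p.leadingCoeff * X ^ p.natDegree ∧ ∀ n, x n ≠ 0))
    (v : AbsoluteValue K ℝ) (hv : IsPlace v) :
    Tendsto (fun n => v (x n)) atTop atTop ∨
    (¬ low ∧ Tendsto (fun n => v (x n)) atTop (𝓝 0)) ∨
    ((∃ B : ℝ, ∀ n, v (x n) ≤ B) ∧ (low ∨ ∃ c : ℝ, 0 < c ∧ ∀ n, c ≤ v (x n))) := by
  rcases dich_place p hd x hx v hv with h1 | h1
  · by_cases hl : low
    · exact Or.inr (Or.inr ⟨h1, Or.inl hl⟩)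
    rcases hlow with h | ⟨hp, hx0⟩
    · exact absurd h hl
    right
    have hp0 : p.leadingCoeff ≠ 0 := by
      intro h
      rw [leadingCoeff_eq_zero] at h
      rw [h, natDegree_zero] at hd
      omega
    have hdeg : (C p.leadingCoeff⁻¹ * X ^ p.natDegree : K[X]).natDegree = p.natDegree :=
      natDegree_C_mul_X_pow _ _ (inv_ne_zero hp0)
    rcases dich_place (C p.leadingCoeff⁻¹ * X ^ p.natDegree) (by rw [hdeg]; exact hd)
      (fun n => (x n)⁻¹) (fun n => by
        show (x (n + 1))⁻¹ = _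
        rw [hx]
        conv_lhs => rw [hp]
        rw [eval_mul, eval_C, eval_pow, eval_X, eval_mul, eval_C, eval_pow, eval_X, mul_inv,
          inv_pow]) v hv with h2 | h2
    · right
      obtain ⟨B, hB⟩ := h2
      refine ⟨h1, Or.inr ⟨(max B 1)⁻¹, by positivity, fun n => ?_⟩⟩
      have h3 := hB n
      rw [map_inv₀] at h3
      have h4 : 0 < v (x n) := v.pos (hx0 n)
      exact inv_le_of_inv_le₀ h4 (h3.trans (le_max_left _ _))
    · left
      refine ⟨hl, ?_⟩
      have h3 : (fun n => v (x n)) = fun n => (v (x n)⁻¹)⁻¹ := by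
        funext n
        rw [map_inv₀, inv_inv]
      rw [h3]
      exact tendsto_inv_atTop_zero.comp h2
  · exact Or.inl h1

/-- the value at the start of a clean window, at a place where the base orbit is bounded -/
lemma pb_bound (q : K[X][X]) (hq : 1 ≤ q.natDegree) (x y : ℕ → K)
    (hy : ∀ n, y (n + 1) = q.evalEval (x n) (y n)) (hinj : Function.Injective x)
    (d : ℕ) (C0 B : ℝ) (hC0 : 0 ≤ C0)
    (hκ1 : ∀ n, Real.log (mulHeight₁ (x (n + 1))) ≤ d * Real.log (mulHeight₁ (x n)) + C0)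
    (hslow : ∀ᶠ n in atTop, Real.log (mulHeight₁ (y n)) ≤ B * (Real.log (mulHeight₁ (x n)) + 1))
    (hB : 0 ≤ B) (g : K[X]) (m0 : ℕ) (hg : q.leadingCoeff = X ^ m0 * g) (R : K[X][X]) (E : ℕ)
    (v : AbsoluteValue K ℝ) (hv : IsPlace v) (hxb : ∃ B : ℝ, ∀ n, v (x n) ≤ B)
    (hlow : (m0 = 0 ∧ E = 0) ∨ ∃ c : ℝ, 0 < c ∧ ∀ n, c ≤ v (x n)) (η ε : ℝ) (L : ℕ)
    (hclean : ∀ (Y κ G : ℕ → ℝ) (C0 C1 : ℝ) (n0 : ℕ), 0 ≤ C0 → 0 ≤ C1 →
      (∀ n, 0 ≤ κ n) → (∀ n, κ (n + 1) ≤ d * κ n + C0) → (∀ n, n0 ≤ n → Y n ≤ B * (κ n + 1)) →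
      (∀ n, n0 ≤ n → Y n ≤ Y (n + 1) / q.natDegree + G n + C1) →
      ∃ C2 : ℝ, 0 ≤ C2 ∧ ∀ n, n0 ≤ n → (∀ k < L, G (n + k) ≤ ε * κ (n + k)) →
        Y n ≤ η * κ n + C2) (hε : 0 < ε) :
    ∃ C1 : ℝ, 1 ≤ C1 ∧ ∀ᶠ n in atTop,
      (∀ k < L, ¬ (v (g.eval (x (n + k))) < Real.exp (-(ε * Real.log (mulHeight₁ (x (n + k))))))) →
      v (R.evalEval (x n) (y n) / x n ^ E)
        ≤ C1 * Real.exp (R.natDegree * (η * Real.log (mulHeight₁ (x n)))) := by
  classical
  have hk : ∀ n, 0 ≤ Real.log (mulHeight₁ (x n)) := fun n => Real.log_nonneg (one_le_mulHeight₁ _)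
  have hq0 : q ≠ 0 := by
    intro h
    rw [h, natDegree_zero] at hq
    omega
  obtain ⟨C2, hC2, h2⟩ := back_step q hq x y hy v hxb
  obtain ⟨C3, hC3, h3⟩ := value_le_pow v R x y hxb
  -- the leading coefficient does not vanish at late times
  have hfin : {n | q.leadingCoeff.eval (x n) = 0}.Finite := by
    refine Set.Finite.of_finite_image (Set.Finite.subset
      (Finset.finite_toSet q.leadingCoeff.roots.toFinset) ?_) hinj.injOn
    rintro _ ⟨n, hn, rfl⟩
    rw [Finset.mem_coe, Multiset.mem_toFinset, mem_roots (leadingCoeff_ne_zero.mpr hq0)]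
    exact hn
  have hne : ∀ᶠ n in atTop, q.leadingCoeff.eval (x n) ≠ 0 := by
    have h4 : ∀ᶠ n in cofinite, ¬ (q.leadingCoeff.eval (x n) = 0) := hfin.eventually_cofinite_notMem
    rwa [Nat.cofinite_eq_atTop] at h4
  obtain ⟨n0, hn0⟩ := eventually_atTop.mp (hne.and hslow)
  -- the factor x ^ m0
  obtain ⟨C4, hC4, h4⟩ : ∃ C4 : ℝ, 0 ≤ C4 ∧ ∀ n, q.leadingCoeff.eval (x n) ≠ 0 →
      max 0 (-Real.log (v (q.leadingCoeff.eval (x n))))
        ≤ max 0 (-Real.log (v (g.eval (x n)))) + C4 := by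
    rcases hlow with ⟨h, -⟩ | ⟨c, hc, h⟩
    · refine ⟨0, le_refl _, fun n _ => ?_⟩
      rw [hg, h, pow_zero, one_mul, add_zero]
    · refine ⟨m0 * |Real.log c|, by positivity, fun n hn => ?_⟩
      rw [hg, eval_mul, eval_pow, eval_X] at hn ⊢
      have h5 : 0 < v (x n) := lt_of_lt_of_le hc (h n)
      have h6 : 0 < v (g.eval (x n)) := v.pos (right_ne_zero_of_mul hn)
      rw [map_mul, map_pow, Real.log_mul (by positivity) h6.ne', Real.log_pow]
      have h7 : Real.log c ≤ Real.log (v (x n)) := Real.log_le_log hc (h n)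
      have h8 := neg_abs_le (Real.log c)
      have h9 : (m0 : ℝ) * -|Real.log c| ≤ m0 * Real.log (v (x n)) :=
        mul_le_mul_of_nonneg_left (h8.trans h7) (Nat.cast_nonneg _)
      have h10 := le_max_right 0 (-Real.log (v (g.eval (x n))))
      have h11 := le_max_left 0 (-Real.log (v (g.eval (x n))))
      have h12 : 0 ≤ (m0 : ℝ) * |Real.log c| := by positivity
      apply max_le
      · linarith
      · linarith
  obtain ⟨C5, hC5, h5⟩ := hclean (fun n => Real.log (max 1 (v (y n))))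
    (fun n => Real.log (mulHeight₁ (x n))) (fun n => max 0 (-Real.log (v (g.eval (x n)))))
    C0 (C2 + C4) n0 hC0 (by positivity) hk hκ1 (fun n hn => by
      refine le_trans ?_ (hn0 n hn).2
      refine Real.log_le_log (by positivity) (max_le (one_le_mulHeight₁ _) (hv.le_height _)))
    (fun n hn => by
      have e1 := h2 n (hn0 n hn).1
      have e2 := h4 n (hn0 n hn).1
      show Real.log (max 1 (v (y n))) ≤ Real.log (max 1 (v (y (n + 1)))) / q.natDegree
        + max 0 (-Real.log (v (g.eval (x n)))) + (C2 + C4)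
      linarith)
  -- the denominator
  obtain ⟨C6, hC6, h6⟩ : ∃ C6 : ℝ, 0 ≤ C6 ∧ ∀ n, v (R.evalEval (x n) (y n) / x n ^ E)
      ≤ C6 * v (R.evalEval (x n) (y n)) := by
    rcases hlow with ⟨-, h⟩ | ⟨c, hc, h⟩
    · refine ⟨1, zero_le_one, fun n => ?_⟩
      rw [h, pow_zero, div_one, one_mul]
    · refine ⟨(c ^ E)⁻¹, by positivity, fun n => ?_⟩
      rw [map_div₀, map_pow, div_eq_inv_mul]
      refine mul_le_mul_of_nonneg_right ?_ (v.nonneg _)
      exact inv_anti₀ (by positivity) (pow_le_pow_left₀ hc.le (h n) _)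
  refine ⟨1 + C6 * (C3 * Real.exp (R.natDegree * C5)), by
    have : 0 ≤ C6 * (C3 * Real.exp (R.natDegree * C5)) := by positivity
    linarith, ?_⟩
  rw [eventually_atTop]
  refine ⟨n0, fun n hn hbad => ?_⟩
  have h7 := h5 n hn (fun k hk' => by
    have e1 := hbad k hk'
    rw [not_lt] at e1
    have e2 := Real.log_le_log (Real.exp_pos _) e1
    rw [Real.log_exp] at e2
    have e3 : 0 ≤ ε * Real.log (mulHeight₁ (x (n + k))) := mul_nonneg hε.le (hk _)
    exact max_le e3 (by linarith))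
  have h8 : max 1 (v (y n)) ≤ Real.exp (η * Real.log (mulHeight₁ (x n)) + C5) := by
    rw [← Real.exp_log (by positivity : 0 < max 1 (v (y n)))]
    exact Real.exp_le_exp.mpr h7
  have h9 : max 1 (v (y n)) ^ R.natDegree
      ≤ Real.exp (R.natDegree * (η * Real.log (mulHeight₁ (x n)))) * Real.exp (R.natDegree * C5) := by
    refine (pow_le_pow_left₀ (by positivity) h8 _).trans (le_of_eq ?_)
    rw [← Real.exp_nat_mul, mul_add, Real.exp_add]
  have h10 : v (R.evalEval (x n) (y n) / x n ^ E)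
      ≤ C6 * (C3 * (Real.exp (R.natDegree * (η * Real.log (mulHeight₁ (x n))))
        * Real.exp (R.natDegree * C5))) := by
    refine (h6 n).trans (mul_le_mul_of_nonneg_left ?_ hC6)
    exact (h3 n).trans (mul_le_mul_of_nonneg_left h9 hC3)
  have h11 : 0 ≤ Real.exp (R.natDegree * (η * Real.log (mulHeight₁ (x n)))) := (Real.exp_pos _).le
  calc _ ≤ _ := h10
    _ = (C6 * (C3 * Real.exp (R.natDegree * C5)))
        * Real.exp (R.natDegree * (η * Real.log (mulHeight₁ (x n)))) := by ring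
    _ ≤ _ := mul_le_mul_of_nonneg_right (by linarith) h11

end Pool.Agent.Lib.MP_9ec2c5_sk
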