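import Mathlib
import Pool.Agent.Lib.MP_9ec2c5_sk.Direct

/-!
From a polynomial which is small at the places where the base orbit tends to infinity (and to zero)
to a polynomial vanishing along the orbit: the global argument.
-/

set_option autoImplicit false
set_option linter.unusedSectionVars false

namespace Pool.Agent.Lib.MP_9ec2c5_sk

open Polynomial Finset Height Filter Topology AdmissibleAbsValues
open Pool.Agent.Lib.MP_9ec2c5_nt_h65

variable {K : Type} [Field K] [NumberField K]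

/-- a polynomial vanishing at one of finitely many later times -/
lemma vanish_of_times (p : K[X]) (q : K[X][X]) (hd : 1 ≤ p.natDegree) (he : 1 ≤ q.natDegree)
    (x y : ℕ → K) (hx : ∀ n, x (n + 1) = p.eval (x n))
    (hy : ∀ n, y (n + 1) = q.evalEval (x n) (y n)) (R : K[X][X]) (hR : R ≠ 0) (J : ℕ)
    (h : ∀ᶠ n in atTop, ∃ j ≤ J, R.evalEval (x (n + j)) (y (n + j)) = 0) :
    ∃ R' : K[X][X], R' ≠ 0 ∧ ∀ n, R'.evalEval (x n) (y n) = 0 := by
  classical
  obtain ⟨n0, hn0⟩ := eventually_atTop.mp h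
  have hex := fun j : ℕ => exists_comp p q hd he x y hx hy R hR j
  choose Rj hRj hRj' using hex
  refine ⟨(∏ j ∈ range (J + 1), Rj j) * C (∏ m ∈ range n0, (X - C (x m))), ?_, fun n => ?_⟩
  · refine mul_ne_zero (Finset.prod_ne_zero_iff.mpr fun j _ => hRj j) ?_
    rw [Ne, C_eq_zero]
    exact Finset.prod_ne_zero_iff.mpr fun m _ => X_sub_C_ne_zero (x m)
  · rw [evalEval_mul, evalEval_C, evalEval_prod, eval_prod]
    rcases Nat.lt_or_ge n n0 with h1 | h1
    · have : ∏ j ∈ range n0, eval (x n) (X - C (x j)) = 0 :=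
        Finset.prod_eq_zero (Finset.mem_range.mpr h1) (by rw [eval_sub, eval_X, eval_C, sub_self])
      rw [this, mul_zero]
    · obtain ⟨j, hj, h2⟩ := hn0 n h1
      rw [Finset.prod_eq_zero (Finset.mem_range.mpr (Nat.lt_succ_of_le hj))
        (by rw [hRj' j n]; exact h2), zero_mul]

/-- The global argument. -/
theorem direct_vanish (p : K[X]) (q : K[X][X]) (hd : 1 ≤ p.natDegree)
    (hde : p.natDegree < q.natDegree) (x y : ℕ → K) (hx : ∀ n, x (n + 1) = p.eval (x n))
    (hy : ∀ n, y (n + 1) = q.evalEval (x n) (y n)) (hinj : Function.Injective x) (B : ℝ)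
    (hB : 0 ≤ B)
    (hslow : ∀ᶠ n in atTop, Real.log (mulHeight₁ (y n)) ≤ B * (Real.log (mulHeight₁ (x n)) + 1))
    (g : K[X]) (m0 : ℕ) (hg : q.leadingCoeff = X ^ m0 * g)
    (hexc : ∀ ξ : K, g.eval ξ = 0 → p ≠ C p.leadingCoeff * (X - C ξ) ^ p.natDegree + C ξ)
    (R : K[X][X]) (hR : R ≠ 0) (E : ℕ)
    (hcase : (m0 = 0 ∧ E = 0) ∨ (p = C p.leadingCoeff * X ^ p.natDegree ∧ ∀ n, x n ≠ 0))
    (hPI : ∀ v : AbsoluteValue K ℝ, IsPlace v → Tendsto (fun n => v (x n)) atTop atTop →
      ∃ C1 : ℝ, 0 ≤ C1 ∧ ∀ᶠ n in atTop,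
        v (R.evalEval (x n) (y n)) * v (x n) ≤ C1 * v (x n) ^ E)
    (hP0 : ¬ (m0 = 0 ∧ E = 0) → ∀ v : AbsoluteValue K ℝ, IsPlace v →
      Tendsto (fun n => v (x n)) atTop (𝓝 0) →
      ∃ C1 : ℝ, 0 ≤ C1 ∧ ∀ᶠ n in atTop, v (R.evalEval (x n) (y n)) ≤ C1 * v (x n) ^ E) :
    ∃ R' : K[X][X], R' ≠ 0 ∧ ∀ n, R'.evalEval (x n) (y n) = 0 := by
  classical
  have he : 1 ≤ q.natDegree := by omega
  have hk : ∀ n, 0 ≤ Real.log (mulHeight₁ (x n)) := fun n => Real.log_nonneg (one_le_mulHeight₁ _)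
  have hp0 : p ≠ 0 := by
    intro h
    rw [h, natDegree_zero] at hd
    omega
  have hq0 : q ≠ 0 := by
    intro h
    rw [h, natDegree_zero] at he
    omega
  have hg0 : g ≠ 0 := by
    intro h
    rw [h, mul_zero, leadingCoeff_eq_zero] at hg
    exact hq0 hg
  set low : Prop := m0 = 0 ∧ E = 0 with hlow
  -- the base
  obtain ⟨C0, hC0, h0⟩ := height_eval p
  have hl0 : 0 ≤ Real.log C0 := Real.log_nonneg hC0
  have hκ1 : ∀ n, Real.log (mulHeight₁ (x (n + 1)))
      ≤ p.natDegree * Real.log (mulHeight₁ (x n)) + Real.log C0 := by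
    intro n
    rw [hx, ← Real.log_pow, ← Real.log_mul (by positivity) (by positivity), mul_comm]
    exact Real.log_le_log (by positivity) (h0 _)
  obtain ⟨v0, hv0, hv0t, s, hs⟩ := exists_place p hd x hx hinj
  -- the places
  obtain ⟨S0, hS0, hgood⟩ := good_places p q hp0 x y hx hy low hcase
  obtain ⟨S1, hS1, hRint⟩ := finite_coeff R
  set S : Set (nonarchAbsVal (K := K)) := S0 ∪ S1 with hS
  have hSf : S.Finite := hS0.union hS1
  set G : Finset (AbsoluteValue K ℝ) :=
    (archAbsVal (K := K)).toFinset ∪ (hSf.toFinset.image Subtype.val) with hG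
  have hGm : ∀ v : AbsoluteValue K ℝ, v ∈ archAbsVal (K := K) → v ∈ G := fun v hv =>
    Finset.mem_union_left _ (Multiset.mem_toFinset.mpr hv)
  have hGn : ∀ v : nonarchAbsVal (K := K), v ∈ S → v.val ∈ G := fun v hv =>
    Finset.mem_union_right _ (Finset.mem_image_of_mem _ (hSf.mem_toFinset.mpr hv))
  have hGp : ∀ v ∈ G, IsPlace v := by
    intro v hv
    rcases Finset.mem_union.mp hv with h | h
    · exact Or.inl (Multiset.mem_toFinset.mp h)
    · obtain ⟨w, -, rfl⟩ := Finset.mem_image.mp h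
      exact Or.inr w.property
  set PB : AbsoluteValue K ℝ → Prop := fun v =>
    (∃ B : ℝ, ∀ n, v (x n) ≤ B) ∧ (low ∨ ∃ c : ℝ, 0 < c ∧ ∀ n, c ≤ v (x n)) with hPB
  set F : Finset (AbsoluteValue K ℝ) := G.filter PB with hF
  -- the constants
  obtain ⟨N, hN⟩ := height_le_scaled S hSf
  set η : ℝ := 1 / (2 * (R.natDegree * N * s + 1)) with hη
  have hη0 : 0 < η := by positivity
  obtain ⟨ε, L, hε, hclean⟩ := clean_real p.natDegree q.natDegree hd hde B η hB hη0
  have hbad : ∀ v : AbsoluteValue K ℝ, ∃ J : ℕ, v ∈ F → ∀ N : ℕ, ∀ᶠ n : ℕ in atTop,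
      ∀ n1 n2 : ℕ, n ≤ n1 → n1 ≤ n2 → n2 ≤ n + N →
      v (g.eval (x n1)) < Real.exp (-(ε * Real.log (mulHeight₁ (x n1)))) →
      v (g.eval (x n2)) < Real.exp (-(ε * Real.log (mulHeight₁ (x n2)))) → n2 < n1 + J := by
    intro v
    by_cases hv : v ∈ F
    · obtain ⟨hv1, hv2⟩ := Finset.mem_filter.mp hv
      obtain ⟨J, hJ⟩ := bad_times p hd g hg0 hexc x hx hinj v (hGp v hv1) hv2.1 ε hε
      exact ⟨J, fun _ => hJ⟩
    · exact ⟨0, fun h => absurd h hv⟩
  choose Jv hJv using hbad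
  set J : ℕ := ∑ v ∈ F, Jv v with hJ
  have hJle : ∀ v ∈ F, Jv v ≤ J := fun v hv =>
    Finset.single_le_sum (f := Jv) (fun _ _ => Nat.zero_le _) hv
  set N1 : ℕ := (F.card + 1) * (J + L) with hN1
  -- the bounds for the values
  set z : ℕ → K := fun n => R.evalEval (x n) (y n) / x n ^ E with hz
  set bad : AbsoluteValue K ℝ → ℕ → Prop := fun v n =>
    v (g.eval (x n)) < Real.exp (-(ε * Real.log (mulHeight₁ (x n)))) with hbaddef
  set ev : ℕ → ℝ := fun n => Real.exp (R.natDegree * (η * Real.log (mulHeight₁ (x n)))) with hev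
  have hev1 : ∀ n, 1 ≤ ev n := fun n => by
    show 1 ≤ Real.exp (R.natDegree * (η * Real.log (mulHeight₁ (x n))))
    rw [← Real.exp_zero]
    exact Real.exp_le_exp.mpr (mul_nonneg (Nat.cast_nonneg _) (mul_nonneg hη0.le (hk n)))
  have hinfz : ∀ v : AbsoluteValue K ℝ, IsPlace v → Tendsto (fun n => v (x n)) atTop atTop →
      ∃ C1 : ℝ, 1 ≤ C1 ∧ ∀ᶠ n in atTop, v (z n) * v (x n) ≤ C1 ∧ v (z n) ≤ C1 := by
    intro v hv hvt
    obtain ⟨C1, hC1, h1⟩ := hPI v hv hvt
    refine ⟨1 + C1, by linarith, ?_⟩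
    filter_upwards [h1, hvt.eventually (eventually_ge_atTop 1)] with n hn hn1
    have h2 : 0 < v (x n) := by linarith
    have h3 : v (z n) * v (x n) ≤ C1 := by
      show v (R.evalEval (x n) (y n) / x n ^ E) * v (x n) ≤ C1
      rw [map_div₀, map_pow, div_mul_eq_mul_div, div_le_iff₀ (by positivity)]
      exact hn
    have h4 : v (z n) ≤ v (z n) * v (x n) := le_mul_of_one_le_right (v.nonneg _) hn1
    exact ⟨by linarith, by linarith⟩
  have hbd : ∀ v : AbsoluteValue K ℝ, ∃ C1 : ℝ, 1 ≤ C1 ∧ (v ∈ G → ∀ᶠ n in atTop,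
      (v ∈ F → ∀ k < L, ¬ bad v (n + k)) → v (z n) ≤ C1 * ev n) := by
    intro v
    by_cases hv : v ∈ G
    · rcases place_tri p hd x hx low hcase v (hGp v hv) with h | ⟨hl, h⟩ | h
      · obtain ⟨C1, hC1, h1⟩ := hinfz v (hGp v hv) h
        refine ⟨C1, hC1, fun _ => ?_⟩
        filter_upwards [h1] with n hn _
        exact hn.2.trans (le_mul_of_one_le_right (by linarith) (hev1 n))
      · obtain ⟨C1, hC1, h1⟩ := hP0 hl v (hGp v hv) h
        have hx0 : ∀ n, x n ≠ 0 := by
          rcases hcase with h2 | h2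
          · exact absurd h2 hl
          · exact h2.2
        refine ⟨1 + C1, by linarith, fun _ => ?_⟩
        filter_upwards [h1] with n hn _
        have h2 : 0 < v (x n) := v.pos (hx0 n)
        have h3 : v (z n) ≤ C1 := by
          show v (R.evalEval (x n) (y n) / x n ^ E) ≤ C1
          rw [map_div₀, map_pow, div_le_iff₀ (by positivity)]
          exact hn
        have h4 : 1 + C1 ≤ (1 + C1) * ev n := le_mul_of_one_le_right (by linarith) (hev1 n)
        linarith
      · have hvF : v ∈ F := Finset.mem_filter.mpr ⟨hv, h⟩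
        obtain ⟨C1, hC1, h1⟩ := pb_bound q he x y hy hinj p.natDegree (Real.log C0) B hl0 hκ1 hslow
          hB g m0 hg R E v (hGp v hv) h.1 h.2 η ε L hclean hε
        refine ⟨C1, hC1, fun _ => ?_⟩
        filter_upwards [h1] with n hn hb
        exact hn (hb hvF)
    · exact ⟨1, le_refl _, fun h => absurd h hv⟩
  choose C1 hC1 hC1' using hbd
  obtain ⟨C2, hC2, hH⟩ := hN C1 hC1
  obtain ⟨C3, hC3, h3⟩ := hinfz v0 hv0 hv0t
  -- vanishing at clean times
  have hmain : ∀ᶠ n in atTop, (∀ v ∈ F, ∀ k < L, ¬ bad v (n + k)) →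
      R.evalEval (x n) (y n) = 0 := by
    have hall : ∀ᶠ n in atTop, ∀ v ∈ G, (v ∈ F → ∀ k < L, ¬ bad v (n + k)) →
        v (z n) ≤ C1 v * ev n :=
      (Filter.eventually_all_finset G).mpr fun v hv => hC1' v hv
    filter_upwards [hall, h3, hs, hv0t.eventually (eventually_gt_atTop ((C3 * C2) ^ 2)),
      hv0t.eventually (eventually_ge_atTop 1)] with n e1 e2 e3 e4 e5 hcl
    by_contra hne
    have hx0n : x n ≠ 0 := by
      intro h
      rw [h, map_zero] at e5
      linarith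
    have hzne : z n ≠ 0 := div_ne_zero hne (pow_ne_zero _ hx0n)
    have e6 : mulHeight₁ (z n) ≤ C2 * ev n ^ N := by
      refine hH (z n) (ev n) (hev1 n) (fun v hv => e1 v (hGm v hv) fun hv' => hcl v hv')
        (fun v hv => e1 v.val (hGn v hv) fun hv' => hcl v.val hv') fun v hv => ?_
      rw [hS, Set.mem_union, not_or] at hv
      obtain ⟨g1, g2, g3⟩ := hgood v hv.1
      have hna : IsNonarchimedean v.val := isNonarchimedean v.val v.property
      have g4 := value_integral v.val hna R (x n) (y n) (g1 n) (g2 n) (hRint v hv.2)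
      show v.val (R.evalEval (x n) (y n) / x n ^ E) ≤ 1
      by_cases hl : low
      · rw [hl.2, pow_zero, div_one]
        exact g4
      · rw [map_div₀, map_pow, g3 hl n, one_pow, div_one]
        exact g4
    have e7 := hv0.liouville hzne
    have hv0x : 0 < v0 (x n) := by linarith
    -- the size of the factor
    have e8 : ev n ^ N ≤ Real.sqrt (v0 (x n)) := by
      have f1 : Real.log (mulHeight₁ (x n)) ≤ s * Real.log (v0 (x n)) := by
        rw [← Real.log_pow]
        exact Real.log_le_log (by positivity) e3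
      have f2 : 0 ≤ Real.log (v0 (x n)) := Real.log_nonneg e5
      have f3 : (N : ℝ) * (R.natDegree * (η * Real.log (mulHeight₁ (x n))))
          ≤ 1 / 2 * Real.log (v0 (x n)) := by
        have f4 : (N : ℝ) * (R.natDegree * (η * Real.log (mulHeight₁ (x n))))
            ≤ (N : ℝ) * (R.natDegree * (η * (s * Real.log (v0 (x n))))) := by
          apply mul_le_mul_of_nonneg_left _ (Nat.cast_nonneg _)
          apply mul_le_mul_of_nonneg_left _ (Nat.cast_nonneg _)
          exact mul_le_mul_of_nonneg_left f1 hη0.le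
        have f5 : (R.natDegree * N * s : ℝ) * η ≤ 1 / 2 := by
          rw [hη, mul_one_div, div_le_div_iff₀ (by positivity) (by norm_num)]
          have : (0 : ℝ) ≤ R.natDegree * N * s := by positivity
          linarith
        have f6 : (N : ℝ) * (R.natDegree * (η * (s * Real.log (v0 (x n)))))
            = ((R.natDegree * N * s : ℝ) * η) * Real.log (v0 (x n)) := by ring
        rw [f6] at f4
        exact f4.trans (mul_le_mul_of_nonneg_right f5 f2)
      have f4 : ev n ^ N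
          = Real.exp ((N : ℝ) * (R.natDegree * (η * Real.log (mulHeight₁ (x n))))) := by
        rw [Real.exp_nat_mul]
      rw [f4, Real.sqrt_eq_rpow, Real.rpow_def_of_pos hv0x]
      apply Real.exp_le_exp.mpr
      linarith
    have e9 : 1 * v0 (x n) ≤ (v0 (z n) * v0 (x n)) * (C2 * Real.sqrt (v0 (x n))) := by
      have f1 : 1 ≤ v0 (z n) * (C2 * Real.sqrt (v0 (x n))) :=
        e7.trans (mul_le_mul_of_nonneg_left
          (e6.trans (mul_le_mul_of_nonneg_left e8 (by linarith))) (v0.nonneg _))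
      calc 1 * v0 (x n) ≤ (v0 (z n) * (C2 * Real.sqrt (v0 (x n)))) * v0 (x n) :=
            mul_le_mul_of_nonneg_right f1 hv0x.le
        _ = _ := by ring
    have hsq : 0 < Real.sqrt (v0 (x n)) := Real.sqrt_pos.mpr hv0x
    have e10 : v0 (x n) ≤ C3 * (C2 * Real.sqrt (v0 (x n))) := by
      rw [one_mul] at e9
      exact e9.trans (mul_le_mul_of_nonneg_right e2.1 (by positivity))
    have e11 : Real.sqrt (v0 (x n)) ≤ C3 * C2 := by
      have f1 : Real.sqrt (v0 (x n)) * Real.sqrt (v0 (x n)) ≤ (C3 * C2) * Real.sqrt (v0 (x n)) := by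
        rw [Real.mul_self_sqrt hv0x.le]
        linarith
      exact le_of_mul_le_mul_right f1 hsq
    have e12 : v0 (x n) ≤ (C3 * C2) ^ 2 := by
      rw [← Real.sq_sqrt hv0x.le]
      exact pow_le_pow_left₀ hsq.le e11 2
    linarith
  -- a clean window exists
  refine vanish_of_times p q hd he x y hx hy R hR (F.card * (J + L)) ?_
  have hwin : ∀ᶠ n in atTop, ∀ v ∈ F, ∀ n1 n2 : ℕ, n ≤ n1 → n1 ≤ n2 → n2 ≤ n + N1 →
      bad v n1 → bad v n2 → n2 < n1 + Jv v :=
    (Filter.eventually_all_finset F).mpr fun v hv => hJv v hv N1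
  obtain ⟨n0, hn0⟩ := eventually_atTop.mp hmain
  filter_upwards [hwin, eventually_ge_atTop n0] with n hn hn1
  obtain ⟨i, hi, hcl⟩ := clean_window F bad J L n (fun v hv n1 n2 h1 h2 h3 h4 h5 =>
    (hn v hv n1 n2 h1 h2 h3 h4 h5).trans_le (Nat.add_le_add_left (hJle v hv) n1))
  refine ⟨i * (J + L), Nat.mul_le_mul_right _ hi, ?_⟩
  exact hn0 (n + i * (J + L)) (by omega) hcl

end Pool.Agent.Lib.MP_9ec2c5_sk
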