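import Mathlib
import Pool.Agent.Lib.MP_9ec2c5_nt_h65.Dim

/-!
A polynomial in `x` and `y` which is small near `x = ∞` and near `x = 0`, by counting.
-/

set_option autoImplicit false
set_option linter.unusedSectionVars false

namespace Pool.Agent.Lib.MP_9ec2c5_sk

open Polynomial Finset
open Pool.Agent.Lib.MP_9ec2c5_nt_h65

variable {K : Type} [Field K]

namespace Dim2

/-- a sum of an arithmetic progression -/
lemma sum_ap (E α Δ : ℕ) (M : ℕ) (h : ∀ i < M, α * i ≤ E) :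
    ((∑ i ∈ range M, Δ * (E - α * i) : ℕ) : ℤ) * 2 = Δ * (2 * E * M - α * (M * (M - 1))) := by
  induction M with
  | zero => simp
  | succ M ih =>
    have h1 := ih fun i hi => h i (by omega)
    rw [Finset.sum_range_succ]
    push_cast [Nat.cast_sub (h M (by omega))] at h1 ⊢
    linear_combination h1

/-- the count of unknowns and conditions -/
lemma count_lt2 (G Δ1 α1 Δ0 α0 M : ℕ) (hΔ1 : 1 ≤ Δ1) (hΔ0 : 1 ≤ Δ0)
    (h : G * (Δ1 * Δ0) < α1 * Δ0 + α0 * Δ1) (hM : M = α1 + α0 + 1) :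
    ∑ i : Fin (Δ0 * M), Δ1 * (α1 * (Δ0 * M) + 1 - α1 * i)
      + ∑ i : Fin (Δ1 * M), Δ0 * (α0 * (Δ1 * M) - α0 * i)
      < ∑ j : Fin (Δ1 * Δ0 * M), (α1 * (Δ0 * M) + α0 * (Δ1 * M) + 1 - G * j) := by
  rw [Fin.sum_univ_eq_sum_range (fun i => Δ1 * (α1 * (Δ0 * M) + 1 - α1 * i)),
    Fin.sum_univ_eq_sum_range (fun i => Δ0 * (α0 * (Δ1 * M) - α0 * i)),
    Fin.sum_univ_eq_sum_range (fun j => α1 * (Δ0 * M) + α0 * (Δ1 * M) + 1 - G * j)]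
  have hGN : G * (Δ1 * Δ0 * M) ≤ α1 * (Δ0 * M) + α0 * (Δ1 * M) := by
    calc G * (Δ1 * Δ0 * M) = (G * (Δ1 * Δ0)) * M := by ring
      _ ≤ (α1 * Δ0 + α0 * Δ1) * M := Nat.mul_le_mul_right _ h.le
      _ = _ := by ring
  have h1 := sum_ap (α1 * (Δ0 * M) + 1) α1 Δ1 (Δ0 * M)
    (fun i hi => (Nat.mul_le_mul_left _ hi.le).trans (Nat.le_succ _))
  have h2 := sum_ap (α0 * (Δ1 * M)) α0 Δ0 (Δ1 * M) (fun i hi => Nat.mul_le_mul_left _ hi.le)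
  have h3 := sum_ap (α1 * (Δ0 * M) + α0 * (Δ1 * M) + 1) G 1 (Δ1 * Δ0 * M)
    (fun i hi => ((Nat.mul_le_mul_left _ hi.le).trans hGN).trans (Nat.le_succ _))
  simp only [one_mul, Nat.cast_one] at h3
  have h4 : ((∑ i ∈ range (Δ0 * M), Δ1 * (α1 * (Δ0 * M) + 1 - α1 * i)
      + ∑ i ∈ range (Δ1 * M), Δ0 * (α0 * (Δ1 * M) - α0 * i) : ℕ) : ℤ) * 2
      < ((∑ j ∈ range (Δ1 * Δ0 * M), (α1 * (Δ0 * M) + α0 * (Δ1 * M) + 1 - G * j) : ℕ) : ℤ)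
        * 2 := by
    rw [Nat.cast_add, add_mul, h1, h2, h3]
    have i1 : (1 : ℤ) ≤ Δ1 := by exact_mod_cast hΔ1
    have i2 : (1 : ℤ) ≤ Δ0 := by exact_mod_cast hΔ0
    have i3 : (M : ℤ) = α1 + α0 + 1 := by exact_mod_cast hM
    have i4 : (G : ℤ) * (Δ1 * Δ0) + 1 ≤ α1 * Δ0 + α0 * Δ1 := by exact_mod_cast h
    have i5 : (0 : ℤ) ≤ α1 := by positivity
    have i6 : (0 : ℤ) ≤ α0 := by positivity
    have i7 : (0 : ℤ) ≤ G := by positivity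
    have i8 : (0 : ℤ) < M := by linarith
    have i9 : (0 : ℤ) < (Δ1 * Δ0 * M : ℤ) := by positivity
    have i10 : (0 : ℤ) < (Δ1 * Δ0 * M : ℤ)
        * (M * (α1 * Δ0 + α0 * Δ1 - G * (Δ1 * Δ0) - 1) + (1 + G)) := by
      refine mul_pos i9 (add_pos_of_nonneg_of_pos (mul_nonneg i8.le (by linarith)) (by linarith))
    have i11 : (α1 : ℤ) + α0 = M - 1 := by linarith
    push_cast
    have i12 : (2 * (α1 * (Δ0 * M) + α0 * (Δ1 * M) + 1) * (Δ1 * Δ0 * M)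
          - G * (Δ1 * Δ0 * M * (Δ1 * Δ0 * M - 1)))
        - (Δ1 * (2 * (α1 * (Δ0 * M) + 1) * (Δ0 * M) - α1 * (Δ0 * M * (Δ0 * M - 1)))
          + Δ0 * (2 * (α0 * (Δ1 * M)) * (Δ1 * M) - α0 * (Δ1 * M * (Δ1 * M - 1))))
        = (Δ1 * Δ0 * M : ℤ) * (M * (α1 * Δ0 + α0 * Δ1 - G * (Δ1 * Δ0)) + G - (α1 + α0)) := by
      ring
    have i13 : (Δ1 * Δ0 * M : ℤ) * (M * (α1 * Δ0 + α0 * Δ1 - G * (Δ1 * Δ0)) + G - (α1 + α0))
        = (Δ1 * Δ0 * M : ℤ)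
        * (M * (α1 * Δ0 + α0 * Δ1 - G * (Δ1 * Δ0) - 1) + (1 + G)) := by
      rw [i11]
      ring
    linarith
  have h5 : ((∑ i ∈ range (Δ0 * M), Δ1 * (α1 * (Δ0 * M) + 1 - α1 * i)
      + ∑ i ∈ range (Δ1 * M), Δ0 * (α0 * (Δ1 * M) - α0 * i) : ℕ) : ℤ)
      < ((∑ j ∈ range (Δ1 * Δ0 * M), (α1 * (Δ0 * M) + α0 * (Δ1 * M) + 1 - G * j) : ℕ) : ℤ) := by
    linarith
  exact_mod_cast h5

section aux

variable (G T N : ℕ)

/-- the index set of the unknowns -/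
abbrev Unk2 : Type := Σ j : Fin N, Fin (T + 1 - G * j)

variable {G T N}

/-- the polynomial with prescribed exponents -/
noncomputable def mkE (e : Unk2 G T N → ℕ) : (Unk2 G T N → K) →ₗ[K] K[X][X] where
  toFun c := ∑ σ, monomial (σ.1 : ℕ) (monomial (e σ) (c σ))
  map_add' c c' := by
    rw [← Finset.sum_add_distrib]
    refine Finset.sum_congr rfl fun σ _ => ?_
    rw [Pi.add_apply, map_add, map_add]
  map_smul' r c := by
    rw [RingHom.id_apply, Finset.smul_sum]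
    refine Finset.sum_congr rfl fun σ _ => ?_
    rw [Pi.smul_apply, smul_monomial, smul_monomial]

lemma mkE_ne (e : Unk2 G T N → ℕ) (he : ∀ j l l', e ⟨j, l⟩ = e ⟨j, l'⟩ → l = l')
    (c : Unk2 G T N → K) (hc : c ≠ 0) : mkE e c ≠ 0 := by
  classical
  intro h
  apply hc
  funext σ
  have h1 : ((mkE e c).coeff σ.1).coeff (e σ) = c σ := by
    show ((∑ σ, monomial (σ.1 : ℕ) (monomial (e σ) (c σ)) : K[X][X]).coeff σ.1).coeff (e σ) = c σ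
    rw [finsetSum_coeff, finsetSum_coeff, Finset.sum_eq_single σ]
    · rw [coeff_monomial_same, coeff_monomial_same]
    · rintro ⟨j, l⟩ _ hne
      obtain ⟨j', l'⟩ := σ
      rw [coeff_monomial]
      split_ifs with h2
      · have h3 : j = j' := Fin.ext h2
        subst h3
        rw [coeff_monomial, if_neg]
        intro h4
        apply hne
        rw [he j l l' h4]
      · rw [coeff_zero]
    · intro h
      exact absurd (Finset.mem_univ _) h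
  rw [h, coeff_zero, coeff_zero] at h1
  exact h1.symm

lemma mkE_degree (e : Unk2 G T N → ℕ) (c : Unk2 G T N → K) :
    (mkE e c).degree < (N : WithBot ℕ) := by
  refine (degree_sum_le _ _).trans_lt ?_
  rw [Finset.sup_lt_iff (WithBot.bot_lt_coe _)]
  intro σ _
  refine (degree_monomial_le _ _).trans_lt ?_
  exact_mod_cast σ.1.isLt

variable {Ω : Type} [Field Ω] [Algebra K Ω]

lemma ev2_mkE (e : Unk2 G T N → ℕ) (c : Unk2 G T N → K) (w u : Ω) :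
    ev2 (mkE e c) w u = ∑ σ : Unk2 G T N,
      algebraMap K Ω (c σ) * (w ^ (e σ) * u ^ (σ.1 : ℕ)) := by
  show ev2 (∑ σ, monomial (σ.1 : ℕ) (monomial (e σ) (c σ))) w u = _
  rw [ev2_sum]
  refine Finset.sum_congr rfl fun σ _ => ?_
  unfold ev2
  rw [eval₂_monomial]
  show aeval _ (monomial _ (c σ)) * _ = _
  rw [aeval_monomial, mul_assoc]

/-- the conditions at one puncture -/
noncomputable def cnd2 (n Δ E α : ℕ) (A : K[X][X]) (hA : A.Monic) (e : Unk2 G T N → ℕ) :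
    (Unk2 G T N → K) →ₗ[K] ((Σ i : Fin n, Fin Δ × Fin (E - α * i)) → K) :=
  LinearMap.pi fun σ => (lcoeff K (σ.2.2 : ℕ)).comp
    (((lcoeff K[X] (σ.2.1 : ℕ)).restrictScalars K).comp
      (((digL A hA σ.1).restrictScalars K).comp (mkE e)))

lemma dvd_of_cnd2 (n Δ E α : ℕ) (A : K[X][X]) (hA : A.Monic) (hAd : A.natDegree = Δ)
    (e : Unk2 G T N → ℕ) (c : Unk2 G T N → K) (hc : cnd2 n Δ E α A hA e c = 0) :
    ∀ i : ℕ, i < n → C (X ^ (E - α * i)) ∣ digL A hA i (mkE e c) := by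
  intro i hi
  rw [C_dvd_iff_dvd_coeff]
  intro j
  rcases Nat.lt_or_ge j Δ with hj | hj
  · rw [X_pow_dvd_iff]
    intro l hl
    exact congrFun hc ⟨⟨i, hi⟩, ⟨j, hj⟩, ⟨l, hl⟩⟩
  · rw [digL_natDegree A hA Δ hAd i _ j hj]
    exact dvd_zero _

end aux

/-- Smallness from the divisibility of the digits. -/
lemma small_of_digits (n Δ E α : ℕ) (A : K[X][X]) (hA : A.Monic) (hAd : A.natDegree = Δ)
    (F : K[X][X]) (hF : F.degree < ((Δ * n : ℕ) : WithBot ℕ))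
    (hd : ∀ i : ℕ, i < n → C (X ^ (E - α * i)) ∣ digL A hA i F)
    (Ω : Type) [Field Ω] [Algebra K Ω] (μ : AbsoluteValue Ω ℝ) (C0 R : ℝ) (hC0 : 0 ≤ C0) :
    ∃ C1 : ℝ, 0 ≤ C1 ∧ ∀ w u : Ω, w ≠ 0 → μ w ≤ 1 → μ u ≤ R →
      μ (ev2 A w u) ≤ C0 * μ w ^ α → μ (ev2 F w u) ≤ C1 * μ w ^ E := by
  have h4 : ∀ i : ℕ, ∃ B : ℝ, 0 ≤ B ∧ (i < n → ∀ w u : Ω, μ w ≤ 1 → μ u ≤ R →
      μ (ev2 (digL A hA i F) w u) ≤ B * μ w ^ (E - α * i)) := by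
    intro i
    rcases Nat.lt_or_ge i n with hi | hi
    · obtain ⟨B, hB, h5⟩ := ev2_small_of_dvd (μ := μ) _ _ (hd i hi) R
      exact ⟨B, hB, fun _ => h5⟩
    · exact ⟨0, le_refl _, fun h => absurd h (by omega)⟩
  choose B hB h4 using h4
  refine ⟨∑ i ∈ range n, B i * C0 ^ i, Finset.sum_nonneg fun i _ => mul_nonneg (hB i)
    (pow_nonneg hC0 _), fun w u hw hw1 hu hAs => ?_⟩
  have hμ : 0 < μ w := μ.pos hw
  conv_lhs => rw [digL_sum A hA Δ hAd n _ hF]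
  rw [ev2_sum]
  refine (μ.sum_le _ _).trans ?_
  rw [Finset.sum_mul]
  refine Finset.sum_le_sum fun i hi => ?_
  have hi' := Finset.mem_range.mp hi
  rw [ev2_mul, ev2_pow, map_mul, map_pow]
  calc _ ≤ (B i * μ w ^ (E - α * i)) * (C0 * μ w ^ α) ^ i :=
        mul_le_mul (h4 i hi' w u hw1 hu) (pow_le_pow_left₀ (μ.nonneg _) hAs _)
          (pow_nonneg (μ.nonneg _) _) (mul_nonneg (hB i) (by positivity))
    _ = B i * C0 ^ i * μ w ^ (E - α * i + α * i) := by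
        rw [pow_add, pow_mul, mul_pow]
        ring
    _ ≤ B i * C0 ^ i * μ w ^ E :=
        mul_le_mul_of_nonneg_left (pow_le_pow_of_le_one hμ.le hw1 (by omega))
          (mul_nonneg (hB i) (pow_nonneg hC0 _))

end Dim2

open Dim2 in
/-- A nonzero polynomial `P` which is small near `x = ∞` wherever `A1` is small to the order `α1`,
and small near `x = 0` wherever `A0` is small to the order `α0`. -/
theorem exists_aux2 (a a0 Δ1 α1 Δ0 α0 : ℕ) (hΔ1 : 1 ≤ Δ1) (hΔ0 : 1 ≤ Δ0)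
    (h : (a + a0) * (Δ1 * Δ0) < α1 * Δ0 + α0 * Δ1) (A1 A0 : K[X][X]) (hA1 : A1.Monic)
    (hA1d : A1.natDegree = Δ1) (hA0 : A0.Monic) (hA0d : A0.natDegree = Δ0) :
    ∃ (P : K[X][X]) (D : ℕ), P ≠ 0 ∧
      (∀ (Ω : Type) [Field Ω] [Algebra K Ω] (μ : AbsoluteValue Ω ℝ) (C0 R : ℝ), 0 ≤ C0 →
        ∃ C1 : ℝ, 0 ≤ C1 ∧ ∀ w u : Ω, w ≠ 0 → μ w ≤ 1 → μ u ≤ R →
          μ (ev2 A1 w u) ≤ C0 * μ w ^ α1 →
          μ (ev2 P w⁻¹ (w⁻¹ ^ a * u)) * μ w ^ D ≤ C1 * μ w) ∧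
      (∀ (Ω : Type) [Field Ω] [Algebra K Ω] (μ : AbsoluteValue Ω ℝ) (C0 R : ℝ), 0 ≤ C0 →
        ∃ C1 : ℝ, 0 ≤ C1 ∧ ∀ w u : Ω, w ≠ 0 → μ w ≤ 1 → μ u ≤ R →
          μ (ev2 A0 w u) ≤ C0 * μ w ^ α0 →
          μ (ev2 P w (w⁻¹ ^ a0 * u)) ≤ C1 * μ w ^ D) := by
  obtain ⟨M, hM⟩ : ∃ M, M = α1 + α0 + 1 := ⟨_, rfl⟩
  obtain ⟨D1, hD1⟩ : ∃ D1, D1 = α1 * (Δ0 * M) := ⟨_, rfl⟩
  obtain ⟨D0, hD0⟩ : ∃ D0, D0 = α0 * (Δ1 * M) := ⟨_, rfl⟩
  obtain ⟨N, hN⟩ : ∃ N, N = Δ1 * Δ0 * M := ⟨_, rfl⟩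
  have hGN : (a + a0) * N ≤ D1 + D0 := by
    rw [hN, hD1, hD0]
    calc (a + a0) * (Δ1 * Δ0 * M) = ((a + a0) * (Δ1 * Δ0)) * M := by ring
      _ ≤ (α1 * Δ0 + α0 * Δ1) * M := Nat.mul_le_mul_right _ h.le
      _ = _ := by ring
  let e1 : Unk2 (a + a0) (D1 + D0) N → ℕ := fun σ => D1 + D0 - (a + a0) * σ.1 - σ.2
  let e0 : Unk2 (a + a0) (D1 + D0) N → ℕ := fun σ => (σ.2 : ℕ)
  let eP : Unk2 (a + a0) (D1 + D0) N → ℕ := fun σ => a0 * σ.1 + σ.2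
  let L : (Unk2 (a + a0) (D1 + D0) N → K) →ₗ[K]
      ((Σ i : Fin (Δ0 * M), Fin Δ1 × Fin (D1 + 1 - α1 * i)) → K)
      × ((Σ i : Fin (Δ1 * M), Fin Δ0 × Fin (D0 - α0 * i)) → K) :=
    (cnd2 (Δ0 * M) Δ1 (D1 + 1) α1 A1 hA1 e1).prod (cnd2 (Δ1 * M) Δ0 D0 α0 A0 hA0 e0)
  have h1 : Module.finrank K (((Σ i : Fin (Δ0 * M), Fin Δ1 × Fin (D1 + 1 - α1 * i)) → K)
      × ((Σ i : Fin (Δ1 * M), Fin Δ0 × Fin (D0 - α0 * i)) → K))
      < Module.finrank K (Unk2 (a + a0) (D1 + D0) N → K) := by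
    rw [Module.finrank_prod, Module.finrank_fintype_fun_eq_card,
      Module.finrank_fintype_fun_eq_card, Module.finrank_fintype_fun_eq_card,
      Fintype.card_sigma, Fintype.card_sigma, Fintype.card_sigma]
    simp only [Fintype.card_prod, Fintype.card_fin]
    rw [hD1, hD0, hN]
    exact count_lt2 (a + a0) Δ1 α1 Δ0 α0 M hΔ1 hΔ0 h hM
  have h2 := LinearMap.ker_ne_bot_of_finrank_lt (f := L) h1
  obtain ⟨c, hc, hc0⟩ := Submodule.exists_mem_ne_zero_of_ne_bot h2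
  rw [LinearMap.mem_ker] at hc
  have hc1 : cnd2 (Δ0 * M) Δ1 (D1 + 1) α1 A1 hA1 e1 c = 0 := congrArg Prod.fst hc
  have hc2 : cnd2 (Δ1 * M) Δ0 D0 α0 A0 hA0 e0 c = 0 := congrArg Prod.snd hc
  have hle : ∀ j : Fin N, (a + a0) * j ≤ D1 + D0 := fun j =>
    (Nat.mul_le_mul_left _ j.isLt.le).trans hGN
  refine ⟨mkE eP c, D0, mkE_ne eP ?_ c hc0, ?_, ?_⟩
  · intro j l l' hl
    apply Fin.ext
    simp only [eP] at hl
    omega
  · intro Ω _ _ μ C0 R hC0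
    have hN1 : N = Δ1 * (Δ0 * M) := by rw [hN]; ring
    obtain ⟨C1, hC1, h3⟩ := small_of_digits (Δ0 * M) Δ1 (D1 + 1) α1 A1 hA1 hA1d (mkE e1 c)
      (by rw [← hN1]; exact mkE_degree e1 c)
      (dvd_of_cnd2 _ _ _ _ A1 hA1 hA1d e1 c hc1) Ω μ C0 R hC0
    refine ⟨C1, hC1, fun w u hw hw1 hu hAs => ?_⟩
    have hμ : 0 < μ w := μ.pos hw
    have h4 := h3 w u hw hw1 hu hAs
    have h5 : w ^ (D1 + D0) * ev2 (mkE eP c) w⁻¹ (w⁻¹ ^ a * u) = ev2 (mkE e1 c) w u := by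
      rw [ev2_mkE, ev2_mkE, Finset.mul_sum]
      refine Finset.sum_congr rfl fun σ _ => ?_
      have h6 := hle σ.1
      have h7 : (σ.2 : ℕ) ≤ D1 + D0 - (a + a0) * σ.1 := by
        have := σ.2.isLt
        omega
      have h8 : w ^ (D1 + D0) = w ^ (e1 σ) * (w ^ (eP σ) * (w ^ a) ^ (σ.1 : ℕ)) := by
        rw [← pow_mul, ← pow_add, ← pow_add]
        congr 1
        have h9 : (a + a0) * (σ.1 : ℕ) = a * σ.1 + a0 * σ.1 := by ring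
        simp only [e1, eP]
        omega
      rw [h8, mul_pow, inv_pow, inv_pow, inv_pow]
      have h10 : w ^ (eP σ) ≠ 0 := pow_ne_zero _ hw
      have h11 : (w ^ a) ^ (σ.1 : ℕ) ≠ 0 := pow_ne_zero _ (pow_ne_zero _ hw)
      field_simp
    rw [← h5, map_mul, map_pow] at h4
    have h6 : 0 < μ w ^ D1 := by positivity
    refine le_of_mul_le_mul_left ?_ h6
    calc μ w ^ D1 * (μ (ev2 (mkE eP c) w⁻¹ (w⁻¹ ^ a * u)) * μ w ^ D0)
        = μ w ^ (D1 + D0) * μ (ev2 (mkE eP c) w⁻¹ (w⁻¹ ^ a * u)) := by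
          rw [pow_add]
          ring
      _ ≤ C1 * μ w ^ (D1 + 1) := h4
      _ = μ w ^ D1 * (C1 * μ w) := by
          rw [pow_succ]
          ring
  · intro Ω _ _ μ C0 R hC0
    have hN0 : N = Δ0 * (Δ1 * M) := by rw [hN]; ring
    obtain ⟨C1, hC1, h3⟩ := small_of_digits (Δ1 * M) Δ0 D0 α0 A0 hA0 hA0d (mkE e0 c)
      (by rw [← hN0]; exact mkE_degree e0 c)
      (dvd_of_cnd2 _ _ _ _ A0 hA0 hA0d e0 c hc2) Ω μ C0 R hC0
    refine ⟨C1, hC1, fun w u hw hw1 hu hAs => ?_⟩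
    have h4 := h3 w u hw hw1 hu hAs
    have h5 : ev2 (mkE eP c) w (w⁻¹ ^ a0 * u) = ev2 (mkE e0 c) w u := by
      rw [ev2_mkE, ev2_mkE]
      refine Finset.sum_congr rfl fun σ _ => ?_
      have h11 : (w ^ a0) ^ (σ.1 : ℕ) ≠ 0 := pow_ne_zero _ (pow_ne_zero _ hw)
      simp only [e0, eP]
      rw [mul_pow, inv_pow, inv_pow, pow_add, pow_mul]
      field_simp
    rw [h5]
    exact h4

end Pool.Agent.Lib.MP_9ec2c5_sk
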