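import Mathlib
import Pool.Agent.Lib.MP_9ec2c5_sk.Data
import Pool.Agent.Lib.MP_9ec2c5_sk.Dim2

/-!
Polynomials over the base field which are small at the late points of a slow orbit, at the places at
which the base orbit tends to infinity and at those at which it tends to zero.
-/

set_option autoImplicit false
set_option linter.unusedSectionVars false

namespace Pool.Agent.Lib.MP_9ec2c5_sk

open Polynomial Finset Filter Topology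
open Pool.Agent.Lib.MP_9ec2c5_nt_h65

variable {K : Type} [Field K]

/-- `P` is small near `x = ∞` at the starts of segments with itinerary in `V` -/
def InfData.GoodP (D : InfData K) (L : ℕ) (V : Finset (Fin L → D.ι)) (P : K[X][X]) (E : ℕ) : Prop :=
  ∀ (Ω : Type) [Field Ω] [Algebra K Ω] (μ : AbsoluteValue Ω ℝ) (C0 C1 R0 : ℝ),
    0 ≤ C0 → 0 ≤ C1 → 0 ≤ R0 → ∃ δ C2 : ℝ, 0 < δ ∧ 0 ≤ C2 ∧ ∀ x0 y0 : Ω, x0 ≠ 0 →
      (∃ (w u s : ℕ → Ω) (i : ℕ → D.ι), D.Seg μ C0 C1 R0 δ w u s i ∧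
        w 0 = x0⁻¹ ∧ u 0 = x0⁻¹ ^ D.a * y0 ∧ (fun k : Fin L => i k) ∈ V) →
      μ (ev2 P x0 y0) * μ x0 ≤ C2 * μ x0 ^ E

/-- `P` is small near `x = 0` at the starts of segments -/
def ZeroData.GoodZ (D : ZeroData K) (P : K[X][X]) (E : ℕ) : Prop :=
  ∀ (Ω : Type) [Field Ω] [Algebra K Ω] (μ : AbsoluteValue Ω ℝ) (C0 C1 R0 : ℝ),
    0 ≤ C0 → 0 ≤ C1 → 0 ≤ R0 → ∃ δ C2 : ℝ, 0 < δ ∧ 0 ≤ C2 ∧ ∀ x0 y0 : Ω, x0 ≠ 0 →
      (∃ (w u s : ℕ → Ω) (i : ℕ → D.ι), D.Seg μ C0 C1 R0 δ w u s i ∧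
        w 0 = x0 ∧ u 0 = x0 ^ D.a * y0) →
      μ (ev2 P x0 y0) ≤ C2 * μ x0 ^ E

/-- one puncture -/
theorem InfData.exists_goodP (D : InfData K) (L : ℕ) (V : Finset (Fin L → D.ι)) (A : K[X][X])
    (Δ α : ℕ) (hA : A.Monic) (hAd : A.natDegree = Δ) (hg : D.Good L V A α) (ha : 1 ≤ D.a)
    (hΔ : 1 ≤ Δ) (hα : D.a * Δ < α) : ∃ P : K[X][X], P ≠ 0 ∧ D.GoodP L V P 0 := by
  obtain ⟨P, hP, h1⟩ := exists_aux D.a Δ α ha hΔ hα A hA hAd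
  refine ⟨P, hP, ?_⟩
  intro Ω _ _ μ C0 C1 R0 hC0 hC1 hR0
  obtain ⟨δ, C2, hδ, hC2, h2⟩ := hg Ω μ C0 C1 R0 hC0 hC1 hR0
  obtain ⟨C3, hC3, h3⟩ := h1 Ω μ C2 R0 hC2
  refine ⟨min 1 δ, C3, by positivity, hC3, ?_⟩
  rintro x0 y0 hx0 ⟨w, u, s, i, hs, hw, hu, hi⟩
  have hw0 : w 0 ≠ 0 := by rw [hw]; exact inv_ne_zero hx0
  have h4 := h2 w u s i (PunctData.Seg.mono _ hs (min_le_right _ _)) hi
  have h5 := h3 (w 0) (u 0) hw0 ((hs.small 0).trans (min_le_left _ _)) (hs.step 0).u0_le h4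
  have h6 : (w 0)⁻¹ = x0 := by rw [hw, inv_inv]
  have h7 : (w 0)⁻¹ ^ D.a * u 0 = y0 := by
    rw [hu, h6, ← mul_assoc, ← mul_pow, mul_inv_cancel₀ hx0, one_pow, one_mul]
  rw [h7, h6, hw, map_inv₀] at h5
  have hμ : 0 < μ x0 := μ.pos hx0
  rw [pow_zero, mul_one]
  calc μ (ev2 P x0 y0) * μ x0 ≤ (C3 * (μ x0)⁻¹) * μ x0 := mul_le_mul_of_nonneg_right h5 hμ.le
    _ = C3 := by field_simp

/-- two punctures -/
theorem exists_goodPZ (D : InfData K) (D' : ZeroData K) (L : ℕ) (V : Finset (Fin L → D.ι))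
    (A1 : K[X][X]) (Δ1 α1 : ℕ) (hA1 : A1.Monic) (hA1d : A1.natDegree = Δ1)
    (hg1 : D.Good L V A1 α1) (L' : ℕ) (A0 : K[X][X]) (Δ0 α0 : ℕ) (hA0 : A0.Monic)
    (hA0d : A0.natDegree = Δ0) (hg0 : D'.Good L' univ A0 α0) (hΔ1 : 1 ≤ Δ1) (hΔ0 : 1 ≤ Δ0)
    (h : (D.a + D'.a) * (Δ1 * Δ0) < α1 * Δ0 + α0 * Δ1) :
    ∃ (P : K[X][X]) (E : ℕ), P ≠ 0 ∧ D.GoodP L V P E ∧ D'.GoodZ P E := by
  obtain ⟨P, E, hP, h1, h0⟩ := exists_aux2 D.a D'.a Δ1 α1 Δ0 α0 hΔ1 hΔ0 h A1 A0 hA1 hA1d hA0 hA0d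
  refine ⟨P, E, hP, ?_, ?_⟩
  · intro Ω _ _ μ C0 C1 R0 hC0 hC1 hR0
    obtain ⟨δ, C2, hδ, hC2, h2⟩ := hg1 Ω μ C0 C1 R0 hC0 hC1 hR0
    obtain ⟨C3, hC3, h3⟩ := h1 Ω μ C2 R0 hC2
    refine ⟨min 1 δ, C3, by positivity, hC3, ?_⟩
    rintro x0 y0 hx0 ⟨w, u, s, i, hs, hw, hu, hi⟩
    have hw0 : w 0 ≠ 0 := by rw [hw]; exact inv_ne_zero hx0
    have h4 := h2 w u s i (PunctData.Seg.mono _ hs (min_le_right _ _)) hi
    have h5 := h3 (w 0) (u 0) hw0 ((hs.small 0).trans (min_le_left _ _)) (hs.step 0).u0_le h4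
    have h6 : (w 0)⁻¹ = x0 := by rw [hw, inv_inv]
    have h7 : (w 0)⁻¹ ^ D.a * u 0 = y0 := by
      rw [hu, h6, ← mul_assoc, ← mul_pow, mul_inv_cancel₀ hx0, one_pow, one_mul]
    rw [h7, h6, hw, map_inv₀, inv_pow] at h5
    have hμ : 0 < μ x0 := μ.pos hx0
    calc μ (ev2 P x0 y0) * μ x0 = (μ (ev2 P x0 y0) * (μ x0 ^ E)⁻¹) * (μ x0 * μ x0 ^ E) := by
          field_simp
      _ ≤ (C3 * (μ x0)⁻¹) * (μ x0 * μ x0 ^ E) := mul_le_mul_of_nonneg_right h5 (by positivity)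
      _ = C3 * μ x0 ^ E := by field_simp
  · intro Ω _ _ μ C0 C1 R0 hC0 hC1 hR0
    obtain ⟨δ, C2, hδ, hC2, h2⟩ := hg0 Ω μ C0 C1 R0 hC0 hC1 hR0
    obtain ⟨C3, hC3, h3⟩ := h0 Ω μ C2 R0 hC2
    refine ⟨min 1 δ, C3, by positivity, hC3, ?_⟩
    rintro x0 y0 hx0 ⟨w, u, s, i, hs, hw, hu⟩
    have hw0 : w 0 ≠ 0 := by rw [hw]; exact hx0
    have h4 := h2 w u s i (PunctData.Seg.mono _ hs (min_le_right _ _)) (mem_univ _)
    have h5 := h3 (w 0) (u 0) hw0 ((hs.small 0).trans (min_le_left _ _)) (hs.step 0).u0_le h4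
    have h7 : (w 0)⁻¹ ^ D'.a * u 0 = y0 := by
      rw [hu, hw, ← mul_assoc, ← mul_pow, inv_mul_cancel₀ hx0, one_pow, one_mul]
    rw [h7, hw] at h5
    exact h5

section places

variable [NumberField K]

/-- the local statement at a place at which the base orbit tends to infinity -/
theorem InfData.local_inf (D : InfData K) (v : AbsoluteValue K ℝ) (hv : IsPlace v) (x y : ℕ → K)
    (hx : ∀ n, x (n + 1) = D.p.eval (x n))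
    (hy : ∀ n, x n ^ D.M * y (n + 1) = D.F.evalEval (x n) (y n))
    (hinf : Tendsto (fun n => v (x n)) atTop atTop)
    (hslow : ∃ A B : ℝ, ∀ n : ℕ, v (y n) ≤ Real.exp ((D.d : ℝ) ^ n * (A + B * n)))
    (L : ℕ) (𝓡 : Finset (Fin L → D.ι) → K[X][X]) (E : Finset (Fin L → D.ι) → ℕ)
    (𝒱 : Finset (Finset (Fin L → D.ι))) (h𝓡 : ∀ V ∈ 𝒱, D.GoodP L V (𝓡 V) (E V)) :
    ∃ (It : ℕ → Fin L → D.ι) (C : ℝ), 0 ≤ C ∧ ∀ᶠ n in atTop, ∀ V ∈ 𝒱, It n ∈ V →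
      v ((𝓡 V).evalEval (x n) (y n)) * v (x n) ≤ C * v (x n) ^ (E V) := by
  classical
  have := D.hne
  obtain ⟨Ω, _, _, _, μ, hμ⟩ := exists_extension v hv
  obtain ⟨C0, C1, R0, hC0, hC1, hR0, hseg⟩ := D.segs μ (fun n => algebraMap K Ω (x n))
    (fun n => algebraMap K Ω (y n)) (fun n => by
      show algebraMap K Ω (x (n + 1)) = _
      rw [hx, aeval_algebraMap_apply_eq_algebraMap_eval]) (fun n => by
      show algebraMap K Ω (x n) ^ D.M * algebraMap K Ω (y (n + 1)) = _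
      rw [← map_pow, ← map_mul, hy, ev2_algebraMap]) (by
      simp only [hμ]
      exact hinf) (by
      obtain ⟨A, B, h⟩ := hslow
      exact ⟨A, B, fun n => by
        rw [hμ]
        exact h n⟩)
  have hcon : ∀ V, ∃ δ C2 : ℝ, 0 < δ ∧ 0 ≤ C2 ∧ (V ∈ 𝒱 → ∀ x0 y0 : Ω, x0 ≠ 0 →
      (∃ (w u s : ℕ → Ω) (i : ℕ → D.ι), D.Seg μ C0 C1 R0 δ w u s i ∧
        w 0 = x0⁻¹ ∧ u 0 = x0⁻¹ ^ D.a * y0 ∧ (fun k : Fin L => i k) ∈ V) →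
      μ (ev2 (𝓡 V) x0 y0) * μ x0 ≤ C2 * μ x0 ^ (E V)) := by
    intro V
    by_cases hV : V ∈ 𝒱
    · obtain ⟨δ, C2, h1, h2, h3⟩ := h𝓡 V hV Ω μ C0 C1 R0 hC0 hC1 hR0
      exact ⟨δ, C2, h1, h2, fun _ => h3⟩
    · exact ⟨1, 0, one_pos, le_refl _, fun h => absurd h hV⟩
  choose δ C2 hδ hC2 hmain using hcon
  obtain ⟨δ0, hδ0, hδle⟩ : ∃ δ0 : ℝ, 0 < δ0 ∧ ∀ V ∈ 𝒱, δ0 ≤ δ V := by
    rcases 𝒱.eq_empty_or_nonempty with h | h
    · exact ⟨1, one_pos, by simp [h]⟩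
    · obtain ⟨V, hV, hmin⟩ := Finset.exists_min_image 𝒱 δ h
      exact ⟨δ V, hδ V, hmin⟩
  have hIt : ∀ n : ℕ, ∃ it : Fin L → D.ι,
      (∃ (w u s : ℕ → Ω) (i : ℕ → D.ι), D.Seg μ C0 C1 R0 δ0 w u s i ∧
        w 0 = (algebraMap K Ω (x n))⁻¹ ∧
        u 0 = (algebraMap K Ω (x n))⁻¹ ^ D.a * algebraMap K Ω (y n)) →
      ∃ (w u s : ℕ → Ω) (i : ℕ → D.ι), D.Seg μ C0 C1 R0 δ0 w u s i ∧
        w 0 = (algebraMap K Ω (x n))⁻¹ ∧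
        u 0 = (algebraMap K Ω (x n))⁻¹ ^ D.a * algebraMap K Ω (y n) ∧
        (fun k : Fin L => i k) = it := by
    intro n
    by_cases h : ∃ (w u s : ℕ → Ω) (i : ℕ → D.ι), D.Seg μ C0 C1 R0 δ0 w u s i ∧
        w 0 = (algebraMap K Ω (x n))⁻¹ ∧
        u 0 = (algebraMap K Ω (x n))⁻¹ ^ D.a * algebraMap K Ω (y n)
    · obtain ⟨w, u, s, i, h1, h2, h3⟩ := h
      exact ⟨fun k => i k, fun _ => ⟨w, u, s, i, h1, h2, h3, rfl⟩⟩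
    · exact ⟨fun _ => Classical.arbitrary _, fun h' => absurd h' h⟩
  choose It hIt using hIt
  set C3 : ℝ := ∑ V ∈ 𝒱, C2 V with hC3
  have hC30 : 0 ≤ C3 := Finset.sum_nonneg fun V _ => hC2 V
  refine ⟨It, C3, hC30, ?_⟩
  filter_upwards [hseg δ0 hδ0] with n hn V hV hItV
  obtain ⟨hxn, hsn⟩ := hn
  obtain ⟨w, u, s, i, h1, h2, h3, h4⟩ := hIt n hsn
  have h5 := hmain V hV (algebraMap K Ω (x n)) (algebraMap K Ω (y n)) hxn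
    ⟨w, u, s, i, PunctData.Seg.mono _ h1 (hδle V hV), h2, h3, by rw [h4]; exact hItV⟩
  rw [ev2_algebraMap, hμ, hμ] at h5
  refine h5.trans (mul_le_mul_of_nonneg_right ?_ (pow_nonneg (v.nonneg _) _))
  exact Finset.single_le_sum (f := C2) (fun V _ => hC2 V) hV

/-- the local statement at a place at which the base orbit tends to zero -/
theorem ZeroData.local_zero (D : ZeroData K) (v : AbsoluteValue K ℝ) (hv : IsPlace v) (x y : ℕ → K)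
    (hx : ∀ n, x (n + 1) * D.lam = x n ^ D.d) (hx0 : ∀ n, x n ≠ 0)
    (hy : ∀ n, x n ^ D.M * y (n + 1) = D.F.evalEval (x n) (y n))
    (hzero : Tendsto (fun n => v (x n)) atTop (𝓝 0))
    (hslow : ∃ A B : ℝ, ∀ n : ℕ, v (y n) ≤ Real.exp ((D.d : ℝ) ^ n * (A + B * n)))
    (P : K[X][X]) (E : ℕ) (hP : D.GoodZ P E) :
    ∃ C : ℝ, 0 ≤ C ∧ ∀ᶠ n in atTop, v (P.evalEval (x n) (y n)) ≤ C * v (x n) ^ E := by
  classical
  obtain ⟨Ω, _, _, _, μ, hμ⟩ := exists_extension v hv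
  obtain ⟨C0, C1, R0, hC0, hC1, hR0, hseg⟩ := D.segs μ (fun n => algebraMap K Ω (x n))
    (fun n => algebraMap K Ω (y n)) (fun n => by
      show algebraMap K Ω (x (n + 1)) * algebraMap K Ω D.lam = _
      rw [← map_mul, hx, map_pow]) (fun n => by
      rw [Ne, map_eq_zero]
      exact hx0 n) (fun n => by
      show algebraMap K Ω (x n) ^ D.M * algebraMap K Ω (y (n + 1)) = _
      rw [← map_pow, ← map_mul, hy, ev2_algebraMap]) (by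
      simp only [hμ]
      exact hzero) (by
      obtain ⟨A, B, h⟩ := hslow
      exact ⟨A, B, fun n => by
        rw [hμ]
        exact h n⟩)
  obtain ⟨δ, C2, hδ, hC2, h1⟩ := hP Ω μ C0 C1 R0 hC0 hC1 hR0
  refine ⟨C2, hC2, ?_⟩
  filter_upwards [hseg δ hδ] with n hn
  have h5 := h1 (algebraMap K Ω (x n)) (algebraMap K Ω (y n)) (by
    rw [Ne, map_eq_zero]
    exact hx0 n) hn
  rw [ev2_algebraMap, hμ, hμ] at h5
  exact h5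

end places

end Pool.Agent.Lib.MP_9ec2c5_sk
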