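import Mathlib
import Pool.Agent.Lib.MP_9ec2c5_sk.Direct2
import Pool.Agent.Lib.MP_9ec2c5_sk.Local2
import Pool.Agent.Lib.MP_9ec2c5_sk.DataMk

/-!
Slow orbits of skew products with nonconstant leading coefficient, except when the leading
coefficient is a monomial and the base map is a monomial.
-/

set_option autoImplicit false
set_option linter.unusedSectionVars false

namespace Pool.Agent.Lib.MP_9ec2c5_sk

open Polynomial Finset Height Filter Topology AdmissibleAbsValues
open Pool.Agent.Lib.MP_9ec2c5_nt_h65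

variable {K : Type} [Field K] [NumberField K]

/-- slow orbits are slow at each place -/
lemma slow_height (p : K[X]) (hd : 1 ≤ p.natDegree) (x y : ℕ → K)
    (hx : ∀ n, x (n + 1) = p.eval (x n)) (B : ℝ) (hB : 0 ≤ B)
    (hslow : ∀ᶠ n in atTop, Real.log (mulHeight₁ (y n)) ≤ B * (Real.log (mulHeight₁ (x n)) + 1)) :
    ∃ A B' : ℝ, 0 ≤ A ∧ 0 ≤ B' ∧ ∀ n : ℕ,
      Real.log (mulHeight₁ (y n)) ≤ (p.natDegree : ℝ) ^ n * (A + B' * n) := by
  have hk : ∀ n, 0 ≤ Real.log (mulHeight₁ (x n)) := fun n => Real.log_nonneg (one_le_mulHeight₁ _)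
  have hh : ∀ n, 0 ≤ Real.log (mulHeight₁ (y n)) := fun n => Real.log_nonneg (one_le_mulHeight₁ _)
  obtain ⟨C0, hC0, h0⟩ := height_eval p
  have hl0 : 0 ≤ Real.log C0 := Real.log_nonneg hC0
  have ha : ∀ n, Real.log (mulHeight₁ (x (n + 1)))
      ≤ p.natDegree * Real.log (mulHeight₁ (x n)) + Real.log C0 := by
    intro n
    rw [hx, ← Real.log_pow, ← Real.log_mul (by positivity) (by positivity), mul_comm]
    exact Real.log_le_log (by positivity) (h0 _)
  have hbase := base_slow p.natDegree hd (fun n => Real.log (mulHeight₁ (x n))) (Real.log C0) hl0 ha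
  set κ0 := Real.log (mulHeight₁ (x 0)) with hκ0
  have hκ : 0 ≤ κ0 := hk 0
  obtain ⟨A1, hA1, hys⟩ := all_slow p.natDegree hd (fun n => Real.log (mulHeight₁ (y n))) hh
    (B * (κ0 + 1)) (B * Real.log C0) (by positivity) (by positivity) (by
      filter_upwards [hslow] with n hn
      have h1 : (1 : ℝ) ≤ (p.natDegree : ℝ) ^ n := one_le_pow₀ (by exact_mod_cast hd)
      refine hn.trans ?_
      have h3 := hbase n
      calc B * (Real.log (mulHeight₁ (x n)) + 1)
          ≤ B * ((p.natDegree : ℝ) ^ n * (κ0 + Real.log C0 * n) + (p.natDegree : ℝ) ^ n) :=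
            mul_le_mul_of_nonneg_left (add_le_add h3 h1) hB
        _ = _ := by ring)
  exact ⟨A1, B * Real.log C0, hA1, by positivity, hys⟩

lemma slow_place (d : ℕ) (y : ℕ → K) (A B : ℝ)
    (h : ∀ n : ℕ, Real.log (mulHeight₁ (y n)) ≤ (d : ℝ) ^ n * (A + B * n))
    (v : AbsoluteValue K ℝ) (hv : IsPlace v) :
    ∃ A B : ℝ, ∀ n : ℕ, v (y n) ≤ Real.exp ((d : ℝ) ^ n * (A + B * n)) := by
  refine ⟨A, B, fun n => (hv.le_height _).trans ?_⟩
  rw [← Real.exp_log (by positivity : 0 < mulHeight₁ (y n))]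
  exact Real.exp_le_exp.mpr (h n)

/-- Slow orbits when the leading coefficient is `x ^ m0 g` with `g` nonconstant without exceptional
roots, where `m0 = 0` or `p` is a monomial and `g(0)` is not zero. -/
theorem slow_vanish_direct (p : K[X]) (q : K[X][X]) (hd : 1 ≤ p.natDegree)
    (hde : p.natDegree < q.natDegree) (x y : ℕ → K) (hx : ∀ n, x (n + 1) = p.eval (x n))
    (hy : ∀ n, y (n + 1) = q.evalEval (x n) (y n)) (hinj : Function.Injective x) (B : ℝ)
    (hB : 0 ≤ B)
    (hslow : ∀ᶠ n in atTop, Real.log (mulHeight₁ (y n)) ≤ B * (Real.log (mulHeight₁ (x n)) + 1))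
    (g : K[X]) (m0 : ℕ) (hg : q.leadingCoeff = X ^ m0 * g) (hg1 : 1 ≤ g.natDegree)
    (hexc : ∀ ξ : K, g.eval ξ = 0 → p ≠ C p.leadingCoeff * (X - C ξ) ^ p.natDegree + C ξ)
    (hcase : m0 = 0 ∨ (p = C p.leadingCoeff * X ^ p.natDegree ∧ g.coeff 0 ≠ 0)) :
    ∃ R : K[X][X], R ≠ 0 ∧ ∀ n, R.evalEval (x n) (y n) = 0 := by
  classical
  have he : 1 ≤ q.natDegree := by omega
  have hp0 : p ≠ 0 := by
    intro h
    rw [h, natDegree_zero] at hd
    omega
  have hg0 : g ≠ 0 := by
    intro h
    rw [h, natDegree_zero] at hg1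
    omega
  have hm : q.leadingCoeff.natDegree = m0 + g.natDegree := by
    rw [hg, natDegree_X_pow_mul m0 hg0, add_comm]
  obtain ⟨k, hk⟩ := Nat.exists_eq_add_of_le hde.le
  have hkk : q.natDegree - p.natDegree = k := by omega
  obtain ⟨A', B', -, -, hys⟩ := slow_height p hd x y hx B hB hslow
  have hplace := slow_place p.natDegree y A' B' hys
  obtain ⟨D, hDp, hDF, hDM, hDd, hDe, hDa, hDρ⟩ := exists_infData p q hd hde
  have hgg := fun L => D.gg_eq L
  have hloc : ∀ (L : ℕ) (R : K[X][X]) (E : ℕ), D.GoodP L univ R E → ∀ v : AbsoluteValue K ℝ,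
      IsPlace v → Tendsto (fun n => v (x n)) atTop atTop → ∃ C1 : ℝ, 0 ≤ C1 ∧ ∀ᶠ n in atTop,
        v (R.evalEval (x n) (y n)) * v (x n) ≤ C1 * v (x n) ^ E := by
    intro L R E hR v hv hvt
    obtain ⟨It, C1, hC1, h1⟩ := D.local_inf v hv x y (by rw [hDp]; exact hx) (by
      intro n
      rw [hDM, pow_zero, one_mul, hDF]
      exact hy n) hvt (by
      rw [hDd]
      exact hplace v hv) L (fun _ => R) (fun _ => E) {univ} (fun V hV => by
        rw [Finset.mem_singleton] at hV
        rw [hV]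
        exact hR)
    refine ⟨C1, hC1, ?_⟩
    filter_upwards [h1] with n hn
    exact hn univ (Finset.mem_singleton_self _) (mem_univ _)
  rcases Nat.eq_zero_or_pos m0 with h0 | h0
  · -- one puncture
    obtain ⟨L, hL1, hL⟩ := exists_large D.d D.e D.hd D.hde D.gg (fun _ => rfl) D.a
    obtain ⟨A, hA, hAd, hAg⟩ := D.universal L
    obtain ⟨R, hR, hRg⟩ := D.exists_goodP L univ A (D.e ^ L) (D.ρ * D.gg L) hA hAd hAg hDa
      (Nat.one_le_iff_ne_zero.mpr (pow_ne_zero _ (by have := D.he1; omega))) (by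
        rw [hDρ, hm, h0, hkk, zero_add]
        have h1 := hgg L
        rw [hDe, hDd, hkk] at h1
        rw [hDd] at hL
        rw [hDe, ← h1]
        have h2 : 1 * D.gg L ≤ g.natDegree * D.gg L := Nat.mul_le_mul_right _ hg1
        calc D.a * (k * D.gg L + p.natDegree ^ L)
            = D.a * (k * D.gg L) + D.a * p.natDegree ^ L := by ring
          _ < D.a * (k * D.gg L) + g.natDegree * D.gg L := by omega
          _ = (g.natDegree + D.a * k) * D.gg L := by ring)
    exact direct_vanish p q hd hde x y hx hy hinj B hB hslow g m0 hg hexc R hR 0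
      (Or.inl ⟨h0, rfl⟩) (hloc L R 0 hRg) fun h => absurd ⟨h0, rfl⟩ h
  · -- two punctures
    rcases hcase with h | ⟨hpm, hgc⟩
    · omega
    have hplc : p.leadingCoeff ≠ 0 := leadingCoeff_ne_zero.mpr hp0
    have hxx : ∀ n, x (n + 1) = p.leadingCoeff * x n ^ p.natDegree := by
      intro n
      rw [hx]
      conv_lhs => rw [hpm]
      rw [eval_mul, eval_C, eval_pow, eval_X]
    have hx0 : ∀ n, x n ≠ 0 := by
      intro n h
      have h1 : x (n + 1) = x n := by
        rw [hxx, h, zero_pow (by omega), mul_zero]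
      exact absurd (hinj h1) (by omega)
    obtain ⟨D', hDlam', hDF', hDM', hDd', hDe', hDρ'⟩ := exists_zeroData p.leadingCoeff⁻¹
      (inv_ne_zero hplc) p.natDegree hd q hde 0 m0 g hg hgc
    rw [zero_add, hkk] at hDρ'
    have hgg' : D'.gg = D.gg := by
      funext L
      have h1 := D.gg_eq L
      have h2 := D'.gg_eq L
      rw [hDe, hDd, hkk] at h1
      rw [hDe', hDd', hkk] at h2
      have h3 : 0 < k := by omega
      have h4 : k * D'.gg L = k * D.gg L := by omega
      exact Nat.eq_of_mul_eq_mul_left h3 h4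
    obtain ⟨L, hL1, hL⟩ := exists_large D.d D.e D.hd D.hde D.gg (fun _ => rfl) (D.a + D'.a)
    obtain ⟨A1, hA1, hA1d, hA1g⟩ := D.universal L
    obtain ⟨A0, hA0, hA0d, hA0g⟩ := D'.universal L
    have heL : 1 ≤ q.natDegree ^ L := Nat.one_le_iff_ne_zero.mpr (pow_ne_zero _ (by omega))
    rw [hDe] at hA1d
    rw [hDe'] at hA0d
    obtain ⟨R, E, hR, hRP, hRZ⟩ := exists_goodPZ D D' L univ A1 (q.natDegree ^ L) (D.ρ * D.gg L)
      hA1 hA1d hA1g L A0 (q.natDegree ^ L) (D'.ρ * D'.gg L) hA0 hA0d hA0g heL heL (by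
        rw [hgg']
        have h1 := hgg L
        rw [hDe, hDd, hkk] at h1
        rw [hDd] at hL
        have h2 : D.ρ + D'.ρ = g.natDegree + (D.a + D'.a) * k := by
          rw [hDρ, hm, hkk, add_mul]
          omega
        have h3 : (D.a + D'.a) * q.natDegree ^ L < (D.ρ + D'.ρ) * D.gg L := by
          rw [h2, ← h1]
          have h4 : 1 * D.gg L ≤ g.natDegree * D.gg L := Nat.mul_le_mul_right _ hg1
          calc (D.a + D'.a) * (k * D.gg L + p.natDegree ^ L)
              = (D.a + D'.a) * (k * D.gg L) + (D.a + D'.a) * p.natDegree ^ L := by ring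
            _ < (D.a + D'.a) * (k * D.gg L) + g.natDegree * D.gg L := by omega
            _ = (g.natDegree + (D.a + D'.a) * k) * D.gg L := by ring
        calc (D.a + D'.a) * (q.natDegree ^ L * q.natDegree ^ L)
            = ((D.a + D'.a) * q.natDegree ^ L) * q.natDegree ^ L := by ring
          _ < ((D.ρ + D'.ρ) * D.gg L) * q.natDegree ^ L :=
              Nat.mul_lt_mul_of_pos_right h3 heL
          _ = _ := by ring)
    refine direct_vanish p q hd hde x y hx hy hinj B hB hslow g m0 hg hexc R hR E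
      (Or.inr ⟨hpm, hx0⟩) (hloc L R E hRP) fun _ v hv hvt => ?_
    exact D'.local_zero v hv x y (by
      intro n
      rw [hDlam', hDd', hxx]
      field_simp) hx0 (by
      intro n
      rw [hDM', pow_zero, one_mul, hDF']
      exact hy n) hvt (by
      rw [hDd']
      exact hplace v hv) R E hRZ

end Pool.Agent.Lib.MP_9ec2c5_sk
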