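import Mathlib
import Pool.Agent.Lib.MP_9ec2c5_sk.Local2
import Pool.Agent.Lib.MP_9ec2c5_sk.Direct

/-!
A nonzero polynomial vanishes along a slow orbit of a skew product over a monomial, with Laurent
coefficients and constant leading coefficient.
-/

set_option autoImplicit false
set_option linter.unusedSectionVars false

namespace Pool.Agent.Lib.MP_9ec2c5_sk

open Polynomial Finset Height Filter Topology AdmissibleAbsValues
open Pool.Agent.Lib.MP_9ec2c5_nt_h65

namespace LGlob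

section abs

variable {K : Type} [Field K] (v : AbsoluteValue K ℝ)

/-- expansion of the value of a polynomial in two variables -/
lemma evalEval_split (q : K[X][X]) (e : ℕ) (he : q.natDegree = e) (c : K) (M : ℕ)
    (hc : q.leadingCoeff = C c * X ^ M) (x y : K) :
    q.evalEval x y = (∑ j ∈ range e, (q.coeff j).eval x * y ^ j) + c * x ^ M * y ^ e := by
  conv_lhs => rw [q.as_sum_range_C_mul_X_pow]
  rw [evalEval_finsetSum, he, Finset.sum_range_succ]
  have h1 : q.coeff e = C c * X ^ M := by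
    rw [← he]
    exact hc
  rw [h1]
  congr 1
  · refine Finset.sum_congr rfl fun j _ => ?_
    rw [evalEval_mul, evalEval_C, evalEval_pow, evalEval_X]
  · rw [evalEval_mul, evalEval_C, evalEval_pow, evalEval_X, eval_mul, eval_C, eval_pow, eval_X]

/-- the fibre coordinate of a slow orbit is bounded where the base orbit is bounded above and
below -/
lemma y_bounded (q : K[X][X]) (d e : ℕ) (hde : d < e) (he2 : 2 ≤ e) (he : q.natDegree = e) (c : K)
    (hc0 : c ≠ 0) (M : ℕ) (hc : q.leadingCoeff = C c * X ^ M) (x y : ℕ → K)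
    (hy : ∀ n, x n ^ M * y (n + 1) = q.evalEval (x n) (y n)) (hx : ∃ B : ℝ, ∀ n, v (x n) ≤ B)
    (hxl : ∃ c : ℝ, 0 < c ∧ ∀ n, c ≤ v (x n))
    (hslow : ∃ A B : ℝ, ∀ n : ℕ, v (y n) ≤ Real.exp ((d : ℝ) ^ n * (A + B * n))) :
    ∃ B : ℝ, ∀ n, v (y n) ≤ B := by
  obtain ⟨Bx, hBx⟩ := hx
  obtain ⟨c0, hc0', hcx⟩ := hxl
  have hb : ∀ g : K[X], ∃ B : ℝ, 0 ≤ B ∧ ∀ n, v (g.eval (x n)) ≤ B := by
    intro g
    obtain ⟨B, hB, h2, -⟩ := Nice.poly (K := K) (Ω := K) (μ := v) g 0 Bx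
    refine ⟨B, hB, fun n => ?_⟩
    have h3 : aeval (x n) g = g.eval (x n) := by rw [coe_aeval_eq_eval]
    rw [← h3]
    exact h2 (fun _ => x n) fun _ => hBx n
  choose B hB hb using hb
  set S : ℝ := ∑ j ∈ range e, B (q.coeff j) / c0 ^ M with hS
  have hS0 : 0 ≤ S := Finset.sum_nonneg fun j _ => div_nonneg (hB _) (by positivity)
  set ν : ℝ := v c with hν
  have hν0 : 0 < ν := v.pos hc0
  set c1 : ℝ := |Real.log (ν / 2)| with hc1
  set T : ℝ := max c1 (Real.log (max 1 (2 * S / ν))) with hT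
  have hstep : ∀ n, T < Real.log (v (y n)) → e * Real.log (v (y n)) - c1
      ≤ Real.log (v (y (n + 1))) := by
    intro n hn
    have hxn : 0 < v (x n) := lt_of_lt_of_le hc0' (hcx n)
    have hxM : x n ^ M ≠ 0 := by
      apply pow_ne_zero
      intro h
      rw [h, map_zero] at hxn
      exact lt_irrefl _ hxn
    have h0 : 0 < Real.log (v (y n)) := by
      have : 0 ≤ T := (abs_nonneg _).trans (le_max_left _ _)
      linarith
    have h1 : 1 < v (y n) := by
      by_contra hcon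
      push Not at hcon
      have := Real.log_nonpos (v.nonneg _) hcon
      linarith
    have h2 : max 1 (2 * S / ν) ≤ v (y n) := by
      have h3 : Real.log (max 1 (2 * S / ν)) ≤ Real.log (v (y n)) := (le_max_right _ _).trans hn.le
      exact (Real.log_le_log_iff (by positivity) (by linarith)).mp h3
    have h3 : 2 * S ≤ v (y n) * ν := by
      have := (le_max_right _ _).trans h2
      rwa [div_le_iff₀ hν0] at this
    have h4 : v (∑ j ∈ range e, (q.coeff j).eval (x n) / x n ^ M * y n ^ j)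
        ≤ S * v (y n) ^ (e - 1) := by
      refine (v.sum_le _ _).trans ?_
      rw [hS, Finset.sum_mul]
      apply Finset.sum_le_sum
      intro j hj
      rw [map_mul, map_pow, map_div₀, map_pow]
      have hj' := Finset.mem_range.mp hj
      exact mul_le_mul (div_le_div₀ (hB _) (hb _ _) (by positivity)
          (pow_le_pow_left₀ hc0'.le (hcx n) _)) (pow_le_pow_right₀ h1.le (by omega))
        (pow_nonneg (v.nonneg _) _) (div_nonneg (hB _) (by positivity))
    have h5 : S * v (y n) ^ (e - 1) ≤ ν / 2 * v (y n) ^ e := by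
      have h6 : v (y n) ^ e = v (y n) * v (y n) ^ (e - 1) := by
        conv_lhs => rw [show e = (e - 1) + 1 by omega]
        rw [pow_succ]
        ring
      rw [h6]
      have h7 : 0 ≤ v (y n) ^ (e - 1) := pow_nonneg (v.nonneg _) _
      nlinarith
    have h6 : ν * v (y n) ^ e ≤ v (y (n + 1))
        + v (∑ j ∈ range e, (q.coeff j).eval (x n) / x n ^ M * y n ^ j) := by
      have h7 := v.add_le (y (n + 1))
        (-(∑ j ∈ range e, (q.coeff j).eval (x n) / x n ^ M * y n ^ j))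
      have h8 : y (n + 1) + -(∑ j ∈ range e, (q.coeff j).eval (x n) / x n ^ M * y n ^ j)
          = c * y n ^ e := by
        apply mul_left_cancel₀ hxM
        rw [mul_add, hy, evalEval_split q e he c M hc, mul_neg, Finset.mul_sum]
        have h9 : ∑ j ∈ range e, x n ^ M * ((q.coeff j).eval (x n) / x n ^ M * y n ^ j)
            = ∑ j ∈ range e, (q.coeff j).eval (x n) * y n ^ j := by
          refine Finset.sum_congr rfl fun j _ => ?_
          rw [← mul_assoc, mul_div_cancel₀ _ hxM]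
        rw [h9]
        ring
      rw [h8, v.map_neg, map_mul, map_pow] at h7
      exact h7
    have h7 : ν / 2 * v (y n) ^ e ≤ v (y (n + 1)) := by linarith
    have h8 := Real.log_le_log (by positivity) h7
    rw [Real.log_mul (by positivity) (by positivity), Real.log_pow] at h8
    have h9 := neg_abs_le (Real.log (ν / 2))
    linarith
  have h1 := real_escape d e hde he2 (fun n => Real.log (v (y n))) T c1 (abs_nonneg _)
    (le_max_left _ _) hstep (log_slow v d y hslow)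
  refine ⟨Real.exp T, fun n => ?_⟩
  rcases (v.nonneg (y n)).lt_or_eq with h0 | h0
  · rw [← Real.exp_log h0]
    exact Real.exp_le_exp.mpr (h1 n)
  · rw [← h0]
    positivity

end abs

/-- domination of powers -/
lemma exists_pow_gt (d e : ℕ) (hd : 1 ≤ d) (hde : d < e) (B : ℕ) :
    ∃ L : ℕ, B * d ^ L < e ^ L := by
  have hd0 : (0 : ℝ) < d := by exact_mod_cast hd
  have h1 : (1 : ℝ) < (e : ℝ) / d := by
    rw [one_lt_div hd0]
    exact_mod_cast hde
  obtain ⟨L, hL⟩ := ((tendsto_pow_atTop_atTop_of_one_lt h1).eventually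
    (eventually_gt_atTop (B : ℝ))).exists
  refine ⟨L, ?_⟩
  have h3 : (0 : ℝ) < (d : ℝ) ^ L := by positivity
  rw [div_pow, lt_div_iff₀ h3] at hL
  exact_mod_cast hL

/-- the auxiliary polynomial for a small set of itineraries -/
lemma exists_R {K : Type} [Field K] (D : InfData K) (D' : ZeroData K) (hd : D'.d = D.d)
    (he : D'.e = D.e) (hρ : D.ρ = D.a * (D.e - D.d)) (hρ' : D'.ρ = D'.a * (D'.e - D'.d))
    (hcard : 2 ≤ Fintype.card D.ι) (L1 : ℕ) (hL1 : ∀ L, L1 ≤ L → D.d ^ (L + 1) < D.e ^ L)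
    (N L : ℕ) (hL : N + L1 ≤ L) (V : Finset (Fin (L + 1) → D.ι)) (hV1 : V.Nonempty)
    (hV2 : V.card ≤ N) :
    ∃ (P : K[X][X]) (E : ℕ), P ≠ 0 ∧ D.GoodP (L + 1) V P E ∧ D'.GoodZ P E := by
  obtain ⟨A1, Δ1, α1, hA1, hA1d, hΔ1, hlt, hg1⟩ := D.exists_good hcard L1 hL1 N L hL V hV1 hV2
  obtain ⟨L', hL'⟩ := exists_pow_gt D.d D.e D.hd D.hde (D'.a * Δ1)
  obtain ⟨A0, hA0, hA0d, hg0⟩ := D'.universal L'
  have hgap : 0 < D.e - D.d := by
    have := D.hde
    omega
  have h1 : D.a * Δ1 < α1 := by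
    rw [hρ] at hlt
    have h2 : (D.e - D.d) * (D.a * Δ1) < (D.e - D.d) * α1 := by
      calc (D.e - D.d) * (D.a * Δ1) = D.a * (D.e - D.d) * Δ1 := by ring
        _ < _ := hlt
    exact Nat.lt_of_mul_lt_mul_left h2
  have h2 : D'.ρ * D'.gg L' + D'.a * D.d ^ L' = D'.a * D.e ^ L' := by
    have h3 := D'.gg_eq L'
    rw [hρ', ← hd, ← he, ← h3]
    ring
  refine exists_goodPZ D D' (L + 1) V A1 Δ1 α1 hA1 hA1d hg1 L' A0 (D'.e ^ L') (D'.ρ * D'.gg L')
    hA0 hA0d hg0 hΔ1 (Nat.one_le_pow _ _ D'.he1) ?_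
  rw [he]
  have h3 : D'.a * Δ1 * D.d ^ L' < D.e ^ L' := hL'
  have h4 : (D.a * Δ1 + 1) * D.e ^ L' ≤ α1 * D.e ^ L' := Nat.mul_le_mul_right _ h1
  have h5 : D'.ρ * D'.gg L' * Δ1 + D'.a * D.d ^ L' * Δ1 = D'.a * D.e ^ L' * Δ1 := by
    rw [← add_mul, h2]
  calc (D.a + D'.a) * (Δ1 * D.e ^ L') = D.a * Δ1 * D.e ^ L' + D'.a * D.e ^ L' * Δ1 := by ring
    _ = D.a * Δ1 * D.e ^ L' + (D'.ρ * D'.gg L' * Δ1 + D'.a * D.d ^ L' * Δ1) := by rw [h5]
    _ = D.a * Δ1 * D.e ^ L' + D'.a * Δ1 * D.d ^ L' + D'.ρ * D'.gg L' * Δ1 := by ring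
    _ < D.a * Δ1 * D.e ^ L' + D.e ^ L' + D'.ρ * D'.gg L' * Δ1 := by omega
    _ = (D.a * Δ1 + 1) * D.e ^ L' + D'.ρ * D'.gg L' * Δ1 := by ring
    _ ≤ α1 * D.e ^ L' + D'.ρ * D'.gg L' * Δ1 := Nat.add_le_add_right h4 _

variable {K : Type} [Field K] [NumberField K]

/-- the integral places -/
lemma exists_good_places (p : K[X]) (hp0 : p ≠ 0) (F : K[X][X]) (M : ℕ) (x y : ℕ → K)
    (hx : ∀ n, x (n + 1) = p.eval (x n))
    (hy : ∀ n, x n ^ M * y (n + 1) = F.evalEval (x n) (y n))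
    (hlow : p = C p.leadingCoeff * X ^ p.natDegree ∧ ∀ n, x n ≠ 0) :
    ∃ S : Set (nonarchAbsVal (K := K)), S.Finite ∧ ∀ v : nonarchAbsVal (K := K), v ∉ S →
      (∀ n, v.val (x n) = 1) ∧ ∀ n, v.val (y n) ≤ 1 := by
  obtain ⟨S1, hS1, h1⟩ := good_places p 0 hp0 x (fun _ => 0) hx (fun n => by simp) False
    (Or.inr hlow)
  obtain ⟨S2, hS2, h2⟩ := finite_coeff F
  obtain ⟨S3, hS3, h3⟩ := finite_elt (y 0)
  refine ⟨S1 ∪ (S2 ∪ S3), hS1.union (hS2.union hS3), fun v hv => ?_⟩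
  simp only [Set.mem_union, not_or] at hv
  obtain ⟨hv1, hv2, hv3⟩ := hv
  have hna : IsNonarchimedean v.val := isNonarchimedean v.val v.property
  have hx1 : ∀ n, v.val (x n) = 1 := (h1 v hv1).2.2 not_false
  refine ⟨hx1, fun n => ?_⟩
  induction n with
  | zero => exact h3 v hv3
  | succ n ih =>
    have h4 := congrArg v.val (hy n)
    rw [map_mul, map_pow, hx1, one_pow, one_mul] at h4
    rw [h4]
    exact value_integral v.val hna F (x n) (y n) (hx1 n).le ih (h2 v hv2)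

end LGlob

variable {K : Type} [Field K] [NumberField K]

open LGlob in
/-- A nonzero polynomial vanishes along a slow orbit. -/
theorem laurent_global (D : InfData K) (D' : ZeroData K) (hF : D'.F = D.F) (hM : D'.M = D.M)
    (hd : D'.d = D.d) (he : D'.e = D.e) (hlam : D.lam * D'.lam = 1)
    (hp : D.p = C D.lam * X ^ D.d) (hρ : D.ρ = D.a * (D.e - D.d))
    (hρ' : D'.ρ = D'.a * (D'.e - D'.d)) (hcard : 2 ≤ Fintype.card D.ι) (c : K) (hc : c ≠ 0)
    (hFd : D.F.natDegree = D.e) (hlc : D.F.leadingCoeff = C c * X ^ D.M) (x y : ℕ → K)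
    (hx : ∀ n, x (n + 1) = D.lam * x n ^ D.d) (hx0 : ∀ n, x n ≠ 0)
    (hy : ∀ n, x n ^ D.M * y (n + 1) = D.F.evalEval (x n) (y n)) (hinj : Function.Injective x)
    (hslow : ∀ v : AbsoluteValue K ℝ, IsPlace v →
      ∃ A B : ℝ, ∀ n : ℕ, v (y n) ≤ Real.exp ((D.d : ℝ) ^ n * (A + B * n))) :
    ∃ R : K[X][X], R ≠ 0 ∧ ∀ n, R.evalEval (x n) (y n) = 0 := by
  classical
  have hd1 := D.hd
  have hde := D.hde
  have hpd : 1 ≤ D.p.natDegree := by rw [D.hpd]; exact hd1
  have hp0 : D.p ≠ 0 := by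
    intro h
    rw [h, natDegree_zero] at hpd
    omega
  have hxp : ∀ n, x (n + 1) = D.p.eval (x n) := by
    intro n
    rw [hx, hp, eval_mul, eval_C, eval_pow, eval_X]
  have hlow : D.p = C D.p.leadingCoeff * X ^ D.p.natDegree ∧ ∀ n, x n ≠ 0 := by
    refine ⟨?_, hx0⟩
    rw [D.hpd, ← D.hlamp]
    exact hp
  obtain ⟨S0, hS0, hgood⟩ := exists_good_places D.p hp0 D.F D.M x y hxp hy hlow
  -- the places at infinity
  set PI : Set (AbsoluteValue K ℝ) :=
    {v | IsPlace v ∧ Tendsto (fun n => v (x n)) atTop atTop} with hPI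
  set PZ : Set (AbsoluteValue K ℝ) :=
    {v | IsPlace v ∧ Tendsto (fun n => v (x n)) atTop (𝓝 0)} with hPZ
  have hPIf : PI.Finite := by
    refine Set.Finite.subset ((Finset.finite_toSet (archAbsVal (K := K)).toFinset).union
      (hS0.image Subtype.val)) ?_
    rintro v ⟨hv | hv, hvt⟩
    · left
      rw [Finset.mem_coe, Multiset.mem_toFinset]
      exact hv
    · right
      refine ⟨⟨v, hv⟩, ?_, rfl⟩
      by_contra hcon
      have h1 := (hgood ⟨v, hv⟩ hcon).1
      obtain ⟨n, hn⟩ := (hvt.eventually (eventually_gt_atTop 1)).exists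
      have h2 : v (x n) = 1 := h1 n
      linarith
  have hPZf : PZ.Finite := by
    refine Set.Finite.subset ((Finset.finite_toSet (archAbsVal (K := K)).toFinset).union
      (hS0.image Subtype.val)) ?_
    rintro v ⟨hv | hv, hvt⟩
    · left
      rw [Finset.mem_coe, Multiset.mem_toFinset]
      exact hv
    · right
      refine ⟨⟨v, hv⟩, ?_, rfl⟩
      by_contra hcon
      have h1 := (hgood ⟨v, hv⟩ hcon).1
      obtain ⟨n, hn⟩ := (hvt.eventually (eventually_lt_nhds (zero_lt_one (α := ℝ)))).exists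
      have h2 : v (x n) = 1 := h1 n
      linarith
  obtain ⟨v0, hv0, hv0t, -⟩ := exists_place D.p hpd x hxp hinj
  have hv0P : v0 ∈ PI := ⟨hv0, hv0t⟩
  set F := hPIf.toFinset with hFdef
  have hFm : ∀ v, v ∈ F ↔ v ∈ PI := fun v => hPIf.mem_toFinset
  set G := hPZf.toFinset with hGdef
  have hGm : ∀ v, v ∈ G ↔ v ∈ PZ := fun v => hPZf.mem_toFinset
  -- the auxiliary polynomials
  set N := F.card with hN
  obtain ⟨L1, hL1⟩ := D.exists_L1
  set L := N + L1 with hL
  set 𝒱 : Finset (Finset (Fin (L + 1) → D.ι)) :=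
    univ.filter fun V => V.Nonempty ∧ V.card ≤ N with h𝒱
  have hex : ∀ V : Finset (Fin (L + 1) → D.ι), ∃ (R : K[X][X]) (E : ℕ), R ≠ 0 ∧
      (V ∈ 𝒱 → D.GoodP (L + 1) V R E ∧ D'.GoodZ R E) := by
    intro V
    by_cases hV : V ∈ 𝒱
    · obtain ⟨hV1, hV2⟩ := (Finset.mem_filter.mp hV).2
      obtain ⟨R, E, hR, hR'⟩ := exists_R D D' hd he hρ hρ' hcard L1 hL1 N L le_rfl V hV1 hV2
      exact ⟨R, E, hR, fun _ => hR'⟩
    · exact ⟨1, 0, one_ne_zero, fun h => absurd h hV⟩
  choose 𝓡 E h𝓡0 h𝓡 using hex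
  have hne := D.hne
  have hlocI : ∀ v : AbsoluteValue K ℝ, ∃ (It : ℕ → Fin (L + 1) → D.ι) (C1 : ℝ), 0 ≤ C1 ∧
      (v ∈ PI → ∀ᶠ n in atTop, ∀ V ∈ 𝒱, It n ∈ V →
        v ((𝓡 V).evalEval (x n) (y n)) * v (x n) ≤ C1 * v (x n) ^ (E V)) := by
    intro v
    by_cases hv : v ∈ PI
    · obtain ⟨It, C1, hC1, h1⟩ := D.local_inf v hv.1 x y hxp hy hv.2 (hslow v hv.1) (L + 1) 𝓡 E 𝒱
        fun V hV => (h𝓡 V hV).1
      exact ⟨It, C1, hC1, fun _ => h1⟩
    · exact ⟨fun _ _ => Classical.arbitrary _, 0, le_refl _, fun h => absurd h hv⟩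
  choose It C1 hC1 hlocI using hlocI
  have hlocZ : ∀ (v : AbsoluteValue K ℝ) (V : Finset (Fin (L + 1) → D.ι)), ∃ C1 : ℝ, 0 ≤ C1 ∧
      (v ∈ PZ → V ∈ 𝒱 → ∀ᶠ n in atTop,
        v ((𝓡 V).evalEval (x n) (y n)) ≤ C1 * v (x n) ^ (E V)) := by
    intro v V
    by_cases hv : v ∈ PZ ∧ V ∈ 𝒱
    · obtain ⟨C1, hC1, h1⟩ := D'.local_zero v hv.1.1 x y (fun n => by
          rw [hx, hd, mul_right_comm, hlam, one_mul]) hx0 (fun n => by
          rw [hM, hF]
          exact hy n) hv.1.2 (by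
          rw [hd]
          exact hslow v hv.1.1) (𝓡 V) (E V) (h𝓡 V hv.2).2
      exact ⟨C1, hC1, fun _ _ => h1⟩
    · exact ⟨0, le_refl _, fun h h' => absurd ⟨h, h'⟩ hv⟩
  choose CZ hCZ hlocZ using hlocZ
  set W : ℕ → Finset (Fin (L + 1) → D.ι) := fun n => F.image fun v => It v n with hW
  have hW𝒱 : ∀ n, W n ∈ 𝒱 := by
    intro n
    refine Finset.mem_filter.mpr ⟨mem_univ _, ?_, ?_⟩
    · exact ⟨It v0 n, Finset.mem_image.mpr ⟨v0, (hFm v0).mpr hv0P, rfl⟩⟩
    · exact Finset.card_image_le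
  have hItW : ∀ v ∈ PI, ∀ n, It v n ∈ W n := fun v hv n =>
    Finset.mem_image.mpr ⟨v, (hFm v).mpr hv, rfl⟩
  -- the bad places
  have hS : ∀ V : Finset (Fin (L + 1) → D.ι), ∃ S : Set (nonarchAbsVal (K := K)), S.Finite ∧
      ∀ v : nonarchAbsVal (K := K), v ∉ S → ∀ i j, v.val (((𝓡 V).coeff j).coeff i) ≤ 1 :=
    fun V => finite_coeff (𝓡 V)
  choose SV hSV hSV' using hS
  set S : Set (nonarchAbsVal (K := K)) := S0 ∪ ⋃ V, SV V with hSdef
  have hSfin : S.Finite := hS0.union (Set.finite_iUnion hSV)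
  -- the bounds
  have hbd : ∀ v : AbsoluteValue K ℝ, ∃ B : ℝ, 1 ≤ B ∧ (v ∈ PI → C1 v ≤ B) ∧
      (v ∈ PZ → ∀ V, CZ v V ≤ B) ∧
      (IsPlace v → v ∉ PI → v ∉ PZ →
        ∀ n V, v ((𝓡 V).evalEval (x n) (y n) / x n ^ E V) ≤ B) := by
    intro v
    by_cases hv : v ∈ PI ∨ v ∈ PZ
    · refine ⟨1 + |C1 v| + ∑ V, CZ v V, ?_, fun _ => ?_, fun _ V => ?_, fun _ h h' => ?_⟩
      · have : 0 ≤ ∑ V, CZ v V := Finset.sum_nonneg fun V _ => hCZ v V
        have := abs_nonneg (C1 v)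
        linarith
      · have : 0 ≤ ∑ V, CZ v V := Finset.sum_nonneg fun V _ => hCZ v V
        have := le_abs_self (C1 v)
        linarith
      · have h1 : CZ v V ≤ ∑ V, CZ v V :=
          Finset.single_le_sum (f := fun V => CZ v V) (fun V _ => hCZ v V) (mem_univ V)
        have := abs_nonneg (C1 v)
        linarith
      · rcases hv with hv | hv
        · exact absurd hv h
        · exact absurd hv h'
    · rw [not_or] at hv
      by_cases hvp : IsPlace v
      · have htri := place_tri D.p hpd x hxp False (Or.inr hlow) v hvp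
        have hxb : (∃ B : ℝ, ∀ n, v (x n) ≤ B) ∧ ∃ c : ℝ, 0 < c ∧ ∀ n, c ≤ v (x n) := by
          rcases htri with h | h | h
          · exact absurd ⟨hvp, h⟩ hv.1
          · exact absurd ⟨hvp, h.2⟩ hv.2
          · exact ⟨h.1, h.2.resolve_left not_false⟩
        have hyb := y_bounded v D.F D.d D.e hde (by omega) hFd c hc D.M hlc x y hy hxb.1 hxb.2
          (hslow v hvp)
        have hB := fun V => value_bounded v (𝓡 V) x y hxb.1 hyb
        choose B hB using hB
        obtain ⟨c0, hc0, hcx⟩ := hxb.2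
        refine ⟨1 + ∑ V, |B V| / c0 ^ E V, ?_, fun h => absurd h hv.1, fun h => absurd h hv.2,
          fun _ _ _ n V => ?_⟩
        · have : 0 ≤ ∑ V, |B V| / c0 ^ E V := Finset.sum_nonneg fun _ _ => by positivity
          linarith
        · have h1 : |B V| / c0 ^ E V ≤ ∑ V, |B V| / c0 ^ E V :=
            Finset.single_le_sum (f := fun V => |B V| / c0 ^ E V) (fun _ _ => by positivity)
              (mem_univ V)
          have h2 := hB V n
          have h3 := le_abs_self (B V)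
          rw [map_div₀, map_pow]
          have h4 : v ((𝓡 V).evalEval (x n) (y n)) / v (x n) ^ E V ≤ |B V| / c0 ^ E V :=
            div_le_div₀ (abs_nonneg _) (h2.trans h3) (by positivity)
              (pow_le_pow_left₀ hc0.le (hcx n) _)
          linarith
      · exact ⟨1, le_refl _, fun h => absurd h hv.1, fun h => absurd h hv.2,
          fun h => absurd h hvp⟩
  choose B hB1 hB2 hB4 hB3 using hbd
  obtain ⟨C2, hC2⟩ := height_le_of_forall S hSfin B hB1
  -- vanishing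
  have hvan : ∀ᶠ n in atTop, (𝓡 (W n)).evalEval (x n) (y n) = 0 := by
    have hall : ∀ᶠ n in atTop, ∀ v ∈ F, (∀ V ∈ 𝒱, It v n ∈ V →
        v ((𝓡 V).evalEval (x n) (y n)) * v (x n) ≤ C1 v * v (x n) ^ (E V)) ∧ 1 ≤ v (x n) :=
      (Filter.eventually_all_finset F).mpr fun v hv => (hlocI v ((hFm v).mp hv)).and
        (((hFm v).mp hv).2.eventually (eventually_ge_atTop 1))
    have hallZ : ∀ᶠ n in atTop, ∀ v ∈ G, ∀ V ∈ 𝒱,
        v ((𝓡 V).evalEval (x n) (y n)) ≤ CZ v V * v (x n) ^ (E V) :=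
      (Filter.eventually_all_finset G).mpr fun v hv =>
        (Filter.eventually_all_finset 𝒱).mpr fun V hV => hlocZ v V ((hGm v).mp hv) hV
    filter_upwards [hall, hallZ, hv0t.eventually (eventually_gt_atTop (C1 v0 * C2))] with
      n h1 h1Z h2
    by_contra hne
    have hxE : ∀ k, x n ^ k ≠ 0 := fun k => pow_ne_zero _ (hx0 n)
    set z := (𝓡 (W n)).evalEval (x n) (y n) / x n ^ E (W n) with hz
    have hzne : z ≠ 0 := div_ne_zero hne (hxE _)
    have hvx : ∀ v : AbsoluteValue K ℝ, 0 < v (x n) := fun v => v.pos (hx0 n)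
    have h3 : ∀ v ∈ PI, v z * v (x n) ≤ C1 v ∧ v z ≤ C1 v := by
      intro v hv
      obtain ⟨e1, e2⟩ := h1 v ((hFm v).mpr hv)
      have e3 := e1 (W n) (hW𝒱 n) (hItW v hv n)
      have e4 : 0 < v (x n) ^ E (W n) := pow_pos (hvx v) _
      have e5 : v z * v (x n) ≤ C1 v := by
        rw [hz, map_div₀, map_pow, div_mul_eq_mul_div, div_le_iff₀ e4]
        exact e3
      refine ⟨e5, le_trans ?_ e5⟩
      exact le_mul_of_one_le_right (v.nonneg _) e2
    have h4 : ∀ v ∈ PZ, v z ≤ CZ v (W n) := by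
      intro v hv
      have e3 := h1Z v ((hGm v).mpr hv) (W n) (hW𝒱 n)
      have e4 : 0 < v (x n) ^ E (W n) := pow_pos (hvx v) _
      rw [hz, map_div₀, map_pow, div_le_iff₀ e4]
      exact e3
    have hplace : ∀ v : AbsoluteValue K ℝ, IsPlace v → v z ≤ B v := by
      intro v hv
      by_cases hvP : v ∈ PI
      · exact (h3 v hvP).2.trans (hB2 v hvP)
      · by_cases hvZ : v ∈ PZ
        · exact (h4 v hvZ).trans (hB4 v hvZ (W n))
        · exact hB3 v hv hvP hvZ n (W n)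
    have hH : mulHeight₁ z ≤ C2 := by
      refine hC2 z (fun v hv => hplace v (Or.inl hv)) (fun v _ => hplace v.val (Or.inr v.property))
        fun v hv => ?_
      rw [hSdef, Set.mem_union, not_or, Set.mem_iUnion, not_exists] at hv
      have hna : IsNonarchimedean v.val := isNonarchimedean v.val v.property
      rw [hz, map_div₀, map_pow, (hgood v hv.1).1 n, one_pow, div_one]
      exact value_integral v.val hna _ _ _ ((hgood v hv.1).1 n).le ((hgood v hv.1).2 n)
        (hSV' (W n) v (hv.2 (W n)))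
    have h5 := hv0.liouville hzne
    have h6 : 1 ≤ v0 z * C2 := h5.trans (mul_le_mul_of_nonneg_left hH (v0.nonneg _))
    have hC2p : 0 ≤ C2 := le_trans (by positivity) hH
    have h7 : v0 (x n) ≤ C1 v0 * C2 := by
      calc v0 (x n) = 1 * v0 (x n) := (one_mul _).symm
        _ ≤ (v0 z * C2) * v0 (x n) := mul_le_mul_of_nonneg_right h6 (v0.nonneg _)
        _ = (v0 z * v0 (x n)) * C2 := by ring
        _ ≤ C1 v0 * C2 := mul_le_mul_of_nonneg_right (h3 v0 hv0P).1 hC2p
    linarith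
  obtain ⟨n0, hn0⟩ := eventually_atTop.mp hvan
  refine ⟨(∏ V ∈ 𝒱, 𝓡 V) * C (∏ m ∈ range n0, (X - C (x m))), ?_, fun n => ?_⟩
  · refine mul_ne_zero (Finset.prod_ne_zero_iff.mpr fun V _ => h𝓡0 V) ?_
    rw [Ne, C_eq_zero]
    exact Finset.prod_ne_zero_iff.mpr fun m _ => X_sub_C_ne_zero (x m)
  · rw [evalEval_mul, evalEval_C, evalEval_prod, eval_prod]
    rcases Nat.lt_or_ge n n0 with h | h
    · have : ∏ j ∈ range n0, eval (x n) (X - C (x j)) = 0 :=
        Finset.prod_eq_zero (Finset.mem_range.mpr h) (by rw [eval_sub, eval_X, eval_C, sub_self])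
      rw [this, mul_zero]
    · rw [Finset.prod_eq_zero (hW𝒱 n) (hn0 n h), zero_mul]

end Pool.Agent.Lib.MP_9ec2c5_sk
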