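import Mathlib
import Pool.Agent.Lib.MP_9ec2c5_sk.Data
import Pool.Agent.Lib.MP_9ec2c5_nt_h65.Build

/-!
Substitution of a power of the first variable.
-/

set_option autoImplicit false
set_option linter.unusedSectionVars false

namespace Pool.Agent.Lib.MP_9ec2c5_sk

open Polynomial Finset
open Pool.Agent.Lib.MP_9ec2c5_nt_h65

variable {K : Type} [Field K]

/-- the polynomial `F(t ^ b, z)` -/
noncomputable def expF (b : ℕ) (F : K[X][X]) : K[X][X] := F.map (expand K b : K[X] →+* K[X])

lemma expF_coeff (b : ℕ) (F : K[X][X]) (j : ℕ) : (expF b F).coeff j = expand K b (F.coeff j) := by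
  rw [expF, coeff_map]
  rfl

lemma expF_natDegree (b : ℕ) (hb : 1 ≤ b) (F : K[X][X]) : (expF b F).natDegree = F.natDegree :=
  natDegree_map_eq_of_injective (expand_injective (by omega)) F

lemma expF_leadingCoeff (b : ℕ) (hb : 1 ≤ b) (F : K[X][X]) :
    (expF b F).leadingCoeff = expand K b F.leadingCoeff := by
  rw [leadingCoeff, expF_natDegree b hb, expF_coeff]
  rfl

lemma expF_evalEval (b : ℕ) (F : K[X][X]) (t z : K) :
    (expF b F).evalEval t z = F.evalEval (t ^ b) z := by
  conv_rhs => rw [F.as_sum_range_C_mul_X_pow]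
  conv_lhs => rw [F.as_sum_range_C_mul_X_pow]
  rw [expF, Polynomial.map_sum, evalEval_finsetSum, evalEval_finsetSum]
  refine Finset.sum_congr rfl fun j _ => ?_
  rw [Polynomial.map_mul, Polynomial.map_pow, map_C, map_X, evalEval_mul, evalEval_C,
    evalEval_pow, evalEval_X, evalEval_mul, evalEval_C, evalEval_pow, evalEval_X]
  congr 1
  exact expand_eval b _ t

end Pool.Agent.Lib.MP_9ec2c5_sk
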