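import Mathlib
import Pool.Agent.Lib.MP_9ec2c5_sk.ExpF
import Pool.Agent.Lib.MP_9ec2c5_nt_h65.Tsch

/-!
Pulling back a vanishing polynomial under changes of coordinates.
-/

set_option autoImplicit false
set_option linter.unusedSectionVars false

namespace Pool.Agent.Lib.MP_9ec2c5_sk

open Polynomial Finset
open Pool.Agent.Lib.MP_9ec2c5_nt_h65

variable {K : Type} [Field K]

lemma evalEval_sum_C (N : ℕ) (f : ℕ → K[X]) (G : K[X][X]) (t y : K) :
    (∑ j ∈ range N, C (f j) * G ^ j).evalEval t y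
      = ∑ j ∈ range N, (f j).eval t * G.evalEval t y ^ j := by
  rw [evalEval_finsetSum]
  refine Finset.sum_congr rfl fun j _ => ?_
  rw [evalEval_mul, evalEval_C, evalEval_pow]

lemma evalEval_expand (F : K[X][X]) (t y : K) :
    F.evalEval t y = ∑ j ∈ range (F.natDegree + 1), (F.coeff j).eval t * y ^ j := by
  conv_lhs => rw [F.as_sum_range_C_mul_X_pow]
  rw [evalEval_sum_C, evalEval_X]

/-- change of the fibre coordinate -/
lemma pull_linear (R : K[X][X]) (hR : R ≠ 0) (κ : ℕ) (A s : K[X]) (hA : A ≠ 0) :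
    ∃ P : K[X][X], P ≠ 0 ∧ ∀ t u y : K, t ^ κ * u = A.eval t * y + s.eval t →
      R.evalEval t u = 0 → P.evalEval t y = 0 := by
  classical
  set N := R.natDegree with hN
  set f : ℕ → K[X] := fun j => R.coeff j * X ^ (κ * (N - j)) with hf
  set R' : K[X][X] := ∑ j ∈ range (N + 1), C (f j) * X ^ j with hR'
  have hc : R'.coeff N = R.leadingCoeff := by
    rw [hR', finsetSum_coeff, Finset.sum_eq_single N]
    · rw [coeff_C_mul, coeff_X_pow, if_pos rfl, mul_one, hf]
      show R.coeff N * X ^ (κ * (N - N)) = _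
      rw [Nat.sub_self, mul_zero, pow_zero, mul_one]
      rfl
    · intro j _ hj
      rw [coeff_C_mul, coeff_X_pow, if_neg (Ne.symm hj), mul_zero]
    · intro h
      exact absurd (Finset.mem_range.mpr (Nat.lt_succ_self _)) h
  have hR0 : R' ≠ 0 := by
    intro h
    rw [h, coeff_zero] at hc
    exact hR (leadingCoeff_eq_zero.mp hc.symm)
  refine ⟨R'.comp (C A * X + C s), ?_, fun t u y h1 h2 => ?_⟩
  · intro h
    rw [comp_eq_zero_iff] at h
    rcases h with h | ⟨-, h⟩
    · exact hR0 h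
    · have h3 := congrArg natDegree h
      rw [natDegree_C, natDegree_add_C, natDegree_C_mul_X A hA] at h3
      omega
  · have h3 : (C A * X + C s : K[X][X]).evalEval t y = t ^ κ * u := by
      rw [evalEval_add, evalEval_mul, evalEval_C, evalEval_X, evalEval_C, h1]
    rw [evalEval_comp, h3, hR', evalEval_sum_C, evalEval_X]
    rw [evalEval_expand, ← hN] at h2
    have h4 : ∀ j ∈ range (N + 1), (f j).eval t * (t ^ κ * u) ^ j
        = t ^ (κ * N) * ((R.coeff j).eval t * u ^ j) := by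
      intro j hj
      have hj' := Finset.mem_range.mp hj
      have h5 : κ * N = κ * (N - j) + κ * j := by
        rw [← mul_add]
        congr 1
        omega
      show (R.coeff j * X ^ (κ * (N - j))).eval t * _ = _
      rw [eval_mul, eval_pow, eval_X, h5, pow_add, mul_pow, ← pow_mul]
      ring
    rw [Finset.sum_congr rfl h4, ← Finset.mul_sum, h2, mul_zero]

/-- the polynomial `t ^ N F(1 / t, y)` -/
noncomputable def invF (N : ℕ) (F : K[X][X]) : K[X][X] :=
  ∑ j ∈ range (F.natDegree + 1), C (reflect N (F.coeff j)) * X ^ j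

lemma invF_coeff (N : ℕ) (F : K[X][X]) (j : ℕ) : (invF N F).coeff j = reflect N (F.coeff j) := by
  rw [invF, finsetSum_coeff]
  rcases Nat.lt_or_ge j (F.natDegree + 1) with h | h
  · rw [Finset.sum_eq_single j]
    · rw [coeff_C_mul, coeff_X_pow, if_pos rfl, mul_one]
    · intro i _ hi
      rw [coeff_C_mul, coeff_X_pow, if_neg (Ne.symm hi), mul_zero]
    · intro h'
      exact absurd (Finset.mem_range.mpr h) h'
  · rw [coeff_eq_zero_of_natDegree_lt (by omega), reflect_zero]
    refine Finset.sum_eq_zero fun i hi => ?_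
    have := Finset.mem_range.mp hi
    rw [coeff_C_mul, coeff_X_pow, if_neg (by omega), mul_zero]

lemma invF_natDegree (N : ℕ) (F : K[X][X]) : (invF N F).natDegree = F.natDegree := by
  rcases eq_or_ne F 0 with rfl | hF
  · rw [natDegree_zero]
    refine Nat.le_zero.mp (natDegree_le_iff_coeff_eq_zero.mpr fun j _ => ?_)
    rw [invF_coeff, coeff_zero, reflect_zero]
  · refine natDegree_eq_of_le_of_coeff_ne_zero ?_ ?_
    · refine natDegree_le_iff_coeff_eq_zero.mpr fun j hj => ?_
      rw [invF_coeff, coeff_eq_zero_of_natDegree_lt hj, reflect_zero]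
    · rw [invF_coeff, Ne, reflect_eq_zero_iff]
      exact leadingCoeff_ne_zero.mpr hF

lemma invF_evalEval (N : ℕ) (F : K[X][X]) (hN : ∀ j, (F.coeff j).natDegree ≤ N) (t y : K)
    (ht : t ≠ 0) : (invF N F).evalEval t y = t ^ N * F.evalEval t⁻¹ y := by
  rw [invF, evalEval_sum_C, evalEval_X, evalEval_expand, Finset.mul_sum]
  refine Finset.sum_congr rfl fun j _ => ?_
  have h1 : (reflect N (F.coeff j)).eval t = t ^ N * (F.coeff j).eval t⁻¹ := by
    let _ : Invertible t⁻¹ := invertibleOfNonzero (inv_ne_zero ht)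
    have h2 := eval₂_reflect_mul_pow (RingHom.id K) t⁻¹ N (F.coeff j) (hN j)
    rw [invOf_eq_inv, inv_inv] at h2
    have h3 : eval t (reflect N (F.coeff j)) * t⁻¹ ^ N = eval t⁻¹ (F.coeff j) := h2
    rw [← h3, inv_pow]
    have : t ^ N ≠ 0 := pow_ne_zero _ ht
    field_simp
  rw [h1]
  ring

/-- inversion of the base coordinate -/
lemma pull_inv (R : K[X][X]) (hR : R ≠ 0) : ∃ P : K[X][X], P ≠ 0 ∧ ∀ t y : K, t ≠ 0 →
    R.evalEval t⁻¹ y = 0 → P.evalEval t y = 0 := by
  obtain ⟨N, hN⟩ : ∃ N : ℕ, ∀ j, (R.coeff j).natDegree ≤ N := by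
    refine ⟨(range (R.natDegree + 1)).sup fun j => (R.coeff j).natDegree, fun j => ?_⟩
    rcases Nat.lt_or_ge R.natDegree j with h | h
    · rw [coeff_eq_zero_of_natDegree_lt h, natDegree_zero]
      exact Nat.zero_le _
    · exact Finset.le_sup (f := fun j => (R.coeff j).natDegree)
        (Finset.mem_range.mpr (Nat.lt_succ_of_le h))
  refine ⟨invF N R, ?_, fun t y ht h => ?_⟩
  · intro h
    have h1 := invF_coeff N R R.natDegree
    rw [h, coeff_zero, eq_comm, reflect_eq_zero_iff] at h1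
    exact hR (leadingCoeff_eq_zero.mp h1)
  · rw [invF_evalEval N R hN t y ht, h, mul_zero]

/-- extraction of a root of the base coordinate -/
lemma pull_root (b : ℕ) (hb : 1 ≤ b) (Z : Finset K) (hZ : (X ^ b - 1 : K[X]) = ∏ ζ ∈ Z, (X - C ζ))
    (R : K[X][X]) (hR : R ≠ 0) : ∃ P : K[X][X], P ≠ 0 ∧ ∀ t y : K,
      R.evalEval t y = 0 → P.evalEval (t ^ b) y = 0 := by
  obtain ⟨P, hP, h1⟩ := exists_norm b hb Z hZ R hR
  refine ⟨P, hP, fun t y h => ?_⟩
  have h2 := h1 K t y
  have h3 : ev2 P (t ^ b) y = P.evalEval (t ^ b) y := ev2_algebraMap (Ω := K) P (t ^ b) y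
  rw [← h3, h2]
  refine Finset.prod_eq_zero (i := (1 : K)) (((Z_facts b hb Z hZ).2 1).mpr (one_pow _)) ?_
  rw [map_one, one_mul]
  have h4 : ev2 R t y = R.evalEval t y := ev2_algebraMap (Ω := K) R t y
  rw [h4, h]

end Pool.Agent.Lib.MP_9ec2c5_sk
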