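import Mathlib
import Pool.Agent.Lib.MP_9ec2c5_sk.ExpF

/-!
The data at infinity for the precise slope, after a field extension and extraction of a root.
-/

set_option autoImplicit false
set_option linter.unusedSectionVars false

namespace Pool.Agent.Lib.MP_9ec2c5_sk

open Polynomial Finset
open Pool.Agent.Lib.MP_9ec2c5_nt_h65

namespace SlopeData

/-- The slope. -/
lemma exists_slope2 {K : Type} [Field K] (F : K[X][X]) (M : ℕ)
    (hlc : F.leadingCoeff.natDegree = M)
    (hne : ∃ j, j < F.natDegree ∧ M < (F.coeff j).natDegree) :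
    ∃ j a b : ℕ, j < F.natDegree ∧ 1 ≤ a ∧ 1 ≤ b ∧ F.coeff j ≠ 0 ∧
      b * (F.coeff j).natDegree + a * j = b * M + a * F.natDegree ∧
      ∀ i, i ≤ F.natDegree → b * (F.coeff i).natDegree + a * i ≤ b * M + a * F.natDegree := by
  classical
  set e := F.natDegree with he
  obtain ⟨j0, hj0e, hj0⟩ := hne
  obtain ⟨j1, hj1, hmax⟩ := Finset.exists_max_image (range e)
    (fun j => (((F.coeff j).natDegree : ℚ) - M) / ((e - j : ℕ) : ℚ))
    ⟨j0, Finset.mem_range.mpr hj0e⟩
  have hj1e := Finset.mem_range.mp hj1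
  have h3 : (0 : ℚ) < ((e - j1 : ℕ) : ℚ) := by
    rw [Nat.cast_pos]
    omega
  have hM : M < (F.coeff j1).natDegree := by
    have h1 := hmax j0 (Finset.mem_range.mpr hj0e)
    have h2 : (0 : ℚ) < ((e - j0 : ℕ) : ℚ) := by
      rw [Nat.cast_pos]
      omega
    have h4 : (0 : ℚ) < ((F.coeff j0).natDegree : ℚ) - M := by
      have : (M : ℚ) < (F.coeff j0).natDegree := by exact_mod_cast hj0
      linarith
    have h5 : (0 : ℚ) < (((F.coeff j1).natDegree : ℚ) - M) / ((e - j1 : ℕ) : ℚ) :=
      lt_of_lt_of_le (div_pos h4 h2) h1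
    have h6 := (div_pos_iff_of_pos_right h3).mp h5
    have h7 : (M : ℚ) < (F.coeff j1).natDegree := by linarith
    exact_mod_cast h7
  obtain ⟨a, ha⟩ := Nat.exists_eq_add_of_lt hM
  have hb : ∃ b, e = j1 + b ∧ 1 ≤ b := ⟨e - j1, by omega, by omega⟩
  obtain ⟨b, hb, hb1⟩ := hb
  refine ⟨j1, a + 1, b, hj1e, by omega, hb1, ?_, ?_, ?_⟩
  · intro h
    rw [h, natDegree_zero] at hM
    omega
  · rw [ha, hb]
    ring
  · intro i hi
    rcases hi.lt_or_eq with h | h
    · have h1 := hmax i (Finset.mem_range.mpr h)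
      have h2 : (0 : ℚ) < ((e - i : ℕ) : ℚ) := by
        rw [Nat.cast_pos]
        omega
      rw [div_le_div_iff₀ h2 h3, Nat.cast_sub hj1e.le, Nat.cast_sub hi, ha, hb] at h1
      push_cast at h1
      have h4 : (b : ℚ) * (F.coeff i).natDegree + (a + 1) * i ≤ b * M + (a + 1) * (j1 + b) := by
        linarith
      rw [hb]
      exact_mod_cast h4
    · rw [h]
      have h4 : (F.coeff e).natDegree = M := hlc
      rw [h4]

lemma ext_expF {k : Type} [Field k] {K : Type} [Field K] [Algebra k K] (b : ℕ) (F : k[X][X]) :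
    ext K (expF b F) = expF b (ext K F) := by
  ext1 j
  rw [ext_coeff, expF_coeff, expF_coeff, ext_coeff, map_expand]

end SlopeData

open SlopeData in
/-- The data at infinity for the precise slope. -/
theorem exists_slope_data {k : Type} [Field k] [NumberField k] (lam x0 : k) (hlam : lam ≠ 0)
    (d : ℕ) (hd : 1 ≤ d) (F : k[X][X]) (hde : d < F.natDegree) (M : ℕ) (c : k) (hc : c ≠ 0)
    (hlc : F.leadingCoeff = C c * X ^ M) (h1 : F.coeff (F.natDegree - 1) = 0)
    (hne : ∃ j, j < F.natDegree ∧ M < (F.coeff j).natDegree) :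
    ∃ (K : Type) (_ : Field K) (_ : NumberField K) (_ : Algebra k K) (_ : FiniteDimensional k K)
      (b : ℕ) (t0 lam' : K) (Z : Finset K) (D : InfData K),
      1 ≤ b ∧ t0 ^ b = algebraMap k K x0 ∧ lam' ^ b = algebraMap k K lam ∧
      (X ^ b - 1 : K[X]) = ∏ ζ ∈ Z, (X - C ζ) ∧
      D.p = C lam' * X ^ d ∧ D.lam = lam' ∧ D.d = d ∧ D.e = F.natDegree ∧ D.M = b * M ∧
      D.F = expF b (ext K F) ∧ D.ρ = D.a * (D.e - D.d) ∧ 2 ≤ Fintype.card D.ι := by
  classical
  have hF0 : F ≠ 0 := by
    intro h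
    rw [h, natDegree_zero] at hde
    omega
  have hlcM : F.leadingCoeff.natDegree = M := by
    rw [hlc, natDegree_C_mul_X_pow M c hc]
  obtain ⟨j, a, b, hj, ha, hb, hFj, hj2, hle⟩ := exists_slope2 F M hlcM hne
  set e := F.natDegree with he
  set G : k[X][X] := expF b F with hG
  have hGe : G.natDegree = e := expF_natDegree b hb F
  have hGc : ∀ i, (G.coeff i).natDegree = b * (F.coeff i).natDegree := by
    intro i
    rw [hG, expF_coeff, natDegree_expand, mul_comm]
  have hGl : G.leadingCoeff.natDegree = b * M := by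
    have h2 : G.leadingCoeff = G.coeff e := by rw [leadingCoeff, hGe]
    rw [h2, hGc]
    congr 1
  have hG0 : G ≠ 0 := by
    intro h
    rw [h, natDegree_zero] at hGe
    omega
  have hwtG : wt G (a : ℤ) 1 = ((b * M + a * e : ℕ) : ℤ) := by
    rw [wt, hGl, hGe]
    push_cast
    ring
  have hs : ∀ i, G.coeff i ≠ 0 → (((1 : ℕ) : ℤ) * (G.coeff i).natDegree + (a : ℤ) * i : ℤ)
      ≤ wt G (a : ℤ) 1 := by
    intro i hi
    have hie := le_natDegree_of_ne_zero hi
    rw [hGe] at hie
    rw [hwtG, hGc]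
    have h2 := hle i hie
    have h3 : ((b * (F.coeff i).natDegree + a * i : ℕ) : ℤ) ≤ ((b * M + a * e : ℕ) : ℤ) := by
      exact_mod_cast h2
    push_cast at h3 ⊢
    linarith
  have hTjk : (leadForm G (a : ℤ) 1).coeff j ≠ 0 := by
    rw [leadForm_coeff' G _ 1 j (by rw [hGe]; exact hj.le),
      Finset.sum_eq_single (b * (F.coeff j).natDegree)]
    · rw [if_pos]
      · rw [← hGc]
        have h2 : G.coeff j ≠ 0 := by
          rw [hG, expF_coeff]
          intro h
          apply hFj
          exact expand_injective (by omega : 0 < b) (by rw [h, map_zero])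
        exact leadingCoeff_ne_zero.mpr h2
      · rw [hGl, hGe]
        have h3 : ((b * (F.coeff j).natDegree + a * j : ℕ) : ℤ) = ((b * M + a * e : ℕ) : ℤ) := by
          exact_mod_cast hj2
        push_cast at h3 ⊢
        linarith
    · intro i _ hi
      rw [if_neg]
      intro h
      apply hi
      rw [hGl, hGe] at h
      have h3 : ((b * (F.coeff j).natDegree + a * j : ℕ) : ℤ) = ((b * M + a * e : ℕ) : ℤ) := by
        exact_mod_cast hj2
      push_cast at h3 h
      have h4 : (i : ℤ) = ((b * (F.coeff j).natDegree : ℕ) : ℤ) := by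
        push_cast
        linarith
      exact_mod_cast h4
    · intro h
      rw [hGc] at h
      exact absurd (Finset.mem_range.mpr (Nat.lt_succ_self _)) h
  have hT1k : (leadForm G (a : ℤ) 1).coeff (e - 1) = 0 := by
    rw [leadForm_coeff' G _ 1 (e - 1) (by rw [hGe]; omega)]
    refine Finset.sum_eq_zero fun i _ => ?_
    rw [hG, expF_coeff, h1, map_zero, coeff_zero, ite_self]
  have e1 : leadForm G (a : ℤ) 1 ≠ 0 := by
    intro h
    rw [h, coeff_zero] at hTjk
    exact hTjk rfl
  have e2 : (X ^ b - C lam : k[X]) ≠ 0 := X_pow_sub_C_ne_zero (by omega) _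
  have e2' : (X ^ b - C x0 : k[X]) ≠ 0 := X_pow_sub_C_ne_zero (by omega) _
  have e3 : (X ^ b - 1 : k[X]) ≠ 0 := by
    have := X_pow_sub_C_ne_zero (R := k) (by omega : 0 < b) 1
    rwa [map_one] at this
  set H : k[X] := leadForm G (a : ℤ) 1 * (X ^ b - C lam) * (X ^ b - C x0) * (X ^ b - 1) with hH
  have hH0 : H ≠ 0 := mul_ne_zero (mul_ne_zero (mul_ne_zero e1 e2) e2') e3
  let K := H.SplittingField
  have _ : CharZero K := charZero_of_injective_algebraMap (algebraMap k K).injective
  have hfin : Module.Finite k K := inferInstance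
  have hNF : NumberField K := NumberField.of_module_finite k K
  have hsplit : (H.map (algebraMap k K)).Splits := SplittingField.splits H
  have hHK : H.map (algebraMap k K) ≠ 0 :=
    (Polynomial.map_ne_zero_iff (algebraMap k K).injective).mpr hH0
  have hdv : ∀ g : k[X], g ∣ H → (g.map (algebraMap k K)).Splits := fun g hg =>
    hsplit.of_dvd hHK (Polynomial.map_dvd _ hg)
  have s1 := hdv (leadForm G (a : ℤ) 1)
    ⟨(X ^ b - C lam) * (X ^ b - C x0) * (X ^ b - 1), by rw [hH]; ring⟩
  have s2 := hdv (X ^ b - C lam)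
    ⟨leadForm G (a : ℤ) 1 * (X ^ b - C x0) * (X ^ b - 1), by rw [hH]; ring⟩
  have s2' := hdv (X ^ b - C x0)
    ⟨leadForm G (a : ℤ) 1 * (X ^ b - C lam) * (X ^ b - 1), by rw [hH]; ring⟩
  have s3 := hdv (X ^ b - 1)
    ⟨leadForm G (a : ℤ) 1 * (X ^ b - C lam) * (X ^ b - C x0), by rw [hH]; ring⟩
  have hsepZ : (X ^ b - 1 : K[X]).Separable :=
    X_pow_sub_one_separable_iff.mpr (by exact_mod_cast (by omega : b ≠ 0))
  rw [Polynomial.map_sub, Polynomial.map_pow, map_X, Polynomial.map_one] at s3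
  obtain ⟨Z, hZ1, -, -⟩ := exists_roots _ s3 hsepZ
  have hmon : (X ^ b - 1 : K[X]).leadingCoeff = 1 := by
    have := leadingCoeff_X_pow_sub_C (R := K) (r := 1) (by omega : 0 < b)
    rwa [map_one] at this
  rw [hmon, map_one, one_mul] at hZ1
  rw [Polynomial.map_sub, Polynomial.map_pow, map_X, map_C] at s2 s2'
  obtain ⟨lam', hlam'⟩ := s2.exists_eval_eq_zero (by
    rw [degree_X_pow_sub_C (by omega)]
    exact_mod_cast (by omega : b ≠ 0))
  rw [eval_sub, eval_pow, eval_X, eval_C, sub_eq_zero] at hlam'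
  obtain ⟨t0, ht0⟩ := s2'.exists_eval_eq_zero (by
    rw [degree_X_pow_sub_C (by omega)]
    exact_mod_cast (by omega : b ≠ 0))
  rw [eval_sub, eval_pow, eval_X, eval_C, sub_eq_zero] at ht0
  have hlam0 : lam' ≠ 0 := by
    intro h
    rw [h, zero_pow (by omega)] at hlam'
    have h2 : algebraMap k K lam ≠ 0 := by
      rw [Ne, map_eq_zero]
      exact hlam
    exact h2 hlam'.symm
  -- the leading form
  set G' : K[X][X] := expF b (ext K F) with hG'
  have hGG : ext K G = G' := ext_expF b F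
  have hGe' : G'.natDegree = e := by rw [← hGG, ext_natDegree, hGe]
  have hwt : wt G' (a : ℤ) 1 = ((b * M + a * e : ℕ) : ℤ) := by
    rw [← hwtG, ← hGG, wt, wt, ext_natDegree, ext_leadingCoeff, natDegree_map]
  have hs' : ∀ i, G'.coeff i ≠ 0 →
      (((1 : ℕ) : ℤ) * (G'.coeff i).natDegree + (a : ℤ) * i : ℤ) ≤ wt G' (a : ℤ) 1 := by
    intro i hi
    rw [← hGG, ext_coeff, Ne, Polynomial.map_eq_zero] at hi
    have h2 := hs i hi
    rw [hwtG] at h2
    rw [hwt, ← hGG, ext_coeff, natDegree_map]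
    exact h2
  rw [← leadForm_ext, hGG] at s1
  set T := leadForm G' (a : ℤ) 1 with hT
  have hTe : T.natDegree = e := by
    rw [hT, leadForm_natDegree _ _ 1 le_rfl (by
      intro h
      rw [h, natDegree_zero] at hGe'
      omega), hGe']
  have hT0 : T ≠ 0 := by
    intro h
    rw [h, natDegree_zero] at hTe
    omega
  have hTj : T.coeff j ≠ 0 := by
    rw [hT, ← hGG, leadForm_ext, coeff_map, Ne, map_eq_zero]
    exact hTjk
  have hT1 : T.coeff (e - 1) = 0 := by
    rw [hT, ← hGG, leadForm_ext, coeff_map, hT1k, map_zero]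
  obtain ⟨Θ, m, hm1, hm2, hm3⟩ := exists_mult T s1
  have hΘ := two_roots T e (by omega) hTe hT1 j hj hTj Θ m hm2 hm3
  have hplc : (C lam' * X ^ d : K[X]).leadingCoeff = lam' := leadingCoeff_C_mul_X_pow lam' d
  have hpl0 : (C lam' * X ^ d : K[X]).leadingCoeff ≠ 0 := by rwa [hplc]
  have hΘne : Θ.Nonempty := Finset.card_pos.mp (by omega)
  obtain ⟨g, hg⟩ := Nat.exists_eq_add_of_le hde.le
  have hgg : e - d = g := by omega
  let D : InfData K :=
    { d := d
      hd := hd
      e := e
      hde := hde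
      a := a
      ρ := a * (e - d)
      hρ := by
        have h2 : 1 * 1 ≤ a * (e - d) := Nat.mul_le_mul ha (by omega)
        omega
      b := 1
      hb := le_rfl
      hb0 := by
        rw [Nat.cast_one]
        exact one_ne_zero
      P1 := C (C lam' * X ^ d : K[X]).leadingCoeff⁻¹ * (C lam' * X ^ d : K[X]).reverse
      hP1 := by rw [coeff_C_mul, coeff_zero_reverse, inv_mul_cancel₀ hpl0]
      lam := lam'
      hlam := hlam0
      Q := Qp G' (a : ℤ) 1
      c := T.leadingCoeff
      hc := leadingCoeff_ne_zero.mpr hT0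
      ι := Θ
      hfin := inferInstance
      hdec := inferInstance
      r := fun θ => (θ : K)
      hr := Subtype.val_injective
      m := fun θ => m θ
      hm := fun θ => hm1 θ θ.property
      hT := by
        rw [top0_Qp hs', Finset.prod_coe_sort Θ (fun θ => (X - C θ) ^ m θ)]
        exact hm3
      he := by
        rw [Finset.sum_coe_sort Θ (fun θ => m θ), hm2, hTe]
      p := C lam' * X ^ d
      F := G'
      M := b * M
      hb1 := rfl
      hpd := natDegree_C_mul_X_pow d lam' hlam0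
      hlamp := hplc.symm
      hP := rfl
      hQ := by
        intro Ω _ _ w u hw
        rw [ev2_Qp hs' w u hw, hwt, zpow_natCast, zpow_natCast, pow_one]
        have h2 : b * M + a * e = a * (e - d) + b * M + a * d := by
          rw [hgg, hg]
          ring
        rw [h2]
      hQdeg := (natDegree_Qp _ _ _).trans (le_of_eq hGe')
      hne := ⟨⟨_, hΘne.choose_spec⟩⟩ }
  refine ⟨K, inferInstance, hNF, inferInstance, hfin, b, t0, lam', Z, D, hb, ht0, hlam', hZ1, rfl,
    rfl, rfl, rfl, rfl, rfl, rfl, ?_⟩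
  show 2 ≤ Fintype.card Θ
  rw [Fintype.card_coe]
  exact hΘ

end Pool.Agent.Lib.MP_9ec2c5_sk
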