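import Mathlib
import Pool.Agent.Lib.MP_9ec2c5_nt_h65.Slow
import Pool.Agent.Lib.MP_9ec2c5_sk.Heights2

/-!
Slow orbits of a polynomial skew product with constant leading coefficient are not Zariski dense:
version with a hypothesis on heights only, and heights over an extension.
-/

set_option autoImplicit false
set_option linter.unusedSectionVars false

namespace Pool.Agent.Lib.MP_9ec2c5_sk

open Polynomial Finset Height Filter Topology AdmissibleAbsValues
open Pool.Agent.Lib.MP_9ec2c5_nt_h65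

variable {K : Type} [Field K] [NumberField K]

/-- from bounds at the places to bounds for the heights -/
lemma height_of_places (d : ℕ) (hd : 1 ≤ d) (y : ℕ → K) (S : Set (nonarchAbsVal (K := K)))
    (hS : S.Finite) (hint : ∀ v : nonarchAbsVal (K := K), v ∉ S → ∀ n, v.val (y n) ≤ 1)
    (hslow : ∀ v : AbsoluteValue K ℝ, IsPlace v →
      ∃ A B : ℝ, ∀ n : ℕ, v (y n) ≤ Real.exp ((d : ℝ) ^ n * (A + B * n))) :
    ∃ A B : ℝ, 0 ≤ A ∧ 0 ≤ B ∧ ∀ n : ℕ,
      Real.log (mulHeight₁ (y n)) ≤ (d : ℝ) ^ n * (A + B * n) := by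
  classical
  obtain ⟨N, hN⟩ := height_le_scaled S hS
  obtain ⟨C1, hC1, h1⟩ := hN (fun _ => 1) fun _ => le_refl _
  have hex : ∀ v : AbsoluteValue K ℝ, ∃ A B : ℝ, 0 ≤ A ∧ 0 ≤ B ∧ (IsPlace v →
      ∀ n : ℕ, v (y n) ≤ Real.exp ((d : ℝ) ^ n * (A + B * n))) := by
    intro v
    by_cases hv : IsPlace v
    · obtain ⟨A, B, h⟩ := hslow v hv
      refine ⟨|A|, |B|, abs_nonneg _, abs_nonneg _, fun _ n => (h n).trans ?_⟩
      apply Real.exp_le_exp.mpr
      apply mul_le_mul_of_nonneg_left _ (by positivity)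
      exact add_le_add (le_abs_self _) (mul_le_mul_of_nonneg_right (le_abs_self _)
        (Nat.cast_nonneg _))
    · exact ⟨0, 0, le_refl _, le_refl _, fun h => absurd h hv⟩
  choose A B hA hB hAB using hex
  set G : Finset (AbsoluteValue K ℝ) :=
    (archAbsVal (K := K)).toFinset ∪ (hS.toFinset.image Subtype.val) with hG
  set A1 : ℝ := ∑ v ∈ G, A v with hA1
  set B1 : ℝ := ∑ v ∈ G, B v with hB1
  have hA0 : 0 ≤ A1 := Finset.sum_nonneg fun v _ => hA v
  have hB0 : 0 ≤ B1 := Finset.sum_nonneg fun v _ => hB v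
  have hbound : ∀ v ∈ G, IsPlace v → ∀ n : ℕ,
      v (y n) ≤ 1 * Real.exp ((d : ℝ) ^ n * (A1 + B1 * n)) := by
    intro v hv hp n
    rw [one_mul]
    refine (hAB v hp n).trans (Real.exp_le_exp.mpr ?_)
    apply mul_le_mul_of_nonneg_left _ (by positivity)
    refine add_le_add (Finset.single_le_sum (f := A) (fun v _ => hA v) hv)
      (mul_le_mul_of_nonneg_right ?_ (Nat.cast_nonneg _))
    exact Finset.single_le_sum (f := B) (fun v _ => hB v) hv
  have hl : 0 ≤ Real.log C1 := Real.log_nonneg hC1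
  refine ⟨Real.log C1 + N * A1, N * B1, by positivity, by positivity, fun n => ?_⟩
  have hdn : (1 : ℝ) ≤ (d : ℝ) ^ n := one_le_pow₀ (by exact_mod_cast hd)
  have h2 := h1 (y n) (Real.exp ((d : ℝ) ^ n * (A1 + B1 * n))) (by
      rw [← Real.exp_zero]
      exact Real.exp_le_exp.mpr (by positivity))
    (fun v hv => hbound v (Finset.mem_union_left _ (Multiset.mem_toFinset.mpr hv)) (Or.inl hv) n)
    (fun v hv => hbound v.val (Finset.mem_union_right _ (Finset.mem_image_of_mem _
      (hS.mem_toFinset.mpr hv))) (Or.inr v.property) n) fun v hv => hint v hv n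
  have h3 := Real.log_le_log (by positivity) h2
  rw [Real.log_mul (by positivity) (by positivity), Real.log_pow, Real.log_exp] at h3
  have h4 : Real.log C1 ≤ (d : ℝ) ^ n * Real.log C1 := le_mul_of_one_le_left hl hdn
  calc _ ≤ _ := h3
    _ ≤ (d : ℝ) ^ n * Real.log C1 + N * ((d : ℝ) ^ n * (A1 + B1 * n)) := by linarith
    _ = _ := by ring

/-- Slow orbits of a polynomial skew product with constant leading coefficient are not dense. -/
theorem slow_vanish_height (p : K[X]) (q : K[X][X]) (hd : 1 ≤ p.natDegree)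
    (hde : p.natDegree < q.natDegree) (c : K) (hc : c ≠ 0) (hlc : q.leadingCoeff = C c)
    (x y : ℕ → K) (hx : ∀ n, x (n + 1) = p.eval (x n))
    (hy : ∀ n, y (n + 1) = q.evalEval (x n) (y n)) (hinj : Function.Injective x)
    (hslow : ∃ A B : ℝ, 0 ≤ A ∧ 0 ≤ B ∧ ∀ n : ℕ,
      Real.log (mulHeight₁ (y n)) ≤ (p.natDegree : ℝ) ^ n * (A + B * n)) :
    ∃ R : K[X][X], R ≠ 0 ∧ ∀ n, R.evalEval (x n) (y n) = 0 := by
  classical
  have hk : ∀ n, 0 ≤ Real.log (mulHeight₁ (x n)) := fun n => Real.log_nonneg (one_le_mulHeight₁ _)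
  have hh : ∀ n, 0 ≤ Real.log (mulHeight₁ (y n)) := fun n => Real.log_nonneg (one_le_mulHeight₁ _)
  -- the base
  obtain ⟨C0, hC0, h0⟩ := height_eval p
  have hl0 : 0 ≤ Real.log C0 := Real.log_nonneg hC0
  have ha : ∀ n, Real.log (mulHeight₁ (x (n + 1)))
      ≤ p.natDegree * Real.log (mulHeight₁ (x n)) + Real.log C0 := by
    intro n
    rw [hx, ← Real.log_pow, ← Real.log_mul (by positivity) (by positivity), mul_comm]
    exact Real.log_le_log (by positivity) (h0 _)
  have hbase := base_slow p.natDegree hd (fun n => Real.log (mulHeight₁ (x n))) (Real.log C0) hl0 ha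
  set κ0 := Real.log (mulHeight₁ (x 0)) with hκ0
  have hκ : 0 ≤ κ0 := hk 0
  -- the shift
  obtain ⟨s, hs⟩ := exists_tsch p q (by omega) c hc hlc
  set q' := tsch p q s with hq'
  set y' : ℕ → K := fun n => y n + s.eval (x n) with hy'
  have hy1 : ∀ n, y' (n + 1) = q'.evalEval (x n) (y' n) := by
    intro n
    rw [hq', hy', tsch_eval]
    show y (n + 1) + s.eval (x (n + 1)) = _
    rw [hx, hy]
  have hdeg : q'.natDegree = q.natDegree := tsch_natDegree p q s
  have hlc' : q'.leadingCoeff = C c := by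
    rw [hq', tsch_lead p q s (by omega), hlc]
  -- slow growth of the new coordinate
  obtain ⟨C2, hC2, h2⟩ := height_eval s
  have hl2 : 0 ≤ Real.log C2 := Real.log_nonneg hC2
  obtain ⟨A1, B1, hA1, hB1, hys⟩ := hslow
  set w2 : ℝ := totalWeight K * Real.log 2 with hw2
  have hw20 : 0 ≤ w2 := mul_nonneg (Nat.cast_nonneg _) (Real.log_nonneg (by norm_num))
  set sd : ℝ := (s.natDegree : ℝ) with hsd
  have hsd0 : 0 ≤ sd := Nat.cast_nonneg _
  set A2 : ℝ := w2 + Real.log C2 + A1 + sd * κ0 with hA2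
  set B2 : ℝ := B1 + sd * Real.log C0 with hB2
  have hyslow : ∀ n : ℕ, Real.log (mulHeight₁ (y' n)) ≤ (p.natDegree : ℝ) ^ n * (A2 + B2 * n) := by
    intro n
    have h1 : (1 : ℝ) ≤ (p.natDegree : ℝ) ^ n := one_le_pow₀ (by exact_mod_cast hd)
    have h3 : mulHeight₁ (y' n) ≤ 2 ^ totalWeight K * mulHeight₁ (y n)
        * (C2 * mulHeight₁ (x n) ^ s.natDegree) :=
      (mulHeight₁_add_le _ _).trans (mul_le_mul_of_nonneg_left (h2 _) (by positivity))
    have h4 := Real.log_le_log (by positivity) h3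
    rw [Real.log_mul (by positivity) (by positivity), Real.log_mul (by positivity) (by positivity),
      Real.log_mul (by positivity) (by positivity), Real.log_pow, Real.log_pow] at h4
    have h5 := hys n
    have h6 := mul_le_mul_of_nonneg_left (hbase n) hsd0
    have h7 : w2 + Real.log C2 ≤ (p.natDegree : ℝ) ^ n * (w2 + Real.log C2) := by
      have h8 : 0 ≤ w2 + Real.log C2 := by positivity
      nlinarith
    have h8 : (p.natDegree : ℝ) ^ n * (A2 + B2 * n)
        = (p.natDegree : ℝ) ^ n * (w2 + Real.log C2)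
          + (p.natDegree : ℝ) ^ n * (A1 + B1 * n)
          + sd * ((p.natDegree : ℝ) ^ n * (κ0 + Real.log C0 * n)) := by
      rw [hA2, hB2]
      ring
    rw [h8]
    linarith
  -- the two cases
  suffices h : ∃ R : K[X][X], R ≠ 0 ∧ ∀ n, R.evalEval (x n) (y' n) = 0 by
    obtain ⟨R, hR, hR'⟩ := h
    exact untsch s R hR x y hR'
  by_cases hconst : ∀ j, (q'.coeff j).natDegree = 0
  · exact const_vanish q' p.natDegree (by rw [hdeg]; exact hde) (by rw [hdeg]; omega) c hc hlc'
      hconst x y' hy1 ⟨A2, B2, hyslow⟩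
  · push Not at hconst
    obtain ⟨K', _, _, _, _, D, hDp, hDq, hDd, hDe⟩ := exists_skewMap p q' hd
      (by rw [hdeg]; exact hde) c hlc' hs (by
        obtain ⟨j, hj⟩ := hconst
        exact ⟨j, Nat.one_le_iff_ne_zero.mpr hj⟩)
    have hcK : algebraMap K K' c ≠ 0 := by
      rw [Ne, map_eq_zero]
      exact hc
    obtain ⟨R, hR, hR'⟩ := D.vanish (algebraMap K K' c) hcK (by rw [hDq, hDe, ext_natDegree])
      (by rw [hDq, ext_leadingCoeff, hlc', map_C])
      (fun n => algebraMap K K' (x n)) (fun n => algebraMap K K' (y' n))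
      (fun n => by
        show algebraMap K K' (x (n + 1)) = _
        rw [hDp, eval_map_algebraMap, aeval_algebraMap_apply_eq_algebraMap_eval, hx])
      (fun n => by
        show algebraMap K K' (y' (n + 1)) = _
        have h1 : ev2 (ext K' q') (algebraMap K K' (x n)) (algebraMap K K' (y' n))
            = (ext K' q').evalEval (algebraMap K K' (x n)) (algebraMap K K' (y' n)) :=
          ev2_algebraMap (Ω := K') _ _ _
        rw [hDq, ← h1, ev2_ext, ev2_algebraMap, hy1])
      (fun m n hmn => hinj ((algebraMap K K').injective hmn))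
      (fun v hv => by
        refine ⟨totalWeight K' * A2, totalWeight K' * B2, fun n => ?_⟩
        refine (place_le v hv (y' n)).trans ?_
        rw [← Real.exp_log (by positivity : 0 < mulHeight₁ (y' n) ^ totalWeight K'), Real.log_pow,
          hDd]
        refine Real.exp_le_exp.mpr ?_
        have h1 := mul_le_mul_of_nonneg_left (hyslow n) (Nat.cast_nonneg (α := ℝ) (totalWeight K'))
        refine h1.trans (le_of_eq ?_)
        ring)
    exact descend R hR x y' hR'

end Pool.Agent.Lib.MP_9ec2c5_sk
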