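import Mathlib
import Pool.Agent.Lib.MP_9ec2c5_sk.SlopeData
import Pool.Agent.Lib.MP_9ec2c5_sk.LaurentGlobal
import Pool.Agent.Lib.MP_9ec2c5_sk.Pull
import Pool.Agent.Lib.MP_9ec2c5_sk.DataMk
import Pool.Agent.Lib.MP_9ec2c5_sk.Slow2

/-!
Slow orbits over a monomial base map, with Laurent coefficients one of which has positive degree.
-/

set_option autoImplicit false
set_option linter.unusedSectionVars false

namespace Pool.Agent.Lib.MP_9ec2c5_sk

open Polynomial Finset Height Filter Topology AdmissibleAbsValues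
open Pool.Agent.Lib.MP_9ec2c5_nt_h65

/-- coherent roots of the base orbit -/
lemma coherent_roots {k K : Type} [Field k] [Field K] [Algebra k K] (lam : k) (d : ℕ) (x : ℕ → k)
    (hx : ∀ n, x (n + 1) = lam * x n ^ d) (b : ℕ) (t0 lam' : K)
    (ht0 : t0 ^ b = algebraMap k K (x 0)) (hlam' : lam' ^ b = algebraMap k K lam) :
    ∃ t : ℕ → K, t 0 = t0 ∧ (∀ n, t (n + 1) = lam' * t n ^ d) ∧
      ∀ n, t n ^ b = algebraMap k K (x n) := by
  set t : ℕ → K := fun n => Nat.rec t0 (fun _ z => lam' * z ^ d) n with ht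
  refine ⟨t, rfl, fun n => rfl, fun n => ?_⟩
  induction n with
  | zero => exact ht0
  | succ n ih =>
    have h1 : t (n + 1) = lam' * t n ^ d := rfl
    rw [h1, mul_pow, hlam', ← pow_mul, mul_comm d b, pow_mul, ih, hx, map_mul, map_pow]

/-- Slow orbits over a monomial base map: some coefficient of positive degree. -/
theorem laurent_vanish {k : Type} [Field k] [NumberField k] (lam : k) (hlam : lam ≠ 0)
    (d : ℕ) (hd : 1 ≤ d) (F : k[X][X]) (hde : d < F.natDegree) (M : ℕ) (c : k) (hc : c ≠ 0)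
    (hlc : F.leadingCoeff = C c * X ^ M) (h1 : F.coeff (F.natDegree - 1) = 0)
    (hne : ∃ j, j < F.natDegree ∧ M < (F.coeff j).natDegree) (x y : ℕ → k)
    (hx : ∀ n, x (n + 1) = lam * x n ^ d) (hx0 : ∀ n, x n ≠ 0)
    (hy : ∀ n, x n ^ M * y (n + 1) = F.evalEval (x n) (y n)) (hinj : Function.Injective x)
    (hslow : ∃ A B : ℝ, 0 ≤ A ∧ 0 ≤ B ∧ ∀ n : ℕ,
      Real.log (mulHeight₁ (y n)) ≤ (d : ℝ) ^ n * (A + B * n)) :
    ∃ R : k[X][X], R ≠ 0 ∧ ∀ n, R.evalEval (x n) (y n) = 0 := by
  classical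
  obtain ⟨K, _, _, _, _, b, t0, lam', Z, D, hb, ht0, hlam', hZ, hDp, hDlam, hDd, hDe, hDM, hDF,
    hDρ, hcard⟩ := exists_slope_data lam (x 0) hlam d hd F hde M c hc hlc h1 hne
  obtain ⟨t, -, ht1, htx⟩ := coherent_roots lam d x hx b t0 lam' ht0 hlam'
  have hlam0 : lam' ≠ 0 := by
    intro h
    rw [h, zero_pow (by omega), eq_comm, map_eq_zero] at hlam'
    exact hlam hlam'
  have hcK : algebraMap k K c ≠ 0 := by
    rw [Ne, map_eq_zero]
    exact hc
  have ht0' : ∀ n, t n ≠ 0 := by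
    intro n h
    have h2 := htx n
    rw [h, zero_pow (by omega), eq_comm, map_eq_zero] at h2
    exact hx0 n h2
  have htinj : Function.Injective t := by
    intro m n hmn
    apply hinj
    apply (algebraMap k K).injective
    rw [← htx, ← htx, hmn]
  have hDFd : D.F.natDegree = F.natDegree := by rw [hDF, expF_natDegree b hb, ext_natDegree]
  have hDlc : D.F.leadingCoeff = C (algebraMap k K c) * X ^ D.M := by
    rw [hDF, expF_leadingCoeff b hb, ext_leadingCoeff, hlc, Polynomial.map_mul, Polynomial.map_pow,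
      map_C, map_X, map_mul, map_pow, expand_C, expand_X, hDM, pow_mul]
  obtain ⟨D', hD'lam, hD'F, hD'M, hD'd, hD'e, hD'ρ⟩ := exists_zeroData lam'⁻¹ (inv_ne_zero hlam0) d
    hd D.F (by rw [hDFd]; exact hde) D.M D.M (C (algebraMap k K c)) (by rw [hDlc, mul_comm])
    (by rw [coeff_C_zero]; exact hcK)
  obtain ⟨A, B, hA, hB, hys⟩ := hslow
  obtain ⟨R, hR, hR'⟩ := laurent_global D D' hD'F hD'M (by rw [hD'd, hDd])
    (by rw [hD'e, hDFd, hDe]) (by rw [hDlam, hD'lam, mul_inv_cancel₀ hlam0])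
    (by rw [hDp, hDlam, hDd]) hDρ (by
      rw [hD'e, hD'd]
      omega) hcard (algebraMap k K c) hcK (by rw [hDFd, hDe]) hDlc t
    (fun n => algebraMap k K (y n)) (by rw [hDlam, hDd]; exact ht1) ht0' (by
      intro n
      have h2 : (ext K F).evalEval (algebraMap k K (x n)) (algebraMap k K (y n))
          = algebraMap k K (F.evalEval (x n) (y n)) := by
        have h3 : ev2 (ext K F) (algebraMap k K (x n)) (algebraMap k K (y n))
            = (ext K F).evalEval (algebraMap k K (x n)) (algebraMap k K (y n)) :=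
          ev2_algebraMap (Ω := K) _ _ _
        rw [← h3, ev2_ext, ev2_algebraMap]
      show t n ^ D.M * algebraMap k K (y (n + 1)) = _
      rw [hDF, expF_evalEval, htx, h2, ← hy, hDM, pow_mul, htx, map_mul, map_pow]) htinj
    (fun v hv => by
      refine ⟨totalWeight K * A, totalWeight K * B, fun n => ?_⟩
      refine (place_le v hv (y n)).trans ?_
      rw [← Real.exp_log (by positivity : 0 < mulHeight₁ (y n) ^ totalWeight K), Real.log_pow, hDd]
      refine Real.exp_le_exp.mpr ?_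
      have h2 := mul_le_mul_of_nonneg_left (hys n) (Nat.cast_nonneg (α := ℝ) (totalWeight K))
      refine h2.trans (le_of_eq ?_)
      ring)
  obtain ⟨P, hP, hP'⟩ := pull_root b hb Z hZ R hR
  refine descend P hP x y fun n => ?_
  rw [← htx]
  exact hP' _ _ (hR' n)

end Pool.Agent.Lib.MP_9ec2c5_sk
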