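import Mathlib
import Pool.Agent.Lib.MP_9ec2c5_nt_h65.Build

/-!
Finite extensions of a number field containing roots.
-/

set_option autoImplicit false
set_option linter.unusedSectionVars false

namespace Pool.Agent.Lib.MP_9ec2c5_sk

open Polynomial Finset
open Pool.Agent.Lib.MP_9ec2c5_nt_h65

/-- an extension in which `f` splits and in which `x0` and `lam` have `b`-th roots -/
theorem exists_root_ext {k : Type} [Field k] [NumberField k] (f : k[X]) (hf : f ≠ 0) (b : ℕ)
    (hb : 1 ≤ b) (x0 lam : k) :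
    ∃ (K : Type) (_ : Field K) (_ : NumberField K) (_ : Algebra k K) (_ : Module.Finite k K)
      (t0 lam' : K) (Z : Finset K), (f.map (algebraMap k K)).Splits ∧
      t0 ^ b = algebraMap k K x0 ∧ lam' ^ b = algebraMap k K lam ∧
      (X ^ b - 1 : K[X]) = ∏ ζ ∈ Z, (X - C ζ) := by
  classical
  have e1 : (X ^ b - C x0 : k[X]) ≠ 0 := X_pow_sub_C_ne_zero (by omega) _
  have e2 : (X ^ b - C lam : k[X]) ≠ 0 := X_pow_sub_C_ne_zero (by omega) _
  have e3 : (X ^ b - 1 : k[X]) ≠ 0 := by
    have := X_pow_sub_C_ne_zero (R := k) (by omega : 0 < b) 1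
    rwa [map_one] at this
  set F : k[X] := f * (X ^ b - C x0) * (X ^ b - C lam) * (X ^ b - 1) with hF
  have hF0 : F ≠ 0 := mul_ne_zero (mul_ne_zero (mul_ne_zero hf e1) e2) e3
  let K := F.SplittingField
  have _ : CharZero K := charZero_of_injective_algebraMap (algebraMap k K).injective
  have hfin : Module.Finite k K := inferInstance
  have hNF : NumberField K := NumberField.of_module_finite k K
  have hsplit : (F.map (algebraMap k K)).Splits := SplittingField.splits F
  have hFK : F.map (algebraMap k K) ≠ 0 := (Polynomial.map_ne_zero_iff (algebraMap k K).injective).mpr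
    hF0
  have hdv : ∀ g : k[X], g ∣ F → (g.map (algebraMap k K)).Splits := fun g hg =>
    hsplit.of_dvd hFK (Polynomial.map_dvd _ hg)
  have s0 := hdv f ⟨(X ^ b - C x0) * (X ^ b - C lam) * (X ^ b - 1), by rw [hF]; ring⟩
  have s1 := hdv (X ^ b - C x0) ⟨f * (X ^ b - C lam) * (X ^ b - 1), by rw [hF]; ring⟩
  have s2 := hdv (X ^ b - C lam) ⟨f * (X ^ b - C x0) * (X ^ b - 1), by rw [hF]; ring⟩
  have s3 := hdv (X ^ b - 1) ⟨f * (X ^ b - C x0) * (X ^ b - C lam), by rw [hF]; ring⟩
  have hsepZ : (X ^ b - 1 : K[X]).Separable :=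
    X_pow_sub_one_separable_iff.mpr (by exact_mod_cast (by omega : b ≠ 0))
  rw [Polynomial.map_sub, Polynomial.map_pow, map_X, Polynomial.map_one] at s3
  obtain ⟨Z, hZ1, -, -⟩ := exists_roots _ s3 hsepZ
  have hmon : (X ^ b - 1 : K[X]).leadingCoeff = 1 := by
    have := leadingCoeff_X_pow_sub_C (R := K) (r := 1) (by omega : 0 < b)
    rwa [map_one] at this
  rw [hmon, map_one, one_mul] at hZ1
  rw [Polynomial.map_sub, Polynomial.map_pow, map_X, map_C] at s1 s2
  obtain ⟨t0, ht0⟩ := s1.exists_eval_eq_zero (by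
    rw [degree_X_pow_sub_C (by omega)]
    exact_mod_cast (by omega : b ≠ 0))
  obtain ⟨l, hl⟩ := s2.exists_eval_eq_zero (by
    rw [degree_X_pow_sub_C (by omega)]
    exact_mod_cast (by omega : b ≠ 0))
  rw [eval_sub, eval_pow, eval_X, eval_C, sub_eq_zero] at ht0 hl
  exact ⟨K, inferInstance, hNF, inferInstance, hfin, t0, l, Z, s0, ht0, hl, hZ1⟩

end Pool.Agent.Lib.MP_9ec2c5_sk
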