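import Mathlib
import Pool.Agent.Lib.MP_9ec2c5_sk.ExpF

/-!
Removing the term of degree one less than the degree, for Laurent coefficients.
-/

set_option autoImplicit false
set_option linter.unusedSectionVars false

namespace Pool.Agent.Lib.MP_9ec2c5_sk

open Polynomial Finset
open Pool.Agent.Lib.MP_9ec2c5_nt_h65

namespace TschL

lemma coeff_lin_pow {R : Type} [CommRing R] (a b : R) (j n : ℕ) :
    ((C a * X + C b : R[X]) ^ j).coeff n = b ^ (j - n) * (j.choose n : R) * a ^ n := by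
  have h1 : (C a * X + C b : R[X]) ^ j = ((X + C b) ^ j).comp (C a * X) := by
    rw [pow_comp, add_comp, X_comp, C_comp]
  rw [h1, comp_C_mul_X_coeff, coeff_X_add_C_pow]

/-- the transformed fibre polynomial -/
noncomputable def G {K : Type} [Field K] (F : K[X][X]) (M k : ℕ) (s g : K[X]) : K[X][X] :=
  ∑ j ∈ range (k + 2), C (F.coeff j * X ^ (M * (k + 1 - j))) * (C (X ^ M) * X + C (-s)) ^ j + C g

variable {K : Type} [Field K] (F : K[X][X]) (M k : ℕ) (s g : K[X])

lemma G_coeff (n : ℕ) (hn : 1 ≤ n) : (G F M k s g).coeff n = ∑ j ∈ range (k + 2),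
    F.coeff j * X ^ (M * (k + 1 - j)) * ((-s) ^ (j - n) * (j.choose n : K[X]) * (X ^ M) ^ n) := by
  rw [G, coeff_add, coeff_C, if_neg (by omega), add_zero, finsetSum_coeff]
  refine Finset.sum_congr rfl fun j _ => ?_
  rw [coeff_C_mul, coeff_lin_pow]

lemma G_coeff_top : (G F M k s g).coeff (k + 1) = F.coeff (k + 1) * X ^ (M * (k + 1)) := by
  rw [G_coeff F M k s g (k + 1) (by omega), Finset.sum_range_succ, Finset.sum_eq_zero, zero_add,
    Nat.sub_self, Nat.mul_zero, pow_zero, mul_one, pow_zero, one_mul, Nat.choose_self,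
    Nat.cast_one, one_mul, ← pow_mul]
  intro j hj
  rw [Nat.choose_eq_zero_of_lt (Finset.mem_range.mp hj)]
  simp

lemma G_natDegree_le : (G F M k s g).natDegree ≤ k + 1 := by
  rw [natDegree_le_iff_coeff_eq_zero]
  intro n hn
  rw [G_coeff F M k s g n (by omega)]
  refine Finset.sum_eq_zero fun j hj => ?_
  have hj' := Finset.mem_range.mp hj
  rw [Nat.choose_eq_zero_of_lt (by omega)]
  simp

lemma G_coeff_second (hk : 1 ≤ k) : (G F M k s g).coeff k
    = X ^ (M * (k + 1)) * F.coeff k - ((k + 1 : ℕ) : K[X]) * F.coeff (k + 1) * s * X ^ (M * k) := by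
  rw [G_coeff F M k s g k hk, Finset.sum_range_succ, Finset.sum_range_succ, Finset.sum_eq_zero,
    zero_add]
  · have h1 : k + 1 - k = 1 := by omega
    rw [h1, Nat.sub_self, Nat.sub_self, Nat.choose_self, Nat.choose_succ_self_right, Nat.mul_zero,
      pow_zero, pow_zero, mul_one, mul_one, pow_one, Nat.cast_one]
    ring
  · intro j hj
    rw [Nat.choose_eq_zero_of_lt (Finset.mem_range.mp hj)]
    simp

lemma G_eval (t w : K) :
    (G F M k s g).evalEval t w = ∑ j ∈ range (k + 2),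
      ((F.coeff j).eval t * t ^ (M * (k + 1 - j))) * (t ^ M * w - s.eval t) ^ j + g.eval t := by
  rw [G, evalEval_add, evalEval_finsetSum, evalEval_C]
  congr 1
  refine Finset.sum_congr rfl fun j _ => ?_
  rw [evalEval_mul, evalEval_C, evalEval_pow, evalEval_add, evalEval_mul, evalEval_C, evalEval_X,
    evalEval_C, eval_mul, eval_pow, eval_X, eval_neg, eval_pow, eval_X, sub_eq_add_neg]

lemma F_eval (hk : F.natDegree = k + 1) (t z : K) :
    F.evalEval t z = ∑ j ∈ range (k + 2), (F.coeff j).eval t * z ^ j := by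
  conv_lhs => rw [F.as_sum_range_C_mul_X_pow]
  rw [evalEval_finsetSum, hk]
  refine Finset.sum_congr rfl fun j _ => ?_
  rw [evalEval_mul, evalEval_C, evalEval_pow, evalEval_X]

end TschL

open TschL in
/-- Removing the second coefficient. -/
theorem exists_tsch_laurent {K : Type} [Field K] [CharZero K] (lam : K) (hlam : lam ≠ 0) (d : ℕ)
    (F : K[X][X]) (hde : d < F.natDegree) (he : 2 ≤ F.natDegree) (M : ℕ) (c : K) (hc : c ≠ 0)
    (hlc : F.leadingCoeff = C c * X ^ M) :
    ∃ (G : K[X][X]) (M' : ℕ) (s : K[X]), G.natDegree = F.natDegree ∧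
      G.leadingCoeff = C c * X ^ M' ∧ G.coeff (G.natDegree - 1) = 0 ∧
      ∀ t z z' : K, t ≠ 0 → t ^ M * z' = F.evalEval t z →
        t ^ M' * (z' + s.eval (lam * t ^ d) / (lam * t ^ d) ^ M)
          = G.evalEval t (z + s.eval t / t ^ M) := by
  obtain ⟨k, hk⟩ : ∃ k, F.natDegree = k + 1 := ⟨F.natDegree - 1, by omega⟩
  rw [leadingCoeff, hk] at hlc
  have hkc : ((k + 1 : ℕ) : K) * c ≠ 0 := mul_ne_zero (Nat.cast_ne_zero.mpr (by omega)) hc
  obtain ⟨s, hs⟩ : ∃ s : K[X], s = C ((((k + 1 : ℕ) : K) * c)⁻¹) * F.coeff k := ⟨_, rfl⟩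
  obtain ⟨g, hg⟩ : ∃ g : K[X], g = C (lam⁻¹ ^ M) * X ^ (M * (k + 2) - d * M)
      * s.comp (C lam * X ^ d) := ⟨_, rfl⟩
  have htop : (G F M k s g).coeff (k + 1) = C c * X ^ (M * (k + 2)) := by
    rw [G_coeff_top, hlc, mul_assoc, ← pow_add]
    congr 2
    ring
  have hne : (G F M k s g).coeff (k + 1) ≠ 0 := by
    rw [htop]
    exact mul_ne_zero (C_ne_zero.mpr hc) (pow_ne_zero _ X_ne_zero)
  have hdeg : (G F M k s g).natDegree = k + 1 :=
    natDegree_eq_of_le_of_coeff_ne_zero (G_natDegree_le F M k s g) hne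
  refine ⟨G F M k s g, M * (k + 2), s, by rw [hdeg, hk], by rw [leadingCoeff, hdeg, htop], ?_, ?_⟩
  · rw [hdeg, Nat.add_sub_cancel, G_coeff_second F M k s g (by omega), hlc]
    have h1 : ((k + 1 : ℕ) : K[X]) * (C c * X ^ M) * s
        = C ((((k + 1 : ℕ) : K) * c) * (((k + 1 : ℕ) : K) * c)⁻¹) * (X ^ M * F.coeff k) := by
      rw [hs, C_mul, C_mul, map_natCast]
      ring
    rw [h1, mul_inv_cancel₀ hkc, map_one]
    ring
  · intro t z z' ht h
    have htM : t ^ M ≠ 0 := pow_ne_zero _ ht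
    have h1 : t ^ M * (z + s.eval t / t ^ M) - s.eval t = t ^ M * z := by
      field_simp
      ring
    rw [G_eval F M k s g, h1]
    have h2 : ∑ j ∈ range (k + 2), ((F.coeff j).eval t * t ^ (M * (k + 1 - j))) * (t ^ M * z) ^ j
        = t ^ (M * (k + 1)) * F.evalEval t z := by
      rw [F_eval F k hk, Finset.mul_sum]
      refine Finset.sum_congr rfl fun j hj => ?_
      have hj' := Finset.mem_range.mp hj
      have h3 : t ^ (M * (k + 1)) = t ^ (M * (k + 1 - j)) * (t ^ M) ^ j := by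
        rw [← pow_mul, ← pow_add, ← mul_add]
        congr 2
        omega
      rw [h3, mul_pow]
      ring
    rw [h2, ← h]
    have h3 : g.eval t = t ^ (M * (k + 2)) * (s.eval (lam * t ^ d) / (lam * t ^ d) ^ M) := by
      have h4 : d * M ≤ M * (k + 2) := by
        rw [mul_comm d M]
        exact Nat.mul_le_mul_left _ (by omega)
      have h5 : t ^ (M * (k + 2)) = t ^ (M * (k + 2) - d * M) * (t ^ d) ^ M := by
        rw [← pow_mul, ← pow_add]
        congr 1
        omega
      have h6 : (t ^ d) ^ M ≠ 0 := pow_ne_zero _ (pow_ne_zero _ ht)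
      have h7 : lam ^ M ≠ 0 := pow_ne_zero _ hlam
      rw [hg, eval_mul, eval_mul, eval_C, eval_pow, eval_X, eval_comp, eval_mul, eval_C, eval_pow,
        eval_X, h5, mul_pow, inv_pow]
      field_simp
    rw [h3, mul_add]
    congr 1
    rw [← mul_assoc, ← pow_add]
    congr 2

end Pool.Agent.Lib.MP_9ec2c5_sk
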