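import Mathlib
import Pool.Agent.Lib.MP_9ec2c5_sk.LaurentVanish
import Pool.Agent.Lib.MP_9ec2c5_sk.TschL
import Pool.Agent.Lib.MP_9ec2c5_sk.RootExt

/-!
Slow orbits of a skew product whose base map and whose leading coefficient are monomials.
-/

set_option autoImplicit false
set_option linter.unusedSectionVars false

namespace Pool.Agent.Lib.MP_9ec2c5_sk

open Polynomial Finset Height Filter Topology AdmissibleAbsValues
open Pool.Agent.Lib.MP_9ec2c5_nt_h65

/-- slow growth of heights -/
def SlowH {K : Type} [Field K] [NumberField K] (d : ℕ) (y : ℕ → K) : Prop :=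
  ∃ A B : ℝ, 0 ≤ A ∧ 0 ≤ B ∧ ∀ n : ℕ, Real.log (mulHeight₁ (y n)) ≤ (d : ℝ) ^ n * (A + B * n)

section slow

variable {K : Type} [Field K] [NumberField K]

lemma SlowH.of_le {d : ℕ} (hd : 1 ≤ d) {y z : ℕ → K} (C N : ℝ) (hC : 0 ≤ C) (hN : 0 ≤ N)
    (hy : SlowH d y)
    (h : ∀ n, Real.log (mulHeight₁ (z n)) ≤ C + N * Real.log (mulHeight₁ (y n))) : SlowH d z := by
  obtain ⟨A, B, hA, hB, h1⟩ := hy
  refine ⟨C + N * A, N * B, by positivity, by positivity, fun n => ?_⟩
  have hdn : (1 : ℝ) ≤ (d : ℝ) ^ n := one_le_pow₀ (by exact_mod_cast hd)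
  have h2 := mul_le_mul_of_nonneg_left (h1 n) hN
  have h3 : C ≤ (d : ℝ) ^ n * C := le_mul_of_one_le_left hC hdn
  have h4 := h n
  calc _ ≤ _ := h4
    _ ≤ (d : ℝ) ^ n * C + N * ((d : ℝ) ^ n * (A + B * n)) := by linarith
    _ = _ := by ring

lemma SlowH.mul {d : ℕ} {y z : ℕ → K} (hy : SlowH d y) (hz : SlowH d z) :
    SlowH d fun n => y n * z n := by
  obtain ⟨A, B, hA, hB, h1⟩ := hy
  obtain ⟨A', B', hA', hB', h2⟩ := hz
  refine ⟨A + A', B + B', by positivity, by positivity, fun n => ?_⟩
  have h3 := Real.log_le_log (by positivity) (mulHeight₁_mul_le (y n) (z n))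
  rw [Real.log_mul (by positivity) (by positivity)] at h3
  have h4 := h1 n
  have h5 := h2 n
  calc _ ≤ _ := h3
    _ ≤ (d : ℝ) ^ n * (A + B * n) + (d : ℝ) ^ n * (A' + B' * n) := by linarith
    _ = _ := by ring

lemma SlowH.add {d : ℕ} (hd : 1 ≤ d) {y z : ℕ → K} (hy : SlowH d y) (hz : SlowH d z) :
    SlowH d fun n => y n + z n := by
  obtain ⟨A, B, hA, hB, h1⟩ := hy
  obtain ⟨A', B', hA', hB', h2⟩ := hz
  have hw : 0 ≤ (totalWeight K : ℝ) * Real.log 2 :=
    mul_nonneg (Nat.cast_nonneg _) (Real.log_nonneg (by norm_num))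
  refine ⟨A + A' + totalWeight K * Real.log 2, B + B', by positivity, by positivity, fun n => ?_⟩
  have h3 := Real.log_le_log (by positivity) (mulHeight₁_add_le (y n) (z n))
  rw [Real.log_mul (by positivity) (by positivity), Real.log_mul (by positivity) (by positivity),
    Real.log_pow] at h3
  have h4 := h1 n
  have h5 := h2 n
  have hdn : (1 : ℝ) ≤ (d : ℝ) ^ n := one_le_pow₀ (by exact_mod_cast hd)
  have h6 : (totalWeight K : ℝ) * Real.log 2 ≤ (d : ℝ) ^ n * (totalWeight K * Real.log 2) :=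
    le_mul_of_one_le_left hw hdn
  calc _ ≤ _ := h3
    _ ≤ (d : ℝ) ^ n * (totalWeight K * Real.log 2) + (d : ℝ) ^ n * (A + B * n)
        + (d : ℝ) ^ n * (A' + B' * n) := by linarith
    _ = _ := by ring

lemma SlowH.pow {d : ℕ} (hd : 1 ≤ d) {y : ℕ → K} (hy : SlowH d y) (m : ℕ) :
    SlowH d fun n => y n ^ m := by
  refine SlowH.of_le hd 0 m (le_refl _) (Nat.cast_nonneg _) hy fun n => ?_
  rw [mulHeight₁_pow, Real.log_pow, zero_add]

lemma SlowH.inv {d : ℕ} (hd : 1 ≤ d) {y : ℕ → K} (hy : SlowH d y) :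
    SlowH d fun n => (y n)⁻¹ := by
  refine SlowH.of_le hd 0 1 (le_refl _) zero_le_one hy fun n => ?_
  rw [mulHeight₁_inv, zero_add, one_mul]

lemma SlowH.poly {d : ℕ} (hd : 1 ≤ d) {y : ℕ → K} (hy : SlowH d y) (s : K[X]) :
    SlowH d fun n => s.eval (y n) := by
  obtain ⟨C, hC, h⟩ := height_eval s
  refine SlowH.of_le hd (Real.log C) s.natDegree (Real.log_nonneg hC) (Nat.cast_nonneg _) hy
    fun n => ?_
  have h1 := Real.log_le_log (by positivity) (h (y n))
  rwa [Real.log_mul (by positivity) (by positivity), Real.log_pow] at h1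

/-- base orbits are slow -/
lemma SlowH.base (p : K[X]) (hd : 1 ≤ p.natDegree) (x : ℕ → K)
    (hx : ∀ n, x (n + 1) = p.eval (x n)) : SlowH p.natDegree x := by
  obtain ⟨C0, hC0, h0⟩ := height_eval p
  have hl0 : 0 ≤ Real.log C0 := Real.log_nonneg hC0
  refine ⟨Real.log (mulHeight₁ (x 0)), Real.log C0, Real.log_nonneg (one_le_mulHeight₁ _), hl0,
    fun n => ?_⟩
  exact base_slow p.natDegree hd (fun n => Real.log (mulHeight₁ (x n))) (Real.log C0) hl0 (by
    intro n
    show Real.log (mulHeight₁ (x (n + 1))) ≤ _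
    rw [hx, ← Real.log_pow, ← Real.log_mul (by positivity) (by positivity), mul_comm]
    exact Real.log_le_log (by positivity) (h0 _)) n

end slow

/-- slow growth over an extension -/
lemma SlowH.ext {k K : Type} [Field k] [NumberField k] [Field K] [NumberField K] [Algebra k K]
    (p : k[X]) (hd : 1 ≤ p.natDegree) (q : k[X][X]) (x y : ℕ → k)
    (hx : ∀ n, x (n + 1) = p.eval (x n)) (hy : ∀ n, y (n + 1) = q.evalEval (x n) (y n))
    (h : SlowH p.natDegree y) : SlowH p.natDegree fun n => algebraMap k K (y n) := by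
  obtain ⟨A, B, hA, hB, hys⟩ := h
  have hp0 : p.map (algebraMap k K) ≠ 0 := by
    rw [Polynomial.map_ne_zero_iff (algebraMap k K).injective]
    intro h
    rw [h, natDegree_zero] at hd
    omega
  obtain ⟨S, hS, hgood⟩ := good_places (p.map (algebraMap k K)) (Pool.Agent.Lib.MP_9ec2c5_nt_h65.ext K q) hp0
    (fun n => algebraMap k K (x n)) (fun n => algebraMap k K (y n)) (fun n => by
      show algebraMap k K (x (n + 1)) = _
      rw [eval_map_algebraMap, aeval_algebraMap_apply_eq_algebraMap_eval, hx]) (fun n => by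
      show algebraMap k K (y (n + 1)) = _
      have h1 : ev2 (Pool.Agent.Lib.MP_9ec2c5_nt_h65.ext K q) (algebraMap k K (x n)) (algebraMap k K (y n))
          = (Pool.Agent.Lib.MP_9ec2c5_nt_h65.ext K q).evalEval (algebraMap k K (x n)) (algebraMap k K (y n)) :=
        ev2_algebraMap (Ω := K) _ _ _
      rw [← h1, ev2_ext, ev2_algebraMap, hy]) True (Or.inl trivial)
  exact height_of_places p.natDegree hd _ S hS (fun v hv => (hgood v hv).2.1) fun v hv => by
    refine ⟨totalWeight K * A, totalWeight K * B, fun n => ?_⟩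
    refine (place_le v hv (y n)).trans ?_
    rw [← Real.exp_log (by positivity : 0 < mulHeight₁ (y n) ^ totalWeight K), Real.log_pow]
    refine Real.exp_le_exp.mpr ?_
    have h1 := mul_le_mul_of_nonneg_left (hys n) (Nat.cast_nonneg (α := ℝ) (totalWeight K))
    refine h1.trans (le_of_eq ?_)
    ring

/-- Slow orbits over a monomial base map, Laurent coefficients. -/
theorem laurent_slow {K : Type} [Field K] [NumberField K] (lam : K) (hlam : lam ≠ 0)
    (d : ℕ) (hd : 1 ≤ d) (F : K[X][X]) (hde : d < F.natDegree) (M : ℕ) (c : K) (hc : c ≠ 0)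
    (hlc : F.leadingCoeff = C c * X ^ M) (x y : ℕ → K)
    (hx : ∀ n, x (n + 1) = lam * x n ^ d) (hx0 : ∀ n, x n ≠ 0)
    (hy : ∀ n, x n ^ M * y (n + 1) = F.evalEval (x n) (y n)) (hinj : Function.Injective x)
    (hslow : SlowH d y) :
    ∃ R : K[X][X], R ≠ 0 ∧ ∀ n, R.evalEval (x n) (y n) = 0 := by
  classical
  obtain ⟨G, M', s, hGd, hGlc, hG1, hG⟩ := exists_tsch_laurent lam hlam d F hde (by omega) M c hc hlc
  set z : ℕ → K := fun n => y n + s.eval (x n) / x n ^ M with hz
  have hzrel : ∀ n, x n ^ M' * z (n + 1) = G.evalEval (x n) (z n) := by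
    intro n
    have h1 := hG (x n) (y n) (y (n + 1)) (hx0 n) (hy n)
    rw [← hx] at h1
    exact h1
  have hxp : ∀ n, x (n + 1) = (C lam * X ^ d : K[X]).eval (x n) := by
    intro n
    rw [eval_mul, eval_C, eval_pow, eval_X, hx]
  have hpd : (C lam * X ^ d : K[X]).natDegree = d := natDegree_C_mul_X_pow _ _ hlam
  have hxs : SlowH d x := by
    have := SlowH.base (C lam * X ^ d) (by rw [hpd]; exact hd) x hxp
    rwa [hpd] at this
  have hzs : SlowH d z := by
    have h1 := SlowH.mul (hxs.poly hd s) ((hxs.pow hd M).inv hd)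
    have h2 := hslow.add hd h1
    have h3 : z = fun n => y n + (s.eval (x n) * (x n ^ M)⁻¹) := by
      funext n
      show y n + s.eval (x n) / x n ^ M = _
      rw [div_eq_mul_inv]
    rw [h3]
    exact h2
  -- pull back from z to y
  suffices h : ∃ R : K[X][X], R ≠ 0 ∧ ∀ n, R.evalEval (x n) (z n) = 0 by
    obtain ⟨R, hR, hR'⟩ := h
    obtain ⟨P, hP, hP'⟩ := pull_linear R hR M (X ^ M) s (pow_ne_zero _ X_ne_zero)
    refine ⟨P, hP, fun n => hP' (x n) (z n) (y n) ?_ (hR' n)⟩
    show x n ^ M * (y n + s.eval (x n) / x n ^ M) = _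
    have h1 : x n ^ M ≠ 0 := pow_ne_zero _ (hx0 n)
    rw [eval_pow, eval_X]
    field_simp
  by_cases hcase : ∃ j, j < G.natDegree ∧ M' < (G.coeff j).natDegree
  · exact laurent_vanish lam hlam d hd G (by rw [hGd]; exact hde) M' c hc hGlc hG1 hcase x z hx hx0
      hzrel hinj hzs
  · -- inversion of the base coordinate
    push Not at hcase
    have hN : ∀ j, (G.coeff j).natDegree ≤ M' := by
      intro j
      rcases lt_trichotomy j G.natDegree with h | h | h
      · exact hcase j h
      · rw [h]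
        have h1 : G.coeff G.natDegree = C c * X ^ M' := hGlc
        rw [h1]
        exact natDegree_C_mul_X_pow_le _ _
      · rw [coeff_eq_zero_of_natDegree_lt h, natDegree_zero]
        exact Nat.zero_le _
    have hpd' : (C lam⁻¹ * X ^ d : K[X]).natDegree = d :=
      natDegree_C_mul_X_pow _ _ (inv_ne_zero hlam)
    have hlc' : (invF M' G).leadingCoeff = C c := by
      rw [leadingCoeff, invF_natDegree, invF_coeff]
      have h1 : G.coeff G.natDegree = C c * X ^ M' := hGlc
      rw [h1, reflect_C_mul_X_pow, revAt_le (le_refl _), Nat.sub_self, pow_zero, mul_one]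
    obtain ⟨R, hR, hR'⟩ := slow_vanish_height (C lam⁻¹ * X ^ d) (invF M' G) (by rw [hpd']; exact hd)
      (by rw [hpd', invF_natDegree, hGd]; exact hde) c hc hlc' (fun n => (x n)⁻¹) z (by
        intro n
        show (x (n + 1))⁻¹ = _
        rw [hx, eval_mul, eval_C, eval_pow, eval_X, mul_inv, inv_pow]) (by
        intro n
        show z (n + 1) = _
        rw [invF_evalEval M' G hN _ _ (inv_ne_zero (hx0 n)), inv_inv, ← hzrel, ← mul_assoc,
          ← mul_pow, inv_mul_cancel₀ (hx0 n), one_pow, one_mul]) (by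
        intro m n hmn
        exact hinj (inv_injective hmn)) (by
        rw [hpd']
        exact hzs)
    obtain ⟨P, hP, hP'⟩ := pull_inv R hR
    exact ⟨P, hP, fun n => hP' (x n) (z n) (hx0 n) (hR' n)⟩

/-- Slow orbits of a skew product whose base map and whose leading coefficient are monomials. -/
theorem exceptional_vanish {k : Type} [Field k] [NumberField k] (p : k[X]) (q : k[X][X])
    (hd : 1 ≤ p.natDegree) (hde : p.natDegree < q.natDegree)
    (hpm : p = C p.leadingCoeff * X ^ p.natDegree) (c : k) (hc : c ≠ 0) (m : ℕ)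
    (hlc : q.leadingCoeff = C c * X ^ m) (x y : ℕ → k) (hx : ∀ n, x (n + 1) = p.eval (x n))
    (hy : ∀ n, y (n + 1) = q.evalEval (x n) (y n)) (hinj : Function.Injective x)
    (hslow : SlowH p.natDegree y) :
    ∃ R : k[X][X], R ≠ 0 ∧ ∀ n, R.evalEval (x n) (y n) = 0 := by
  classical
  set d := p.natDegree with hd'
  set e := q.natDegree with he'
  have hp0 : p ≠ 0 := by
    intro h
    rw [hd', h, natDegree_zero] at hd
    omega
  have hlam : p.leadingCoeff ≠ 0 := leadingCoeff_ne_zero.mpr hp0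
  have hxx : ∀ n, x (n + 1) = p.leadingCoeff * x n ^ d := by
    intro n
    rw [hx]
    conv_lhs => rw [hpm]
    rw [eval_mul, eval_C, eval_pow, eval_X]
  have hx0 : ∀ n, x n ≠ 0 := by
    intro n h
    have h1 : x (n + 1) = x n := by
      rw [hxx, h, zero_pow (by omega), mul_zero]
    exact absurd (hinj h1) (by omega)
  obtain ⟨b, hb⟩ := Nat.exists_eq_add_of_le hde.le
  have hb1 : 1 ≤ b := by omega
  obtain ⟨K, _, _, _, _, t0, lam', Z, -, ht0, hlam', hZ⟩ := exists_root_ext (1 : k[X]) one_ne_zero b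
    hb1 (x 0) p.leadingCoeff
  obtain ⟨t, -, ht1, htx⟩ := coherent_roots p.leadingCoeff d x hxx b t0 lam' ht0 hlam'
  have hlam0 : lam' ≠ 0 := by
    intro h
    rw [h, zero_pow (by omega), eq_comm, map_eq_zero] at hlam'
    exact hlam hlam'
  have hcK : algebraMap k K c ≠ 0 := by
    rw [Ne, map_eq_zero]
    exact hc
  have ht0' : ∀ n, t n ≠ 0 := by
    intro n h
    have h2 := htx n
    rw [h, zero_pow (by omega), eq_comm, map_eq_zero] at h2
    exact hx0 n h2
  have htinj : Function.Injective t := by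
    intro i j hij
    apply hinj
    apply (algebraMap k K).injective
    rw [← htx, ← htx, hij]
  -- the fibre polynomial in the new coordinates
  set G : K[X][X] := expF b (Pool.Agent.Lib.MP_9ec2c5_nt_h65.ext K q) with hG
  have hGd : G.natDegree = e := by rw [hG, expF_natDegree b hb1, ext_natDegree]
  have hGe : G.coeff e = C (algebraMap k K c) * X ^ (b * m) := by
    have h1 : G.coeff e = G.leadingCoeff := by rw [leadingCoeff, hGd]
    rw [h1, hG, expF_leadingCoeff b hb1, ext_leadingCoeff, hlc, Polynomial.map_mul,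
      Polynomial.map_pow, map_C, map_X, map_mul, map_pow, expand_C, expand_X, pow_mul]
  set f : ℕ → K[X] := fun j => C (lam' ^ m) * X ^ (m * (e - j)) * G.coeff j with hf
  set F : K[X][X] := ∑ j ∈ range (e + 1), C (f j) * X ^ j with hF
  have hFc : ∀ j, j ≤ e → F.coeff j = f j := by
    intro j hj
    rw [hF, finsetSum_coeff, Finset.sum_eq_single j]
    · rw [coeff_C_mul, coeff_X_pow, if_pos rfl, mul_one]
    · intro i _ hi
      rw [coeff_C_mul, coeff_X_pow, if_neg (Ne.symm hi), mul_zero]
    · intro h'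
      exact absurd (Finset.mem_range.mpr (Nat.lt_succ_of_le hj)) h'
  have hfe : f e = C (lam' ^ m * algebraMap k K c) * X ^ (b * m) := by
    show C (lam' ^ m) * X ^ (m * (e - e)) * G.coeff e = _
    rw [Nat.sub_self, mul_zero, pow_zero, mul_one, hGe, map_mul]
    ring
  have hce : lam' ^ m * algebraMap k K c ≠ 0 := mul_ne_zero (pow_ne_zero _ hlam0) hcK
  have hFd : F.natDegree = e := by
    refine natDegree_eq_of_le_of_coeff_ne_zero ?_ ?_
    · refine natDegree_sum_le_of_forall_le _ _ fun j hj => ?_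
      refine (natDegree_C_mul_X_pow_le _ _).trans ?_
      have := Finset.mem_range.mp hj
      omega
    · rw [hFc e le_rfl, hfe]
      exact mul_ne_zero (C_ne_zero.mpr hce) (pow_ne_zero _ X_ne_zero)
  have hFlc : F.leadingCoeff = C (lam' ^ m * algebraMap k K c) * X ^ (b * m) := by
    rw [leadingCoeff, hFd, hFc e le_rfl, hfe]
  -- slow growth
  have hpd : (C lam' * X ^ d : K[X]).natDegree = d := natDegree_C_mul_X_pow _ _ hlam0
  have hts : SlowH d t := by
    have := SlowH.base (C lam' * X ^ d) (by rw [hpd]; exact hd) t (fun n => by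
      rw [eval_mul, eval_C, eval_pow, eval_X, ht1])
    rwa [hpd] at this
  have hyK : SlowH d fun n => algebraMap k K (y n) := SlowH.ext p hd q x y hx hy hslow
  have hzs : SlowH d fun n => t n ^ m * algebraMap k K (y n) := (hts.pow hd m).mul hyK
  obtain ⟨R, hR, hR'⟩ := laurent_slow lam' hlam0 d hd F (by rw [hFd]; exact hde) (b * m)
    (lam' ^ m * algebraMap k K c) hce hFlc t (fun n => t n ^ m * algebraMap k K (y n)) ht1 ht0' (by
      intro n
      show t n ^ (b * m) * (t (n + 1) ^ m * algebraMap k K (y (n + 1))) = _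
      have h1 : G.evalEval (t n) (algebraMap k K (y n)) = algebraMap k K (y (n + 1)) := by
        rw [hG, expF_evalEval, htx]
        have h3 : ev2 (Pool.Agent.Lib.MP_9ec2c5_nt_h65.ext K q) (algebraMap k K (x n))
            (algebraMap k K (y n)) = (Pool.Agent.Lib.MP_9ec2c5_nt_h65.ext K q).evalEval
              (algebraMap k K (x n)) (algebraMap k K (y n)) := ev2_algebraMap (Ω := K) _ _ _
        rw [← h3, ev2_ext, ev2_algebraMap, hy]
      rw [← h1, evalEval_expand G, hGd, hF, evalEval_sum_C, evalEval_X, Finset.mul_sum,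
        Finset.mul_sum]
      refine Finset.sum_congr rfl fun j hj => ?_
      have hj' := Finset.mem_range.mp hj
      show _ = (C (lam' ^ m) * X ^ (m * (e - j)) * G.coeff j).eval (t n) * _
      rw [eval_mul, eval_mul, eval_C, eval_pow, eval_X, ht1, mul_pow, mul_pow, ← pow_mul, ← pow_mul]
      have h2 : t n ^ (b * m) * t n ^ (d * m) = t n ^ (m * (e - j)) * t n ^ (m * j) := by
        rw [← pow_add, ← pow_add, ← mul_add, ← add_mul]
        congr 1
        have : e - j + j = e := by omega
        rw [this, hb]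
        ring
      calc t n ^ (b * m) * (lam' ^ m * t n ^ (d * m)
            * (eval (t n) (G.coeff j) * algebraMap k K (y n) ^ j))
          = (t n ^ (b * m) * t n ^ (d * m)) * (lam' ^ m
            * (eval (t n) (G.coeff j) * algebraMap k K (y n) ^ j)) := by ring
        _ = _ := by
          rw [h2]
          ring) htinj hzs
  obtain ⟨P, hP, hP'⟩ := pull_linear R hR 0 (X ^ m) 0 (pow_ne_zero _ X_ne_zero)
  obtain ⟨P2, hP2, hP2'⟩ := pull_root b hb1 Z hZ P hP
  refine descend P2 hP2 x y fun n => ?_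
  rw [← htx]
  refine hP2' _ _ (hP' (t n) (t n ^ m * algebraMap k K (y n)) _ ?_ (hR' n))
  rw [pow_zero, one_mul, eval_pow, eval_X, eval_zero, add_zero]

end Pool.Agent.Lib.MP_9ec2c5_sk
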