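import Mathlib
import Pool.Agent.Lib.MP_9ec2c5_nt_h65.Growth2

/-!
The elementary case of the conjecture: the degree of the fibre polynomial is at most the degree of
the base polynomial.
-/

set_option autoImplicit false
set_option linter.unusedSectionVars false

namespace Pool.Agent.Lib.MP_9ec2c5_sk

open Polynomial Finset Height Filter Topology AdmissibleAbsValues
open Pool.Agent.Lib.MP_9ec2c5_nt_h65

variable {K : Type} [Field K] [NumberField K]

namespace LowDeg

/-- a sequence between `c e ^ n` and `M (n + 1) ^ 2 e ^ n` -/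
lemma tendsto_root_poly (e : ℕ) (he : 1 ≤ e) (f : ℕ → ℝ) (c M : ℝ) (hc : 0 < c)
    (h1 : ∀ᶠ n in atTop, c * (e : ℝ) ^ n ≤ f n)
    (h2 : ∀ᶠ n : ℕ in atTop, f n ≤ M * ((n : ℝ) + 1) ^ 2 * (e : ℝ) ^ n) :
    Tendsto (fun n : ℕ => f n ^ (1 / (n : ℝ))) atTop (𝓝 (e : ℝ)) := by
  have he0 : (0 : ℝ) < e := by exact_mod_cast he
  have hM : 0 < M := by
    obtain ⟨n, h3, h4⟩ := (h1.and h2).exists
    have h5 : (0 : ℝ) < (e : ℝ) ^ n := by positivity
    have h6 : c * (e : ℝ) ^ n ≤ M * ((n : ℝ) + 1) ^ 2 * (e : ℝ) ^ n := h3.trans h4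
    have h7 := le_of_mul_le_mul_right h6 h5
    have h8 : (0 : ℝ) < ((n : ℝ) + 1) ^ 2 := by positivity
    by_contra hM
    rw [not_lt] at hM
    have h9 : M * ((n : ℝ) + 1) ^ 2 ≤ 0 := mul_nonpos_of_nonpos_of_nonneg hM h8.le
    linarith
  have hone : ∀ A : ℝ, 0 < A → Tendsto (fun n : ℕ => A ^ (1 / (n : ℝ))) atTop (𝓝 1) := by
    intro A hA
    have h3 := (Real.continuous_const_rpow hA.ne').continuousAt.tendsto.comp
      (tendsto_one_div_atTop_nhds_zero_nat (𝕜 := ℝ))
    rw [Real.rpow_zero] at h3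
    exact h3
  have hlin : Tendsto (fun n : ℕ => ((n : ℝ) + 1) ^ (1 / (n : ℝ))) atTop (𝓝 1) := by
    have h3 := (tendsto_rpow_div_mul_add 1 1 (-1) (by norm_num)).comp
      (tendsto_natCast_atTop_atTop.atTop_add (tendsto_const_nhds (x := (1 : ℝ)))
        : Tendsto (fun n : ℕ => (n : ℝ) + 1) atTop atTop)
    refine h3.congr fun n => ?_
    show ((n : ℝ) + 1) ^ (1 / (1 * ((n : ℝ) + 1) + -1)) = _
    congr 2
    ring
  have hup : Tendsto (fun n : ℕ => (M * ((n : ℝ) + 1) ^ 2 * (e : ℝ) ^ n) ^ (1 / (n : ℝ))) atTop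
      (𝓝 (e : ℝ)) := by
    have h3 := (((hone M hM).mul (hlin.pow 2)).mul_const (e : ℝ))
    rw [one_pow, one_mul, one_mul] at h3
    refine h3.congr' ?_
    filter_upwards [eventually_ge_atTop 1] with n hn
    have hn0 : (n : ℝ) ≠ 0 := by exact_mod_cast (by omega : n ≠ 0)
    rw [Real.mul_rpow (by positivity) (by positivity), Real.mul_rpow hM.le (by positivity),
      ← Real.rpow_natCast (e : ℝ) n, ← Real.rpow_mul he0.le, mul_one_div, div_self hn0,
      Real.rpow_one, ← Real.rpow_natCast ((n : ℝ) + 1) 2, ← Real.rpow_natCast _ 2,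
      ← Real.rpow_mul (by positivity), ← Real.rpow_mul (by positivity), mul_comm (1 / (n : ℝ))]
  have hlow : Tendsto (fun n : ℕ => (c * (e : ℝ) ^ n) ^ (1 / (n : ℝ))) atTop (𝓝 (e : ℝ)) := by
    have h3 := (hone c hc).mul_const (e : ℝ)
    rw [one_mul] at h3
    refine h3.congr' ?_
    filter_upwards [eventually_ge_atTop 1] with n hn
    have hn0 : (n : ℝ) ≠ 0 := by exact_mod_cast (by omega : n ≠ 0)
    rw [Real.mul_rpow hc.le (by positivity), ← Real.rpow_natCast (e : ℝ) n,
      ← Real.rpow_mul he0.le, mul_one_div, div_self hn0, Real.rpow_one]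
  refine tendsto_of_tendsto_of_tendsto_of_le_of_le' hlow hup ?_ ?_
  · filter_upwards [h1] with n hn
    exact Real.rpow_le_rpow (by positivity) hn (by positivity)
  · filter_upwards [h1, h2] with n hn1 hn2
    have : 0 ≤ f n := le_trans (by positivity) hn1
    exact Real.rpow_le_rpow this hn2 (by positivity)

lemma td_iterY_low {k : Type} [Field k] (p : k[X]) (q : k[X][X]) (he : 1 ≤ q.natDegree)
    (hed : q.natDegree ≤ p.natDegree) (N : ℕ)
    (hN : ∀ j, (q.coeff j).natDegree ≤ N) (n : ℕ) :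
    TD (iterY p q n) ((1 + N) * (n + 1) * p.natDegree ^ n) := by
  induction n with
  | zero =>
    intro i j hij
    rw [iterY, coeff_X] at hij
    split_ifs at hij with h1
    · rw [coeff_one] at hij
      split_ifs at hij with h2
      · simp only [zero_add, mul_one, pow_zero]
        omega
      · exact absurd rfl hij
    · exact absurd (coeff_zero _) hij
  | succ n ih =>
    have h2 : iterY p q (n + 1) = ∑ j ∈ range (q.natDegree + 1),
        Polynomial.C ((q.coeff j).comp (iterX p n)) * iterY p q n ^ j := by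
      rw [iterY, subst_eq]
    rw [h2]
    refine TD.sum _ _ _ fun j hj => ?_
    refine ((TD.C _).mul (ih.pow j)).mono ?_
    have h3 := Finset.mem_range.mp hj
    rw [natDegree_comp, natDegree_iterX]
    set d := p.natDegree with hd
    have hd1 : 1 ≤ d := he.trans hed
    have h4 : (q.coeff j).natDegree * d ^ n ≤ N * d ^ (n + 1) := by
      refine (Nat.mul_le_mul_right _ (hN j)).trans (Nat.mul_le_mul_left _ ?_)
      exact Nat.pow_le_pow_right hd1 (Nat.le_succ n)
    have h5 : j * ((1 + N) * (n + 1) * d ^ n) ≤ (1 + N) * (n + 1) * d ^ (n + 1) := by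
      calc j * ((1 + N) * (n + 1) * d ^ n) ≤ d * ((1 + N) * (n + 1) * d ^ n) :=
            Nat.mul_le_mul_right _ (by omega)
        _ = (1 + N) * (n + 1) * d ^ (n + 1) := by ring
    calc (q.coeff j).natDegree * d ^ n + j * ((1 + N) * (n + 1) * d ^ n)
        ≤ N * d ^ (n + 1) + (1 + N) * (n + 1) * d ^ (n + 1) := Nat.add_le_add h4 h5
      _ ≤ N * d ^ (n + 1) + (1 + N) * (n + 1) * d ^ (n + 1) + d ^ (n + 1) := Nat.le_add_right _ _
      _ = (1 + N) * (n + 1 + 1) * d ^ (n + 1) := by ring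

lemma exists_bound {k : Type} [Field k] (q : k[X][X]) :
    ∃ N : ℕ, ∀ j, (q.coeff j).natDegree ≤ N := by
  refine ⟨(range (q.natDegree + 1)).sup fun j => (q.coeff j).natDegree, fun j => ?_⟩
  rcases Nat.lt_or_ge q.natDegree j with h | h
  · rw [coeff_eq_zero_of_natDegree_lt h, natDegree_zero]
    exact Nat.zero_le _
  · exact Finset.le_sup (f := fun j => (q.coeff j).natDegree)
      (Finset.mem_range.mpr (Nat.lt_succ_of_le h))

lemma logHeight_ge_left (x y : K) : Real.log (mulHeight₁ x) ≤ logHeight ![x, y, 1] := by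
  have h := logHeight_comp_le (![0, 2] : Fin 2 → Fin 3) ![x, y, 1]
  have h1 : (![x, y, 1] : Fin 3 → K) ∘ (![0, 2] : Fin 2 → Fin 3) = ![x, 1] := by
    funext i
    fin_cases i <;> rfl
  rw [h1, ← logHeight₁_eq_logHeight] at h
  exact h

/-- lower bound for the height of the value of a polynomial in one variable -/
lemma height_eval_ge (p : K[X]) (hd : 1 ≤ p.natDegree) : ∃ C1 : ℝ, 1 ≤ C1 ∧
    ∀ x : K, mulHeight₁ x ^ p.natDegree ≤ C1 * mulHeight₁ (p.eval x) := by
  have hp0 : p ≠ 0 := by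
    rintro rfl
    rw [natDegree_zero] at hd
    omega
  have hdeg : (p.map (C : K →+* K[X])).natDegree = p.natDegree :=
    natDegree_map_eq_of_injective C_injective p
  obtain ⟨C1, N, hC1, h⟩ := height_lower (p.map (C : K →+* K[X])) (by rw [hdeg]; exact hd)
  refine ⟨C1, hC1, fun x => ?_⟩
  have h1 := h 0 x (by
    rw [leadingCoeff_map_of_injective C_injective, eval_C]
    exact leadingCoeff_ne_zero.mpr hp0)
  have h2 : (p.map (C : K →+* K[X])).evalEval 0 x = p.eval x := by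
    rw [evalEval, eval_map, eval₂_at_apply, eval_C]
  rw [hdeg, h2, mulHeight₁_zero, one_pow, mul_one] at h1
  exact h1

lemma upper_low (d e : ℕ) (k h : ℕ → ℝ) (C0 C1 : ℝ) (hd : 1 ≤ d) (hed : e ≤ d)
    (hk : ∀ n, 0 ≤ k n) (hh : ∀ n, 0 ≤ h n) (h0 : 0 ≤ C0) (h1 : 0 ≤ C1)
    (ha : ∀ n, k (n + 1) ≤ d * k n + C0)
    (hb : ∀ n, h (n + 1) ≤ e * h n + C1 * (k n + 1)) :
    ∃ M : ℝ, 0 ≤ M ∧ ∀ n : ℕ, k n + h n ≤ M * ((n : ℝ) + 1) ^ 2 * (d : ℝ) ^ n := by
  have hd1 : (1 : ℝ) ≤ d := by exact_mod_cast hd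
  have hed' : (e : ℝ) ≤ d := by exact_mod_cast hed
  set A : ℝ := k 0 + C0 + 1 with hA
  have hA0 : 0 ≤ A := by
    have := hk 0
    positivity
  have hk1 : ∀ n : ℕ, k n + 1 ≤ (d : ℝ) ^ n * (A * (n + 1)) := by
    intro n
    have h2 := base_slow d hd k C0 h0 ha n
    have h3 : (1 : ℝ) ≤ (d : ℝ) ^ n := one_le_pow₀ hd1
    have h4 : (0 : ℝ) ≤ n := Nat.cast_nonneg _
    have h5 : k 0 + C0 * n + 1 ≤ A * (n + 1) := by
      rw [hA]
      nlinarith [hk 0, mul_nonneg (hk 0) h4]
    have h6 : (d : ℝ) ^ n * (k 0 + C0 * n + 1) ≤ (d : ℝ) ^ n * (A * (n + 1)) :=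
      mul_le_mul_of_nonneg_left h5 (by positivity)
    nlinarith
  have hh1 : ∀ n : ℕ, h n ≤ (d : ℝ) ^ n * (h 0 + C1 * A * (n * (n + 1))) := by
    intro n
    induction n with
    | zero => simp
    | succ n ih =>
      have h2 := hb n
      have h3 : (e : ℝ) * h n ≤ d * ((d : ℝ) ^ n * (h 0 + C1 * A * (n * (n + 1)))) :=
        mul_le_mul hed' ih (hh n) (by positivity)
      have h4 : C1 * (k n + 1) ≤ C1 * ((d : ℝ) ^ n * (A * (n + 1))) :=
        mul_le_mul_of_nonneg_left (hk1 n) h1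
      have h5 : C1 * ((d : ℝ) ^ n * (A * (n + 1))) ≤ C1 * ((d : ℝ) ^ (n + 1) * (A * (n + 1))) := by
        apply mul_le_mul_of_nonneg_left _ h1
        apply mul_le_mul_of_nonneg_right _ (by positivity)
        exact pow_le_pow_right₀ hd1 (Nat.le_succ n)
      have h6 : (0 : ℝ) ≤ (d : ℝ) ^ (n + 1) * (C1 * A * (n + 1)) := by positivity
      push_cast
      calc h (n + 1) ≤ d * ((d : ℝ) ^ n * (h 0 + C1 * A * (n * (n + 1))))
            + C1 * ((d : ℝ) ^ (n + 1) * (A * (n + 1))) := by linarith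
        _ ≤ d * ((d : ℝ) ^ n * (h 0 + C1 * A * (n * (n + 1))))
            + C1 * ((d : ℝ) ^ (n + 1) * (A * (n + 1))) + (d : ℝ) ^ (n + 1) * (C1 * A * (n + 1)) := by
            linarith
        _ = (d : ℝ) ^ (n + 1) * (h 0 + C1 * A * ((n + 1) * (n + 1 + 1))) := by ring
  refine ⟨A + h 0 + C1 * A, by have := hh 0; positivity, fun n => ?_⟩
  have h2 := hk1 n
  have h3 := hh1 n
  have h4 : (0 : ℝ) ≤ n := Nat.cast_nonneg _
  have h5 : (0 : ℝ) ≤ (d : ℝ) ^ n := by positivity
  have h6 : A * (n + 1) + (h 0 + C1 * A * (n * (n + 1)))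
      ≤ (A + h 0 + C1 * A) * ((n : ℝ) + 1) ^ 2 := by
    have h7 : 0 ≤ A * (n * (n + 1)) := by positivity
    have h8 : 0 ≤ h 0 * (n * (n + 2)) := mul_nonneg (hh 0) (by positivity)
    have h9 : 0 ≤ C1 * A * (n + 1) := by positivity
    nlinarith
  have h7 := mul_le_mul_of_nonneg_left h6 h5
  calc k n + h n ≤ (d : ℝ) ^ n * (A * (n + 1)) + (d : ℝ) ^ n * (h 0 + C1 * A * (n * (n + 1))) := by
        linarith
    _ = (d : ℝ) ^ n * (A * (n + 1) + (h 0 + C1 * A * (n * (n + 1)))) := by ring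
    _ ≤ _ := h7
    _ = _ := by ring

lemma lower_low (d : ℕ) (hd : 2 ≤ d) (k : ℕ → ℝ) (L : ℝ) (hL : 0 ≤ L)
    (ha : ∀ n, d * k n ≤ k (n + 1) + L) (hk : Tendsto k atTop atTop) :
    ∃ c : ℝ, 0 < c ∧ ∀ᶠ n in atTop, c * (d : ℝ) ^ n ≤ k n := by
  obtain ⟨n1, hn1⟩ := (hk.eventually (eventually_ge_atTop (L + 1))).exists
  have hd2 : (2 : ℝ) ≤ d := by exact_mod_cast hd
  have key : ∀ j : ℕ, (d : ℝ) ^ j * (k n1 - L) ≤ k (n1 + j) - L := by
    intro j
    induction j with
    | zero => simp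
    | succ j ih =>
      have h1 := ha (n1 + j)
      have h2 := mul_le_mul_of_nonneg_left ih (by linarith : (0 : ℝ) ≤ d)
      have h3 : 0 ≤ (d - 2) * L := mul_nonneg (by linarith) hL
      rw [pow_succ]
      show _ ≤ k (n1 + j + 1) - L
      nlinarith
  refine ⟨(k n1 - L) / (d : ℝ) ^ n1, by
    have : 0 < k n1 - L := by linarith
    positivity, ?_⟩
  rw [eventually_atTop]
  refine ⟨n1, fun n hn => ?_⟩
  obtain ⟨j, rfl⟩ := Nat.exists_eq_add_of_le hn
  have h2 := key j
  have h3 : (k n1 - L) / (d : ℝ) ^ n1 * (d : ℝ) ^ (n1 + j) = (d : ℝ) ^ j * (k n1 - L) := by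
    have : (d : ℝ) ^ n1 ≠ 0 := by positivity
    rw [pow_add]
    field_simp
  rw [h3]
  linarith

end LowDeg

/-- degrees of the iterates, `1 ≤ deg_y q ≤ deg p` -/
theorem tendsto_iterDeg_low {k : Type} [Field k] (p : k[X]) (q : k[X][X]) (he : 1 ≤ q.natDegree)
    (hed : q.natDegree ≤ p.natDegree) :
    Tendsto (fun n : ℕ => (iterDeg p q n : ℝ) ^ (1 / (n : ℝ))) atTop (𝓝 (p.natDegree : ℝ)) := by
  obtain ⟨N, hN⟩ := LowDeg.exists_bound q
  refine LowDeg.tendsto_root_poly p.natDegree (he.trans hed) (fun n => (iterDeg p q n : ℝ)) 1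
    (1 + N) one_pos ?_ ?_
  · refine Eventually.of_forall fun n => ?_
    have h1 : p.natDegree ^ n ≤ iterDeg p q n := by
      rw [← natDegree_iterX p n]
      exact le_max_left _ _
    rw [one_mul]
    exact_mod_cast h1
  · refine Eventually.of_forall fun n => ?_
    have hD := LowDeg.td_iterY_low p q he hed N hN n
    have h2 : iterDeg p q n ≤ (1 + N) * (n + 1) ^ 2 * p.natDegree ^ n := by
      refine max_le ?_ ?_
      · rw [natDegree_iterX]
        exact Nat.le_mul_of_pos_left _ (by positivity)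
      · refine (totDeg_le hD).trans (Nat.mul_le_mul_right _ (Nat.mul_le_mul_left _ ?_))
        rw [sq]
        exact Nat.le_mul_of_pos_left _ (by omega)
    exact_mod_cast h2

/-- heights along an orbit with infinite base orbit, `1 ≤ deg_y q ≤ deg p` -/
theorem tendsto_height_low (p : K[X]) (q : K[X][X]) (he : 1 ≤ q.natDegree)
    (hed : q.natDegree ≤ p.natDegree) (x y : ℕ → K) (hx : ∀ n, x (n + 1) = p.eval (x n))
    (hy : ∀ n, y (n + 1) = q.evalEval (x n) (y n)) (hinj : Function.Injective x) :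
    Tendsto (fun n : ℕ => weilHeight (x n) (y n) ^ (1 / (n : ℝ))) atTop
      (𝓝 (p.natDegree : ℝ)) := by
  have hd : 1 ≤ p.natDegree := he.trans hed
  have hk : ∀ n, 0 ≤ Real.log (mulHeight₁ (x n)) := fun n => Real.log_nonneg (one_le_mulHeight₁ _)
  have hh : ∀ n, 0 ≤ Real.log (mulHeight₁ (y n)) := fun n => Real.log_nonneg (one_le_mulHeight₁ _)
  -- upper bounds
  obtain ⟨C0, hC0, h0⟩ := height_eval p
  have ha : ∀ n, Real.log (mulHeight₁ (x (n + 1)))
      ≤ p.natDegree * Real.log (mulHeight₁ (x n)) + Real.log C0 := by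
    intro n
    rw [hx, ← Real.log_pow, ← Real.log_mul (by positivity) (by positivity), mul_comm]
    exact Real.log_le_log (by positivity) (h0 _)
  obtain ⟨N, hN⟩ := LowDeg.exists_bound q
  obtain ⟨C2, hC2, h2⟩ := height_evalEval q N q.natDegree (le_refl _) hN
  have hl0 : 0 ≤ Real.log C0 := Real.log_nonneg hC0
  have hl2 : 0 ≤ Real.log C2 := Real.log_nonneg hC2
  have hb : ∀ n, Real.log (mulHeight₁ (y (n + 1)))
      ≤ q.natDegree * Real.log (mulHeight₁ (y n))
        + (Real.log C2 + N) * (Real.log (mulHeight₁ (x n)) + 1) := by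
    intro n
    have h4 := Real.log_le_log (by positivity) (h2 (x n) (y n))
    rw [← hy, Real.log_mul (by positivity) (by positivity), Real.log_mul (by positivity)
      (by positivity), Real.log_pow, Real.log_pow] at h4
    have h5 := hk n
    have h6 : (0 : ℝ) ≤ N := Nat.cast_nonneg _
    nlinarith [mul_nonneg hl2 h5]
  obtain ⟨M, hM, hup⟩ := LowDeg.upper_low p.natDegree q.natDegree
    (fun n => Real.log (mulHeight₁ (x n))) (fun n => Real.log (mulHeight₁ (y n)))
    (Real.log C0) (Real.log C2 + N) hd hed hk hh hl0 (by positivity) ha hb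
  have hD : (0 : ℝ) < Module.finrank ℚ K := by
    exact_mod_cast Module.finrank_pos
  set D : ℝ := (Module.finrank ℚ K : ℝ) with hDdef
  -- lower bound
  have hlow : ∃ c : ℝ, 0 < c ∧ ∀ᶠ n in atTop, c * (p.natDegree : ℝ) ^ n
      ≤ weilHeight (x n) (y n) := by
    rcases Nat.lt_or_ge p.natDegree 2 with h3 | h3
    · have h4 : p.natDegree = 1 := by omega
      refine ⟨1, one_pos, Eventually.of_forall fun n => ?_⟩
      rw [h4, Nat.cast_one, one_pow, mul_one, weilHeight, ← hDdef]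
      have h5 : 0 ≤ logHeight ![x n, y n, 1] := (hk n).trans (LowDeg.logHeight_ge_left _ _)
      have h6 : 0 ≤ logHeight ![x n, y n, 1] / D := by positivity
      linarith
    · obtain ⟨C1, hC1, h1⟩ := LowDeg.height_eval_ge p hd
      have hinf : Tendsto (fun n => Real.log (mulHeight₁ (x n))) atTop atTop :=
        Real.tendsto_log_atTop.comp (tendsto_height x hinj)
      obtain ⟨c, hc, hlow⟩ := LowDeg.lower_low p.natDegree h3
        (fun n => Real.log (mulHeight₁ (x n))) (Real.log C1) (Real.log_nonneg hC1) (fun n => by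
          have h4 := Real.log_le_log (by positivity) (h1 (x n))
          rw [← hx, Real.log_mul (by positivity) (by positivity), Real.log_pow] at h4
          linarith) hinf
      refine ⟨c / D, by positivity, ?_⟩
      filter_upwards [hlow] with n hn
      have h4 := LowDeg.logHeight_ge_left (x n) (y n)
      have h5 : c / D * (p.natDegree : ℝ) ^ n ≤ logHeight ![x n, y n, 1] / D := by
        rw [div_mul_eq_mul_div]
        exact div_le_div_of_nonneg_right (hn.trans h4) hD.le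
      rw [weilHeight]
      linarith
  obtain ⟨c, hc, hlow⟩ := hlow
  refine LowDeg.tendsto_root_poly p.natDegree hd _ c (1 + M / D) hc hlow
    (Eventually.of_forall fun n => ?_)
  have h3 := logHeight_le (x n) (y n)
  have h4 := hup n
  have h6 : (1 : ℝ) ≤ (p.natDegree : ℝ) ^ n := one_le_pow₀ (by exact_mod_cast hd)
  have h7 : (1 : ℝ) ≤ ((n : ℝ) + 1) ^ 2 := by
    have : (0 : ℝ) ≤ n := Nat.cast_nonneg _
    nlinarith
  have h8 : (1 : ℝ) ≤ ((n : ℝ) + 1) ^ 2 * (p.natDegree : ℝ) ^ n := one_le_mul_of_one_le_of_one_le h7 h6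
  have h9 : logHeight ![x n, y n, 1] / D
      ≤ M / D * (((n : ℝ) + 1) ^ 2 * (p.natDegree : ℝ) ^ n) := by
    rw [div_mul_eq_mul_div]
    refine div_le_div_of_nonneg_right ?_ hD.le
    rw [← mul_assoc]
    exact h3.trans h4
  rw [weilHeight, ← hDdef, mul_assoc, add_mul, one_mul]
  linarith

end Pool.Agent.Lib.MP_9ec2c5_sk
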