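import Mathlib
import Pool.Agent.Lib.MP_9ec2c5_sk.Cases1
import Pool.Agent.Lib.MP_9ec2c5_sk.Exceptional
import Pool.Agent.Lib.MP_9ec2c5_sk.LowDeg

/-!
The arithmetic degree of a Zariski dense orbit of an arbitrary polynomial skew product.
-/

set_option autoImplicit false
set_option linter.unusedSectionVars false

namespace Pool.Agent.Lib.MP_9ec2c5_sk

open Polynomial Finset Height Filter Topology AdmissibleAbsValues
open Pool.Agent.Lib.MP_9ec2c5_nt_h65

variable {K : Type} [Field K] [NumberField K]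

lemma shift_ne (R : K[X][X]) (hR : R ≠ 0) (ξ : K) : R.map (compRingHom (X - C ξ)) ≠ 0 := by
  refine (Polynomial.map_ne_zero_iff (comp_injective _ ?_)).mpr hR
  rw [natDegree_X_sub_C]

/-- Slow orbits when the leading coefficient vanishes at a totally ramified fixed point. -/
lemma slow_vanish_exc (p : K[X]) (q : K[X][X]) (hd : 1 ≤ p.natDegree)
    (hde : p.natDegree < q.natDegree) (x y : ℕ → K) (hx : ∀ n, x (n + 1) = p.eval (x n))
    (hy : ∀ n, y (n + 1) = q.evalEval (x n) (y n)) (hinj : Function.Injective x)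
    (hslow : ∃ B : ℝ, 0 ≤ B ∧ ∀ᶠ n in atTop,
      Real.log (mulHeight₁ (y n)) ≤ B * (Real.log (mulHeight₁ (x n)) + 1))
    (ξ : K) (hp : p = C p.leadingCoeff * (X - C ξ) ^ p.natDegree + C ξ) :
    ∃ R : K[X][X], R ≠ 0 ∧ ∀ n, R.evalEval (x n) (y n) = 0 := by
  classical
  obtain ⟨B, hB, hev⟩ := hslow
  have hp0 : p ≠ 0 := by
    intro h
    rw [h, natDegree_zero] at hd
    omega
  have hplc : p.leadingCoeff ≠ 0 := leadingCoeff_ne_zero.mpr hp0
  have hq0 : q ≠ 0 := by
    intro h
    rw [h, natDegree_zero] at hde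
    omega
  set ph : K[X] := C p.leadingCoeff * X ^ p.natDegree with hph
  set qh : K[X][X] := q.map (compRingHom (X + C ξ)) with hqh
  set xh : ℕ → K := fun n => x n - ξ with hxh
  have hphd : ph.natDegree = p.natDegree := natDegree_C_mul_X_pow _ _ hplc
  have hphl : ph.leadingCoeff = p.leadingCoeff := leadingCoeff_C_mul_X_pow _ _
  have hinjc : Function.Injective (compRingHom (X + C ξ : K[X])) := by
    apply comp_injective
    rw [natDegree_X_add_C]
  have hqhd : qh.natDegree = q.natDegree := natDegree_map_eq_of_injective hinjc q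
  have hqhl : qh.leadingCoeff = q.leadingCoeff.comp (X + C ξ) := by
    rw [leadingCoeff, hqhd, hqh, coeff_map]
    rfl
  have hxh1 : ∀ n, xh (n + 1) = ph.eval (xh n) := by
    intro n
    show x (n + 1) - ξ = _
    rw [hx]
    conv_lhs => rw [hp]
    rw [eval_add, eval_mul, eval_C, eval_pow, eval_sub, eval_X, eval_C, add_sub_cancel_right, hph,
      eval_mul, eval_C, eval_pow, eval_X]
  have hyh : ∀ n, y (n + 1) = qh.evalEval (xh n) (y n) := by
    intro n
    have h1 : (X + C ξ : K[X]).eval (xh n) = x n := by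
      rw [eval_add, eval_X, eval_C]
      exact sub_add_cancel _ _
    rw [hqh, map_comp_eval, h1]
    exact hy n
  have hinjh : Function.Injective xh := by
    intro m n hmn
    exact hinj (sub_left_injective hmn)
  -- slow growth
  set w2 : ℝ := totalWeight K * Real.log 2 + Real.log (mulHeight₁ ξ) with hw2
  have hw20 : 0 ≤ w2 := by
    have h1 : 0 ≤ Real.log (mulHeight₁ ξ) := Real.log_nonneg (one_le_mulHeight₁ _)
    have h2 : 0 ≤ (totalWeight K : ℝ) * Real.log 2 :=
      mul_nonneg (Nat.cast_nonneg _) (Real.log_nonneg (by norm_num))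
    linarith
  have hslowh : ∀ᶠ n in atTop, Real.log (mulHeight₁ (y n))
      ≤ (B * (w2 + 1)) * (Real.log (mulHeight₁ (xh n)) + 1) := by
    filter_upwards [hev] with n hn
    have h1 := mulHeight₁_add_le (xh n) ξ
    have h2 : xh n + ξ = x n := sub_add_cancel _ _
    rw [h2] at h1
    have h3 := Real.log_le_log (by positivity) h1
    rw [Real.log_mul (by positivity) (by positivity), Real.log_mul (by positivity) (by positivity),
      Real.log_pow] at h3
    have h4 : 0 ≤ Real.log (mulHeight₁ (xh n)) := Real.log_nonneg (one_le_mulHeight₁ _)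
    have h5 : Real.log (mulHeight₁ (x n)) + 1 ≤ (w2 + 1) * (Real.log (mulHeight₁ (xh n)) + 1) := by
      have h6 := mul_nonneg hw20 h4
      linarith
    calc _ ≤ _ := hn
      _ ≤ B * ((w2 + 1) * (Real.log (mulHeight₁ (xh n)) + 1)) := mul_le_mul_of_nonneg_left h5 hB
      _ = _ := by ring
  have hBh : 0 ≤ B * (w2 + 1) := by positivity
  -- back to the first coordinates
  suffices h : ∃ R : K[X][X], R ≠ 0 ∧ ∀ n, R.evalEval (xh n) (y n) = 0 by
    obtain ⟨R, hR, hR'⟩ := h
    refine ⟨R.map (compRingHom (X - C ξ)), shift_ne R hR ξ, fun n => ?_⟩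
    rw [map_comp_eval, eval_sub, eval_X, eval_C]
    exact hR' n
  -- the leading coefficient
  have hl0 : qh.leadingCoeff ≠ 0 := by
    rw [Ne, leadingCoeff_eq_zero]
    intro h
    rw [h, natDegree_zero] at hqhd
    omega
  obtain ⟨g, hg, hg0⟩ := exists_eq_pow_rootMultiplicity_mul_and_not_dvd qh.leadingCoeff hl0 0
  rw [C_0, sub_zero] at hg hg0
  set m0 := rootMultiplicity 0 qh.leadingCoeff with hm0
  have hgc : g.coeff 0 ≠ 0 := by
    intro h
    exact hg0 (X_dvd_iff.mpr h)
  rcases Nat.lt_or_ge g.natDegree 1 with hgd | hgd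
  · -- monomial leading coefficient
    have hgC : g = C (g.coeff 0) := eq_C_of_natDegree_eq_zero (by omega)
    obtain ⟨A', B', hA', hB', hys⟩ := slow_height ph (by rw [hphd]; exact hd) xh y hxh1
      (B * (w2 + 1)) hBh hslowh
    exact exceptional_vanish ph qh (by rw [hphd]; exact hd) (by rw [hphd, hqhd]; exact hde)
      (by rw [hphl, hphd]) (g.coeff 0) hgc m0 (by rw [hg, mul_comm, ← hgC]) xh y hxh1 hyh hinjh
      ⟨A', B', hA', hB', hys⟩
  · refine slow_vanish_direct ph qh (by rw [hphd]; exact hd) (by rw [hphd, hqhd]; exact hde) xh y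
      hxh1 hyh hinjh (B * (w2 + 1)) hBh hslowh g m0 hg hgd ?_
      (Or.inr ⟨by rw [hphl, hphd], hgc⟩)
    intro ζ hζ hcon
    have hζ0 : ζ ≠ 0 := by
      intro h
      rw [h, ← coeff_zero_eq_eval_zero] at hζ
      exact hgc hζ
    rw [hphl, hphd] at hcon
    rcases Nat.lt_or_ge 1 p.natDegree with h2 | h2
    · have h3 := congrArg (fun f => f.coeff (p.natDegree - 1)) hcon
      simp only [hph, coeff_C_mul, coeff_X_pow, coeff_add, coeff_X_sub_C_pow', coeff_C] at h3
      rw [if_neg (by omega), if_neg (by omega), mul_zero, add_zero] at h3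
      have h4 : p.natDegree - (p.natDegree - 1) = 1 := by omega
      rw [h4, pow_one, ← Nat.choose_symm (by omega : p.natDegree - 1 ≤ p.natDegree), h4,
        Nat.choose_one_right, eq_comm, mul_eq_zero, mul_eq_zero, neg_eq_zero, Nat.cast_eq_zero] at h3
      rcases h3 with h3 | h3 | h3
      · exact hplc h3
      · exact hζ0 h3
      · omega
    · have h3 : p.natDegree = 1 := by omega
      rw [hph, h3, pow_one, pow_one] at hcon
      have h4 := congrArg (fun f => f.coeff 0) hcon
      simp only [coeff_C_mul, coeff_X_zero, mul_zero, coeff_add, coeff_sub, coeff_C_zero,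
        zero_sub] at h4
      have h5 : ζ * (1 - p.leadingCoeff) = 0 := by linear_combination -h4
      rcases mul_eq_zero.mp h5 with h6 | h6
      · exact hζ0 h6
      · have h7 : p.leadingCoeff = 1 := (sub_eq_zero.mp h6).symm
        have h8 : xh 1 = xh 0 := by
          rw [hxh1 0, hph, h3, h7, eval_mul, eval_C, eval_pow, eval_X, pow_one, one_mul]
        exact absurd (hinjh h8) (by norm_num)

/-- **Slow orbits of polynomial skew products are not Zariski dense.** -/
theorem slow_vanish_all (p : K[X]) (q : K[X][X]) (hd : 1 ≤ p.natDegree)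
    (hde : p.natDegree < q.natDegree) (x y : ℕ → K) (hx : ∀ n, x (n + 1) = p.eval (x n))
    (hy : ∀ n, y (n + 1) = q.evalEval (x n) (y n)) (hinj : Function.Injective x)
    (hslow : ∃ B : ℝ, 0 ≤ B ∧ ∀ᶠ n in atTop,
      Real.log (mulHeight₁ (y n)) ≤ B * (Real.log (mulHeight₁ (x n)) + 1)) :
    ∃ R : K[X][X], R ≠ 0 ∧ ∀ n, R.evalEval (x n) (y n) = 0 := by
  have hq0 : q ≠ 0 := by
    intro h
    rw [h, natDegree_zero] at hde
    omega
  rcases Nat.lt_or_ge q.leadingCoeff.natDegree 1 with h1 | h1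
  · have h2 : q.leadingCoeff.natDegree = 0 := by omega
    have h3 : q.leadingCoeff = C (q.leadingCoeff.coeff 0) := eq_C_of_natDegree_eq_zero h2
    have h4 : q.leadingCoeff.coeff 0 ≠ 0 := by
      intro h5
      rw [h5, C_0, leadingCoeff_eq_zero] at h3
      exact hq0 h3
    exact slow_vanish p q hd hde _ h4 h3 x y hx hy hinj hslow
  · by_cases hexc : ∃ ξ : K, q.leadingCoeff.eval ξ = 0 ∧
      p = C p.leadingCoeff * (X - C ξ) ^ p.natDegree + C ξ
    · obtain ⟨ξ, -, hξ⟩ := hexc
      exact slow_vanish_exc p q hd hde x y hx hy hinj hslow ξ hξ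
    · push Not at hexc
      obtain ⟨B, hB, hev⟩ := hslow
      exact slow_vanish_direct p q hd hde x y hx hy hinj B hB hev q.leadingCoeff 0
        (by rw [pow_zero, one_mul]) h1 hexc (Or.inl rfl)

/-- The arithmetic degree of a Zariski dense orbit of an arbitrary polynomial skew product. -/
theorem arithmetic_degree_all (p : K[X]) (q : K[X][X]) (hd : 1 ≤ p.natDegree)
    (he : 1 ≤ q.natDegree) :
    Tendsto (fun n : ℕ => (iterDeg p q n : ℝ) ^ (1 / (n : ℝ))) atTop
      (𝓝 ((max p.natDegree q.natDegree : ℕ) : ℝ)) ∧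
    ∀ x y : ℕ → K, (∀ n, x (n + 1) = p.eval (x n)) →
      (∀ n, y (n + 1) = q.evalEval (x n) (y n)) →
      (∀ R : K[X][X], (∀ n, R.evalEval (x n) (y n) = 0) → R = 0) →
      Tendsto (fun n : ℕ => weilHeight (x n) (y n) ^ (1 / (n : ℝ))) atTop
        (𝓝 ((max p.natDegree q.natDegree : ℕ) : ℝ)) := by
  rcases Nat.lt_or_ge p.natDegree q.natDegree with hde | hde
  · rw [max_eq_right hde.le]
    refine ⟨tendsto_iterDeg p q hd hde, fun x y hx hy hdense => ?_⟩
    have hinj := injective_of_dense p x y hx hdense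
    obtain ⟨M, hM, hup, hcase⟩ := fast_or_slow p q hd hde x y hx hy hinj
    rcases hcase with ⟨c, hc, h1⟩ | hslow
    · exact tendsto_of_fast q he x y c M hc hM h1 hup
    · exfalso
      obtain ⟨R, hR, hR'⟩ := slow_vanish_all p q hd hde x y hx hy hinj hslow
      exact hR (hdense R hR')
  · rw [max_eq_left hde]
    refine ⟨tendsto_iterDeg_low p q he hde, fun x y hx hy hdense => ?_⟩
    exact tendsto_height_low p q he hde x y hx hy (injective_of_dense p x y hx hdense)

end Pool.Agent.Lib.MP_9ec2c5_sk
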